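import Pool.Agent.Helper46.MR.Compl

set_option autoImplicit false

/-!
# MR-2 Peck: upper shadows below the middle do not shrink

PROOF (sl2). For `x ∈ L(m,n)` put `b_i = x_i + i` (strictly increasing, `≤ m + n - 1`) and
`h b = (b + 1) (m + n - 1 - b) ≥ 0`. Let `X` be the matrix with rows `P m n (k+1)` and columns
`P m n k`, `X y x = √(h (x_i + i))` if `y = x + Pi.single i 1`, else `0`; similarly `Z` with rows
`P m n k` and columns `P m n (k-1)` (for `k = 0` take `Z = 0`). CLAIM:
`Xᵀ X - Z Zᵀ = (m n - 2 k) I`. Diagonal: `∑_{i : x + e_i ∈ L} h (b_i) - ∑_{i : x - e_i ∈ L} h (b_i - 1)`;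
`x + e_i ∉ L` iff `b_i + 1 = b_{i+1}` (or `i` last and `b_i = m + n - 1`, where `h = 0`), `x - e_i ∉ L`
iff `b_i - 1 = b_{i-1}` (or `i` first and `b_i = 0`, `h (-1) = 0`), and these omitted terms cancel in
pairs, so the difference is `∑_i (h (b_i) - h (b_i - 1)) = ∑_i (m + n - 1 - 2 b_i) = m n - 2 k`.
Off the diagonal: `x ≠ x'` of rank `k`; `x + e_i = x' + e_j = y ∈ L` (so `i ≠ j`) iff
`z = x - e_j = x' - e_i ∈ L` (`y`, `z` are the join and the meet), and
`√(h (x_i + i)) √(h (x'_j + j)) = √(h (z_i + i)) √(h (z_j + j))` in both products.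
So `‖X v‖² = ‖Zᵀ v‖² + (m n - 2 k) ‖v‖² > 0` for `v ≠ 0`. If `|up n A| < |A|` then some `v ≠ 0`
supported on `A` has `X v = 0` (more unknowns than equations, e.g.
`Matrix.exists_mulVec_eq_zero_iff` or `LinearMap.exists_ne_zero...`/`finrank`), contradiction.
An alternative without square roots: use `∑_x w x ⟨...⟩` with a weighted inner product.
`peck_lo` from `peck` by `MR-1 Compl` (for `t > m n` the level is empty).
-/

namespace Pool.Agent.Helper46.MR

open Finset Pool.Agent.Helper30.SC

variable {m n k t : ℕ}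

namespace PeckAux

/-- `L(m,n)` as a finset -/
noncomputable def Ls (m n : ℕ) : Finset (Fin m → ℕ) :=
  open Classical in (Qset m n).filter fun a => Monotone a

theorem mem_Ls {x : Fin m → ℕ} : x ∈ Ls m n ↔ Monotone x ∧ ∀ i, x i ≤ n := by
  classical
  unfold Ls
  rw [mem_filter, Lev.mem_Qset]
  tauto

/-- the weight function `(b + 1) (m + n - 1 - b)` -/
noncomputable def hh (m n : ℕ) (b : ℝ) : ℝ := (b + 1) * ((m : ℝ) + n - 1 - b)

theorem hh_sub (m n : ℕ) (b : ℝ) : hh m n b - hh m n (b - 1) = (m : ℝ) + n - 1 - 2 * b := by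
  unfold hh
  ring

/-- one factor of the weight -/
noncomputable def fac (m n i c : ℕ) : ℝ := ∏ j ∈ range c, hh m n ((j : ℝ) + (i : ℝ))

/-- the weight -/
noncomputable def wt (m n : ℕ) (x : Fin m → ℕ) : ℝ := ∏ i : Fin m, fac m n (i : ℕ) (x i)

theorem fac_succ (m n i c : ℕ) : fac m n i (c + 1) = fac m n i c * hh m n ((c : ℝ) + (i : ℝ)) := by
  unfold fac
  rw [prod_range_succ]

theorem wt_add (x : Fin m → ℕ) (i : Fin m) :
    wt m n (x + Pi.single i 1) = wt m n x * hh m n ((x i : ℝ) + (i : ℕ)) := by
  classical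
  unfold wt
  rw [← Finset.mul_prod_erase univ _ (mem_univ i),
    ← Finset.mul_prod_erase univ (fun j : Fin m => fac m n (j : ℕ) (x j)) (mem_univ i)]
  have h1 : ∏ j ∈ univ.erase i, fac m n (j : ℕ) ((x + Pi.single i 1 : Fin m → ℕ) j)
      = ∏ j ∈ univ.erase i, fac m n (j : ℕ) (x j) := by
    apply prod_congr rfl
    intro j hj
    rw [add_single_apply, if_neg (ne_of_mem_erase hj)]
  rw [h1, add_single_apply, if_pos rfl, fac_succ]
  ring

theorem wt_pos {x : Fin m → ℕ} (hx : ∀ i, x i ≤ n) : 0 < wt m n x := by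
  unfold wt fac
  apply prod_pos
  intro i _
  apply prod_pos
  intro j hj
  have h1 : j < x i := mem_range.1 hj
  have h2 := hx i
  have h3 : (i : ℕ) < m := i.2
  have h4 : (j : ℝ) + 1 ≤ n := by exact_mod_cast (show j + 1 ≤ n by omega)
  have h5 : ((i : ℕ) : ℝ) + 1 ≤ m := by exact_mod_cast h3
  have h6 : (0 : ℝ) ≤ j := Nat.cast_nonneg _
  have h7 : (0 : ℝ) ≤ ((i : ℕ) : ℝ) := Nat.cast_nonneg _
  unfold hh
  apply mul_pos <;> linarith

/-- up operator -/
noncomputable def Up (m n : ℕ) (f : (Fin m → ℕ) → ℝ) (y : Fin m → ℕ) : ℝ :=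
  open Classical in
  if y ∈ Ls m n then ∑ j : Fin m, if 0 < y j then f (y - Pi.single j 1) else 0 else 0

/-- down operator -/
noncomputable def Dn (m n : ℕ) (f : (Fin m → ℕ) → ℝ) (z : Fin m → ℕ) : ℝ :=
  open Classical in
  if z ∈ Ls m n then ∑ i : Fin m, hh m n ((z i : ℝ) + (i : ℕ)) * f (z + Pi.single i 1) else 0

theorem sub_add {x : Fin m → ℕ} {j : Fin m} (h : 0 < x j) :
    (x - Pi.single j 1 + Pi.single j 1 : Fin m → ℕ) = x := by
  funext l
  by_cases hl : l = j
  · subst hl
    simp
    omega
  · simp [hl]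

theorem add_sub (x : Fin m → ℕ) (j : Fin m) :
    (x + Pi.single j 1 - Pi.single j 1 : Fin m → ℕ) = x := by
  funext l
  by_cases hl : l = j
  · subst hl
    simp
  · simp [hl]

theorem sub_single_apply (x : Fin m → ℕ) (i j : Fin m) :
    (x - Pi.single i 1 : Fin m → ℕ) j = if j = i then x j - 1 else x j := by
  by_cases h : j = i
  · subst h; simp
  · simp [h]

/-- adjointness -/
theorem adj (f G : (Fin m → ℕ) → ℝ) (hf : ∀ x, x ∉ Ls m n → f x = 0)
    (hG : ∀ x, x ∉ Ls m n → G x = 0) :
    ∑ x ∈ Ls m n, wt m n x * f x * Up m n G x = ∑ z ∈ Ls m n, wt m n z * Dn m n f z * G z := by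
  classical
  have e1 : ∀ x ∈ Ls m n, wt m n x * f x * Up m n G x =
      ∑ j : Fin m, if 0 < x j ∧ x - Pi.single j 1 ∈ Ls m n then
        wt m n x * f x * G (x - Pi.single j 1) else 0 := by
    intro x hx
    unfold Up
    rw [if_pos hx, mul_sum]
    apply sum_congr rfl
    intro j _
    by_cases h1 : 0 < x j
    · by_cases h2 : x - Pi.single j 1 ∈ Ls m n
      · rw [if_pos h1, if_pos ⟨h1, h2⟩]
      · rw [if_pos h1, if_neg (fun h => h2 h.2), hG _ h2, mul_zero]
    · rw [if_neg h1, if_neg (fun h => h1 h.1), mul_zero]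
  have e2 : ∀ z ∈ Ls m n, wt m n z * Dn m n f z * G z =
      ∑ j : Fin m, if z + Pi.single j 1 ∈ Ls m n then
        wt m n (z + Pi.single j 1) * f (z + Pi.single j 1) * G z else 0 := by
    intro z hz
    unfold Dn
    rw [if_pos hz, mul_sum, sum_mul]
    apply sum_congr rfl
    intro j _
    by_cases h2 : z + Pi.single j 1 ∈ Ls m n
    · rw [if_pos h2, wt_add]
      ring
    · rw [if_neg h2, hf _ h2]
      ring
  rw [sum_congr rfl e1, sum_congr rfl e2, sum_comm, sum_comm (s := Ls m n)]
  apply sum_congr rfl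
  intro j _
  rw [← sum_filter, ← sum_filter]
  refine sum_nbij' (fun x => x - Pi.single j 1) (fun z => z + Pi.single j 1) ?_ ?_ ?_ ?_ ?_
  · intro x hx
    obtain ⟨h1, h2, h3⟩ := mem_filter.1 hx
    refine mem_filter.2 ⟨h3, ?_⟩
    rw [sub_add h2]
    exact h1
  · intro z hz
    obtain ⟨h1, h2⟩ := mem_filter.1 hz
    refine mem_filter.2 ⟨h2, ?_, ?_⟩
    · rw [add_single_apply, if_pos rfl]
      omega
    · rw [add_sub]
      exact h1
  · intro x hx
    exact sub_add (mem_filter.1 hx).2.1
  · intro z _
    exact add_sub z j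
  · intro x hx
    rw [sub_add (mem_filter.1 hx).2.1]

theorem sum_idx (p : ℕ) : ∑ i : Fin p, ((i : ℕ) : ℝ) = (p : ℝ) * (p - 1) / 2 := by
  induction p with
  | zero => simp
  | succ p ih =>
    rw [Fin.sum_univ_castSucc]
    have : ∑ i : Fin p, ((i.castSucc : ℕ) : ℝ) = ∑ i : Fin p, ((i : ℕ) : ℝ) := rfl
    rw [this, ih]
    push_cast
    ring

/-- diagonal computation -/
theorem diag {x : Fin m → ℕ} (hx : x ∈ Ls m n) :
    (∑ i : Fin m, if x + Pi.single i 1 ∈ Ls m n then hh m n ((x i : ℝ) + (i : ℕ)) else 0)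
      - (∑ j : Fin m, if 0 < x j ∧ x - Pi.single j 1 ∈ Ls m n then
          hh m n ((x j : ℝ) - 1 + (j : ℕ)) else 0)
      = (m : ℝ) * n - 2 * ((∑ i, x i : ℕ) : ℝ) := by
  classical
  cases m with
  | zero => simp
  | succ p =>
    obtain ⟨hm, hle⟩ := mem_Ls.1 hx
    have hm' := Fin.monotone_iff_le_succ.1 hm
    have hin : ∀ i : Fin p, x + Pi.single i.castSucc 1 ∈ Ls (p + 1) n ↔
        x i.castSucc < x i.succ := by
      intro i
      rw [mem_Ls, Fin.monotone_iff_le_succ]
      constructor
      · rintro ⟨h1, _⟩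
        have := h1 i
        rw [add_single_apply, add_single_apply, if_pos rfl, if_neg] at this
        · exact this
        · intro h
          have := congrArg Fin.val h
          simp at this
      · intro h
        refine ⟨fun j => ?_, fun j => ?_⟩
        · have h1 := hm' j
          rw [add_single_apply, add_single_apply]
          by_cases ha : j.castSucc = i.castSucc
          · have hji : j = i := Fin.castSucc_injective _ ha
            subst hji
            rw [if_pos rfl]
            split_ifs <;> omega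
          · rw [if_neg ha]
            split_ifs <;> omega
        · rw [add_single_apply]
          split_ifs with ha
          · subst ha
            have := hle i.succ
            omega
          · exact hle j
    have hinl : x + Pi.single (Fin.last p) 1 ∈ Ls (p + 1) n ↔ x (Fin.last p) < n := by
      rw [mem_Ls, Fin.monotone_iff_le_succ]
      constructor
      · rintro ⟨_, h2⟩
        have := h2 (Fin.last p)
        rw [add_single_apply, if_pos rfl] at this
        exact this
      · intro h
        refine ⟨fun j => ?_, fun j => ?_⟩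
        · have h1 := hm' j
          rw [add_single_apply, add_single_apply, if_neg (Fin.castSucc_ne_last j)]
          split_ifs <;> omega
        · rw [add_single_apply]
          split_ifs with ha
          · subst ha
            omega
          · exact hle j
    have hout : ∀ i : Fin p, (0 < x i.succ ∧ x - Pi.single i.succ 1 ∈ Ls (p + 1) n) ↔
        x i.castSucc < x i.succ := by
      intro i
      rw [mem_Ls, Fin.monotone_iff_le_succ]
      constructor
      · rintro ⟨h0, h1, _⟩
        have := h1 i
        rw [sub_single_apply, sub_single_apply, if_pos rfl, if_neg] at this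
        · omega
        · intro h
          have := congrArg Fin.val h
          simp at this
      · intro h
        refine ⟨by omega, fun j => ?_, fun j => ?_⟩
        · have h1 := hm' j
          rw [sub_single_apply, sub_single_apply]
          by_cases ha : j.succ = i.succ
          · have hji : j = i := Fin.succ_injective _ ha
            subst hji
            rw [if_pos rfl, if_neg]
            · omega
            · intro h
              have := congrArg Fin.val h
              simp at this
          · rw [if_neg ha]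
            split_ifs <;> omega
        · rw [sub_single_apply]
          have := hle j
          split_ifs <;> omega
    have hout0 : (0 < x 0 ∧ x - Pi.single 0 1 ∈ Ls (p + 1) n) ↔ 0 < x 0 := by
      rw [mem_Ls, Fin.monotone_iff_le_succ]
      constructor
      · exact fun h => h.1
      · intro h
        refine ⟨h, fun j => ?_, fun j => ?_⟩
        · have h1 := hm' j
          rw [sub_single_apply, sub_single_apply, if_neg (Fin.succ_ne_zero j)]
          split_ifs <;> omega
        · rw [sub_single_apply]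
          have := hle j
          split_ifs <;> omega
    have e1 : (∑ i : Fin (p + 1), if x + Pi.single i 1 ∈ Ls (p + 1) n then
        hh (p + 1) n ((x i : ℝ) + (i : ℕ)) else 0)
        = (∑ i : Fin p, if x i.castSucc < x i.succ then
            hh (p + 1) n ((x i.castSucc : ℝ) + (i : ℕ)) else 0)
          + hh (p + 1) n ((x (Fin.last p) : ℝ) + (p : ℕ)) := by
      rw [Fin.sum_univ_castSucc]
      congr 1
      · apply sum_congr rfl
        intro i _
        by_cases hc : x i.castSucc < x i.succ
        · rw [if_pos ((hin i).2 hc), if_pos hc]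
          simp
        · rw [if_neg (fun h => hc ((hin i).1 h)), if_neg hc]
      · by_cases hc : x (Fin.last p) < n
        · rw [if_pos (hinl.2 hc)]
          simp
        · rw [if_neg (fun h => hc (hinl.1 h))]
          have h1 : x (Fin.last p) = n := le_antisymm (hle _) (not_lt.1 hc)
          rw [h1]
          unfold hh
          push_cast
          ring
    have e2 : (∑ j : Fin (p + 1), if 0 < x j ∧ x - Pi.single j 1 ∈ Ls (p + 1) n then
          hh (p + 1) n ((x j : ℝ) - 1 + (j : ℕ)) else 0)
        = hh (p + 1) n ((x 0 : ℝ) - 1) + ∑ i : Fin p, if x i.castSucc < x i.succ then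
            hh (p + 1) n ((x i.succ : ℝ) + (i : ℕ)) else 0 := by
      rw [Fin.sum_univ_succ]
      congr 1
      · by_cases hc : 0 < x 0
        · rw [if_pos (hout0.2 hc)]
          simp
        · rw [if_neg (fun h => hc (hout0.1 h))]
          have h1 : x 0 = 0 := by omega
          rw [h1]
          unfold hh
          push_cast
          ring
      · apply sum_congr rfl
        intro i _
        by_cases hc : x i.castSucc < x i.succ
        · rw [if_pos ((hout i).2 hc), if_pos hc]
          congr 1
          rw [Fin.val_succ]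
          push_cast
          ring
        · rw [if_neg (fun h => hc ((hout i).1 h)), if_neg hc]
    have e3 : (∑ i : Fin p, if x i.castSucc < x i.succ then
            hh (p + 1) n ((x i.castSucc : ℝ) + (i : ℕ)) else 0)
        - (∑ i : Fin p, if x i.castSucc < x i.succ then
            hh (p + 1) n ((x i.succ : ℝ) + (i : ℕ)) else 0)
        = ∑ i : Fin p, (hh (p + 1) n ((x i.castSucc : ℝ) + (i : ℕ))
            - hh (p + 1) n ((x i.succ : ℝ) + (i : ℕ))) := by
      rw [← sum_sub_distrib]
      apply sum_congr rfl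
      intro i _
      by_cases hc : x i.castSucc < x i.succ
      · rw [if_pos hc, if_pos hc]
      · have h1 : x i.castSucc = x i.succ := le_antisymm (hm' i) (not_lt.1 hc)
        rw [if_neg hc, if_neg hc, h1]
        ring
    have e4 : ∑ i : Fin (p + 1), (hh (p + 1) n ((x i : ℝ) + (i : ℕ))
          - hh (p + 1) n ((x i : ℝ) + (i : ℕ) - 1))
        = (∑ i : Fin p, (hh (p + 1) n ((x i.castSucc : ℝ) + (i : ℕ))
            - hh (p + 1) n ((x i.succ : ℝ) + (i : ℕ))))
          + hh (p + 1) n ((x (Fin.last p) : ℝ) + (p : ℕ)) - hh (p + 1) n ((x 0 : ℝ) - 1) := by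
      rw [sum_sub_distrib, Fin.sum_univ_castSucc (f := fun i : Fin (p + 1) =>
        hh (p + 1) n ((x i : ℝ) + (i : ℕ))), Fin.sum_univ_succ (f := fun i : Fin (p + 1) =>
        hh (p + 1) n ((x i : ℝ) + (i : ℕ) - 1)), sum_sub_distrib]
      have a1 : ∀ i : Fin p, hh (p + 1) n ((x i.succ : ℝ) + (i.succ : ℕ) - 1)
          = hh (p + 1) n ((x i.succ : ℝ) + (i : ℕ)) := by
        intro i
        congr 1
        rw [Fin.val_succ]
        push_cast
        ring
      rw [sum_congr rfl fun i _ => a1 i]
      have a2 : hh (p + 1) n ((x 0 : ℝ) + ((0 : Fin (p + 1)) : ℕ) - 1)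
          = hh (p + 1) n ((x 0 : ℝ) - 1) := by
        simp
      rw [a2]
      have a3 : ∑ i : Fin p, hh (p + 1) n ((x i.castSucc : ℝ) + (i.castSucc : ℕ))
          = ∑ i : Fin p, hh (p + 1) n ((x i.castSucc : ℝ) + (i : ℕ)) := rfl
      rw [a3, Fin.val_last]
      ring
    have e5 : ∑ i : Fin (p + 1), (hh (p + 1) n ((x i : ℝ) + (i : ℕ))
          - hh (p + 1) n ((x i : ℝ) + (i : ℕ) - 1))
        = ((p : ℝ) + 1) * n - 2 * ((∑ i, x i : ℕ) : ℝ) := by
      have a1 : ∀ i : Fin (p + 1), hh (p + 1) n ((x i : ℝ) + (i : ℕ))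
          - hh (p + 1) n ((x i : ℝ) + (i : ℕ) - 1)
          = ((p : ℝ) + n) - 2 * (x i : ℝ) - 2 * ((i : ℕ) : ℝ) := by
        intro i
        rw [hh_sub]
        push_cast
        ring
      rw [sum_congr rfl fun i _ => a1 i, sum_sub_distrib, sum_sub_distrib, ← mul_sum, ← mul_sum,
        sum_idx]
      push_cast
      simp
      ring
    rw [e1, e2]
    push_cast at e5 ⊢
    linarith [e3, e4, e5]

theorem swap {x : Fin m → ℕ} {i j : Fin m} (hij : i ≠ j) :
    (x + Pi.single i 1 - Pi.single j 1 : Fin m → ℕ) = x - Pi.single j 1 + Pi.single i 1 := by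
  funext l
  rw [sub_single_apply, add_single_apply, add_single_apply, sub_single_apply]
  by_cases h1 : l = j
  · subst h1
    rw [if_pos rfl, if_neg hij.symm, if_neg hij.symm, if_pos rfl]
  · rw [if_neg h1, if_neg h1]

theorem lat {x : Fin m → ℕ} (hx : x ∈ Ls m n) {i j : Fin m} (hij : i ≠ j)
    (h : x + Pi.single i 1 - Pi.single j 1 ∈ Ls m n) :
    x + Pi.single i 1 ∈ Ls m n ∧ x - Pi.single j 1 ∈ Ls m n := by
  rw [mem_Ls] at hx h
  have e1 : (x + Pi.single i 1 : Fin m → ℕ) = x ⊔ (x + Pi.single i 1 - Pi.single j 1) := by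
    funext l
    rw [Pi.sup_apply, sub_single_apply, add_single_apply]
    by_cases h1 : l = j
    · subst h1
      rw [if_neg hij.symm, if_pos rfl]
      exact (max_eq_left (by omega)).symm
    · rw [if_neg h1]
      exact (max_eq_right (by split_ifs <;> omega)).symm
  have e2 : (x - Pi.single j 1 : Fin m → ℕ) = x ⊓ (x + Pi.single i 1 - Pi.single j 1) := by
    funext l
    rw [Pi.inf_apply, sub_single_apply, sub_single_apply, add_single_apply]
    by_cases h1 : l = j
    · subst h1
      rw [if_neg hij.symm, if_pos rfl]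
      exact (min_eq_right (by omega)).symm
    · rw [if_neg h1, if_neg h1]
      exact (min_eq_left (by split_ifs <;> omega)).symm
  constructor
  · rw [e1, mem_Ls]
    exact ⟨hx.1.sup h.1, fun l => sup_le (hx.2 l) (h.2 l)⟩
  · rw [e2, mem_Ls]
    exact ⟨hx.1.inf h.1, fun l => inf_le_left.trans (hx.2 l)⟩

/-- commutator -/
theorem comm {f : (Fin m → ℕ) → ℝ} (hf : ∀ x, x ∉ Ls m n → f x = 0) {x : Fin m → ℕ}
    (hx : x ∈ Ls m n) :
    Dn m n (Up m n f) x - Up m n (Dn m n f) x
      = ((m : ℝ) * n - 2 * ((∑ i, x i : ℕ) : ℝ)) * f x := by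
  classical
  have e1 : Dn m n (Up m n f) x = (∑ i : Fin m, if x + Pi.single i 1 ∈ Ls m n then
        hh m n ((x i : ℝ) + (i : ℕ)) else 0) * f x
      + ∑ i : Fin m, ∑ j : Fin m, if i ≠ j ∧ 0 < x j then
        hh m n ((x i : ℝ) + (i : ℕ)) * f (x - Pi.single j 1 + Pi.single i 1) else 0 := by
    have a : Dn m n (Up m n f) x = ∑ i : Fin m, hh m n ((x i : ℝ) + (i : ℕ)) *
        Up m n f (x + Pi.single i 1) := by
      unfold Dn
      rw [if_pos hx]
    rw [a, sum_mul, ← sum_add_distrib]
    apply sum_congr rfl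
    intro i _
    unfold Up
    by_cases hi : x + Pi.single i 1 ∈ Ls m n
    · rw [if_pos hi, if_pos hi, ← Finset.add_sum_erase univ _ (mem_univ i), add_sub, if_pos, mul_add]
      · congr 1
        rw [mul_sum]
        refine Eq.trans ?_ (Finset.add_sum_erase univ _ (mem_univ i))
        rw [if_neg (fun h => h.1 rfl), zero_add]
        apply sum_congr rfl
        intro j hj
        have hji : i ≠ j := (ne_of_mem_erase hj).symm
        rw [add_single_apply, if_neg hji.symm]
        by_cases h0 : 0 < x j
        · rw [if_pos h0, if_pos ⟨hji, h0⟩, swap hji]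
        · rw [if_neg h0, if_neg (fun h => h0 h.2), mul_zero]
      · rw [add_single_apply, if_pos rfl]
        omega
    · rw [if_neg hi, if_neg hi, mul_zero, zero_mul, zero_add]
      symm
      apply sum_eq_zero
      intro j _
      split_ifs with h
      · rw [← swap h.1, hf, mul_zero]
        intro h2
        exact hi (lat hx h.1 h2).1
      · rfl
  have e2 : Up m n (Dn m n f) x = (∑ j : Fin m, if 0 < x j ∧ x - Pi.single j 1 ∈ Ls m n then
          hh m n ((x j : ℝ) - 1 + (j : ℕ)) else 0) * f x
      + ∑ j : Fin m, ∑ i : Fin m, if i ≠ j ∧ 0 < x j then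
        hh m n ((x i : ℝ) + (i : ℕ)) * f (x - Pi.single j 1 + Pi.single i 1) else 0 := by
    have a : Up m n (Dn m n f) x = ∑ j : Fin m, if 0 < x j then
        Dn m n f (x - Pi.single j 1) else 0 := by
      unfold Up
      rw [if_pos hx]
    rw [a, sum_mul, ← sum_add_distrib]
    apply sum_congr rfl
    intro j _
    unfold Dn
    by_cases h0 : 0 < x j
    · by_cases hj : x - Pi.single j 1 ∈ Ls m n
      · rw [if_pos h0, if_pos hj, if_pos ⟨h0, hj⟩, ← Finset.add_sum_erase univ _ (mem_univ j),
          sub_add h0]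
        congr 1
        · congr 2
          rw [sub_single_apply, if_pos rfl, Nat.cast_sub h0]
          push_cast
          ring
        · refine Eq.trans ?_ (Finset.add_sum_erase univ _ (mem_univ j))
          rw [if_neg (fun h => h.1 rfl), zero_add]
          apply sum_congr rfl
          intro i hi
          have hij : i ≠ j := ne_of_mem_erase hi
          rw [sub_single_apply, if_neg hij, if_pos ⟨hij, h0⟩]
      · rw [if_pos h0, if_neg hj, if_neg (fun h => hj h.2), zero_mul, zero_add]
        symm
        apply sum_eq_zero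
        intro i _
        split_ifs with h
        · rw [← swap h.1, hf, mul_zero]
          intro h2
          exact hj (lat hx h.1 h2).2
        · rfl
    · rw [if_neg h0, if_neg (fun h => h0 h.1), zero_mul, zero_add]
      symm
      apply sum_eq_zero
      intro i _
      rw [if_neg (fun h => h0 h.2)]
  have e3 : (∑ i : Fin m, ∑ j : Fin m, if i ≠ j ∧ 0 < x j then
        hh m n ((x i : ℝ) + (i : ℕ)) * f (x - Pi.single j 1 + Pi.single i 1) else 0)
      = ∑ j : Fin m, ∑ i : Fin m, if i ≠ j ∧ 0 < x j then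
        hh m n ((x i : ℝ) + (i : ℕ)) * f (x - Pi.single j 1 + Pi.single i 1) else 0 := sum_comm
  rw [e1, e2, e3, add_sub_add_right_eq_sub, ← sub_mul]
  congr 1
  exact diag hx

end PeckAux

open PeckAux in
theorem peck (h : 2 * k < m * n) {A : Finset (Fin m → ℕ)} (hA : A ⊆ P m n k) :
    A.card ≤ (up n A).card := by
  classical
  by_contra hlt
  rw [not_le] at hlt
  -- the linear map
  let T : (A → ℝ) →ₗ[ℝ] (up n A → ℝ) :=
    { toFun := fun f y => ∑ j : Fin m, if hj : 0 < y.1 j ∧ y.1 - Pi.single j 1 ∈ A then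
        f ⟨_, hj.2⟩ else 0
      map_add' := by
        intro f g
        funext y
        simp only [Pi.add_apply]
        rw [← sum_add_distrib]
        apply sum_congr rfl
        intro j _
        split_ifs <;> simp
      map_smul' := by
        intro c f
        funext y
        simp only [Pi.smul_apply, smul_eq_mul, RingHom.id_apply]
        rw [mul_sum]
        apply sum_congr rfl
        intro j _
        split_ifs <;> simp }
  have hker : LinearMap.ker T ≠ ⊥ := by
    apply LinearMap.ker_ne_bot_of_finrank_lt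
    simpa using hlt
  obtain ⟨f0, hf0, hf0ne⟩ := (Submodule.ne_bot_iff _).1 hker
  let f : (Fin m → ℕ) → ℝ := fun x => if hx : x ∈ A then f0 ⟨x, hx⟩ else 0
  have hfA : ∀ x, x ∉ A → f x = 0 := fun x hx => dif_neg hx
  have hfin : ∀ x (hx : x ∈ A), f x = f0 ⟨x, hx⟩ := fun x hx => dif_pos hx
  have hAL : ∀ x ∈ A, x ∈ Ls m n := fun x hx =>
    mem_Ls.2 ⟨P_mono (hA hx), P_le (hA hx)⟩
  have hfL : ∀ x, x ∉ Ls m n → f x = 0 := fun x hx => hfA x fun h => hx (hAL x h)
  have hUf : ∀ y, Up m n f y = 0 := by
    intro y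
    unfold Up
    by_cases hy : y ∈ Ls m n
    · rw [if_pos hy]
      by_cases hyu : y ∈ up n A
      · have h1 := congrFun (LinearMap.mem_ker.1 hf0) ⟨y, hyu⟩
        have h2 : T f0 ⟨y, hyu⟩ = ∑ j : Fin m, if 0 < y j then f (y - Pi.single j 1) else 0 := by
          show (∑ j : Fin m, if hj : 0 < y j ∧ y - Pi.single j 1 ∈ A then
            f0 ⟨_, hj.2⟩ else 0) = _
          apply sum_congr rfl
          intro j _
          by_cases ha : 0 < y j
          · by_cases hb : y - Pi.single j 1 ∈ A
            · rw [dif_pos ⟨ha, hb⟩, if_pos ha, hfin _ hb]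
            · rw [dif_neg (fun h => hb h.2), if_pos ha, hfA _ hb]
          · rw [dif_neg (fun h => ha h.1), if_neg ha]
        rw [← h2, h1]
        rfl
      · apply sum_eq_zero
        intro j _
        split_ifs with ha
        · apply hfA
          intro hb
          apply hyu
          obtain ⟨hy1, hy2⟩ := mem_Ls.1 hy
          refine mem_up.2 ⟨hy1, _, hb, j, ?_, (sub_add ha).symm⟩
          rw [sub_single_apply, if_pos rfl]
          have := hy2 j
          omega
        · rfl
    · rw [if_neg hy]
  have hUf' : Up m n f = fun _ => 0 := funext hUf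
  have hDf : ∀ x, x ∉ Ls m n → Dn m n f x = 0 := fun x hx => by
    unfold Dn
    rw [if_neg hx]
  have h1 := adj (n := n) f (Dn m n f) hfL hDf
  have h2 : ∀ x ∈ Ls m n, wt m n x * f x * Up m n (Dn m n f) x
      = -(((m : ℝ) * n - 2 * k) * (wt m n x * f x ^ 2)) := by
    intro x hx
    by_cases hxA : x ∈ A
    · have h3 := comm hfL hx
      have h4 : Dn m n (Up m n f) x = 0 := by
        rw [hUf']
        unfold Dn
        simp
      rw [h4, P_sum (hA hxA)] at h3
      have h5 : Up m n (Dn m n f) x = -(((m : ℝ) * n - 2 * (k : ℝ)) * f x) := by linarith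
      rw [h5]
      ring
    · rw [hfA x hxA]
      ring
  rw [sum_congr rfl h2, sum_neg_distrib, ← mul_sum] at h1
  have h3 : 0 ≤ ∑ z ∈ Ls m n, wt m n z * Dn m n f z * Dn m n f z := by
    apply sum_nonneg
    intro z hz
    have := wt_pos (mem_Ls.1 hz).2
    rw [mul_assoc]
    exact mul_nonneg this.le (mul_self_nonneg _)
  have h4 : (0 : ℝ) < (m : ℝ) * n - 2 * k := by
    have : (2 * k : ℝ) < m * n := by exact_mod_cast h
    linarith
  have h5 : 0 < ∑ x ∈ Ls m n, wt m n x * f x ^ 2 := by
    have hne : ∃ a : A, f0 a ≠ 0 := by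
      by_contra hcon
      exact hf0ne (funext fun a => by
        by_contra h0
        exact hcon ⟨a, h0⟩)
    obtain ⟨a, ha⟩ := hne
    apply sum_pos'
    · intro x hx
      exact mul_nonneg (wt_pos (mem_Ls.1 hx).2).le (sq_nonneg _)
    · refine ⟨a.1, hAL _ a.2, ?_⟩
      apply mul_pos (wt_pos (mem_Ls.1 (hAL _ a.2)).2)
      have : f a.1 = f0 a := hfin _ a.2
      rw [this]
      positivity
  have h6 := mul_pos h4 h5
  linarith

theorem peck_lo (h : m * n < 2 * t) {D : Finset (Fin m → ℕ)} (hD : D ⊆ P m n t) :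
    D.card ≤ (lo D).card := by
  by_cases ht : t ≤ m * n
  · have h1 := peck (k := m * n - t) (by omega) (cm_image_subset ht hD)
    rwa [cm_image_card hD, up_cm_card hD] at h1
  · have : D = ∅ := by
      rw [Finset.eq_empty_iff_forall_notMem]
      intro x hx
      obtain ⟨_, h2, h3⟩ := mem_P.1 (hD hx)
      apply ht
      rw [← h3]
      calc ∑ i, x i ≤ ∑ _i : Fin m, n := sum_le_sum fun i _ => h2 i
        _ = m * n := by simp
    rw [this]
    simp

theorem peck_df (h : m * n < 2 * t) {D : Finset (Fin m → ℕ)} (hD : D ⊆ P m n t) :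
    df D ≤ 0 := by
  have := peck_lo h hD
  unfold df
  have h2 : (D.card : ℝ) ≤ ((lo D).card : ℝ) := by exact_mod_cast this
  linarith

end Pool.Agent.Helper46.MR
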