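import Pool.Agent.Helper46.MR.Griggs
import Pool.Agent.Helper46.MR.Peck

set_option autoImplicit false

/-!
# MR-4 Chains: from (K) to the chain partition

PROOF. `N = m n`. By downward induction on `s ≤ N / 2` one builds a partition of the elements of rank
in `[s, N - s]` into saturated chains `C` (ranks `i..j`, one element of each rank), each with
`i + j = N` or (`i < k0` and `j > N - k0`), such that every element of rank `s` is the bottom of its
chain and every element of rank `N - s` is the top of its chain. Useful encoding: for every element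
`x` of rank `s` let `ℓ x` (rank `N - s`) be the top of its chain when the chain is long; for `s ≥ k0`
all chains through rank `s` are exactly those through rank `N - s` (bijection `ℓ` between
`P m n s` and `P m n (N - s)`).
START: `N` even: the singletons of rank `N / 2`. `N` odd, `N = 2 s + 1`: a perfect matching between
the ranks `s`, `s + 1` (equal cardinalities by `P_card_symm`, Hall's condition is `peck`).
STEP `k + 1 → k` for `k ≥ k0` (`2 k + 2 ≤ N`): the top of the chain of `y ∈ P m n (k+1)` is `ℓ y`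
of rank `N - k - 1`; `π y := cm n (ℓ y)` is a bijection of `P m n (k+1)`. `griggs` gives `f`, `g`.
The chain of `f x` (`x` of rank `k`) is prolonged at the bottom by `x`, and at the top by
`cm n x'`, where `π (f x) = g x'` (`x' ∈ lower (g x')` means that `cm n x'` covers `cm n (g x') =
ℓ (f x)`); so these chains get ranks `k..N-k`. The others stay. New `ℓ x = cm n x'`.
STEP `k + 1 → k` for `k < k0`: matchings `P m n k → P m n (k+1)` and, by `cm`,
`P m n (N-k) → P m n (N-k-1)` (Hall's condition is `peck`; for `2 k < N`), prolong the chains at the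
bottom and at the top independently; chains which contain rank `k0 ≤ N - k0` and reach rank `k0` are
the only ones touched: they end with `i < k0` or `i = k0`; a chain which is not prolonged at one end
but at the other has still `i ≤ k0`... CARE: a chain with `i = k0`, `j = N - k0` may be prolonged
at one end only, then `i < k0`, `j = N - k0` violates `j > N - k0`. Both ends are prolonged from
`k0` to `k0 - 1` by fewer elements than chains, possibly at different chains. So do the step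
`k0 → k0 - 1` as follows: it is NOT required to be symmetric: the statement below allows a chain
which is asymmetric only if `i ≤ k0` and `j + k0 ≥ N` (non-strict inequalities). Then everything is
clear: all chains touched in this phase have `i ≤ k0` and `j ≥ N - k0`.
If `N < 2 k0` there is no middle part: start in the middle with this phase (chains through the
middle rank(s), `i ≤ N / 2 ≤ k0`, `j ≥ N / 2 ≥ N - k0`).
-/

namespace Pool.Agent.Helper46.MR

open Finset Pool.Agent.Helper30.SC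

namespace ChainsAux

variable {m n k s k₀ : ℕ}

/-- the elements of `L(m,n)` -/
def LL (m n : ℕ) : Set (Fin m → ℕ) := {a : Fin m → ℕ | Monotone a ∧ ∀ i, a i ≤ n}

/-- rank -/
def rk {m : ℕ} (a : Fin m → ℕ) : ℕ := ∑ i, a i

theorem cm_cm {a : Fin m → ℕ} (h : ∀ i, a i ≤ n) : cm n (cm n a) = a := by
  funext i
  have := h i
  simp only [cm, Fin.rev_rev]
  omega

theorem cm_le (a : Fin m → ℕ) (i : Fin m) : cm n a i ≤ n := by
  simp only [cm]
  omega

theorem cm_mono {a : Fin m → ℕ} (h : Monotone a) : Monotone (cm n a) := by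
  intro i j hij
  have := h (Fin.rev_le_rev.2 hij)
  simp only [cm]
  omega

theorem cm_anti {a b : Fin m → ℕ} (h : a ≤ b) : cm n b ≤ cm n a := by
  intro i
  have h1 : a i.rev ≤ b i.rev := h i.rev
  have h2 : n - b i.rev ≤ n - a i.rev := by omega
  exact h2

theorem rk_cm {a : Fin m → ℕ} (h : ∀ i, a i ≤ n) : rk (cm n a) + rk a = m * n := by
  unfold rk
  have e : ∑ i : Fin m, a i = ∑ i : Fin m, a i.rev :=
    (Equiv.sum_comp Fin.revPerm a).symm
  rw [e, ← Finset.sum_add_distrib]
  have : ∀ i : Fin m, cm n a i + a i.rev = n := by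
    intro i
    have := h i.rev
    simp only [cm]
    omega
  rw [Finset.sum_congr rfl fun i _ => this i]
  simp

theorem rk_le {a : Fin m → ℕ} (h : a ∈ LL m n) : rk a ≤ m * n := by
  have := rk_cm (n := n) h.2
  omega

theorem mem_P' {a : Fin m → ℕ} {t : ℕ} : a ∈ P m n t ↔ a ∈ LL m n ∧ rk a = t := by
  rw [mem_P]
  unfold rk
  constructor
  · rintro ⟨h1, h2, h3⟩
    exact ⟨⟨h1, h2⟩, h3⟩
  · rintro ⟨⟨h1, h2⟩, h3⟩
    exact ⟨h1, h2, h3⟩

theorem cm_mem {a : Fin m → ℕ} (h : a ∈ LL m n) : cm n a ∈ LL m n :=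
  ⟨cm_mono h.1, fun i => cm_le a i⟩

theorem le_of_lower {x y : Fin m → ℕ} (h : x ∈ lower y) : x ≤ y := by
  obtain ⟨i, rfl⟩ := mem_lower.1 h
  intro j
  have h1 := add_single_apply x i j
  have h2 : x j ≤ (x + Pi.single i 1 : Fin m → ℕ) j := by
    rw [h1]
    by_cases hj : j = i
    · rw [if_pos hj]
      exact Nat.le_succ _
    · rw [if_neg hj]
  exact h2

/-- a matching of the level `k` into the level `k + 1` -/
def Mat (m n k : ℕ) (f : (Fin m → ℕ) → (Fin m → ℕ)) : Prop :=
  (∀ x ∈ P m n k, f x ∈ P m n (k + 1) ∧ x ∈ lower (f x)) ∧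
    Set.InjOn f (P m n k : Set (Fin m → ℕ))

/-- `S` is a good chain partition of the ranks `s, ..., mn - s` -/
structure Fam (m n k₀ s : ℕ) (S : Set (Set (Fin m → ℕ))) : Prop where
  sub : ∀ C ∈ S, C ⊆ LL m n
  ch : ∀ C ∈ S, ∀ a ∈ C, ∀ b ∈ C, rk a ≤ rk b → a ≤ b
  rg : ∀ C ∈ S, ∃ i j : ℕ, s ≤ i ∧ i ≤ j ∧ j + s ≤ m * n ∧ (∀ a ∈ C, i ≤ rk a ∧ rk a ≤ j) ∧
    (∀ t, i ≤ t → t ≤ j → ∃ a ∈ C, rk a = t) ∧
    (i + j = m * n ∨ (i ≤ k₀ ∧ m * n ≤ j + k₀))
  ex : ∀ a ∈ LL m n, s ≤ rk a → rk a + s ≤ m * n → ∃ C ∈ S, a ∈ C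
  un : ∀ a, ∀ C ∈ S, ∀ C' ∈ S, a ∈ C → a ∈ C' → C = C'

/-- the retraction of the ranks `k, ..., mn - k` onto `k + 1, ..., mn - k - 1` -/
def ret (m n k : ℕ) (f g : (Fin m → ℕ) → (Fin m → ℕ)) (a : Fin m → ℕ) : Fin m → ℕ :=
  if rk a = k then f a else if rk a + k = m * n then cm n (g (cm n a)) else a

/-- the prolonged chain -/
def ext (m n k : ℕ) (f g : (Fin m → ℕ) → (Fin m → ℕ)) (C : Set (Fin m → ℕ)) :
    Set (Fin m → ℕ) :=
  {a | a ∈ LL m n ∧ k ≤ rk a ∧ rk a + k ≤ m * n ∧ ret m n k f g a ∈ C}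

section
variable {f g : (Fin m → ℕ) → (Fin m → ℕ)}

theorem ret_bot {a : Fin m → ℕ} (h : rk a = k) : ret m n k f g a = f a := by
  simp [ret, h]

theorem ret_top (hk : 2 * k + 2 ≤ m * n) {a : Fin m → ℕ} (h : rk a + k = m * n) :
    ret m n k f g a = cm n (g (cm n a)) := by
  have : rk a ≠ k := by omega
  simp [ret, h, this]

theorem ret_mid {a : Fin m → ℕ} (h : rk a ≠ k) (h' : rk a + k ≠ m * n) :
    ret m n k f g a = a := by
  simp [ret, h, h']

theorem bot_spec (hf : Mat m n k f) {a : Fin m → ℕ} (ha : a ∈ LL m n) (h : rk a = k) :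
    f a ∈ LL m n ∧ rk (f a) = k + 1 ∧ a ≤ f a := by
  obtain ⟨h1, h2⟩ := hf.1 a (mem_P'.2 ⟨ha, h⟩)
  exact ⟨(mem_P'.1 h1).1, (mem_P'.1 h1).2, le_of_lower h2⟩

theorem top_spec (hg : Mat m n k g) {a : Fin m → ℕ} (ha : a ∈ LL m n)
    (h : rk a + k = m * n) :
    cm n (g (cm n a)) ∈ LL m n ∧ rk (cm n (g (cm n a))) + k + 1 = m * n ∧
      cm n (g (cm n a)) ≤ a := by
  have h0 : rk (cm n a) = k := by
    have := rk_cm (n := n) ha.2
    omega
  obtain ⟨h1, h2, h3⟩ := bot_spec hg (cm_mem ha) h0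
  refine ⟨cm_mem h1, ?_, ?_⟩
  · have := rk_cm (n := n) h1.2
    omega
  · have := cm_anti (n := n) h3
    rwa [cm_cm ha.2] at this

/-- everything about the retraction -/
theorem ret_spec (hk : 2 * k + 2 ≤ m * n) (hf : Mat m n k f) (hg : Mat m n k g)
    {a : Fin m → ℕ} (ha : a ∈ LL m n) (h1 : k ≤ rk a) (h2 : rk a + k ≤ m * n) :
    ret m n k f g a ∈ LL m n ∧
    k + 1 ≤ rk (ret m n k f g a) ∧ rk (ret m n k f g a) + (k + 1) ≤ m * n := by
  by_cases hb : rk a = k
  · rw [ret_bot hb]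
    obtain ⟨p1, p2, p3⟩ := bot_spec hf ha hb
    exact ⟨p1, by omega, by omega⟩
  · by_cases ht : rk a + k = m * n
    · rw [ret_top hk ht]
      obtain ⟨p1, p2, p3⟩ := top_spec hg ha ht
      exact ⟨p1, by omega, by omega⟩
    · rw [ret_mid hb ht]
      exact ⟨ha, by omega, by omega⟩

theorem ext_ch (hk : 2 * k + 2 ≤ m * n) (hf : Mat m n k f) (hg : Mat m n k g)
    {C : Set (Fin m → ℕ)} (hC : ∀ a ∈ C, ∀ b ∈ C, rk a ≤ rk b → a ≤ b) :
    ∀ a ∈ ext m n k f g C, ∀ b ∈ ext m n k f g C, rk a ≤ rk b → a ≤ b := by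
  rintro a ⟨ha, ha1, ha2, ha3⟩ b ⟨hb, hb1, hb2, hb3⟩ hab
  by_cases h1 : rk b = k
  · have h2 : rk a = k := by omega
    rw [ret_bot h2] at ha3
    rw [ret_bot h1] at hb3
    obtain ⟨p1, p2, p3⟩ := bot_spec hf ha h2
    obtain ⟨q1, q2, q3⟩ := bot_spec hf hb h1
    have e : f a = f b := le_antisymm (hC _ ha3 _ hb3 (by omega)) (hC _ hb3 _ ha3 (by omega))
    have := hf.2 (by exact_mod_cast mem_P'.2 ⟨ha, h2⟩) (by exact_mod_cast mem_P'.2 ⟨hb, h1⟩) e
    exact this.le
  · by_cases h2 : rk a + k = m * n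
    · have h3 : rk b + k = m * n := by omega
      rw [ret_top hk h2] at ha3
      rw [ret_top hk h3] at hb3
      obtain ⟨p1, p2, p3⟩ := top_spec hg ha h2
      obtain ⟨q1, q2, q3⟩ := top_spec hg hb h3
      have e : cm n (g (cm n a)) = cm n (g (cm n b)) :=
        le_antisymm (hC _ ha3 _ hb3 (by omega)) (hC _ hb3 _ ha3 (by omega))
      have ra : rk (cm n a) = k := by
        have := rk_cm (n := n) ha.2
        omega
      have rb : rk (cm n b) = k := by
        have := rk_cm (n := n) hb.2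
        omega
      have ga := bot_spec hg (cm_mem ha) ra
      have gb := bot_spec hg (cm_mem hb) rb
      have e2 : g (cm n a) = g (cm n b) := by
        rw [← cm_cm ga.1.2, ← cm_cm gb.1.2, e]
      have e3 := hg.2 (by exact_mod_cast mem_P'.2 ⟨cm_mem ha, ra⟩)
        (by exact_mod_cast mem_P'.2 ⟨cm_mem hb, rb⟩) e2
      have e4 : a = b := by
        rw [← cm_cm ha.2, ← cm_cm hb.2, e3]
      exact e4.le
    · -- `a` is not at the top, `b` is not at the bottom
      have key1 : a ≤ ret m n k f g a ∧ rk (ret m n k f g a) = max (rk a) (k + 1) := by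
        by_cases h3 : rk a = k
        · rw [ret_bot h3]
          obtain ⟨p1, p2, p3⟩ := bot_spec hf ha h3
          exact ⟨p3, by omega⟩
        · rw [ret_mid h3 h2]
          exact ⟨le_rfl, by omega⟩
      have key2 : ret m n k f g b ≤ b ∧
          rk (ret m n k f g b) = min (rk b) (m * n - (k + 1)) := by
        by_cases h3 : rk b + k = m * n
        · rw [ret_top hk h3]
          obtain ⟨p1, p2, p3⟩ := top_spec hg hb h3
          exact ⟨p3, by omega⟩
        · rw [ret_mid h1 h3]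
          exact ⟨le_rfl, by omega⟩
      have := hC _ ha3 _ hb3 (by omega)
      exact key1.1.trans (this.trans key2.1)

/-- the step -/
theorem step_aux (hk : 2 * k + 2 ≤ m * n) (hf : Mat m n k f) (hg : Mat m n k g)
    {S : Set (Set (Fin m → ℕ))} (hS : Fam m n k₀ (k + 1) S)
    (hsym : k₀ ≤ k → ∀ C ∈ S, (∃ x ∈ LL m n, rk x = k ∧ ret m n k f g x ∈ C) ↔
      (∃ z ∈ LL m n, rk z + k = m * n ∧ ret m n k f g z ∈ C)) :
    Fam m n k₀ k (ext m n k f g '' S) := by
  refine ⟨?_, ?_, ?_, ?_, ?_⟩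
  · rintro _ ⟨C, hC, rfl⟩ a ha
    exact ha.1
  · rintro _ ⟨C, hC, rfl⟩
    exact ext_ch hk hf hg (hS.ch C hC)
  · rintro _ ⟨C, hC, rfl⟩
    obtain ⟨i, j, h1, h2, h3, h4, h5, h6⟩ := hS.rg C hC
    have hs := hsym
    -- facts about elements
    have hbi : (∃ x ∈ LL m n, rk x = k ∧ ret m n k f g x ∈ C) → i = k + 1 := by
      rintro ⟨x, hx, hx1, hx2⟩
      rw [ret_bot hx1] at hx2
      obtain ⟨p1, p2, p3⟩ := bot_spec hf hx hx1
      have := h4 _ hx2
      omega
    have htj : (∃ z ∈ LL m n, rk z + k = m * n ∧ ret m n k f g z ∈ C) →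
        j + (k + 1) = m * n := by
      rintro ⟨x, hx, hx1, hx2⟩
      rw [ret_top hk hx1] at hx2
      obtain ⟨p1, p2, p3⟩ := top_spec hg hx hx1
      have := h4 _ hx2
      omega
    have hmid : ∀ a ∈ C, a ∈ ext m n k f g C := by
      intro a ha
      have h7 := h4 a ha
      refine ⟨hS.sub C hC ha, by omega, by omega, ?_⟩
      rw [ret_mid (by omega) (by omega)]
      exact ha
    have hel : ∀ a ∈ ext m n k f g C, a ∈ C ∨ (rk a = k ∧
        (∃ x ∈ LL m n, rk x = k ∧ ret m n k f g x ∈ C)) ∨ (rk a + k = m * n ∧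
        (∃ z ∈ LL m n, rk z + k = m * n ∧ ret m n k f g z ∈ C)) := by
      rintro a ⟨ha, ha1, ha2, ha3⟩
      by_cases hb : rk a = k
      · exact Or.inr (Or.inl ⟨hb, a, ha, hb, ha3⟩)
      · by_cases ht : rk a + k = m * n
        · exact Or.inr (Or.inr ⟨ht, a, ha, ht, ha3⟩)
        · rw [ret_mid hb ht] at ha3
          exact Or.inl ha3
    by_cases hb : ∃ x ∈ LL m n, rk x = k ∧ ret m n k f g x ∈ C
    · have hi := hbi hb
      obtain ⟨x, hx, hx1, hx2⟩ := id hb
      have hxe : x ∈ ext m n k f g C := ⟨hx, by omega, by omega, hx2⟩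
      by_cases ht : ∃ z ∈ LL m n, rk z + k = m * n ∧ ret m n k f g z ∈ C
      · have hj := htj ht
        obtain ⟨z, hz, hz1, hz2⟩ := id ht
        have hze : z ∈ ext m n k f g C := ⟨hz, by omega, by omega, hz2⟩
        refine ⟨k, m * n - k, le_rfl, by omega, by omega, ?_, ?_, by omega⟩
        · intro a ha
          exact ⟨ha.2.1, by have := ha.2.2.1; omega⟩
        · intro t ht1 ht2
          rcases Nat.lt_or_ge k t with h | h
          · rcases Nat.lt_or_ge t (m * n - k) with h' | h'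
            · obtain ⟨a, ha, ha1⟩ := h5 t (by omega) (by omega)
              exact ⟨a, hmid a ha, ha1⟩
            · exact ⟨z, hze, by omega⟩
          · exact ⟨x, hxe, by omega⟩
      · refine ⟨k, j, le_rfl, by omega, by omega, ?_, ?_, ?_⟩
        · intro a ha
          rcases hel a ha with h | ⟨h, _⟩ | ⟨_, h⟩
          · have := h4 a h
            omega
          · omega
          · exact absurd h ht
        · intro t ht1 ht2
          rcases Nat.lt_or_ge k t with h | h
          · obtain ⟨a, ha, ha1⟩ := h5 t (by omega) (by omega)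
            exact ⟨a, hmid a ha, ha1⟩
          · exact ⟨x, hxe, by omega⟩
        · right
          have hlt : k < k₀ := by
            by_contra hc
            exact ht ((hs (by omega) C hC).1 hb)
          omega
    · by_cases ht : ∃ z ∈ LL m n, rk z + k = m * n ∧ ret m n k f g z ∈ C
      · have hj := htj ht
        obtain ⟨z, hz, hz1, hz2⟩ := id ht
        have hze : z ∈ ext m n k f g C := ⟨hz, by omega, by omega, hz2⟩
        refine ⟨i, m * n - k, by omega, by omega, by omega, ?_, ?_, ?_⟩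
        · intro a ha
          rcases hel a ha with h | ⟨_, h⟩ | ⟨h, _⟩
          · have := h4 a h
            omega
          · exact absurd h hb
          · omega
        · intro t ht1 ht2
          rcases Nat.lt_or_ge t (m * n - k) with h' | h'
          · obtain ⟨a, ha, ha1⟩ := h5 t (by omega) (by omega)
            exact ⟨a, hmid a ha, ha1⟩
          · exact ⟨z, hze, by omega⟩
        · right
          have hlt : k < k₀ := by
            by_contra hc
            exact hb ((hs (by omega) C hC).2 ht)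
          omega
      · refine ⟨i, j, by omega, h2, by omega, ?_, ?_, h6⟩
        · intro a ha
          rcases hel a ha with h | ⟨_, h⟩ | ⟨_, h⟩
          · exact h4 a h
          · exact absurd h hb
          · exact absurd h ht
        · intro t ht1 ht2
          obtain ⟨a, ha, ha1⟩ := h5 t (by omega) (by omega)
          exact ⟨a, hmid a ha, ha1⟩
  · intro a ha h1 h2
    obtain ⟨p1, p2, p3⟩ := ret_spec hk hf hg ha h1 h2
    obtain ⟨C, hC, hC1⟩ := hS.ex _ p1 p2 p3
    exact ⟨_, ⟨C, hC, rfl⟩, ha, h1, h2, hC1⟩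
  · rintro a _ ⟨C, hC, rfl⟩ _ ⟨C', hC', rfl⟩ ha ha'
    rw [hS.un _ C hC C' hC' ha.2.2.2 ha'.2.2.2]

end

/-- matching of level `k` into the next level below the middle -/
theorem exists_mat (hk : 2 * k < m * n) : ∃ f, Mat m n k f := by
  classical
  have hall := (Finset.all_card_le_biUnion_card_iff_exists_injective
    (fun x : {x : Fin m → ℕ // x ∈ P m n k} => up n {x.1})).1 (by
      intro s
      have h := peck hk (A := s.image Subtype.val) (by
        intro x hx
        obtain ⟨y, _, rfl⟩ := mem_image.1 hx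
        exact y.2)
      rw [card_image_of_injective _ Subtype.val_injective] at h
      refine h.trans (card_le_card ?_)
      intro y hy
      obtain ⟨hm, x, hx, i, hi, rfl⟩ := mem_up.1 hy
      obtain ⟨x', hx', rfl⟩ := mem_image.1 hx
      refine mem_biUnion.2 ⟨x', hx', mem_up.2 ⟨hm, x'.1, by simp, i, hi, rfl⟩⟩)
  obtain ⟨F, hF, hF1⟩ := hall
  refine ⟨fun x => if h : x ∈ P m n k then F ⟨x, h⟩ else x, ?_, ?_⟩
  · intro x hx
    simp only [hx, dif_pos]
    have h := hF1 ⟨x, hx⟩
    refine ⟨up_subset (k := k) (by simpa using hx) h, ?_⟩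
    obtain ⟨_, x', hx', i, _, e⟩ := mem_up.1 h
    rw [mem_singleton.1 hx'] at e
    exact mem_lower.2 ⟨i, e⟩
  · intro x hx y hy e
    have hx' : x ∈ P m n k := by exact_mod_cast hx
    have hy' : y ∈ P m n k := by exact_mod_cast hy
    simp only [hx', hy', dif_pos] at e
    exact congrArg Subtype.val (hF e)

/-- the chain partition of the ranks `k, ..., mn - k` from that of `k + 1, ..., mn - k - 1` -/
theorem step (hK : k₀ ≤ k → K m n k) (hk : 2 * k + 2 ≤ m * n)
    {S : Set (Set (Fin m → ℕ))} (hS : Fam m n k₀ (k + 1) S) :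
    ∃ S', Fam m n k₀ k S' := by
  classical
  rcases Nat.lt_or_ge k k₀ with hlt | hge
  · obtain ⟨f, hf⟩ := exists_mat (m := m) (n := n) (k := k) (by omega)
    exact ⟨_, step_aux hk hf hf hS fun h => absurd h (by omega)⟩
  · have hex : ∀ y ∈ P m n (k + 1), ∃ z ∈ LL m n, rk z + (k + 1) = m * n ∧
        ∃ C ∈ S, y ∈ C ∧ z ∈ C := by
      intro y hy
      obtain ⟨hy1, hy2⟩ := mem_P'.1 hy
      obtain ⟨C, hC, hC1⟩ := hS.ex y hy1 (by omega) (by omega)
      obtain ⟨i, j, h1, h2, h3, h4, h5, h6⟩ := hS.rg C hC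
      have h7 := h4 y hC1
      obtain ⟨z, hz, hz1⟩ := h5 j h2 le_rfl
      exact ⟨z, hS.sub C hC hz, by omega, C, hC, hC1, hz⟩
    choose! l hl1 hl2 hl3 using hex
    have hmaps : Set.MapsTo (fun y => cm n (l y)) (P m n (k + 1) : Set (Fin m → ℕ))
        (P m n (k + 1) : Set (Fin m → ℕ)) := by
      intro y hy
      have hy' : y ∈ P m n (k + 1) := by exact_mod_cast hy
      have h1 := hl1 y hy'
      have h2 := hl2 y hy'
      have h3 := rk_cm (n := n) h1.2
      have : cm n (l y) ∈ P m n (k + 1) := mem_P'.2 ⟨cm_mem h1, by omega⟩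
      exact_mod_cast this
    have hinj : Set.InjOn (fun y => cm n (l y)) (P m n (k + 1) : Set (Fin m → ℕ)) := by
      intro y hy y' hy' e
      have hy1 : y ∈ P m n (k + 1) := by exact_mod_cast hy
      have hy2 : y' ∈ P m n (k + 1) := by exact_mod_cast hy'
      have e1 : l y = l y' := by
        have e' : cm n (l y) = cm n (l y') := e
        rw [← cm_cm (hl1 y hy1).2, ← cm_cm (hl1 y' hy2).2, e']
      obtain ⟨C, hC, c1, c2⟩ := hl3 y hy1
      obtain ⟨C', hC', c1', c2'⟩ := hl3 y' hy2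
      rw [e1] at c2
      have e2 := hS.un _ C hC C' hC' c2 c2'
      subst e2
      have r1 := (mem_P'.1 hy1).2
      have r2 := (mem_P'.1 hy2).2
      exact le_antisymm (hS.ch C hC _ c1 _ c1' (by omega)) (hS.ch C hC _ c1' _ c1 (by omega))
    have hbij : Set.BijOn (fun y => cm n (l y)) (P m n (k + 1) : Set (Fin m → ℕ))
        (P m n (k + 1) : Set (Fin m → ℕ)) :=
      ⟨hmaps, hinj, Finset.surjOn_of_injOn_of_card_le _ hmaps hinj le_rfl⟩
    obtain ⟨f, g, hfg, hfi, hgi, himg⟩ := griggs (hK hge) _ hbij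
    have hf : Mat m n k f := ⟨fun x hx => ⟨(hfg x hx).1, (hfg x hx).2.1⟩, hfi⟩
    have hg : Mat m n k g := ⟨fun x hx => ⟨(hfg x hx).2.2.1, (hfg x hx).2.2.2⟩, hgi⟩
    refine ⟨_, step_aux hk hf hg hS fun _ C hC => ⟨?_, ?_⟩⟩
    · rintro ⟨x, hx, hx1, hx2⟩
      rw [ret_bot hx1] at hx2
      have hxP : x ∈ P m n k := mem_P'.2 ⟨hx, hx1⟩
      have hfx : f x ∈ P m n (k + 1) := (hf.1 x hxP).1
      have hmem : cm n (l (f x)) ∈ g '' (P m n k : Set (Fin m → ℕ)) := by
        rw [← himg]
        exact ⟨f x, ⟨x, by exact_mod_cast hxP, rfl⟩, rfl⟩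
      obtain ⟨x', hx', e⟩ := hmem
      have hx'P : x' ∈ P m n k := by exact_mod_cast hx'
      obtain ⟨q1, q2⟩ := mem_P'.1 hx'P
      have q3 := rk_cm (n := n) q1.2
      refine ⟨cm n x', cm_mem q1, by omega, ?_⟩
      rw [ret_top hk (by omega), cm_cm q1.2, e, cm_cm (hl1 _ hfx).2]
      obtain ⟨C', hC', c1, c2⟩ := hl3 _ hfx
      rw [hS.un _ C hC C' hC' hx2 c1]
      exact c2
    · rintro ⟨z, hz, hz1, hz2⟩
      rw [ret_top hk hz1] at hz2
      have q3 := rk_cm (n := n) hz.2
      have hczP : cm n z ∈ P m n k := mem_P'.2 ⟨cm_mem hz, by omega⟩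
      have hmem : g (cm n z) ∈ (fun y => cm n (l y)) '' (f '' (P m n k : Set (Fin m → ℕ))) := by
        rw [himg]
        exact ⟨cm n z, by exact_mod_cast hczP, rfl⟩
      obtain ⟨_, ⟨x, hx, rfl⟩, e⟩ := hmem
      have hxP : x ∈ P m n k := by exact_mod_cast hx
      have hfx : f x ∈ P m n (k + 1) := (hf.1 x hxP).1
      have e' : cm n (l (f x)) = g (cm n z) := e
      rw [← e', cm_cm (hl1 _ hfx).2] at hz2
      obtain ⟨C', hC', c1, c2⟩ := hl3 _ hfx
      obtain ⟨q1, q2⟩ := mem_P'.1 hxP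
      refine ⟨x, q1, q2, ?_⟩
      rw [ret_bot q2, hS.un _ C hC C' hC' hz2 c2]
      exact c1

/-- the start in the middle -/
theorem start : ∃ S, Fam m n k₀ (m * n / 2) S := by
  classical
  obtain ⟨s, hs⟩ : ∃ s, m * n / 2 = s := ⟨_, rfl⟩
  rw [hs]
  rcases Nat.even_or_odd' (m * n) with ⟨r, hr | hr⟩
  · have hrs : r = s := by omega
    subst hrs
    refine ⟨{C | ∃ a ∈ P m n r, C = {a}}, ?_, ?_, ?_, ?_, ?_⟩
    · rintro _ ⟨a, ha, rfl⟩ b hb
      rw [Set.mem_singleton_iff.1 hb]
      exact (mem_P'.1 ha).1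
    · rintro _ ⟨a, ha, rfl⟩ b hb c hc _
      rw [Set.mem_singleton_iff.1 hb, Set.mem_singleton_iff.1 hc]
    · rintro _ ⟨a, ha, rfl⟩
      have h1 := (mem_P'.1 ha).2
      refine ⟨r, r, le_rfl, le_rfl, by omega, ?_, ?_, Or.inl (by omega)⟩
      · intro b hb
        rw [Set.mem_singleton_iff.1 hb]
        omega
      · intro t ht1 ht2
        exact ⟨a, rfl, by omega⟩
    · intro a ha h1 h2
      exact ⟨{a}, ⟨a, mem_P'.2 ⟨ha, by omega⟩, rfl⟩, rfl⟩
    · rintro a _ ⟨b, hb, rfl⟩ _ ⟨c, hc, rfl⟩ hab hac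
      rw [← Set.mem_singleton_iff.1 hab, ← Set.mem_singleton_iff.1 hac]
  · have hrs : r = s := by omega
    subst hrs
    obtain ⟨f, hf⟩ := exists_mat (m := m) (n := n) (k := r) (by omega)
    have hmaps : Set.MapsTo f (P m n r : Set (Fin m → ℕ))
        (P m n (r + 1) : Set (Fin m → ℕ)) := by
      intro x hx
      have hx' : x ∈ P m n r := by exact_mod_cast hx
      have := (hf.1 x hx').1
      exact_mod_cast this
    have hcard : (P m n (r + 1)).card ≤ (P m n r).card := by
      have := P_card_symm (m := m) (n := n) (t := r) (by omega)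
      have e : m * n - r = r + 1 := by omega
      rw [e] at this
      exact this.le
    have hsurj := Finset.surjOn_of_injOn_of_card_le _ hmaps hf.2 hcard
    refine ⟨{C | ∃ a ∈ P m n r, C = {a, f a}}, ?_, ?_, ?_, ?_, ?_⟩
    · rintro _ ⟨a, ha, rfl⟩ b hb
      rcases hb with rfl | hb
      · exact (mem_P'.1 ha).1
      · rw [Set.mem_singleton_iff.1 hb]
        exact (mem_P'.1 (hf.1 a ha).1).1
    · rintro _ ⟨a, ha, rfl⟩ b hb c hc hbc
      have h1 := (mem_P'.1 ha).2
      have h2 := (mem_P'.1 (hf.1 a ha).1).2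
      have h3 := le_of_lower (hf.1 a ha).2
      rcases hb with rfl | hb
      · rcases hc with rfl | hc
        · exact le_rfl
        · rw [Set.mem_singleton_iff.1 hc]
          exact h3
      · rw [Set.mem_singleton_iff.1 hb] at hbc ⊢
        rcases hc with rfl | hc
        · omega
        · rw [Set.mem_singleton_iff.1 hc]
    · rintro _ ⟨a, ha, rfl⟩
      have h1 := (mem_P'.1 ha).2
      have h2 := (mem_P'.1 (hf.1 a ha).1).2
      refine ⟨r, r + 1, le_rfl, by omega, by omega, ?_, ?_, Or.inl (by omega)⟩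
      · intro b hb
        rcases hb with rfl | hb
        · omega
        · rw [Set.mem_singleton_iff.1 hb]
          omega
      · intro t ht1 ht2
        rcases Nat.lt_or_ge r t with h | h
        · exact ⟨f a, Or.inr rfl, by omega⟩
        · exact ⟨a, Or.inl rfl, by omega⟩
    · intro a ha h1 h2
      rcases Nat.lt_or_ge r (rk a) with h | h
      · have haP : a ∈ P m n (r + 1) := mem_P'.2 ⟨ha, by omega⟩
        obtain ⟨x, hx, hx1⟩ := hsurj (by exact_mod_cast haP)
        exact ⟨{x, f x}, ⟨x, by exact_mod_cast hx, rfl⟩, Or.inr hx1.symm⟩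
      · exact ⟨{a, f a}, ⟨a, mem_P'.2 ⟨ha, by omega⟩, rfl⟩, Or.inl rfl⟩
    · rintro a _ ⟨b, hb, rfl⟩ _ ⟨c, hc, rfl⟩ hab hac
      have b1 := (mem_P'.1 hb).2
      have b2 := (mem_P'.1 (hf.1 b hb).1).2
      have c1 := (mem_P'.1 hc).2
      have c2 := (mem_P'.1 (hf.1 c hc).1).2
      have hbc : b = c := by
        rcases hab with rfl | hab
        · rcases hac with rfl | hac
          · rfl
          · rw [Set.mem_singleton_iff.1 hac] at b1
            omega
        · rw [Set.mem_singleton_iff.1 hab] at hac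
          rcases hac with e | hac
          · rw [e] at b2
            omega
          · exact hf.2 (by exact_mod_cast hb) (by exact_mod_cast hc)
              (Set.mem_singleton_iff.1 hac)
      rw [hbc]

theorem fam_all (hK : ∀ k, k₀ ≤ k → 2 * k + 2 ≤ m * n → K m n k) :
    ∀ d s : ℕ, s + d = m * n / 2 → ∃ S, Fam m n k₀ s S := by
  intro d
  induction d with
  | zero =>
    intro s hs
    rw [show s = m * n / 2 by omega]
    exact start
  | succ d ih =>
    intro s hs
    obtain ⟨S, hS⟩ := ih (s + 1) (by omega)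
    exact step (fun h => hK s h (by omega)) (by omega) hS

end ChainsAux

theorem chains (m n k₀ : ℕ) (hK : ∀ k, k₀ ≤ k → 2 * k + 2 ≤ m * n → K m n k) :
    ∃ S : Set (Set (Fin m → ℕ)),
      (∀ C ∈ S,
        C ⊆ {a : Fin m → ℕ | Monotone a ∧ ∀ i, a i ≤ n} ∧
        IsChain (· ≤ ·) C ∧
        Set.InjOn (fun a : Fin m → ℕ => ∑ i, a i) C ∧
        ∃ i j : ℕ, i ≤ j ∧ (fun a : Fin m → ℕ => ∑ i, a i) '' C = Set.Icc i j ∧
          (i + j = m * n ∨ (i ≤ k₀ ∧ m * n ≤ j + k₀))) ∧
      ∀ a : Fin m → ℕ, Monotone a → (∀ i, a i ≤ n) →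
        ∃! C : Set (Fin m → ℕ), C ∈ S ∧ a ∈ C := by
  obtain ⟨S, hS⟩ := ChainsAux.fam_all hK (m * n / 2) 0 (by omega)
  refine ⟨S, fun C hC => ⟨hS.sub C hC, ?_, ?_, ?_⟩, ?_⟩
  · intro a ha b hb _
    rcases Nat.le_total (ChainsAux.rk a) (ChainsAux.rk b) with h | h
    · exact Or.inl (hS.ch C hC a ha b hb h)
    · exact Or.inr (hS.ch C hC b hb a ha h)
  · intro a ha b hb e
    have e' : ChainsAux.rk a = ChainsAux.rk b := e
    exact le_antisymm (hS.ch C hC a ha b hb e'.le) (hS.ch C hC b hb a ha e'.ge)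
  · obtain ⟨i, j, _, h2, _, h4, h5, h6⟩ := hS.rg C hC
    refine ⟨i, j, h2, ?_, h6⟩
    ext t
    constructor
    · rintro ⟨a, ha, rfl⟩
      exact h4 a ha
    · rintro ⟨ht1, ht2⟩
      obtain ⟨a, ha, ha1⟩ := h5 t ht1 ht2
      exact ⟨a, ha, ha1⟩
  · intro a ha1 ha2
    have haL : a ∈ ChainsAux.LL m n := ⟨ha1, ha2⟩
    obtain ⟨C, hC, haC⟩ := hS.ex a haL (Nat.zero_le _) (ChainsAux.rk_le haL)
    exact ⟨C, ⟨hC, haC⟩, fun C' hC' => hS.un a C' hC'.1 C hC hC'.2 haC⟩

end Pool.Agent.Helper46.MR
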