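import Pool.Agent.Helper46.MR.Defs

set_option autoImplicit false

/-!
# MR: basic facts (membership lemmas, shadows)
-/

namespace Pool.Agent.Helper46.MR

open Finset Pool.Agent.Helper30.SC

variable {m n k : ℕ}

theorem mem_Q {a : Fin m → ℕ} : a ∈ Q m n k ↔ (∀ i, a i ≤ n) ∧ ∑ i, a i = k := by
  unfold Q
  rw [mem_filter, Lev.mem_Qset]
  rfl

theorem mem_P {a : Fin m → ℕ} :
    a ∈ P m n k ↔ Monotone a ∧ (∀ i, a i ≤ n) ∧ ∑ i, a i = k := by
  classical
  unfold P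
  rw [mem_filter, mem_Q]
  tauto

theorem P_subset_Q : P m n k ⊆ Q m n k := by
  classical
  unfold P
  exact filter_subset _ _

theorem card_Q : (Q m n k).card = lev m n k := rfl

theorem P_mono {a : Fin m → ℕ} (h : a ∈ P m n k) : Monotone a := (mem_P.1 h).1

theorem P_le {a : Fin m → ℕ} (h : a ∈ P m n k) (i : Fin m) : a i ≤ n := (mem_P.1 h).2.1 i

theorem P_sum {a : Fin m → ℕ} (h : a ∈ P m n k) : ∑ i, a i = k := (mem_P.1 h).2.2

theorem sum_add_single (x : Fin m → ℕ) (i : Fin m) :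
    ∑ j, (x + Pi.single i 1 : Fin m → ℕ) j = ∑ j, x j + 1 := by
  simp [Finset.sum_add_distrib]

theorem add_single_apply (x : Fin m → ℕ) (i j : Fin m) :
    (x + Pi.single i 1 : Fin m → ℕ) j = if j = i then x j + 1 else x j := by
  by_cases h : j = i
  · subst h; simp
  · simp [h]

theorem mem_lower {x y : Fin m → ℕ} : x ∈ lower y ↔ ∃ i, y = x + Pi.single i 1 := by
  unfold lower
  simp only [mem_image, mem_filter, mem_univ, true_and]
  constructor
  · rintro ⟨i, hi, rfl⟩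
    refine ⟨i, ?_⟩
    funext j
    by_cases h : j = i
    · subst h; simp; omega
    · simp [h]
  · rintro ⟨i, rfl⟩
    refine ⟨i, by simp, ?_⟩
    funext j
    simp

theorem mem_clo {D : Finset (Fin m → ℕ)} {x : Fin m → ℕ} :
    x ∈ clo D ↔ ∃ i, x + Pi.single i 1 ∈ D := by
  unfold clo
  simp only [mem_biUnion, mem_lower]
  constructor
  · rintro ⟨y, hy, i, rfl⟩
    exact ⟨i, hy⟩
  · rintro ⟨i, hi⟩
    exact ⟨_, hi, i, rfl⟩

theorem mem_lo {D : Finset (Fin m → ℕ)} {x : Fin m → ℕ} :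
    x ∈ lo D ↔ Monotone x ∧ ∃ i, x + Pi.single i 1 ∈ D := by
  classical
  unfold lo
  rw [mem_filter, mem_clo]
  tauto

theorem mem_upper {x y : Fin m → ℕ} : y ∈ upper n x ↔ ∃ i, x i < n ∧ y = x + Pi.single i 1 := by
  unfold upper
  simp only [mem_image, mem_filter, mem_univ, true_and]
  constructor
  · rintro ⟨i, hi, rfl⟩
    exact ⟨i, hi, rfl⟩
  · rintro ⟨i, hi, rfl⟩
    exact ⟨i, hi, rfl⟩

theorem mem_cup {A : Finset (Fin m → ℕ)} {y : Fin m → ℕ} :
    y ∈ cup n A ↔ ∃ x ∈ A, ∃ i, x i < n ∧ y = x + Pi.single i 1 := by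
  unfold cup
  simp only [mem_biUnion, mem_upper]

theorem mem_up {A : Finset (Fin m → ℕ)} {y : Fin m → ℕ} :
    y ∈ up n A ↔ Monotone y ∧ ∃ x ∈ A, ∃ i, x i < n ∧ y = x + Pi.single i 1 := by
  classical
  unfold up
  rw [mem_filter, mem_cup]
  tauto

theorem clo_subset {D : Finset (Fin m → ℕ)} (hD : D ⊆ Q m n (k + 1)) : clo D ⊆ Q m n k := by
  intro x hx
  obtain ⟨i, hi⟩ := mem_clo.1 hx
  obtain ⟨h1, h2⟩ := mem_Q.1 (hD hi)
  rw [sum_add_single] at h2
  refine mem_Q.2 ⟨fun j => ?_, by omega⟩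
  have := h1 j
  rw [add_single_apply] at this
  split_ifs at this <;> omega

theorem lo_subset {D : Finset (Fin m → ℕ)} (hD : D ⊆ P m n (k + 1)) : lo D ⊆ P m n k := by
  intro x hx
  obtain ⟨hm, i, hi⟩ := mem_lo.1 hx
  obtain ⟨_, h1, h2⟩ := mem_P.1 (hD hi)
  rw [sum_add_single] at h2
  refine mem_P.2 ⟨hm, fun j => ?_, by omega⟩
  have := h1 j
  rw [add_single_apply] at this
  split_ifs at this <;> omega

theorem cup_subset {A : Finset (Fin m → ℕ)} (hA : A ⊆ Q m n k) : cup n A ⊆ Q m n (k + 1) := by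
  intro y hy
  obtain ⟨x, hx, i, hi, rfl⟩ := mem_cup.1 hy
  obtain ⟨h1, h2⟩ := mem_Q.1 (hA hx)
  refine mem_Q.2 ⟨fun j => ?_, by rw [sum_add_single, h2]⟩
  have := h1 j
  rw [add_single_apply]
  split_ifs with h
  · subst h; omega
  · exact this

theorem up_subset {A : Finset (Fin m → ℕ)} (hA : A ⊆ P m n k) : up n A ⊆ P m n (k + 1) := by
  intro y hy
  obtain ⟨hm, x, hx, i, hi, rfl⟩ := mem_up.1 hy
  obtain ⟨_, h1, h2⟩ := mem_P.1 (hA hx)
  refine mem_P.2 ⟨hm, fun j => ?_, by rw [sum_add_single, h2]⟩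
  have := h1 j
  rw [add_single_apply]
  split_ifs with h
  · subst h; omega
  · exact this

theorem clo_mono {D D' : Finset (Fin m → ℕ)} (h : D ⊆ D') : clo D ⊆ clo D' := by
  intro x hx
  obtain ⟨i, hi⟩ := mem_clo.1 hx
  exact mem_clo.2 ⟨i, h hi⟩

theorem lo_mono {D D' : Finset (Fin m → ℕ)} (h : D ⊆ D') : lo D ⊆ lo D' := by
  intro x hx
  obtain ⟨hm, i, hi⟩ := mem_lo.1 hx
  exact mem_lo.2 ⟨hm, i, h hi⟩

theorem up_mono {A A' : Finset (Fin m → ℕ)} (h : A ⊆ A') : up n A ⊆ up n A' := by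
  intro y hy
  obtain ⟨hm, x, hx, r⟩ := mem_up.1 hy
  exact mem_up.2 ⟨hm, x, h hx, r⟩

theorem cup_mono {A A' : Finset (Fin m → ℕ)} (h : A ⊆ A') : cup n A ⊆ cup n A' := by
  intro y hy
  obtain ⟨x, hx, r⟩ := mem_cup.1 hy
  exact mem_cup.2 ⟨x, h hx, r⟩

@[simp] theorem lo_empty : lo (∅ : Finset (Fin m → ℕ)) = ∅ := by
  ext x
  rw [mem_lo]
  simp

/-- if `A` avoids the lower shadow of `D` then the upper shadow of `A` avoids `D` -/
theorem up_disjoint {A D : Finset (Fin m → ℕ)} (hA : A ⊆ P m n k) (h : Disjoint A (lo D)) :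
    Disjoint (up n A) D := by
  rw [Finset.disjoint_left] at h ⊢
  intro y hy hD
  obtain ⟨_, x, hx, i, _, rfl⟩ := mem_up.1 hy
  exact h hx (mem_lo.2 ⟨P_mono (hA hx), i, hD⟩)

theorem cup_disjoint {A D : Finset (Fin m → ℕ)} (h : Disjoint A (clo D)) :
    Disjoint (cup n A) D := by
  rw [Finset.disjoint_left] at h ⊢
  intro y hy hD
  obtain ⟨x, hx, i, _, rfl⟩ := mem_cup.1 hy
  exact h hx (mem_clo.2 ⟨i, hD⟩)

/-- For levels at most `n` the bound `n` is irrelevant. -/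
theorem P_eq {n n' : ℕ} (h : k ≤ n) (h' : k ≤ n') : P m n k = P m n' k := by
  ext a
  rw [mem_P, mem_P]
  have key : ∑ i, a i = k → ∀ i, a i ≤ k := fun hs i => hs ▸ Finset.single_le_sum
    (f := a) (fun _ _ => Nat.zero_le _) (mem_univ i)
  constructor
  · rintro ⟨h1, _, h3⟩
    exact ⟨h1, fun i => (key h3 i).trans h', h3⟩
  · rintro ⟨h1, _, h3⟩
    exact ⟨h1, fun i => (key h3 i).trans h, h3⟩

theorem K_congr {n n' : ℕ} (h : k + 1 ≤ n) (h' : k + 1 ≤ n') : K m n k ↔ K m n' k := by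
  unfold K
  rw [P_eq (m := m) (k := k) (n := n) (n' := n') (by omega) (by omega),
    P_eq (m := m) (k := k + 1) (n := n) (n' := n') h h']

end Pool.Agent.Helper46.MR
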