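import Pool.Agent.Helper46.MR.Basic

set_option autoImplicit false

/-!
# MR-12 Bulk: lower bound for the level sizes of the cube in the bulk

PROOF. Let `a = k / (m+1)`, `r = δ n`, `δ = η / (m+1)^2`. All `x : Fin m → ℕ` with
`a - r ≤ x_i ≤ a + r` extend by `k - ∑ x_i` to an element of `Q (m+1) n k`. If `r ≥ 1` there are
at least `(2 r - 1)^m ≥ r^m` of them. If `r < 1` use `lev_pos`.
-/

namespace Pool.Agent.Helper46.MR

open Finset Pool.Agent.Helper30.SC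

namespace BulkAux

/-- integers in an interval -/
theorem card_Icc_ge {u v : ℝ} (hu : 0 ≤ u) :
    v - u - 1 ≤ ((Icc ⌈u⌉₊ ⌊v⌋₊).card : ℝ) := by
  rw [Nat.card_Icc]
  have h1 : (⌈u⌉₊ : ℝ) < u + 1 := Nat.ceil_lt_add_one hu
  have h2 : v - 1 < (⌊v⌋₊ : ℝ) := Nat.sub_one_lt_floor v
  have h3 : ((⌊v⌋₊ : ℝ) + 1) - ⌈u⌉₊ ≤ ((⌊v⌋₊ + 1 - ⌈u⌉₊ : ℕ) : ℝ) := by
    have : (⌊v⌋₊ + 1 : ℕ) ≤ (⌊v⌋₊ + 1 - ⌈u⌉₊) + ⌈u⌉₊ := by omega
    have h4 : ((⌊v⌋₊ + 1 : ℕ) : ℝ) ≤ ((⌊v⌋₊ + 1 - ⌈u⌉₊ + ⌈u⌉₊ : ℕ) : ℝ) := by exact_mod_cast this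
    push_cast at h4
    linarith
  linarith

theorem count (m n k : ℕ) {a r : ℝ} (ha : a * (m + 1) = k) (h0 : (m : ℝ) * r ≤ a) (h1 : r ≤ a)
    (h2 : a + m * r ≤ n) (h3 : a + r ≤ n) (hr : 0 ≤ r) :
    (Icc ⌈a - r⌉₊ ⌊a + r⌋₊).card ^ m ≤ lev (m + 1) n k := by
  classical
  set S := Icc ⌈a - r⌉₊ ⌊a + r⌋₊ with hS
  have hmem : ∀ y ∈ S, a - r ≤ (y : ℝ) ∧ (y : ℝ) ≤ a + r := by
    intro y hy
    rw [hS, mem_Icc] at hy
    exact ⟨(Nat.le_ceil _).trans (by exact_mod_cast hy.1),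
      (Nat.le_floor_iff (by linarith)).1 hy.2⟩
  rw [← card_Q]
  have hc : S.card ^ m = (Fintype.piFinset (fun _ : Fin m => S)).card := by
    rw [Fintype.card_piFinset_const]
  rw [hc]
  have hsum : ∀ x ∈ Fintype.piFinset (fun _ : Fin m => S),
      (m : ℝ) * (a - r) ≤ ∑ i, (x i : ℝ) ∧ ∑ i, (x i : ℝ) ≤ m * (a + r) := by
    intro x hx
    rw [Fintype.mem_piFinset] at hx
    constructor
    · calc (m : ℝ) * (a - r) = ∑ _i : Fin m, (a - r) := by simp; ring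
        _ ≤ ∑ i, (x i : ℝ) := sum_le_sum fun i _ => (hmem _ (hx i)).1
    · calc ∑ i, (x i : ℝ) ≤ ∑ _i : Fin m, (a + r) := sum_le_sum fun i _ => (hmem _ (hx i)).2
        _ = m * (a + r) := by simp; ring
  have hk : ∀ x ∈ Fintype.piFinset (fun _ : Fin m => S), ∑ i, x i ≤ k ∧ k - ∑ i, x i ≤ n := by
    intro x hx
    obtain ⟨h4, h5⟩ := hsum x hx
    have h6 : ∑ i, x i ≤ k := by
      have : ((∑ i, x i : ℕ) : ℝ) ≤ k := by
        push_cast
        linarith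
      exact_mod_cast this
    refine ⟨h6, ?_⟩
    have : ((k - ∑ i, x i : ℕ) : ℝ) ≤ n := by
      rw [Nat.cast_sub h6]
      push_cast
      linarith
    exact_mod_cast this
  apply card_le_card_of_injOn (fun x => (Fin.cons (k - ∑ i, x i) x : Fin (m + 1) → ℕ))
  · intro x hx
    have hx' := mem_coe.1 hx
    obtain ⟨h4, h5⟩ := hk x hx'
    rw [Fintype.mem_piFinset] at hx'
    refine mem_coe.2 (mem_Q.2 ⟨?_, ?_⟩)
    · intro i
      refine Fin.cases ?_ ?_ i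
      · simpa using h5
      · intro j
        have := (hmem _ (hx' j)).2
        have h6 : (x j : ℝ) ≤ n := by linarith
        simpa using (by exact_mod_cast h6 : x j ≤ n)
    · rw [Fin.sum_univ_succ]
      simp only [Fin.cons_zero, Fin.cons_succ]
      omega
  · intro x _ y _ hxy
    funext j
    have := congrFun hxy j.succ
    simpa using this

end BulkAux

theorem lev_bulk (m : ℕ) (η : ℝ) (hη : 0 < η) :
    ∃ c : ℝ, 0 < c ∧ ∀ n k : ℕ, 1 ≤ n → η * n ≤ k → (k : ℝ) ≤ ((m : ℝ) + 1 - η) * n →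
      c * (n : ℝ) ^ m ≤ (lev (m + 1) n k : ℝ) := by
  refine ⟨(η / ((m : ℝ) + 1) ^ 2) ^ m, by positivity, ?_⟩
  intro n k hn hk1 hk2
  have hm : (0 : ℝ) < (m : ℝ) + 1 := by positivity
  have hn0 : (0 : ℝ) < n := by exact_mod_cast hn
  rw [← mul_pow]
  set r : ℝ := η / ((m : ℝ) + 1) ^ 2 * n with hr
  have hr0 : 0 < r := by positivity
  have hrm : ((m : ℝ) + 1) * (((m : ℝ) + 1) * r) = η * n := by
    rw [hr]
    field_simp
  rcases le_or_gt 1 r with h1 | h1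
  · have ha : (k : ℝ) / ((m : ℝ) + 1) * ((m : ℝ) + 1) = k := by field_simp
    set a : ℝ := (k : ℝ) / ((m : ℝ) + 1) with haa
    have h2 : ((m : ℝ) + 1) * r ≤ a := by
      rw [haa, le_div_iff₀ hm]
      linarith
    have h3 : a ≤ n - ((m : ℝ) + 1) * r := by
      rw [haa, div_le_iff₀ hm]
      linarith
    have hm0 : (0 : ℝ) ≤ m := Nat.cast_nonneg m
    have hmr : 0 ≤ (m : ℝ) * r := by positivity
    have hC := BulkAux.count m n k ha (by linarith) (by linarith) (by linarith) (by linarith)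
      hr0.le
    have hI := BulkAux.card_Icc_ge (u := a - r) (v := a + r) (by linarith)
    calc r ^ m ≤ ((Icc ⌈a - r⌉₊ ⌊a + r⌋₊).card : ℝ) ^ m :=
          pow_le_pow_left₀ hr0.le (by linarith) m
      _ ≤ (lev (m + 1) n k : ℝ) := by exact_mod_cast hC
  · have h2 : k ≤ (m + 1) * n := by
      have : (k : ℝ) ≤ ((m + 1) * n : ℕ) := by
        push_cast
        have := mul_pos hη hn0
        linarith
      exact_mod_cast this
    have h3 : 1 ≤ lev (m + 1) n k := lev_pos h2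
    calc r ^ m ≤ 1 := pow_le_one₀ hr0.le h1.le
      _ ≤ (lev (m + 1) n k : ℝ) := by exact_mod_cast h3

end Pool.Agent.Helper46.MR
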