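import Pool.Agent.Helper46.MR.Slope
import Pool.Agent.Helper46.MR.Bulk

set_option autoImplicit false

/-!
# MR-17 SgFacts: the rates

`sg b n t = 1 - W(t-1)/W t`, `W = lev b n`; `qq b n u = W(u+1)/W u`.

PROOF. `lev_low`: `lev (b+1) n t = C(t+b, b)` for `t ≤ n` (induction with `lev_succ`, hockey stick).
`sg_low`: `W(t-1)/W t = t/(t+b-1)`. `sg_refl`: `lev_symm`. `sg_top`: `sg_refl` and `lev_low`.
`sg_le_succ`: `W^(b+1) t = ∑_{x ≤ n} W^b (t-x)`; `W^b(t-x) W^b(t-1) ≥ W^b(t-1-x) W^b t` by `lev_pf2`.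
`sg_nonneg`: `lev_mono`, `lev_symm`. `sg_bound`: `lev (b+1) n t - lev (b+1) n (t-1) =
lev b n t - lev b n (t-1-n)` (the last term `0` if `t < n + 1`) is at most `(n+1)^(b-1)` in absolute
value (`lev_succ`, `lev_le`; here `b ≥ 1`), and `lev_bulk`.
`qq_anti`, `qq_gap`: `slope` telescoped. `qq_ge`: `qq b n v ≥ 1` for `2 v + 1 ≤ b n`
(`lev_mono`, `lev_symm`) and `slope`.
-/

namespace Pool.Agent.Helper46.MR

open Finset Pool.Agent.Helper30.SC

/-- ratio of consecutive level sizes -/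
noncomputable def qq (b n u : ℕ) : ℝ := (lev b n (u + 1) : ℝ) / (lev b n u : ℝ)

namespace SgFactsAux

/-- the sum in `lev_succ` for small levels -/
theorem lev_succ_low {b n t : ℕ} (ht : t ≤ n) :
    lev (b + 1) n t = ∑ j ∈ range (t + 1), lev b n j := by
  rw [lev_succ, ← sum_range_reflect (fun j => lev b n j) (t + 1)]
  have hsub : range (t + 1) ⊆ range (n + 1) := range_subset_range.2 (by omega)
  rw [← sum_subset hsub]
  · refine sum_congr rfl fun i hi => ?_
    have hi' := mem_range.1 hi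
    rw [if_pos (by omega)]
    congr 1
  · intro i _ hi
    rw [if_neg]
    rw [mem_range] at hi
    omega

theorem hockey (b t : ℕ) : ∑ j ∈ range (t + 1), (j + b).choose b = (t + (b + 1)).choose (b + 1) := by
  induction t with
  | zero => simp
  | succ t ih =>
    rw [sum_range_succ, ih, show t + 1 + (b + 1) = (t + 1 + b) + 1 by ring,
      Nat.choose_succ_succ (t + 1 + b) b, show t + (b + 1) = t + 1 + b by ring]
    ring

theorem lev_diff {b n t : ℕ} (ht : 1 ≤ t) :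
    (lev (b + 1) n t : ℤ) - (lev (b + 1) n (t - 1) : ℤ) =
      (lev b n t : ℤ) - (if n + 1 ≤ t then (lev b n (t - 1 - n) : ℤ) else 0) := by
  obtain ⟨s, rfl⟩ := Nat.exists_eq_add_of_le' ht
  have h := Lev.W_succ (Lev.ext b n) n (s : ℤ)
  rw [← Lev.ext_succ, ← Lev.ext_succ] at h
  have e1 : ((s : ℤ) + 1) = ((s + 1 : ℕ) : ℤ) := by push_cast; ring
  rw [e1, Lev.ext_natCast, Lev.ext_natCast, Lev.ext_natCast] at h
  rw [Nat.add_sub_cancel]
  split_ifs with hn
  · have e2 : (s : ℤ) - (n : ℤ) = ((s - n : ℕ) : ℤ) := by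
      rw [Nat.cast_sub (by omega)]
    rw [e2, Lev.ext_natCast] at h
    linarith
  · have e2 : Lev.ext b n ((s : ℤ) - (n : ℤ)) = 0 := by
      unfold Lev.ext
      rw [if_neg]
      push Not at hn ⊢
      have : (s : ℤ) < n := by
        have : s < n := by omega
        exact_mod_cast this
      linarith
    rw [e2] at h
    linarith

theorem lev_posR {b n t : ℕ} (ht : t ≤ b * n) : (0 : ℝ) < (lev b n t : ℝ) := by
  exact_mod_cast lev_pos ht

/-- growth below the middle -/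
theorem lev_step {b n v : ℕ} (hv : 2 * v + 1 ≤ b * n) : lev b n v ≤ lev b n (v + 1) := by
  rcases Nat.lt_or_ge (b * n) (2 * (v + 1)) with h | h
  · have e : v + 1 = b * n - v := by omega
    rw [e, lev_symm (by omega)]
  · exact lev_mono (Nat.le_succ v) h

end SgFactsAux

open SgFactsAux

theorem lev_low {b n t : ℕ} (ht : t ≤ n) : lev (b + 1) n t = (t + b).choose b := by
  induction b generalizing t with
  | zero =>
    rw [lev_succ_low ht]
    simp [lev_zero]
  | succ b ih =>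
    rw [lev_succ_low ht, ← hockey b t]
    refine sum_congr rfl fun j hj => ?_
    exact ih (by have := mem_range.1 hj; omega)

namespace SgFactsAux

/-- consecutive level sizes for small levels -/
theorem low_ratio {b n t : ℕ} (ht : t + 1 ≤ n) :
    (lev (b + 1) n (t + 1) : ℝ) * ((t : ℝ) + 1) = (lev (b + 1) n t : ℝ) * ((t : ℝ) + 1 + b) := by
  rw [lev_low ht, lev_low (by omega : t ≤ n)]
  have h := Nat.choose_succ_right_eq (t + b + 1) b
  have h2 := Nat.add_one_mul_choose_eq (t + b) t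
  have e1 : (t + 1 + b).choose b = (t + b + 1).choose (t + 1) := by
    rw [show t + 1 + b = t + b + 1 by ring]
    exact (Nat.choose_symm_of_eq_add (by ring))
  have e2 : (t + b).choose b = (t + b).choose t := Nat.choose_symm_of_eq_add (by ring)
  rw [e1, e2]
  have h3 : (((t + b + 1 : ℕ) * (t + b).choose t : ℕ) : ℝ) =
      (((t + b + 1).choose (t + 1) * (t + 1) : ℕ) : ℝ) := by exact_mod_cast h2
  push_cast at h3
  linarith

end SgFactsAux

theorem sg_low {b n t : ℕ} (hb : 1 ≤ b) (ht1 : 1 ≤ t) (ht : t ≤ n) :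
    sg b n t = ((b : ℝ) - 1) / ((t : ℝ) + b - 1) := by
  obtain ⟨b, rfl⟩ := Nat.exists_eq_add_of_le' hb
  obtain ⟨t, rfl⟩ := Nat.exists_eq_add_of_le' ht1
  have h := low_ratio (b := b) ht
  have hp : (0 : ℝ) < (lev (b + 1) n (t + 1) : ℝ) := lev_posR (by nlinarith)
  have hb0 : (0 : ℝ) ≤ b := Nat.cast_nonneg b
  have ht0 : (0 : ℝ) ≤ t := Nat.cast_nonneg t
  unfold sg
  rw [Nat.add_sub_cancel]
  push_cast
  have h1 : (t : ℝ) + 1 + (b + 1) - 1 ≠ 0 := by
    have : (0 : ℝ) < (t : ℝ) + 1 + (b + 1) - 1 := by linarith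
    exact this.ne'
  rw [eq_div_iff h1, sub_mul, div_mul_eq_mul_div, one_mul]
  have h2 : (lev (b + 1) n t : ℝ) * ((t : ℝ) + 1 + (b + 1) - 1) / (lev (b + 1) n (t + 1) : ℝ) =
      t + 1 := by
    rw [div_eq_iff hp.ne']
    linarith
  rw [h2]
  ring

/-- `sg` at the level `b n - s` -/
theorem sg_refl {b n s : ℕ} (hs : s + 1 ≤ b * n) : sg b n (b * n - s) = 1 - qq b n s := by
  unfold sg qq
  rw [show b * n - s - 1 = b * n - (s + 1) by omega, lev_symm hs, lev_symm (by omega)]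

theorem sg_top {b n s : ℕ} (hb : 1 ≤ b) (hs : s + 1 ≤ n) :
    sg b n (b * n - s) = -(((b : ℝ) - 1) / ((s : ℝ) + 1)) := by
  obtain ⟨b, rfl⟩ := Nat.exists_eq_add_of_le' hb
  rw [sg_refl (by nlinarith)]
  have h := low_ratio (b := b) hs
  have hp : (0 : ℝ) < (lev (b + 1) n s : ℝ) := lev_posR (by nlinarith)
  have hs0 : (0 : ℝ) < (s : ℝ) + 1 := by positivity
  unfold qq
  push_cast
  rw [← neg_div, eq_div_iff hs0.ne', sub_mul, div_mul_eq_mul_div, h, mul_comm (lev (b + 1) n s : ℝ),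
    mul_div_assoc, div_self hp.ne']
  ring

theorem sg_le_qq {b n k : ℕ} (hk : k + 1 ≤ b * n) : sg b n (k + 1) ≤ qq b n k - 1 := by
  have h1 : (0 : ℝ) < (lev b n k : ℝ) := lev_posR (by omega)
  have h2 : (0 : ℝ) < (lev b n (k + 1) : ℝ) := lev_posR hk
  unfold sg qq
  rw [Nat.add_sub_cancel]
  set x := (lev b n k : ℝ)
  set y := (lev b n (k + 1) : ℝ)
  have h3 : 0 ≤ (y - x) ^ 2 / (x * y) := by positivity
  have h4 : (y - x) ^ 2 / (x * y) = y / x + x / y - 2 := by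
    field_simp
    ring
  rw [h4] at h3
  linarith

theorem sg_le_succ {b n t : ℕ} (ht1 : 1 ≤ t) (ht : t ≤ b * n) : sg b n t ≤ sg (b + 1) n t := by
  obtain ⟨t, rfl⟩ := Nat.exists_eq_add_of_le' ht1
  have h1 : (0 : ℝ) < (lev b n (t + 1) : ℝ) := lev_posR ht
  have h2 : (0 : ℝ) < (lev (b + 1) n (t + 1) : ℝ) := lev_posR (by nlinarith)
  have key : lev (b + 1) n t * lev b n (t + 1) ≤ lev b n t * lev (b + 1) n (t + 1) := by
    rw [lev_succ b n t, lev_succ b n (t + 1), sum_mul, mul_sum]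
    refine sum_le_sum fun i _ => ?_
    split_ifs with ha hb hb
    · have h := lev_pf2 b n (i := t - i) (j := t) (Nat.sub_le _ _)
      rw [show t + 1 - i = t - i + 1 by omega]
      rw [mul_comm (lev b n t)]
      exact h
    · omega
    · rw [zero_mul]
      exact Nat.zero_le _
    · rw [zero_mul]
      exact Nat.zero_le _
  unfold sg
  rw [Nat.add_sub_cancel]
  have h3 : (lev (b + 1) n t : ℝ) / (lev (b + 1) n (t + 1) : ℝ) ≤
      (lev b n t : ℝ) / (lev b n (t + 1) : ℝ) := by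
    rw [div_le_div_iff₀ h2 h1]
    exact_mod_cast key
  linarith

theorem sg_nonneg {b n t : ℕ} (ht1 : 1 ≤ t) (ht : 2 * t ≤ b * n + 1) : 0 ≤ sg b n t := by
  obtain ⟨t, rfl⟩ := Nat.exists_eq_add_of_le' ht1
  have h := lev_step (b := b) (n := n) (v := t) (by omega)
  unfold sg
  rw [Nat.add_sub_cancel, sub_nonneg]
  exact div_le_one_of_le₀ (by exact_mod_cast h) (Nat.cast_nonneg _)

theorem sg_bound {b : ℕ} (hb : 2 ≤ b) (η : ℝ) (hη : 0 < η) :
    ∃ C : ℝ, 0 < C ∧ ∀ n t : ℕ, 1 ≤ n → η * n ≤ t → (t : ℝ) ≤ (b - η) * n →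
      |sg b n t| ≤ C / n := by
  obtain ⟨b, rfl⟩ := Nat.exists_eq_add_of_le' (by omega : 1 ≤ b)
  have hb' : 1 ≤ b := by omega
  obtain ⟨c, hc, hbulk⟩ := lev_bulk b η hη
  refine ⟨2 ^ (b - 1) / c, by positivity, ?_⟩
  intro n t hn h1 h2
  have hn0 : (0 : ℝ) < n := by exact_mod_cast hn
  have ht : 1 ≤ t := by
    have h3 : (0 : ℝ) < t := lt_of_lt_of_le (by positivity) h1
    exact_mod_cast h3
  have h3 := hbulk n t hn h1 (by push_cast at h2; exact h2)
  have hc1 : 0 < c * (n : ℝ) ^ b := by positivity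
  have hp : (0 : ℝ) < (lev (b + 1) n t : ℝ) := lt_of_lt_of_le hc1 h3
  have hd := lev_diff (b := b) (n := n) ht
  have ha1 : (lev b n t : ℤ) ≤ ((n : ℤ) + 1) ^ (b - 1) := by exact_mod_cast lev_le hb' t
  have ha2 : (if n + 1 ≤ t then (lev b n (t - 1 - n) : ℤ) else 0) ≤ ((n : ℤ) + 1) ^ (b - 1) := by
    split_ifs
    · exact_mod_cast lev_le hb' _
    · positivity
  have ha3 : (0 : ℤ) ≤ (if n + 1 ≤ t then (lev b n (t - 1 - n) : ℤ) else 0) := by
    split_ifs <;> positivity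
  have ha4 : (0 : ℤ) ≤ (lev b n t : ℤ) := by positivity
  have habs : |(lev (b + 1) n t : ℤ) - (lev (b + 1) n (t - 1) : ℤ)| ≤ ((n : ℤ) + 1) ^ (b - 1) := by
    rw [hd, abs_le]
    constructor <;> linarith
  have habs' : |(lev (b + 1) n t : ℝ) - (lev (b + 1) n (t - 1) : ℝ)| ≤ ((n : ℝ) + 1) ^ (b - 1) := by
    exact_mod_cast habs
  have hsg : sg (b + 1) n t = ((lev (b + 1) n t : ℝ) - (lev (b + 1) n (t - 1) : ℝ)) /
      (lev (b + 1) n t : ℝ) := by
    unfold sg
    rw [sub_div, div_self hp.ne']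
  rw [hsg, abs_div, abs_of_pos hp, div_le_div_iff₀ hp hn0]
  have h5 : ((n : ℝ) + 1) ^ (b - 1) ≤ 2 ^ (b - 1) * (n : ℝ) ^ (b - 1) := by
    rw [← mul_pow]
    have hn1 : (1 : ℝ) ≤ n := by exact_mod_cast hn
    exact pow_le_pow_left₀ (by positivity) (by linarith) _
  have h6 : (n : ℝ) ^ b = (n : ℝ) ^ (b - 1) * n := by
    rw [← pow_succ]
    congr 1
    omega
  calc |(lev (b + 1) n t : ℝ) - (lev (b + 1) n (t - 1) : ℝ)| * n
      ≤ (2 ^ (b - 1) * (n : ℝ) ^ (b - 1)) * n :=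
        mul_le_mul_of_nonneg_right (habs'.trans h5) hn0.le
    _ = 2 ^ (b - 1) / c * (c * (n : ℝ) ^ b) := by
        rw [h6]
        field_simp
    _ ≤ 2 ^ (b - 1) / c * (lev (b + 1) n t : ℝ) := mul_le_mul_of_nonneg_left h3 (by positivity)

theorem qq_gap {b n u r : ℕ} (hb : 2 ≤ b) (hn : 1 ≤ n) (hv : u + r + 1 ≤ b * n) :
    qq b n (u + r) + r * (2 / (b * (n * (n + 1)))) ≤ qq b n u := by
  induction r with
  | zero => simp
  | succ r ih =>
    have h1 := ih (by omega)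
    have h2 := slope (b := b) (n := n) (u := u + r) hb hn (by omega)
    have h3 : qq b n (u + r) = (lev b n (u + r + 1) : ℝ) / (lev b n (u + r) : ℝ) := rfl
    have h4 : qq b n (u + (r + 1)) =
      (lev b n (u + r + 2) : ℝ) / (lev b n (u + r + 1) : ℝ) := rfl
    rw [h4]
    rw [h3] at h1
    push_cast
    linarith

theorem qq_anti {b n u v : ℕ} (hb : 2 ≤ b) (hn : 1 ≤ n) (huv : u ≤ v) (hv : v + 1 ≤ b * n) :
    qq b n v ≤ qq b n u := by
  obtain ⟨r, rfl⟩ := Nat.exists_eq_add_of_le huv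
  have h := qq_gap hb hn hv
  have h2 : (0 : ℝ) ≤ r * (2 / (b * (n * (n + 1)))) := by positivity
  linarith

theorem qq_ge {b n u r : ℕ} (hb : 2 ≤ b) (hn : 1 ≤ n) (hv : 2 * (u + r) + 1 ≤ b * n) :
    1 + r * (2 / (b * (n * (n + 1)))) ≤ qq b n u := by
  have h := qq_gap (u := u) (r := r) hb hn (by omega)
  have h2 : 1 ≤ qq b n (u + r) := by
    have hp : (0 : ℝ) < (lev b n (u + r) : ℝ) := lev_posR (by omega)
    unfold qq
    rw [le_div_iff₀ hp, one_mul]
    exact_mod_cast lev_step hv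
  linarith

theorem qq_low {b n : ℕ} (hb : 1 ≤ b) (hn : 1 ≤ n) :
    qq b n (n - 1) = 1 + ((b : ℝ) - 1) / n := by
  have h1 : n - 1 + 1 ≤ n := by omega
  have h2 : n - 1 + 1 ≤ b * n := by
    calc n - 1 + 1 ≤ n := h1
      _ = 1 * n := (one_mul n).symm
      _ ≤ b * n := Nat.mul_le_mul_right n hb
  have h3 := sg_refl h2
  rw [sg_top hb h1] at h3
  have h4 : (((n - 1 : ℕ) : ℝ) + 1) = n := by
    rw [Nat.cast_sub hn]
    simp
  rw [h4] at h3
  linarith

end Pool.Agent.Helper46.MR
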