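import Pool.Agent.Helper46.MR.Basic

set_option autoImplicit false

/-!
# MR-15 Lym: the normalized matching property in our setting

PROOF. `nmp`, `nmp_down` of `Pool.Agent.Helper30.SC.Nmp`; `covF x y` means `x ≤ y` and
`rkF y = rkF x + 1`, i.e. `y = x + Pi.single i 1` for some `i`.
`slice_up`: the slices of the upper shadow: for the set `A` of the cube `{0..n}^(m+1)` let
`A_i = {x' : Fin.cons i x' ∈ A}`; then `(cup n A)_i` contains `cup n (A_i)` and, for `i ≥ 1`,
`A_{i-1}`.
-/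

namespace Pool.Agent.Helper46.MR

open Finset Pool.Agent.Helper30.SC

variable {m n k : ℕ}

namespace LymAux

theorem cov_iff {x y : Fin m → ℕ} : covF x y ↔ ∃ i, y = x + Pi.single i 1 := by
  constructor
  · rintro ⟨hle, hs⟩
    unfold rkF at hs
    have hsum : ∑ i, (y i - x i) = 1 := by
      have h1 : ∑ i, y i = ∑ i, (x i + (y i - x i)) :=
        sum_congr rfl fun i _ => by have : x i ≤ y i := hle i; omega
      rw [h1, sum_add_distrib] at hs
      omega
    have hex : ∃ i, y i - x i ≠ 0 := by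
      by_contra h
      push Not at h
      rw [sum_congr rfl fun i _ => h i] at hsum
      simp at hsum
    obtain ⟨i, hi⟩ := hex
    have h2 := Finset.add_sum_erase univ (fun i => y i - x i) (mem_univ i)
    refine ⟨i, ?_⟩
    funext j
    rw [add_single_apply]
    have hj : x j ≤ y j := hle j
    split_ifs with h
    · subst h
      omega
    · have h3 : y j - x j ≤ ∑ x_1 ∈ univ.erase i, (y x_1 - x x_1) :=
        single_le_sum (f := fun i => y i - x i) (fun _ _ => Nat.zero_le _)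
          (mem_erase.2 ⟨h, mem_univ j⟩)
      omega
  · rintro ⟨i, rfl⟩
    refine ⟨fun j => ?_, sum_add_single x i⟩
    change x j ≤ (x + Pi.single i 1 : Fin m → ℕ) j
    rw [add_single_apply]
    split_ifs <;> omega

theorem mem_Qset_iff {x : Fin m → ℕ} (hx : x ∈ Q m n k) : x ∈ Qset m n ∧ rkF x = k := by
  unfold Q at hx
  exact mem_filter.1 hx

theorem cons_sub_single_zero (i : ℕ) (x : Fin m → ℕ) :
    (Fin.cons i x : Fin (m + 1) → ℕ) + Pi.single 0 1 = Fin.cons (i + 1) x := by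
  funext j
  rw [add_single_apply]
  refine Fin.cases ?_ (fun j => ?_) j
  · simp
  · simp

theorem cons_add_single_succ (i : ℕ) (x : Fin m → ℕ) (l : Fin m) :
    (Fin.cons i x : Fin (m + 1) → ℕ) + Pi.single l.succ 1 = Fin.cons i (x + Pi.single l 1) := by
  funext j
  rw [add_single_apply]
  refine Fin.cases ?_ (fun j => ?_) j
  · simp [(Fin.succ_ne_zero l).symm]
  · simp only [Fin.cons_succ, add_single_apply, Fin.succ_inj]

end LymAux

open LymAux

theorem lym_up {A : Finset (Fin m → ℕ)} (hA : A ⊆ Q m n k) :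
    A.card * lev m n (k + 1) ≤ (cup n A).card * lev m n k := by
  refine nmp m n k A (cup n A) (fun x hx => mem_Qset_iff (hA hx)) ?_
  intro x hx y hy hc
  obtain ⟨i, rfl⟩ := cov_iff.1 hc
  refine mem_cup.2 ⟨x, hx, i, ?_, rfl⟩
  have := (Lev.mem_Qset.1 hy) i
  rw [add_single_apply, if_pos rfl] at this
  omega

theorem lym_lo {D : Finset (Fin m → ℕ)} (hD : D ⊆ Q m n (k + 1)) :
    D.card * lev m n k ≤ (clo D).card * lev m n (k + 1) := by
  refine nmp_down m n k D (clo D) (fun x hx => mem_Qset_iff (hD hx)) ?_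
  intro y hy x _ hc
  obtain ⟨i, rfl⟩ := cov_iff.1 hc
  exact mem_clo.2 ⟨i, hy⟩

/-- the slice `x_0 = i` of a set of the cube -/
def slc {m : ℕ} (i : ℕ) (A : Finset (Fin (m + 1) → ℕ)) : Finset (Fin m → ℕ) :=
  (A.filter fun y => y 0 = i).image fun y => Fin.tail y

theorem mem_slc {i : ℕ} {A : Finset (Fin (m + 1) → ℕ)} {x : Fin m → ℕ} :
    x ∈ slc i A ↔ (Fin.cons i x : Fin (m + 1) → ℕ) ∈ A := by
  unfold slc
  simp only [mem_image, mem_filter]
  constructor
  · rintro ⟨y, ⟨hy, h0⟩, rfl⟩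
    have : (Fin.cons i (Fin.tail y) : Fin (m + 1) → ℕ) = y := by
      rw [← h0]
      exact Fin.cons_self_tail y
    rw [this]
    exact hy
  · intro h
    exact ⟨_, ⟨h, by simp⟩, by simp⟩

theorem slc_subset {i : ℕ} {A : Finset (Fin (m + 1) → ℕ)} (hA : A ⊆ Q (m + 1) n k) :
    slc i A ⊆ Q m n (k - i) ∧ (k < i → slc i A = ∅) := by
  have key : ∀ x ∈ slc i A, (∀ j, x j ≤ n) ∧ i + ∑ j, x j = k := by
    intro x hx
    obtain ⟨h1, h2⟩ := mem_Q.1 (hA (mem_slc.1 hx))
    refine ⟨fun j => ?_, ?_⟩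
    · have := h1 j.succ
      rwa [Fin.cons_succ] at this
    · rw [Fin.sum_univ_succ] at h2
      simpa using h2
  refine ⟨fun x hx => ?_, fun hk => ?_⟩
  · obtain ⟨h1, h2⟩ := key x hx
    exact mem_Q.2 ⟨h1, by omega⟩
  · rw [Finset.eq_empty_iff_forall_notMem]
    intro x hx
    obtain ⟨h1, h2⟩ := key x hx
    omega

theorem card_slc {A : Finset (Fin (m + 1) → ℕ)} (hA : A ⊆ Q (m + 1) n k) :
    A.card = ∑ i ∈ range (n + 1), (slc i A).card := by
  have h1 : ∀ i, (slc i A).card = (A.filter fun y => y 0 = i).card := by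
    intro i
    unfold slc
    refine card_image_of_injOn ?_
    intro y hy z hz h
    simp only [coe_filter, Set.mem_ofPred_eq] at hy hz
    simp only at h
    rw [← Fin.cons_self_tail y, ← Fin.cons_self_tail z, hy.2, hz.2, h]
  rw [sum_congr rfl fun i _ => h1 i]
  refine card_eq_sum_card_fiberwise ?_
  intro y hy
  have := (mem_Q.1 (hA hy)).1 0
  simp only [coe_range, Set.mem_Iio]
  omega

theorem slice_up {i : ℕ} {A : Finset (Fin (m + 1) → ℕ)} (hA : A ⊆ Q (m + 1) n k) :
    cup n (slc i A) ⊆ slc i (cup n A) ∧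
      (i + 1 ≤ n → slc i A ⊆ slc (i + 1) (cup n A)) := by
  refine ⟨fun y hy => ?_, fun hi x hx => ?_⟩
  · obtain ⟨x, hx, l, hl, rfl⟩ := mem_cup.1 hy
    rw [mem_slc, ← cons_add_single_succ]
    exact mem_cup.2 ⟨_, mem_slc.1 hx, l.succ, by simpa using hl, rfl⟩
  · rw [mem_slc, ← cons_sub_single_zero]
    exact mem_cup.2 ⟨_, mem_slc.1 hx, 0, by simpa using hi, rfl⟩

end Pool.Agent.Helper46.MR
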