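import Pool.Agent.Helper46.MR.Flux
import Pool.Agent.Helper46.MR.Lym

set_option autoImplicit false

/-!
# MR-16 Stab: stability of the normalized matching property of the cube

Density of a set of a level = its size divided by the size of the level.

PROOF by induction on `m`. `m = 0`: `η n ≤ k ≤ -η n` is impossible for `n ≥ 1`. `m = 1`: a level
has one element, densities are `0`, `1`, excluded. Step `m → m + 1`, `m ≥ 1`. Put
`W' z = lev m n z`, `α_i` = density of `slc i A` in the level `k - i` of `{0..n}^m`,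
`β_i` = density of `slc i (cup n A)` in the level `k + 1 - i`, `u_i = NmpBeta m n k i ≥ 0`,
`v_i = NmpAlpha m n k i ≥ 0` (`i ≤ n`), `u_n = 0`, `v_0 = NmpaR m n (k+1) 0 / W(k+1)`,
`v_{i+1} + u_i = NmpaR m n (k+1) (i+1) / W(k+1)`, `v_i + u_i = NmpaR m n k i / W k` (see
`Pool.Agent.Helper30.SC.Nmp`). Therefore
`dens (cup n A) - dens A = ∑_{i ≤ n} v_i (β_i - α_i) + ∑_{i < n} u_i (β_{i+1} - α_i)` (if the level
`k - i` is empty, or `k + 1 - i` is, the corresponding `u`, `v` or `α`, `β` vanish: treat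
`W' = 0` carefully). By `slice_up` and `lym_up`: `β_i ≥ α_i`, `β_i ≥ α_{i-1}` (same level!), so all
terms are `≥ 0`. Let `γ_i = β_i - α_i ≥ 0`; by the induction hypothesis `γ_i ≥ c'/n` if
`ε' ≤ α_i ≤ 1 - ε'` and `η' n ≤ k - i ≤ (m - η') n`.
Let `B = {i : η₁ n ≤ i ≤ (1-η₁) n, 2 η₁ n ≤ k - i ≤ (m - 2 η₁) n}` (an interval), on which
`u_i, v_i ≥ c/n` (`flux`). For small `η₁` (depending on `η`, `ε`) `|B| ≥ c n` and
`∑_{i ∉ B} NmpaR m n k i / W k ≤ ε/4`: at most `C η₁ n` indices `i` with `NmpaR m n k i ≠ 0` are not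
in `B`, and `NmpaR m n k i ≤ (n+1)^(m-1)`, `W k ≥ c n^m` (`lev_le`, `lev_bulk`).
CASE 1: `α_i - α_j ≥ ε/8` for some `i, j ∈ B`. Then `∑ |α_{i+1} - α_i| ≥ ε/8` over the consecutive
pairs in `B`, and for each pair
`u_i (β_{i+1} - α_i) + v_{i+1} (β_{i+1} - α_{i+1}) ≥ (c/n) |α_{i+1} - α_i|`, because
`β_{i+1} ≥ max(α_i, α_{i+1})`. Gain `≥ c ε / (8 n)`.
CASE 2: all `α_i`, `i ∈ B`, differ by less than `ε/8`. The mean of the `α_i` with the weights
`NmpaR m n k i / W k` is the density of `A`, in `[ε, 1-ε]`, and the weight outside `B` is `≤ ε/4`, so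
all `α_i` (`i ∈ B`) are in `[ε/2, 1 - ε/2]`. So every `i ∈ B` has `γ_i ≥ c'/n`, and the gain is
`≥ ∑_{i ∈ B} v_i γ_i ≥ |B| (c/n) (c'/n) ≥ c''/n`.
-/

namespace Pool.Agent.Helper46.MR

open Finset Pool.Agent.Helper30.SC

namespace StabAux

/-- density of the slice `i` -/
noncomputable def al (m n k : ℕ) (A : Finset (Fin (m + 1) → ℕ)) (i : ℕ) : ℝ :=
  ((slc i A).card : ℝ) / NmpaR m n k i

/-- the part of the gain with fixed first coordinate -/
noncomputable def gT (m n k : ℕ) (A : Finset (Fin (m + 1) → ℕ)) (i : ℕ) : ℝ :=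
  NmpAlpha m n k i * (al m n (k + 1) (cup n A) i - al m n k A i)

/-- the part of the gain with raised first coordinate -/
noncomputable def gU (m n k : ℕ) (A : Finset (Fin (m + 1) → ℕ)) (i : ℕ) : ℝ :=
  NmpBeta m n k i * (al m n (k + 1) (cup n A) (i + 1) - al m n k A i)

theorem card_slc_le {m n k i : ℕ} {A : Finset (Fin (m + 1) → ℕ)} (hA : A ⊆ Q (m + 1) n k) :
    ((slc i A).card : ℝ) ≤ NmpaR m n k i := by
  obtain ⟨h1, h2⟩ := slc_subset (i := i) hA
  unfold NmpaR
  split_ifs with h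
  · rw [← card_Q]
    exact_mod_cast card_le_card h1
  · rw [h2 (by omega)]
    simp

theorem al_nonneg {m n k : ℕ} (A : Finset (Fin (m + 1) → ℕ)) (i : ℕ) : 0 ≤ al m n k A i :=
  div_nonneg (Nat.cast_nonneg _) (NmpaR_nonneg _ _ _ _)

theorem al_le_one {m n k i : ℕ} {A : Finset (Fin (m + 1) → ℕ)} (hA : A ⊆ Q (m + 1) n k) :
    al m n k A i ≤ 1 :=
  div_le_one_of_le₀ (card_slc_le hA) (NmpaR_nonneg _ _ _ _)

theorem mul_al {m n k i : ℕ} {A : Finset (Fin (m + 1) → ℕ)} (hA : A ⊆ Q (m + 1) n k) :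
    NmpaR m n k i * al m n k A i = ((slc i A).card : ℝ) := by
  unfold al
  rcases (NmpaR_nonneg m n k i).eq_or_lt with h | h
  · have h1 := card_slc_le (i := i) hA
    rw [← h] at h1 ⊢
    have h2 : (0 : ℝ) ≤ ((slc i A).card : ℝ) := Nat.cast_nonneg _
    rw [zero_mul]
    linarith
  · field_simp

theorem dens_eq {m n k : ℕ} {A : Finset (Fin (m + 1) → ℕ)} (hA : A ⊆ Q (m + 1) n k) :
    (A.card : ℝ) / (lev (m + 1) n k : ℝ) =
      ∑ i ∈ range (n + 1), NmpaR m n k i / (lev (m + 1) n k : ℝ) * al m n k A i := by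
  rw [card_slc hA]
  push_cast
  rw [sum_div]
  refine sum_congr rfl fun i _ => ?_
  rw [← mul_al (i := i) hA]
  ring

theorem al_le_be {m n k i : ℕ} {A : Finset (Fin (m + 1) → ℕ)} (hA : A ⊆ Q (m + 1) n k)
    (hw : 0 < NmpaR m n (k + 1) i) : al m n k A i ≤ al m n (k + 1) (cup n A) i := by
  rcases (NmpaR_nonneg m n k i).eq_or_lt with h | h
  · have : al m n k A i = 0 := by
      unfold al
      rw [← h, div_zero]
    rw [this]
    exact al_nonneg _ _
  · unfold al
    have hik : i ≤ k := by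
      by_contra hc
      unfold NmpaR at h
      rw [if_neg hc] at h
      exact lt_irrefl _ h
    have e1 : NmpaR m n k i = (lev m n (k - i) : ℝ) := by
      unfold NmpaR
      rw [if_pos hik]
    have e2 : NmpaR m n (k + 1) i = (lev m n (k - i + 1) : ℝ) := by
      unfold NmpaR
      rw [if_pos (by omega)]
      congr 2
      omega
    rw [div_le_div_iff₀ h hw, e1, e2]
    have h1 := lym_up (slc_subset (i := i) hA).1
    have h2 : (cup n (slc i A)).card ≤ (slc i (cup n A)).card := card_le_card (slice_up hA).1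
    have h3 := h1.trans (Nat.mul_le_mul_right _ h2)
    exact_mod_cast h3

theorem al_le_be_succ {m n k i : ℕ} {A : Finset (Fin (m + 1) → ℕ)} (hA : A ⊆ Q (m + 1) n k)
    (hi : i + 1 ≤ n) : al m n k A i ≤ al m n (k + 1) (cup n A) (i + 1) := by
  unfold al
  rw [NmpaR_shift]
  have h2 : (slc i A).card ≤ (slc (i + 1) (cup n A)).card := card_le_card ((slice_up hA).2 hi)
  exact div_le_div_of_nonneg_right (by exact_mod_cast h2) (NmpaR_nonneg _ _ _ _)

theorem alpha_zero_of {m n k i : ℕ} (hi : i ≤ n) (h0 : 0 < lev (m + 1) n k)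
    (h1 : 0 < lev (m + 1) n (k + 1)) (hw : NmpaR m n (k + 1) i = 0) : NmpAlpha m n k i = 0 := by
  rcases i with _ | i
  · rw [NmpAlpha_zero, hw, zero_div]
  · have h2 := NmpAlpha_succ m n k i
    rw [hw, zero_div] at h2
    have h3 := NmpAlpha_nonneg m n k (i + 1) hi h0 h1
    have h4 := NmpBeta_nonneg m n k i (by omega) h0 h1
    linarith

theorem gT_nonneg {m n k i : ℕ} {A : Finset (Fin (m + 1) → ℕ)} (hA : A ⊆ Q (m + 1) n k)
    (hi : i ≤ n) (h0 : 0 < lev (m + 1) n k) (h1 : 0 < lev (m + 1) n (k + 1)) :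
    0 ≤ gT m n k A i := by
  unfold gT
  rcases (NmpaR_nonneg m n (k + 1) i).eq_or_lt with h | h
  · rw [alpha_zero_of hi h0 h1 h.symm, zero_mul]
  · exact mul_nonneg (NmpAlpha_nonneg m n k i hi h0 h1) (sub_nonneg.2 (al_le_be hA h))

theorem gU_nonneg {m n k i : ℕ} {A : Finset (Fin (m + 1) → ℕ)} (hA : A ⊆ Q (m + 1) n k)
    (hi : i + 1 ≤ n) (h0 : 0 < lev (m + 1) n k) (h1 : 0 < lev (m + 1) n (k + 1)) :
    0 ≤ gU m n k A i := by
  unfold gU
  exact mul_nonneg (NmpBeta_nonneg m n k i (by omega) h0 h1)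
    (sub_nonneg.2 (al_le_be_succ hA hi))

theorem gain_eq {m n k : ℕ} {A : Finset (Fin (m + 1) → ℕ)} (hA : A ⊆ Q (m + 1) n k)
    (h0 : 0 < lev (m + 1) n k) (h1 : 0 < lev (m + 1) n (k + 1)) :
    ((cup n A).card : ℝ) / (lev (m + 1) n (k + 1) : ℝ) - (A.card : ℝ) / (lev (m + 1) n k : ℝ) =
      gT m n k A 0 + ∑ i ∈ range n, (gT m n k A (i + 1) + gU m n k A i) := by
  rw [dens_eq hA, dens_eq (cup_subset hA)]
  have e1 : ∀ i, NmpaR m n k i / (lev (m + 1) n k : ℝ) = NmpAlpha m n k i + NmpBeta m n k i := by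
    intro i
    unfold NmpAlpha
    ring
  rw [sum_range_succ' (fun i => NmpaR m n (k + 1) i / (lev (m + 1) n (k + 1) : ℝ) *
    al m n (k + 1) (cup n A) i)]
  rw [← NmpAlpha_zero]
  simp only [← NmpAlpha_succ, e1]
  have e2 : ∑ i ∈ range (n + 1), (NmpAlpha m n k i + NmpBeta m n k i) * al m n k A i =
      NmpAlpha m n k 0 * al m n k A 0 +
        ∑ i ∈ range n, (NmpAlpha m n k (i + 1) * al m n k A (i + 1) +
          NmpBeta m n k i * al m n k A i) := by
    have e3 : ∀ i, (NmpAlpha m n k i + NmpBeta m n k i) * al m n k A i =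
        NmpAlpha m n k i * al m n k A i + NmpBeta m n k i * al m n k A i := fun i => by ring
    simp only [e3]
    rw [sum_add_distrib, sum_range_succ' (fun i => NmpAlpha m n k i * al m n k A i),
      sum_range_succ (fun i => NmpBeta m n k i * al m n k A i), NmpBeta_last m n k h0 h1,
      sum_add_distrib]
    ring
  rw [e2]
  unfold gT gU
  have e4 : ∑ i ∈ range n,
      (NmpAlpha m n k (i + 1) * (al m n (k + 1) (cup n A) (i + 1) - al m n k A (i + 1)) +
        NmpBeta m n k i * (al m n (k + 1) (cup n A) (i + 1) - al m n k A i)) =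
      ∑ i ∈ range n, (NmpAlpha m n k (i + 1) + NmpBeta m n k i) *
        al m n (k + 1) (cup n A) (i + 1) -
      ∑ i ∈ range n, (NmpAlpha m n k (i + 1) * al m n k A (i + 1) +
        NmpBeta m n k i * al m n k A i) := by
    rw [← sum_sub_distrib]
    refine sum_congr rfl fun i _ => ?_
    ring
  rw [e4]
  ring

theorem gain_ge_T {m n k : ℕ} {A : Finset (Fin (m + 1) → ℕ)} (hA : A ⊆ Q (m + 1) n k)
    (h0 : 0 < lev (m + 1) n k) (h1 : 0 < lev (m + 1) n (k + 1)) {B : Finset ℕ}
    (hB : B ⊆ range (n + 1)) :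
    ∑ i ∈ B, gT m n k A i ≤
      ((cup n A).card : ℝ) / (lev (m + 1) n (k + 1) : ℝ) -
        (A.card : ℝ) / (lev (m + 1) n k : ℝ) := by
  rw [gain_eq hA h0 h1]
  have h2 : ∑ i ∈ B, gT m n k A i ≤ ∑ i ∈ range (n + 1), gT m n k A i :=
    sum_le_sum_of_subset_of_nonneg hB fun i hi _ =>
      gT_nonneg hA (by have := mem_range.1 hi; omega) h0 h1
  rw [sum_range_succ'] at h2
  have h3 : ∑ i ∈ range n, gT m n k A (i + 1) ≤
      ∑ i ∈ range n, (gT m n k A (i + 1) + gU m n k A i) := by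
    refine sum_le_sum fun i hi => ?_
    have := gU_nonneg hA (i := i) (by have := mem_range.1 hi; omega) h0 h1
    linarith
  linarith

theorem gain_ge_pairs {m n k : ℕ} {A : Finset (Fin (m + 1) → ℕ)} (hA : A ⊆ Q (m + 1) n k)
    (h0 : 0 < lev (m + 1) n k) (h1 : 0 < lev (m + 1) n (k + 1)) {i j : ℕ} (hij : i ≤ j)
    (hj : j ≤ n) {c : ℝ} (hc : 0 ≤ c) (hu : ∀ l, i ≤ l → l < j → c ≤ NmpBeta m n k l)
    (hv : ∀ l, i ≤ l → l < j → c ≤ NmpAlpha m n k (l + 1)) :
    c * |al m n k A j - al m n k A i| ≤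
      ((cup n A).card : ℝ) / (lev (m + 1) n (k + 1) : ℝ) -
        (A.card : ℝ) / (lev (m + 1) n k : ℝ) := by
  rw [gain_eq hA h0 h1]
  have hT : ∀ l ∈ range n, 0 ≤ gT m n k A (l + 1) + gU m n k A l := fun l hl =>
    add_nonneg (gT_nonneg hA (by have := mem_range.1 hl; omega) h0 h1)
      (gU_nonneg hA (by have := mem_range.1 hl; omega) h0 h1)
  have hsub : Ico i j ⊆ range n := by
    intro l hl
    rw [mem_Ico] at hl
    exact mem_range.2 (by omega)
  have h2 : ∑ l ∈ Ico i j, (gT m n k A (l + 1) + gU m n k A l) ≤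
      ∑ l ∈ range n, (gT m n k A (l + 1) + gU m n k A l) :=
    sum_le_sum_of_subset_of_nonneg hsub fun l hl _ => hT l hl
  have h3 := gT_nonneg hA (Nat.zero_le n) h0 h1
  have h4 : c * |al m n k A j - al m n k A i| ≤
      ∑ l ∈ Ico i j, c * |al m n k A (l + 1) - al m n k A l| := by
    rw [← mul_sum]
    refine mul_le_mul_of_nonneg_left ?_ hc
    rw [← sum_Ico_sub (al m n k A) hij]
    exact abs_sum_le_sum_abs _ _
  have h5 : ∑ l ∈ Ico i j, c * |al m n k A (l + 1) - al m n k A l| ≤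
      ∑ l ∈ Ico i j, (gT m n k A (l + 1) + gU m n k A l) := by
    refine sum_le_sum fun l hl => ?_
    rw [mem_Ico] at hl
    have hul := hu l hl.1 hl.2
    have hvl := hv l hl.1 hl.2
    have ha := al_le_be_succ hA (i := l) (by omega)
    have hb : al m n k A (l + 1) ≤ al m n (k + 1) (cup n A) (l + 1) ∨
        NmpaR m n (k + 1) (l + 1) = 0 := by
      rcases (NmpaR_nonneg m n (k + 1) (l + 1)).eq_or_lt with h | h
      · exact Or.inr h.symm
      · exact Or.inl (al_le_be hA h)
    rcases hb with hb | hb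
    · have hUl : c * (al m n (k + 1) (cup n A) (l + 1) - al m n k A l) ≤ gU m n k A l := by
        unfold gU
        exact mul_le_mul_of_nonneg_right hul (sub_nonneg.2 ha)
      have hTl : c * (al m n (k + 1) (cup n A) (l + 1) - al m n k A (l + 1)) ≤
          gT m n k A (l + 1) := by
        unfold gT
        exact mul_le_mul_of_nonneg_right hvl (sub_nonneg.2 hb)
      have habs : |al m n k A (l + 1) - al m n k A l| ≤
          (al m n (k + 1) (cup n A) (l + 1) - al m n k A l) +
            (al m n (k + 1) (cup n A) (l + 1) - al m n k A (l + 1)) := by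
        rw [abs_le]
        constructor <;> linarith
      have := mul_le_mul_of_nonneg_left habs hc
      linarith
    · have hv0 := alpha_zero_of (by omega) h0 h1 hb
      have hc0 : c = 0 := by linarith
      rw [hc0, zero_mul]
      exact add_nonneg (gT_nonneg hA (by omega) h0 h1) (gU_nonneg hA (by omega) h0 h1)
  linarith

/-- number of integers in a real interval -/
theorem card_le_of_interval {S : Finset ℕ} {x y : ℝ} (hxy : x ≤ y)
    (h : ∀ i ∈ S, x ≤ (i : ℝ) ∧ (i : ℝ) ≤ y) : (S.card : ℝ) ≤ y - x + 1 := by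
  rcases S.eq_empty_or_nonempty with rfl | hS
  · simp
    linarith
  · have hsub : S ⊆ Icc (S.min' hS) (S.max' hS) := fun i hi =>
      mem_Icc.2 ⟨min'_le _ _ hi, le_max' _ _ hi⟩
    have h1 := card_le_card hsub
    rw [Nat.card_Icc] at h1
    have h2 := (h _ (min'_mem S hS)).1
    have h3 := (h _ (max'_mem S hS)).2
    have h4 : S.min' hS ≤ S.max' hS := min'_le_max' _ _
    have h5 : (S.card : ℝ) ≤ (S.max' hS : ℝ) + 1 - (S.min' hS : ℝ) := by
      have : S.card + S.min' hS ≤ S.max' hS + 1 := by omega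
      have h6 : ((S.card + S.min' hS : ℕ) : ℝ) ≤ ((S.max' hS + 1 : ℕ) : ℝ) := by exact_mod_cast this
      push_cast at h6
      linarith
    linarith

/-- the good indices -/
noncomputable def Bs (m n k : ℕ) (η : ℝ) : Finset ℕ :=
  open Classical in (range (n + 1)).filter fun i => i ≤ k ∧ η * n ≤ i ∧ (i : ℝ) ≤ (1 - η) * n ∧
    2 * η * n ≤ (k : ℝ) - i ∧ (k : ℝ) - i ≤ (m - 2 * η) * n

theorem mem_Bs {m n k i : ℕ} {η : ℝ} : i ∈ Bs m n k η ↔ i ≤ n ∧ i ≤ k ∧ η * n ≤ i ∧
    (i : ℝ) ≤ (1 - η) * n ∧ 2 * η * n ≤ (k : ℝ) - i ∧ (k : ℝ) - i ≤ (m - 2 * η) * n := by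
  classical
  unfold Bs
  rw [mem_filter, mem_range, Nat.lt_succ_iff]

theorem Bs_convex {m n k i j l : ℕ} {η : ℝ} (hi : i ∈ Bs m n k η) (hj : j ∈ Bs m n k η)
    (h1 : i ≤ l) (h2 : l ≤ j) : l ∈ Bs m n k η := by
  rw [mem_Bs] at hi hj ⊢
  obtain ⟨a1, a2, a3, a4, a5, a6⟩ := hi
  obtain ⟨b1, b2, b3, b4, b5, b6⟩ := hj
  have h1' : (i : ℝ) ≤ l := by exact_mod_cast h1
  have h2' : (l : ℝ) ≤ j := by exact_mod_cast h2
  exact ⟨by omega, by omega, by linarith, by linarith, by linarith, by linarith⟩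

theorem NmpaR_le {p n k i : ℕ} (hn : 1 ≤ n) : NmpaR (p + 1) n k i ≤ (2 * (n : ℝ)) ^ p := by
  unfold NmpaR
  split_ifs
  · have h1 := lev_le (m := p + 1) (n := n) (by omega) (k - i)
    rw [Nat.add_sub_cancel] at h1
    have h2 : ((lev (p + 1) n (k - i) : ℕ) : ℝ) ≤ (((n + 1) ^ p : ℕ) : ℝ) := by exact_mod_cast h1
    push_cast at h2
    refine h2.trans (pow_le_pow_left₀ (by positivity) ?_ p)
    have : (1 : ℝ) ≤ n := by exact_mod_cast hn
    linarith
  · positivity

/-- number of bad indices -/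
theorem card_bad {m n k : ℕ} {η : ℝ} (hη : 0 < η) :
    ((((range (n + 1)) \ Bs m n k η).filter fun i => 0 < NmpaR m n k i).card : ℝ) ≤
      6 * η * n + 4 := by
  classical
  set S := ((range (n + 1)) \ Bs m n k η).filter fun i => 0 < NmpaR m n k i with hS
  have hn0 : (0 : ℝ) ≤ n := Nat.cast_nonneg n
  have hηn : 0 ≤ η * n := by positivity
  set S1 := S.filter fun i : ℕ => (i : ℝ) ≤ η * n
  set S2 := S.filter fun i : ℕ => (1 - η) * n ≤ (i : ℝ)
  set S3 := S.filter fun i : ℕ => (k : ℝ) - i ≤ 2 * η * n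
  set S4 := S.filter fun i : ℕ => (m - 2 * η) * n ≤ (k : ℝ) - i
  have hmem : ∀ i ∈ S, i ≤ n ∧ i ≤ k ∧ k - i ≤ m * n := by
    intro i hi
    rw [hS, mem_filter, mem_sdiff, mem_range] at hi
    obtain ⟨⟨h1, _⟩, h2⟩ := hi
    unfold NmpaR at h2
    split_ifs at h2 with h3
    · refine ⟨by omega, h3, ?_⟩
      by_contra hc
      rw [lev_eq_zero (by omega)] at h2
      simp at h2
    · exact absurd h2 (lt_irrefl _)
  have hsub : S ⊆ S1 ∪ S2 ∪ S3 ∪ S4 := by
    intro i hi
    obtain ⟨h1, h2, h3⟩ := hmem i hi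
    have hi' := hi
    rw [hS, mem_filter, mem_sdiff, mem_Bs] at hi'
    have h4 := hi'.1.2
    simp only [mem_union, S1, S2, S3, S4, mem_filter]
    by_contra hc
    push Not at hc
    obtain ⟨⟨⟨c1, c2⟩, c3⟩, c4⟩ := hc
    exact h4 ⟨h1, h2, (c1 hi).le, (c2 hi).le, (c3 hi).le, (c4 hi).le⟩
  have b1 : (S1.card : ℝ) ≤ η * n - 0 + 1 := by
    refine card_le_of_interval hηn fun i hi => ?_
    exact ⟨Nat.cast_nonneg i, (mem_filter.1 hi).2⟩
  have b2 : (S2.card : ℝ) ≤ n - (1 - η) * n + 1 := by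
    refine card_le_of_interval (by linarith) fun i hi => ?_
    refine ⟨(mem_filter.1 hi).2, ?_⟩
    exact_mod_cast (hmem i (mem_filter.1 hi).1).1
  have b3 : (S3.card : ℝ) ≤ k - (k - 2 * η * n) + 1 := by
    refine card_le_of_interval (by linarith) fun i hi => ?_
    refine ⟨by linarith [(mem_filter.1 hi).2], ?_⟩
    exact_mod_cast (hmem i (mem_filter.1 hi).1).2.1
  have b4 : (S4.card : ℝ) ≤ (k - (m - 2 * η) * n) - (k - m * n) + 1 := by
    refine card_le_of_interval (by nlinarith) fun i hi => ?_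
    refine ⟨?_, by linarith [(mem_filter.1 hi).2]⟩
    obtain ⟨_, h2, h3⟩ := hmem i (mem_filter.1 hi).1
    have h4 : k ≤ m * n + i := by omega
    have h5 : (k : ℝ) ≤ ((m * n + i : ℕ) : ℝ) := by exact_mod_cast h4
    push_cast at h5
    linarith
  have hcard : S.card ≤ S1.card + S2.card + S3.card + S4.card := by
    refine (card_le_card hsub).trans ?_
    refine (card_union_le _ _).trans ?_
    have := card_union_le (S1 ∪ S2) S3
    have := card_union_le S1 S2
    omega
  have hcard' : (S.card : ℝ) ≤ S1.card + S2.card + S3.card + S4.card := by exact_mod_cast hcard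
  linarith

theorem weight_bad {p n k : ℕ} {η c : ℝ} (hn : 1 ≤ n) (hη : 0 < η)
    (hc : 0 < c) (hW : c * (n : ℝ) ^ (p + 1) ≤ (lev (p + 1 + 1) n k : ℝ)) :
    ∑ i ∈ (range (n + 1)) \ Bs (p + 1) n k η, NmpaR (p + 1) n k i / (lev (p + 1 + 1) n k : ℝ) ≤
      (6 * η + 4 / n) * 2 ^ p / c := by
  classical
  have hn0 : (0 : ℝ) < n := by exact_mod_cast hn
  have hW0 : (0 : ℝ) < (lev (p + 1 + 1) n k : ℝ) := lt_of_lt_of_le (by positivity) hW
  rw [← sum_div]
  have h1 : ∑ i ∈ (range (n + 1)) \ Bs (p + 1) n k η, NmpaR (p + 1) n k i =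
      ∑ i ∈ ((range (n + 1)) \ Bs (p + 1) n k η).filter fun i => 0 < NmpaR (p + 1) n k i,
        NmpaR (p + 1) n k i := by
    rw [sum_filter]
    refine sum_congr rfl fun i _ => ?_
    split_ifs with h
    · rfl
    · exact le_antisymm (not_lt.1 h) (NmpaR_nonneg _ _ _ _)
  rw [h1]
  have h2 : ∑ i ∈ ((range (n + 1)) \ Bs (p + 1) n k η).filter fun i => 0 < NmpaR (p + 1) n k i,
      NmpaR (p + 1) n k i ≤ (6 * η * n + 4) * (2 * (n : ℝ)) ^ p := by
    refine (sum_le_card_nsmul _ _ _ fun i _ => NmpaR_le hn).trans ?_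
    rw [nsmul_eq_mul]
    exact mul_le_mul_of_nonneg_right (card_bad hη) (by positivity)
  calc (∑ i ∈ ((range (n + 1)) \ Bs (p + 1) n k η).filter fun i => 0 < NmpaR (p + 1) n k i,
        NmpaR (p + 1) n k i) / (lev (p + 1 + 1) n k : ℝ)
      ≤ ((6 * η * n + 4) * (2 * (n : ℝ)) ^ p) / (c * (n : ℝ) ^ (p + 1)) :=
        div_le_div₀ (by positivity) h2 (by positivity) hW
    _ = (6 * η + 4 / n) * 2 ^ p / c := by
        rw [mul_pow, pow_succ]
        field_simp

theorem sum_weight {m n k : ℕ} {η : ℝ} (h0 : 0 < lev (m + 1) n k) :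
    ∑ i ∈ Bs m n k η, NmpaR m n k i / (lev (m + 1) n k : ℝ) =
      1 - ∑ i ∈ (range (n + 1)) \ Bs m n k η, NmpaR m n k i / (lev (m + 1) n k : ℝ) := by
  have hsub : Bs m n k η ⊆ range (n + 1) := by
    intro i hi
    rw [mem_Bs] at hi
    exact mem_range.2 (by omega)
  have h1 := sum_sdiff (f := fun i => NmpaR m n k i / (lev (m + 1) n k : ℝ)) hsub
  have h2 : ∑ i ∈ range (n + 1), NmpaR m n k i / (lev (m + 1) n k : ℝ) = 1 := by
    rw [← sum_div, ← Nmp_lev_succ]
    have : (0 : ℝ) < (lev (m + 1) n k : ℝ) := by exact_mod_cast h0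
    field_simp
  rw [h2] at h1
  linarith

theorem card_Bs {p n k : ℕ} {η c : ℝ} (hn : 1 ≤ n) (hc : 0 < c)
    (hW : c * (n : ℝ) ^ (p + 1) ≤ (lev (p + 1 + 1) n k : ℝ))
    (h : (1 : ℝ) / 2 ≤ ∑ i ∈ Bs (p + 1) n k η,
      NmpaR (p + 1) n k i / (lev (p + 1 + 1) n k : ℝ)) :
    c * n / 2 ^ (p + 1) ≤ ((Bs (p + 1) n k η).card : ℝ) := by
  have hn0 : (0 : ℝ) < n := by exact_mod_cast hn
  have hW0 : (0 : ℝ) < (lev (p + 1 + 1) n k : ℝ) := lt_of_lt_of_le (by positivity) hW
  have h1 : ∑ i ∈ Bs (p + 1) n k η, NmpaR (p + 1) n k i / (lev (p + 1 + 1) n k : ℝ) ≤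
      ((Bs (p + 1) n k η).card : ℝ) * (2 ^ p / (c * n)) := by
    rw [← nsmul_eq_mul]
    refine sum_le_card_nsmul _ _ _ fun i _ => ?_
    calc NmpaR (p + 1) n k i / (lev (p + 1 + 1) n k : ℝ)
        ≤ (2 * (n : ℝ)) ^ p / (c * (n : ℝ) ^ (p + 1)) :=
          div_le_div₀ (by positivity) (NmpaR_le hn) (by positivity) hW
      _ = 2 ^ p / (c * n) := by
          rw [mul_pow, pow_succ]
          field_simp
  have h2 := h.trans h1
  rw [← mul_div_assoc, le_div_iff₀ (by positivity)] at h2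
  rw [div_le_iff₀ (by positivity), pow_succ]
  linarith

/-- Case 2: the densities of the slices in the bulk are not near `0`, `1`. -/
theorem al_mid {m n k : ℕ} {η ε : ℝ} {A : Finset (Fin (m + 1) → ℕ)} (hA : A ⊆ Q (m + 1) n k)
    (hε : 0 < ε) (hε1 : ε ≤ 1 / 2) (h0 : 0 < lev (m + 1) n k)
    (hlo : ε * (lev (m + 1) n k : ℝ) ≤ A.card)
    (hup : (A.card : ℝ) ≤ (1 - ε) * (lev (m + 1) n k : ℝ))
    (hbad : ∑ i ∈ (range (n + 1)) \ Bs m n k η, NmpaR m n k i / (lev (m + 1) n k : ℝ) ≤ ε / 4)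
    (hclose : ∀ i ∈ Bs m n k η, ∀ j ∈ Bs m n k η, |al m n k A j - al m n k A i| ≤ ε / 8)
    {i : ℕ} (hi : i ∈ Bs m n k η) : ε / 2 ≤ al m n k A i ∧ al m n k A i ≤ 1 - ε / 2 := by
  have hW : (0 : ℝ) < (lev (m + 1) n k : ℝ) := by exact_mod_cast h0
  have hsub : Bs m n k η ⊆ range (n + 1) := by
    intro i hi
    rw [mem_Bs] at hi
    exact mem_range.2 (by omega)
  have hd := dens_eq hA
  rw [← sum_sdiff hsub] at hd
  have hlo' : ε ≤ (A.card : ℝ) / (lev (m + 1) n k : ℝ) := by
    rw [le_div_iff₀ hW]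
    exact hlo
  have hup' : (A.card : ℝ) / (lev (m + 1) n k : ℝ) ≤ 1 - ε := by
    rw [div_le_iff₀ hW]
    exact hup
  have hwn : ∀ j, 0 ≤ NmpaR m n k j / (lev (m + 1) n k : ℝ) := fun j =>
    div_nonneg (NmpaR_nonneg _ _ _ _) hW.le
  have hout1 : ∑ j ∈ (range (n + 1)) \ Bs m n k η,
      NmpaR m n k j / (lev (m + 1) n k : ℝ) * al m n k A j ≤ ε / 4 := by
    refine le_trans (sum_le_sum fun j _ => ?_) hbad
    have h1 := al_le_one (i := j) hA
    have := mul_le_mul_of_nonneg_left h1 (hwn j)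
    linarith
  have hout0 : 0 ≤ ∑ j ∈ (range (n + 1)) \ Bs m n k η,
      NmpaR m n k j / (lev (m + 1) n k : ℝ) * al m n k A j :=
    sum_nonneg fun j _ => mul_nonneg (hwn j) (al_nonneg _ _)
  have hout2 : 0 ≤ ∑ j ∈ (range (n + 1)) \ Bs m n k η,
      NmpaR m n k j / (lev (m + 1) n k : ℝ) := sum_nonneg fun j _ => hwn j
  have hsw := sum_weight (η := η) h0
  set w := ∑ j ∈ Bs m n k η, NmpaR m n k j / (lev (m + 1) n k : ℝ) with hw
  have hw1 : w ≤ 1 := by linarith
  have hw2 : 1 - ε / 4 ≤ w := by linarith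
  have hin1 : ∑ j ∈ Bs m n k η, NmpaR m n k j / (lev (m + 1) n k : ℝ) * al m n k A j ≤
      w * (al m n k A i + ε / 8) := by
    rw [hw, sum_mul]
    refine sum_le_sum fun j hj => mul_le_mul_of_nonneg_left ?_ (hwn j)
    have := (abs_le.1 (hclose i hi j hj)).2
    linarith
  have hin2 : w * (al m n k A i - ε / 8) ≤
      ∑ j ∈ Bs m n k η, NmpaR m n k j / (lev (m + 1) n k : ℝ) * al m n k A j := by
    rw [hw, sum_mul]
    refine sum_le_sum fun j hj => mul_le_mul_of_nonneg_left ?_ (hwn j)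
    have := (abs_le.1 (hclose i hi j hj)).1
    linarith
  have ha := al_nonneg (m := m) (n := n) (k := k) A i
  constructor
  · have h1 : w * (al m n k A i + ε / 8) ≤ al m n k A i + ε / 8 := by
      have : w * (al m n k A i + ε / 8) ≤ 1 * (al m n k A i + ε / 8) :=
        mul_le_mul_of_nonneg_right hw1 (by linarith)
      linarith
    linarith
  · by_contra hc
    push Not at hc
    have h1 : (1 - ε / 4) * (1 - ε / 2 - ε / 8) ≤ w * (al m n k A i - ε / 8) :=
      mul_le_mul hw2 (by linarith) (by linarith) (by linarith)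
    nlinarith

end StabAux

open StabAux

theorem stab (m : ℕ) (η ε : ℝ) (hη : 0 < η) (hε : 0 < ε) :
    ∃ (c : ℝ) (n₀ : ℕ), 0 < c ∧ ∀ n k : ℕ, n₀ ≤ n → η * n ≤ k → (k : ℝ) ≤ (m - η) * n →
      ∀ A ⊆ Q m n k, ε * (lev m n k : ℝ) ≤ A.card → (A.card : ℝ) ≤ (1 - ε) * (lev m n k : ℝ) →
        (A.card : ℝ) / (lev m n k : ℝ) + c / n ≤
          ((cup n A).card : ℝ) / (lev m n (k + 1) : ℝ) := by
  induction m generalizing η ε with
  | zero =>
    refine ⟨1, 1, one_pos, ?_⟩
    intro n k hn hk1 hk2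
    exfalso
    have hn0 : (0 : ℝ) < n := by exact_mod_cast hn
    have := mul_pos hη hn0
    push_cast at hk2
    linarith
  | succ m ih =>
    rcases m with _ | p
    · refine ⟨1, 1, one_pos, ?_⟩
      intro n k hn hk1 hk2 A hA h1 h2
      exfalso
      have hn0 : (0 : ℝ) < n := by exact_mod_cast hn
      have hkn : k ≤ n := by
        have : (k : ℝ) ≤ n := by
          have := mul_pos hη hn0
          push_cast at hk2
          linarith
        exact_mod_cast this
      have e : (lev (0 + 1) n k : ℝ) = 1 := FluxAux.lev_one hkn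
      rw [e, mul_one] at h1 h2
      have h3 : (0 : ℝ) < A.card := lt_of_lt_of_le hε h1
      have h4 : 1 ≤ A.card := by exact_mod_cast h3
      have h5 : (1 : ℝ) ≤ A.card := by exact_mod_cast h4
      linarith
    · obtain ⟨cb, hcb, hbulk⟩ := lev_bulk (p + 1) η hη
      set η₁ : ℝ := cb * ε / (96 * 2 ^ p) with hη₁
      have hη₁0 : 0 < η₁ := by positivity
      obtain ⟨cf, nf, hcf, hflux⟩ := flux (m := p + 1) (by omega) η₁ hη₁0
      obtain ⟨c', n', hc', hih⟩ := ih η₁ (ε / 2) hη₁0 (by linarith)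
      refine ⟨min (cf * ε / 8) (cf * c' * cb / 2 ^ (p + 1)),
        nf + n' + ⌈64 * 2 ^ p / (cb * ε)⌉₊ + ⌈1 / η⌉₊ + 1, lt_min (by positivity) (by positivity),
        ?_⟩
      intro n k hn hk1 hk2 A hA hlo hup
      have hn1 : 1 ≤ n := by omega
      have hn0 : (0 : ℝ) < n := by exact_mod_cast hn1
      have hk2' : (k : ℝ) ≤ (((p + 1 : ℕ) : ℝ) + 1 - η) * n := by
        push_cast at hk2 ⊢
        exact hk2
      have hW := hbulk n k hn1 hk1 hk2'
      have hkk : k + 1 ≤ (p + 1 + 1) * n := by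
        have h3 : (1 : ℝ) / η ≤ n := by
          refine (Nat.le_ceil _).trans ?_
          have : ⌈1 / η⌉₊ ≤ n := by omega
          exact_mod_cast this
        rw [div_le_iff₀ hη] at h3
        have : ((k + 1 : ℕ) : ℝ) ≤ (((p + 1 + 1) * n : ℕ) : ℝ) := by
          push_cast
          push_cast at hk2'
          linarith
        exact_mod_cast this
      have h0 : 0 < lev (p + 1 + 1) n k := lev_pos (by omega)
      have h1 : 0 < lev (p + 1 + 1) n (k + 1) := lev_pos hkk
      have hW0 : (0 : ℝ) < (lev (p + 1 + 1) n k : ℝ) := by exact_mod_cast h0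
      have hε1 : ε ≤ 1 / 2 := by
        have h3 := hlo.trans hup
        have h4 := le_of_mul_le_mul_right h3 hW0
        linarith
      have hbad : ∑ i ∈ (range (n + 1)) \ Bs (p + 1) n k η₁,
          NmpaR (p + 1) n k i / (lev (p + 1 + 1) n k : ℝ) ≤ ε / 4 := by
        refine (weight_bad hn1 hη₁0 hcb hW).trans ?_
        have h3 : 64 * 2 ^ p / (cb * ε) ≤ (n : ℝ) := by
          refine (Nat.le_ceil _).trans ?_
          have : ⌈64 * (2 : ℝ) ^ p / (cb * ε)⌉₊ ≤ n := by omega
          exact_mod_cast this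
        rw [div_le_iff₀ (by positivity)] at h3
        have h4 : 4 / (n : ℝ) * 2 ^ p / cb ≤ ε / 16 := by
          rw [div_le_iff₀ hcb, div_mul_eq_mul_div, div_le_iff₀ hn0]
          linarith
        have h5 : 6 * η₁ * 2 ^ p / cb = ε / 16 := by
          rw [hη₁]
          field_simp
          norm_num
        have h6 : (6 * η₁ + 4 / n) * 2 ^ p / cb = 6 * η₁ * 2 ^ p / cb + 4 / (n : ℝ) * 2 ^ p / cb := by
          ring
        rw [h6, h5]
        linarith
      have hBsub : Bs (p + 1) n k η₁ ⊆ range (n + 1) := by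
        intro i hi
        rw [mem_Bs] at hi
        exact mem_range.2 (by omega)
      have hfl : ∀ i ∈ Bs (p + 1) n k η₁,
          cf / n ≤ NmpBeta (p + 1) n k i ∧ cf / n ≤ NmpAlpha (p + 1) n k i := by
        intro i hi
        rw [mem_Bs] at hi
        obtain ⟨_, a2, a3, a4, a5, a6⟩ := hi
        exact hflux n k i (by omega) a2 a3 a4 a5 a6
      have hgain : min (cf * ε / 8) (cf * c' * cb / 2 ^ (p + 1)) / n ≤
          ((cup n A).card : ℝ) / (lev (p + 1 + 1) n (k + 1) : ℝ) -
            (A.card : ℝ) / (lev (p + 1 + 1) n k : ℝ) := by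
        by_cases hcase : ∀ i ∈ Bs (p + 1) n k η₁, ∀ j ∈ Bs (p + 1) n k η₁,
            |al (p + 1) n k A j - al (p + 1) n k A i| ≤ ε / 8
        · -- Case 2
          refine le_trans ?_ (gain_ge_T hA h0 h1 hBsub)
          have hg : ∀ i ∈ Bs (p + 1) n k η₁, cf * c' / (n : ℝ) ^ 2 ≤ gT (p + 1) n k A i := by
            intro i hi
            obtain ⟨m1, m2⟩ := al_mid hA hε hε1 h0 hlo hup hbad hcase hi
            have hv := (hfl i hi).2
            rw [mem_Bs] at hi
            obtain ⟨a1, a2, a3, a4, a5, a6⟩ := hi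
            have hki : ((k - i : ℕ) : ℝ) = (k : ℝ) - i := by
              rw [Nat.cast_sub a2]
            have hηn : 0 < η₁ * n := by positivity
            have e1 : NmpaR (p + 1) n k i = (lev (p + 1) n (k - i) : ℝ) := by
              unfold NmpaR
              rw [if_pos a2]
            have e2 : NmpaR (p + 1) n (k + 1) i = (lev (p + 1) n (k - i + 1) : ℝ) := by
              unfold NmpaR
              rw [if_pos (by omega)]
              congr 2
              omega
            have hki2 : k - i + 1 ≤ (p + 1) * n := by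
              have h3 : (k : ℝ) - i < (p + 1) * n := by
                push_cast at a6
                linarith
              have h4 : ((k - i : ℕ) : ℝ) < (((p + 1) * n : ℕ) : ℝ) := by
                rw [hki]
                push_cast
                exact h3
              have h5 : k - i < (p + 1) * n := by exact_mod_cast h4
              omega
            have l0 : (0 : ℝ) < (lev (p + 1) n (k - i) : ℝ) := by
              exact_mod_cast lev_pos (m := p + 1) (n := n) (r := k - i) (by omega)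
            have l1 : (0 : ℝ) < (lev (p + 1) n (k - i + 1) : ℝ) := by
              exact_mod_cast lev_pos (m := p + 1) (n := n) (r := k - i + 1) hki2
            have hst := hih n (k - i) (by omega) (by rw [hki]; linarith)
              (by
                rw [hki]
                linarith) (slc i A) (slc_subset (i := i) hA).1
              (by
                have := m1
                unfold al at this
                rw [e1, le_div_iff₀ l0] at this
                exact this)
              (by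
                have := m2
                unfold al at this
                rw [e1, div_le_iff₀ l0] at this
                exact this)
            have hcup : ((cup n (slc i A)).card : ℝ) ≤ ((slc i (cup n A)).card : ℝ) := by
              exact_mod_cast card_le_card (slice_up hA).1
            have hγ : c' / n ≤ al (p + 1) n (k + 1) (cup n A) i - al (p + 1) n k A i := by
              unfold al
              rw [e1, e2]
              have := div_le_div_of_nonneg_right hcup l1.le
              linarith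
            unfold gT
            calc cf * c' / (n : ℝ) ^ 2 = (cf / n) * (c' / n) := by
                  field_simp
              _ ≤ _ := mul_le_mul hv hγ (by positivity) (le_trans (by positivity) hv)
          have hB : cb * n / 2 ^ (p + 1) ≤ ((Bs (p + 1) n k η₁).card : ℝ) := by
            refine card_Bs hn1 hcb hW ?_
            rw [sum_weight h0]
            linarith
          calc min (cf * ε / 8) (cf * c' * cb / 2 ^ (p + 1)) / n
              ≤ (cf * c' * cb / 2 ^ (p + 1)) / n :=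
                div_le_div_of_nonneg_right (min_le_right _ _) hn0.le
            _ = (cb * n / 2 ^ (p + 1)) * (cf * c' / (n : ℝ) ^ 2) := by
                field_simp
            _ ≤ ((Bs (p + 1) n k η₁).card : ℝ) * (cf * c' / (n : ℝ) ^ 2) :=
                mul_le_mul_of_nonneg_right hB (by positivity)
            _ ≤ ∑ i ∈ Bs (p + 1) n k η₁, gT (p + 1) n k A i := by
                rw [← nsmul_eq_mul]
                exact card_nsmul_le_sum _ _ _ hg
        · -- Case 1
          push Not at hcase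
          obtain ⟨i, hi, j, hj, hij⟩ := hcase
          wlog hle : i ≤ j generalizing i j with H
          · refine H j hj i hi ?_ (by omega)
            rw [abs_sub_comm]
            exact hij
          have hjn := (mem_Bs.1 hj).1
          refine le_trans ?_ (gain_ge_pairs hA h0 h1 hle hjn (c := cf / n) (by positivity)
            (fun l hl1 hl2 => (hfl l (Bs_convex hi hj hl1 hl2.le)).1)
            (fun l hl1 hl2 => (hfl (l + 1) (Bs_convex hi hj (by omega) (by omega))).2))
          calc min (cf * ε / 8) (cf * c' * cb / 2 ^ (p + 1)) / n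
              ≤ (cf * ε / 8) / n := div_le_div_of_nonneg_right (min_le_left _ _) hn0.le
            _ = (cf / n) * (ε / 8) := by ring
            _ ≤ _ := mul_le_mul_of_nonneg_left hij.le (by positivity)
      linarith

end Pool.Agent.Helper46.MR
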