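import Pool.Agent.Helper46.MR.BurnIneq
import Pool.Agent.Helper46.MR.Stab
import Pool.Agent.Helper46.MR.SgFacts

set_option autoImplicit false

/-!
# MR-21 Mid: sets of middle size gain

PROOF. `B = sy n (k+1) D`, `G = Q m n k \ clo B = sy n k (P m n k \ lo D)` (`clo_sy`, `sy_compl`).
`W k = lev m n k ≤ (n+1)^(m-1)`. Density of `G`: `|G| ≥ |P m n k \ lo D| ≥ ε n^(m-1) ≥ ε' W k`; and
`|clo B| ≥ |B| W k / W(k+1) ≥ ε n^(m-1) W k/ W(k+1) ≥ ε' W k` (`lym_lo`, `|B| ≥ |D|`,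
`W(k+1) ≤ (n+1)^(m-1)`), so `|G| ≤ (1-ε') W k`. `stab`:
`|cup n G| / W(k+1) ≥ |G| / W k + c/n`; `cup n G` is disjoint from `B` (`cup_disjoint`), so
`|B| ≤ W(k+1) - |cup n G| ≤ W(k+1) (|clo B| / W k - c/n)`, i.e.
`|B| - |clo B| ≤ (q-1)|clo B| - (c/n) W(k+1)` with `q = qq m n k ≥ 1`. Now `burn_lo`,
`|clo B| = |sy n k (lo D)| ≤ m! |lo D|`, `W(k+1) ≥ c' n^(m-1)` (`lev_bulk`), and
`(n+1)^(m-3)` is smaller than `(c c'/(2 m!)) n^(m-2)` for large `n`.
-/

namespace Pool.Agent.Helper46.MR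

open Finset Pool.Agent.Helper30.SC

namespace MidAux

/-- the level inequality in the cube, from `stab` -/
theorem cube {m n k : ℕ} {D : Finset (Fin m → ℕ)} (hD : D ⊆ P m n (k + 1))
    (hk : k + 1 ≤ m * n) {ε' X c₁ : ℝ} (hX0 : 0 ≤ X)
    (hW : (lev m n k : ℝ) ≤ X) (hW' : (lev m n (k + 1) : ℝ) ≤ X) (hε : 0 ≤ ε')
    (h1 : ε' * X ≤ D.card) (h2 : ((lo D).card : ℝ) + ε' * X ≤ (P m n k).card)
    (hst : ∀ A ⊆ Q m n k, ε' * (lev m n k : ℝ) ≤ A.card →
      (A.card : ℝ) ≤ (1 - ε') * (lev m n k : ℝ) →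
        (A.card : ℝ) / (lev m n k : ℝ) + c₁ / n ≤
          ((cup n A).card : ℝ) / (lev m n (k + 1) : ℝ)) :
    ((sy n (k + 1) D).card : ℝ) - ((clo (sy n (k + 1) D)).card : ℝ) ≤
      (qq m n k - 1) * ((clo (sy n (k + 1) D)).card : ℝ) - c₁ / n * (lev m n (k + 1) : ℝ) := by
  classical
  have hW0 : (0 : ℝ) < (lev m n k : ℝ) := by exact_mod_cast lev_pos (by omega)
  have hW1 : (0 : ℝ) < (lev m n (k + 1) : ℝ) := by exact_mod_cast lev_pos hk
  set B := sy n (k + 1) D with hB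
  have hBQ : B ⊆ Q m n (k + 1) := sy_subset D
  have hCQ : clo B ⊆ Q m n k := clo_subset hBQ
  set G := Q m n k \ clo B with hG
  have hGQ : G ⊆ Q m n k := sdiff_subset
  have hGc : G.card + (clo B).card = lev m n k := by
    rw [← card_Q, hG, card_sdiff_add_card_eq_card hCQ]
  have hGc' : (G.card : ℝ) + ((clo B).card : ℝ) = (lev m n k : ℝ) := by exact_mod_cast hGc
  -- lower bound for `G`
  have hGeq : G = sy n k (P m n k \ lo D) := by
    rw [hG, hB, clo_sy hD, sy_compl (lo_subset hD)]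
  have hGlow : ((P m n k).card : ℝ) ≤ G.card + (lo D).card := by
    have h3 : (P m n k \ lo D).card ≤ G.card := by
      rw [hGeq]
      exact card_le_card (subset_sy sdiff_subset)
    have h4 : (P m n k).card ≤ (P m n k \ lo D).card + (lo D).card := by
      rw [card_sdiff_add_card_eq_card (lo_subset hD)]
    exact_mod_cast h4.trans (by omega)
  have hG1 : ε' * (lev m n k : ℝ) ≤ G.card := by
    have : ε' * (lev m n k : ℝ) ≤ ε' * X := mul_le_mul_of_nonneg_left hW hε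
    linarith
  -- upper bound for `G`
  have hDB : (D.card : ℝ) ≤ B.card := by
    exact_mod_cast card_le_card (subset_sy hD)
  have hlym : (B.card : ℝ) * (lev m n k : ℝ) ≤ ((clo B).card : ℝ) * (lev m n (k + 1) : ℝ) := by
    exact_mod_cast lym_lo hBQ
  have hC1 : ε' * (lev m n k : ℝ) ≤ (clo B).card := by
    have h5 : ε' * (lev m n (k + 1) : ℝ) ≤ ε' * X := mul_le_mul_of_nonneg_left hW' hε
    have h6 : ε' * (lev m n (k + 1) : ℝ) * (lev m n k : ℝ) ≤
        ((clo B).card : ℝ) * (lev m n (k + 1) : ℝ) := by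
      refine le_trans ?_ hlym
      exact mul_le_mul_of_nonneg_right (by linarith) hW0.le
    have h7 : (ε' * (lev m n k : ℝ)) * (lev m n (k + 1) : ℝ) ≤
        ((clo B).card : ℝ) * (lev m n (k + 1) : ℝ) := by
      calc (ε' * (lev m n k : ℝ)) * (lev m n (k + 1) : ℝ)
          = ε' * (lev m n (k + 1) : ℝ) * (lev m n k : ℝ) := by ring
        _ ≤ _ := h6
    exact le_of_mul_le_mul_right h7 hW1
  have hG2 : (G.card : ℝ) ≤ (1 - ε') * (lev m n k : ℝ) := by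
    have : (1 - ε') * (lev m n k : ℝ) = (lev m n k : ℝ) - ε' * (lev m n k : ℝ) := by ring
    rw [this]
    linarith
  have hs := hst G hGQ hG1 hG2
  -- disjointness
  have hdis : Disjoint (cup n G) B := cup_disjoint (by rw [hG]; exact sdiff_disjoint)
  have hsum : (cup n G).card + B.card ≤ lev m n (k + 1) := by
    rw [← card_Q, ← card_union_of_disjoint hdis]
    exact card_le_card (union_subset (cup_subset hGQ) hBQ)
  have hsum' : ((cup n G).card : ℝ) + (B.card : ℝ) ≤ (lev m n (k + 1) : ℝ) := by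
    exact_mod_cast hsum
  have hs' : ((G.card : ℝ) / (lev m n k : ℝ) + c₁ / n) * (lev m n (k + 1) : ℝ) ≤
      ((cup n G).card : ℝ) := by
    have := mul_le_mul_of_nonneg_right hs hW1.le
    rwa [div_mul_cancel₀ _ hW1.ne'] at this
  have hGd : (G.card : ℝ) / (lev m n k : ℝ) = 1 - ((clo B).card : ℝ) / (lev m n k : ℝ) := by
    rw [eq_sub_iff_add_eq, ← add_div, hGc', div_self hW0.ne']
  have hq : qq m n k * ((clo B).card : ℝ) =
      ((clo B).card : ℝ) / (lev m n k : ℝ) * (lev m n (k + 1) : ℝ) := by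
    unfold qq
    ring
  rw [hGd] at hs'
  have e1 : (qq m n k - 1) * ((clo B).card : ℝ) =
      ((clo B).card : ℝ) / (lev m n k : ℝ) * (lev m n (k + 1) : ℝ) - ((clo B).card : ℝ) := by
    rw [sub_mul, hq, one_mul]
  rw [e1]
  have e2 : (1 - ((clo B).card : ℝ) / (lev m n k : ℝ) + c₁ / n) * (lev m n (k + 1) : ℝ) =
      (lev m n (k + 1) : ℝ) -
        ((clo B).card : ℝ) / (lev m n k : ℝ) * (lev m n (k + 1) : ℝ) +
        c₁ / n * (lev m n (k + 1) : ℝ) := by ring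
  rw [e2] at hs'
  linarith

end MidAux

theorem mid_lo {m : ℕ} (hm : 3 ≤ m) (η ε : ℝ) (hη : 0 < η) (hε : 0 < ε) :
    ∃ (c : ℝ) (n₀ : ℕ), 0 < c ∧ ∀ n k : ℕ, n₀ ≤ n → η * n ≤ k → 2 * k + 2 ≤ m * n →
      ∀ D ⊆ P m n (k + 1), ε * (n : ℝ) ^ (m - 1) ≤ D.card →
        ((lo D).card : ℝ) + ε * (n : ℝ) ^ (m - 1) ≤ (P m n k).card →
        df D ≤ (qq m n k - 1) * (lo D).card - c * (n : ℝ) ^ (m - 2) := by
  obtain ⟨p, rfl⟩ := Nat.exists_eq_add_of_le' hm
  have e1 : p + 3 - 1 = p + 2 := rfl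
  have e2 : p + 3 - 2 = p + 1 := rfl
  have e3 : p + 3 - 3 = p := rfl
  -- constants
  set η' : ℝ := min η 1 with hη'
  have hη'0 : 0 < η' := lt_min hη one_pos
  have hη'1 : η' ≤ 1 := min_le_right _ _
  have hη'η : η' ≤ η := min_le_left _ _
  set ε' : ℝ := ε / 2 ^ (p + 2) with hε'
  have hε'0 : 0 < ε' := by positivity
  obtain ⟨c', hc'0, hbulk⟩ := lev_bulk (p + 2) η' hη'0
  obtain ⟨c₁, n₁, hc₁, hstab⟩ := stab (p + 3) η' ε' hη'0 hε'0
  set F : ℝ := ((p + 3).factorial : ℝ) with hF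
  have hF0 : 0 < F := by
    rw [hF]
    exact_mod_cast Nat.factorial_pos _
  set c : ℝ := c₁ * c' / (2 * F) with hc
  have hc0 : 0 < c := by positivity
  obtain ⟨n₂, hn₂⟩ := exists_nat_ge (2 ^ p / c)
  refine ⟨c, max 1 (max n₁ n₂), hc0, ?_⟩
  intro n k hn hkη hk D hD hDc hloc
  have hn1 : 1 ≤ n := (le_max_left _ _).trans hn
  have hnn1 : n₁ ≤ n := ((le_max_left _ _).trans (le_max_right _ _)).trans hn
  have hnn2 : n₂ ≤ n := ((le_max_right _ _).trans (le_max_right _ _)).trans hn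
  have hnR : (1 : ℝ) ≤ (n : ℝ) := by exact_mod_cast hn1
  have hn0 : (0 : ℝ) < (n : ℝ) := by linarith
  have hk1 : k + 1 ≤ (p + 3) * n := by omega
  have hkR : (k : ℝ) ≤ ((p : ℝ) + 3) * n / 2 - 1 := by
    have : ((2 * k + 2 : ℕ) : ℝ) ≤ (((p + 3) * n : ℕ) : ℝ) := by exact_mod_cast hk
    push_cast at this
    linarith
  have hkη' : η' * n ≤ k := (mul_le_mul_of_nonneg_right hη'η hn0.le).trans hkη
  have hp0 : (0 : ℝ) ≤ p := Nat.cast_nonneg p
  have hkup : (k : ℝ) ≤ ((p : ℝ) + 3 - η') * n := by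
    have h3 : ((p : ℝ) + 3) / 2 * n ≤ ((p : ℝ) + 3 - η') * n :=
      mul_le_mul_of_nonneg_right (by linarith) hn0.le
    linarith
  -- sizes of levels
  have hle : ∀ r, (lev (p + 3) n r : ℝ) ≤ 2 ^ (p + 2) * (n : ℝ) ^ (p + 2) := by
    intro r
    have h3 : lev (p + 3) n r ≤ (n + 1) ^ (p + 2) := lev_le (by omega) r
    have h4 : (lev (p + 3) n r : ℝ) ≤ ((n : ℝ) + 1) ^ (p + 2) := by exact_mod_cast h3
    refine h4.trans ?_
    rw [← mul_pow]
    exact pow_le_pow_left₀ (by linarith) (by linarith) _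
  have hX : ε' * (2 ^ (p + 2) * (n : ℝ) ^ (p + 2)) = ε * (n : ℝ) ^ (p + 2) := by
    rw [hε']
    field_simp
  rw [e1] at hDc hloc
  have hcube := MidAux.cube (m := p + 3) (n := n) (k := k) hD hk1
    (ε' := ε') (X := 2 ^ (p + 2) * (n : ℝ) ^ (p + 2)) (c₁ := c₁) (by positivity)
    (hle k) (hle (k + 1)) hε'0.le (by rw [hX]; exact hDc) (by rw [hX]; exact hloc)
    (fun A hA h1 h2 => hstab n k hnn1 hkη' (by push_cast; exact hkup) A hA h1 h2)
  have hburn := burn_lo (m := p + 3) (n := n) (k := k) (by omega) hD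
  rw [e3, ← hF] at hburn
  -- `q ≥ 1`
  have hW0 : (0 : ℝ) < (lev (p + 3) n k : ℝ) := by exact_mod_cast lev_pos (by omega)
  have hmono : (lev (p + 3) n k : ℝ) ≤ (lev (p + 3) n (k + 1) : ℝ) := by
    exact_mod_cast lev_mono (Nat.le_succ k) (by omega)
  have hq : 0 ≤ qq (p + 3) n k - 1 := by
    unfold qq
    rw [sub_nonneg, le_div_iff₀ hW0, one_mul]
    exact hmono
  have hsc : ((clo (sy n (k + 1) D)).card : ℝ) ≤ F * (lo D).card := by
    rw [clo_sy hD, hF]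
    exact_mod_cast sy_card_le (lo_subset hD)
  have h5 : (qq (p + 3) n k - 1) * ((clo (sy n (k + 1) D)).card : ℝ) ≤
      (qq (p + 3) n k - 1) * (F * (lo D).card) := mul_le_mul_of_nonneg_left hsc hq
  have hW1 : c' * (n : ℝ) ^ (p + 2) ≤ (lev (p + 3) n (k + 1) : ℝ) := by
    refine le_trans (hbulk n k hn1 hkη' ?_) hmono
    push_cast
    linarith
  have h6 : c₁ * c' * (n : ℝ) ^ (p + 1) ≤ c₁ / n * (lev (p + 3) n (k + 1) : ℝ) := by
    have h7 : c₁ / n * (c' * (n : ℝ) ^ (p + 2)) ≤ c₁ / n * (lev (p + 3) n (k + 1) : ℝ) :=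
      mul_le_mul_of_nonneg_left hW1 (by positivity)
    refine le_trans (le_of_eq ?_) h7
    field_simp
    ring
  -- the error term
  have h8 : ((n : ℝ) + 1) ^ p ≤ c * (n : ℝ) ^ (p + 1) := by
    have h9 : ((n : ℝ) + 1) ^ p ≤ 2 ^ p * (n : ℝ) ^ p := by
      rw [← mul_pow]
      exact pow_le_pow_left₀ (by linarith) (by linarith) _
    have h10 : (2 : ℝ) ^ p ≤ c * n := by
      have : 2 ^ p / c ≤ (n : ℝ) := hn₂.trans (by exact_mod_cast hnn2)
      rwa [div_le_iff₀ hc0, mul_comm] at this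
    calc ((n : ℝ) + 1) ^ p ≤ 2 ^ p * (n : ℝ) ^ p := h9
      _ ≤ (c * n) * (n : ℝ) ^ p := mul_le_mul_of_nonneg_right h10 (by positivity)
      _ = c * (n : ℝ) ^ (p + 1) := by ring
  have h11 : F * ((n : ℝ) + 1) ^ p ≤ F * (c * (n : ℝ) ^ (p + 1)) :=
    mul_le_mul_of_nonneg_left h8 hF0.le
  have h12 : c₁ * c' * (n : ℝ) ^ (p + 1) = 2 * F * (c * (n : ℝ) ^ (p + 1)) := by
    rw [hc]
    field_simp
  have h13 : F * df D ≤ F * ((qq (p + 3) n k - 1) * (lo D).card - c * (n : ℝ) ^ (p + 1)) := by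
    have h14 : F * ((qq (p + 3) n k - 1) * (lo D).card - c * (n : ℝ) ^ (p + 1)) =
        (qq (p + 3) n k - 1) * (F * (lo D).card) - F * (c * (n : ℝ) ^ (p + 1)) := by ring
    rw [h14]
    linarith
  exact le_of_mul_le_mul_left h13 hF0

end Pool.Agent.Helper46.MR
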