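import Pool.Agent.Helper46.MR.KOne
import Pool.Agent.Helper46.MR.Mid

set_option autoImplicit false

/-!
# MR-26 KMain: condition (K) for all `m ≥ 4`, `k ≥ k₀`

PROOF. `m = b + 1`. First for `n ≥ n₁`, `n ≤ k + 1`, `2 k + 2 ≤ m n`: let `D, D' ⊆ P m n (k+1)`,
`|lo D| + |lo D'| < |P m n k|`.
(1) `|D'| ≤ ε₀ n^b` (`kone`): `A = P m n k \ lo D`, `|A| = |P m n k| - |lo D| > |lo D'|`, so
`|A| + |D'| ≤ |up n A| + |lo D'|` and `|up n A| ≤ |P m n (k+1)| - |D|` (`up_disjoint`,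
`up_subset`): this is the claim. (2) `|D| ≤ ε₀ n^b`: symmetric.
(3) both `> ε₀ n^b`: `|lo D'| = |D'| - df D' ≥ (ε₀/2) n^b` (`large_lo`, `sg_bound`:
`df D' ≤ C n^(b-1)`), so `|lo D| + (ε₀/2) n^b ≤ |P m n k|`; `mid_lo` for `D` and for `D'`, sum:
`df D + df D' ≤ (qq - 1)(|lo D| + |lo D'|) - 2 c n^(b-1) ≤ (qq - 1)|P m n k| - 2 c n^(b-1)`
(`qq ≥ 1`: `lev_mono`/`qq_ge` with `r = 0`), and `ak_lo`.
For `k + 1 < n`: `K_congr` with `n' = k + 1`. `k₀ = m (n₁ + 1)` makes `n' = k + 1 ≥ n₁`, and for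
`n ≤ k + 1`: `m n ≥ 2 k + 2 > m n₁`.
-/

namespace Pool.Agent.Helper46.MR

open Finset Pool.Agent.Helper30.SC

namespace KMainAux

variable {m n k : ℕ}

/-- the case in which the condition of `kone` holds for one of the sets -/
private theorem part_one {D D' : Finset (Fin m → ℕ)} (hD : D ⊆ P m n (k + 1))
    (h : (lo D).card + (lo D').card < (P m n k).card)
    (hk : ∀ A ⊆ P m n k, (lo D').card < A.card → A.card + D'.card ≤ (up n A).card + (lo D').card) :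
    D.card + D'.card + (P m n k).card ≤ (P m n (k + 1)).card + (lo D).card + (lo D').card := by
  classical
  have hlo : lo D ⊆ P m n k := lo_subset hD
  have hA : P m n k \ lo D ⊆ P m n k := sdiff_subset
  have hc : (P m n k \ lo D).card + (lo D).card = (P m n k).card :=
    card_sdiff_add_card_eq_card hlo
  have h1 := hk _ hA (by omega)
  have hdis : Disjoint (up n (P m n k \ lo D)) D := up_disjoint hA sdiff_disjoint
  have hU : up n (P m n k \ lo D) ∪ D ⊆ P m n (k + 1) := union_subset (up_subset hA) hD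
  have h2 := card_le_card hU
  rw [card_union_of_disjoint hdis] at h2
  omega

private theorem pow_succ_le (b n : ℕ) (hn : 1 ≤ n) :
    ((n : ℝ) + 1) ^ b ≤ 2 ^ b * (n : ℝ) ^ b := by
  rw [← mul_pow]
  have : (1 : ℝ) ≤ n := by exact_mod_cast hn
  exact pow_le_pow_left₀ (by positivity) (by linarith) b

/-- deficiencies of arbitrary sets are `O(n^(b-1))` -/
private theorem df_bound {b : ℕ} (hb : 3 ≤ b) :
    ∃ (C : ℝ) (n₀ : ℕ), 0 ≤ C ∧ ∀ n k : ℕ, n₀ ≤ n → n ≤ k + 1 → 2 * k + 2 ≤ (b + 1) * n →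
      ∀ D ⊆ P (b + 1) n (k + 1), df D ≤ C * (n : ℝ) ^ (b - 1) := by
  obtain ⟨C₁, n₁, hC₁, h₁⟩ := large_lo (m := b + 1) (by omega) (1 / 2) (by norm_num)
  obtain ⟨C₂, hC₂, h₂⟩ := sg_bound (b := b + 1) (by omega) (1 / 2) (by norm_num)
  refine ⟨C₂ * 2 ^ b + C₁, max n₁ 2, by positivity, ?_⟩
  intro n k hn hnk hk D hD
  have hn1 : n₁ ≤ n := le_trans (le_max_left _ _) hn
  have hn2 : 2 ≤ n := le_trans (le_max_right _ _) hn
  have hn2' : (2 : ℝ) ≤ n := by exact_mod_cast hn2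
  have hn0 : (0 : ℝ) < n := by linarith
  have hnk' : (n : ℝ) ≤ k + 1 := by exact_mod_cast hnk
  have hk' : 2 * (k : ℝ) + 2 ≤ (b + 1) * n := by exact_mod_cast hk
  have hb' : (3 : ℝ) ≤ b := by exact_mod_cast hb
  have hbn : (3 : ℝ) * n ≤ b * n := mul_le_mul_of_nonneg_right hb' hn0.le
  have e1 : (1 / 2 : ℝ) * n ≤ k := by linarith
  have e2 : (k : ℝ) ≤ (((b + 1 : ℕ) : ℝ) - 1 / 2) * n := by
    push_cast
    nlinarith
  have g1 := h₁ n k hn1 e1 e2 D hD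
  have e3 : (1 / 2 : ℝ) * n ≤ ((k + 1 : ℕ) : ℝ) := by
    push_cast
    linarith
  have e4 : ((k + 1 : ℕ) : ℝ) ≤ (((b + 1 : ℕ) : ℝ) - 1 / 2) * n := by
    push_cast
    nlinarith
  have g2 := h₂ n (k + 1) (by omega) e3 e4
  have g3 : (D.card : ℝ) ≤ ((n : ℝ) + 1) ^ b := by
    have q1 : D.card ≤ (P (b + 1) n (k + 1)).card := card_le_card hD
    have q2 : (P (b + 1) n (k + 1)).card ≤ lev (b + 1) n (k + 1) := by
      rw [← card_Q]
      exact card_le_card P_subset_Q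
    have q3 := lev_le (m := b + 1) (n := n) (by omega) (k + 1)
    have q4 : D.card ≤ (n + 1) ^ b := by
      have : b + 1 - 1 = b := by omega
      rw [this] at q3
      omega
    exact_mod_cast q4
  have g4 : (D.card : ℝ) ≤ 2 ^ b * (n : ℝ) ^ b := g3.trans (pow_succ_le b n (by omega))
  have g5 : sg (b + 1) n (k + 1) ≤ C₂ / n := (le_abs_self _).trans g2
  have g6 : sg (b + 1) n (k + 1) * (D.card : ℝ) ≤ C₂ * 2 ^ b * (n : ℝ) ^ (b - 1) := by
    have hD0 : (0 : ℝ) ≤ D.card := Nat.cast_nonneg _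
    calc sg (b + 1) n (k + 1) * (D.card : ℝ) ≤ C₂ / n * D.card :=
          mul_le_mul_of_nonneg_right g5 hD0
      _ ≤ C₂ / n * (2 ^ b * (n : ℝ) ^ b) := mul_le_mul_of_nonneg_left g4 (by positivity)
      _ = C₂ * 2 ^ b * (n : ℝ) ^ (b - 1) := by
          have : (n : ℝ) ^ b = (n : ℝ) ^ (b - 1) * n := by
            rw [← pow_succ]
            congr 1
            omega
          rw [this]
          field_simp
  have g7 : C₁ * (n : ℝ) ^ (b + 1 - 3) ≤ C₁ * (n : ℝ) ^ (b - 1) := by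
    apply mul_le_mul_of_nonneg_left _ hC₁
    exact pow_le_pow_right₀ (by linarith) (by omega)
  calc df D ≤ _ := g1
    _ ≤ C₂ * 2 ^ b * (n : ℝ) ^ (b - 1) + C₁ * (n : ℝ) ^ (b - 1) := add_le_add g6 g7
    _ = _ := by ring

/-- a bound `C n^j ≤ c n^(j+1)` for large `n` -/
private theorem absorb (C c : ℝ) (hc : 0 < c) :
    ∃ n₀ : ℕ, ∀ n : ℕ, n₀ ≤ n → ∀ j : ℕ, C * (n : ℝ) ^ j ≤ c * (n : ℝ) ^ (j + 1) := by
  obtain ⟨n₀, h⟩ := exists_nat_ge (C / c)
  refine ⟨n₀, fun n hn j => ?_⟩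
  have h1 : C / c ≤ n := h.trans (by exact_mod_cast hn)
  have h2 : C ≤ c * n := by
    rw [div_le_iff₀ hc] at h1
    linarith
  calc C * (n : ℝ) ^ j ≤ (c * n) * (n : ℝ) ^ j := mul_le_mul_of_nonneg_right h2 (by positivity)
    _ = c * (n : ℝ) ^ (j + 1) := by ring

/-- condition (K) for `n ≤ k + 1` and large `n` -/
private theorem kbig {b : ℕ} (hb : 3 ≤ b) :
    ∃ n₁ : ℕ, ∀ n k : ℕ, n₁ ≤ n → n ≤ k + 1 → 2 * k + 2 ≤ (b + 1) * n → K (b + 1) n k := by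
  obtain ⟨ε₀, n₁, hε₀, h₁⟩ := kone hb
  obtain ⟨C₂, n₂, hC₂, h₂⟩ := df_bound hb
  obtain ⟨c, n₃, hc, h₃⟩ := mid_lo (m := b + 1) (by omega) (1 / 2) (ε₀ / 2) (by norm_num)
    (by linarith)
  obtain ⟨C₄, n₄, hC₄, h₄⟩ := ak_lo (m := b + 1) (by omega) (1 / 2) (by norm_num)
  obtain ⟨n₅, h₅⟩ := absorb C₂ (ε₀ / 2) (by linarith)
  obtain ⟨n₆, h₆⟩ := absorb C₄ (2 * c) (by linarith)
  refine ⟨n₁ + n₂ + n₃ + n₄ + n₅ + n₆ + 2, ?_⟩
  intro n k hn hnk hk D hD D' hD' hcard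
  have hn2' : (2 : ℝ) ≤ n := by exact_mod_cast (show 2 ≤ n by omega)
  have hn0 : (0 : ℝ) < n := by linarith
  have hnk' : (n : ℝ) ≤ k + 1 := by exact_mod_cast hnk
  have e1 : (1 / 2 : ℝ) * n ≤ k := by linarith
  by_cases hs' : (D'.card : ℝ) ≤ ε₀ * (n : ℝ) ^ b
  · exact part_one hD hcard (h₁ n k (by omega) hnk hk D' hD' hs')
  by_cases hs : (D.card : ℝ) ≤ ε₀ * (n : ℝ) ^ b
  · have := part_one hD' (by omega) (h₁ n k (by omega) hnk hk D hD hs)
    omega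
  push Not at hs hs'
  have hbe : b - 1 + 1 = b := by omega
  have hlarge : ∀ X ⊆ P (b + 1) n (k + 1), ε₀ * (n : ℝ) ^ b < X.card →
      ε₀ / 2 * (n : ℝ) ^ b ≤ (lo X).card := by
    intro X hX hXc
    have g1 := h₂ n k (by omega) hnk hk X hX
    have g2 := h₅ n (by omega) (b - 1)
    rw [hbe] at g2
    unfold df at g1
    linarith
  have l1 := hlarge D hD hs
  have l2 := hlarge D' hD' hs'
  have hcard' : ((lo D).card : ℝ) + ((lo D').card : ℝ) ≤ ((P (b + 1) n k).card : ℝ) := by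
    exact_mod_cast hcard.le
  have hpos : (0 : ℝ) ≤ ε₀ * (n : ℝ) ^ b := by positivity
  have m1 := h₃ n k (by omega) e1 hk D hD
    (by rw [show b + 1 - 1 = b by omega]; linarith)
    (by rw [show b + 1 - 1 = b by omega]; linarith)
  have m2 := h₃ n k (by omega) e1 hk D' hD'
    (by rw [show b + 1 - 1 = b by omega]; linarith)
    (by rw [show b + 1 - 1 = b by omega]; linarith)
  have m3 := h₄ n k (by omega) e1 hk
  have m4 := h₆ n (by omega) (b - 2)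
  have hq : 0 ≤ qq (b + 1) n k - 1 := by
    have := qq_ge (b := b + 1) (n := n) (u := k) (r := 0) (by omega) (by omega) (by omega)
    push_cast at this
    linarith
  have m5 := mul_le_mul_of_nonneg_left hcard' hq
  rw [show b + 1 - 2 = b - 1 by omega] at m1 m2
  rw [show b + 1 - 3 = b - 2 by omega] at m3
  rw [show b - 2 + 1 = b - 1 by omega] at m4
  unfold df at m1 m2
  have fin : ((D.card : ℝ) + (D'.card : ℝ) + ((P (b + 1) n k).card : ℝ)) ≤
      ((P (b + 1) n (k + 1)).card : ℝ) + ((lo D).card : ℝ) + ((lo D').card : ℝ) := by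
    nlinarith
  exact_mod_cast fin

end KMainAux

theorem kmain {m : ℕ} (hm : 4 ≤ m) :
    ∃ k₀ : ℕ, ∀ n k : ℕ, k₀ ≤ k → 2 * k + 2 ≤ m * n → K m n k := by
  obtain ⟨b, rfl⟩ : ∃ b, m = b + 1 := ⟨m - 1, by omega⟩
  obtain ⟨n₁, h⟩ := KMainAux.kbig (b := b) (by omega)
  refine ⟨(b + 1) * (n₁ + 1), fun n k hk hkn => ?_⟩
  have hk1 : n₁ + 1 ≤ k := le_trans (Nat.le_mul_of_pos_left _ (Nat.succ_pos b)) hk
  by_cases hnk : n ≤ k + 1
  · have h1 : n₁ ≤ n := by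
      by_contra hlt
      push Not at hlt
      have : (b + 1) * n ≤ (b + 1) * (n₁ + 1) := Nat.mul_le_mul_left _ (by omega)
      omega
    exact h n k h1 hnk hkn
  · push Not at hnk
    rw [K_congr (n := n) (n' := k + 1) hnk.le le_rfl]
    refine h (k + 1) k (by omega) le_rfl ?_
    have : 2 * (k + 1) ≤ (b + 1) * (k + 1) := Nat.mul_le_mul_right _ (by omega)
    omega

end Pool.Agent.Helper46.MR
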