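import Pool.Agent.Helper46.MR.Basic

set_option autoImplicit false

/-!
# MR-1 Compl: the complement `a ↦ (n - a (rev i))_i`

PROOF. `cm n` is an involution on the functions with values `≤ n`, it preserves monotonicity
(`Fin.rev` is antitone), and `∑ cm n a = m n - ∑ a`. It exchanges `x` covered by `y`
(`y = x + Pi.single i 1`, `x i < n`) and `cm n y` covered by `cm n x`
(`cm n x = cm n y + Pi.single i.rev 1`).
So `up n (D.image (cm n)) = (lo D).image (cm n)` and `lo (D.image (cm n)) = (up n D).image (cm n)`.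
-/

namespace Pool.Agent.Helper46.MR

open Finset Pool.Agent.Helper30.SC

variable {m n t : ℕ}

private theorem cm_cm' {a : Fin m → ℕ} (h : ∀ i, a i ≤ n) : cm n (cm n a) = a := by
  funext i
  show n - (n - a i.rev.rev) = a i
  rw [Fin.rev_rev]
  have := h i
  omega

private theorem cm_le' (a : Fin m → ℕ) (i : Fin m) : cm n a i ≤ n := Nat.sub_le _ _

private theorem cm_mono' {a : Fin m → ℕ} (h : Monotone a) : Monotone (cm n a) := by
  intro i j hij
  show n - a i.rev ≤ n - a j.rev
  exact Nat.sub_le_sub_left (h (Fin.rev_le_rev.2 hij)) n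

private theorem cm_sum' {a : Fin m → ℕ} (h : ∀ i, a i ≤ n) :
    ∑ i, cm n a i = m * n - ∑ i, a i := by
  have h1 : ∑ i, cm n a i + ∑ i : Fin m, a i.rev = m * n := by
    rw [← Finset.sum_add_distrib]
    have : ∀ i : Fin m, cm n a i + a i.rev = n := by
      intro i
      show n - a i.rev + a i.rev = n
      have := h i.rev
      omega
    rw [Finset.sum_congr rfl fun i _ => this i]
    simp
  have h2 : ∑ i : Fin m, a i.rev = ∑ i, a i := Equiv.sum_comp Fin.revPerm a
  omega

private theorem cm_injOn' {D : Finset (Fin m → ℕ)} (hD : ∀ d ∈ D, ∀ i, d i ≤ n) :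
    Set.InjOn (cm n) (D : Set (Fin m → ℕ)) := by
  intro a ha b hb hab
  have := congrArg (cm n) hab
  rwa [cm_cm' (hD a ha), cm_cm' (hD b hb)] at this

private theorem image_image' {D : Finset (Fin m → ℕ)} (hD : ∀ d ∈ D, ∀ i, d i ≤ n) :
    (D.image (cm n)).image (cm n) = D := by
  ext a
  simp only [mem_image]
  constructor
  · rintro ⟨_, ⟨b, hb, rfl⟩, rfl⟩
    rwa [cm_cm' (hD b hb)]
  · intro ha
    exact ⟨cm n a, ⟨a, ha, rfl⟩, cm_cm' (hD a ha)⟩

private theorem up_cm' {D : Finset (Fin m → ℕ)} (hD : ∀ d ∈ D, ∀ i, d i ≤ n) :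
    up n (D.image (cm n)) = (lo D).image (cm n) := by
  ext y
  rw [mem_up, mem_image]
  constructor
  · rintro ⟨hy, x, hx, i, hi, rfl⟩
    obtain ⟨d, hd, rfl⟩ := mem_image.1 hx
    have hpos : 0 < d i.rev := by
      have : n - d i.rev < n := hi
      omega
    have hle : ∀ j, (cm n d + Pi.single i 1 : Fin m → ℕ) j ≤ n := by
      intro j
      rw [add_single_apply]
      split_ifs with h
      · subst h; exact hi
      · exact cm_le' d j
    refine ⟨cm n (cm n d + Pi.single i 1), mem_lo.2 ⟨cm_mono' hy, i.rev, ?_⟩, cm_cm' hle⟩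
    have : (cm n (cm n d + Pi.single i 1) + Pi.single i.rev 1 : Fin m → ℕ) = d := by
      funext j
      rw [add_single_apply]
      have h1 : cm n (cm n d + Pi.single i 1) j = n - (cm n d + Pi.single i 1 : Fin m → ℕ) j.rev :=
        rfl
      rw [h1, add_single_apply]
      have h2 : cm n d j.rev = n - d j := by
        show n - d j.rev.rev = n - d j
        rw [Fin.rev_rev]
      rw [h2]
      have h3 := hD d hd j
      by_cases hj : j = i.rev
      · subst hj
        rw [Fin.rev_rev, if_pos rfl, if_pos rfl]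
        omega
      · have hj2 : j.rev ≠ i := by
          intro h
          exact hj (by rw [← h, Fin.rev_rev])
        rw [if_neg hj, if_neg hj2]
        omega
    rw [this]
    exact hd
  · rintro ⟨x, hx, rfl⟩
    obtain ⟨hm, i, hi⟩ := mem_lo.1 hx
    have hle := hD _ hi
    have hxi : x i + 1 ≤ n := by
      have := hle i
      rwa [add_single_apply, if_pos rfl] at this
    refine ⟨cm_mono' hm, cm n (x + Pi.single i 1), mem_image_of_mem _ hi, i.rev, ?_, ?_⟩
    · show n - (x + Pi.single i 1 : Fin m → ℕ) i.rev.rev < n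
      rw [Fin.rev_rev, add_single_apply, if_pos rfl]
      omega
    · funext j
      rw [add_single_apply]
      have h1 : cm n (x + Pi.single i 1) j = n - (x + Pi.single i 1 : Fin m → ℕ) j.rev := rfl
      have h2 : cm n x j = n - x j.rev := rfl
      rw [h1, h2, add_single_apply]
      by_cases hj : j = i.rev
      · subst hj
        rw [Fin.rev_rev, if_pos rfl, if_pos rfl]
        omega
      · have hj2 : j.rev ≠ i := by
          intro h
          exact hj (by rw [← h, Fin.rev_rev])
        rw [if_neg hj, if_neg hj2]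

private theorem lo_le' {D : Finset (Fin m → ℕ)} (hD : ∀ d ∈ D, ∀ i, d i ≤ n) :
    ∀ x ∈ lo D, ∀ i, x i ≤ n := by
  intro x hx j
  obtain ⟨_, i, hi⟩ := mem_lo.1 hx
  have := hD _ hi j
  rw [add_single_apply] at this
  split_ifs at this <;> omega

private theorem up_cm_card' {D : Finset (Fin m → ℕ)} (hD : ∀ d ∈ D, ∀ i, d i ≤ n) :
    (up n (D.image (cm n))).card = (lo D).card := by
  rw [up_cm' hD]
  exact card_image_of_injOn (cm_injOn' (lo_le' hD))

theorem cm_image_subset (ht : t ≤ m * n) {D : Finset (Fin m → ℕ)} (hD : D ⊆ P m n t) :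
    D.image (cm n) ⊆ P m n (m * n - t) := by
  intro a ha
  obtain ⟨d, hd, rfl⟩ := mem_image.1 ha
  obtain ⟨h1, h2, h3⟩ := mem_P.1 (hD hd)
  refine mem_P.2 ⟨cm_mono' h1, cm_le' d, ?_⟩
  rw [cm_sum' h2, h3]

theorem cm_image_card {D : Finset (Fin m → ℕ)} (hD : D ⊆ P m n t) :
    (D.image (cm n)).card = D.card :=
  card_image_of_injOn (cm_injOn' fun _ hd => P_le (hD hd))

theorem cm_image_image {D : Finset (Fin m → ℕ)} (hD : D ⊆ P m n t) :
    (D.image (cm n)).image (cm n) = D :=
  image_image' fun _ hd => P_le (hD hd)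

theorem up_cm_card {D : Finset (Fin m → ℕ)} (hD : D ⊆ P m n t) :
    (up n (D.image (cm n))).card = (lo D).card :=
  up_cm_card' fun _ hd => P_le (hD hd)

theorem lo_cm_card {D : Finset (Fin m → ℕ)} (hD : D ⊆ P m n t) :
    (lo (D.image (cm n))).card = (up n D).card := by
  have h : ∀ d ∈ D.image (cm n), ∀ i, d i ≤ n := by
    intro d hd i
    obtain ⟨a, _, rfl⟩ := mem_image.1 hd
    exact cm_le' a i
  have := up_cm_card' h
  rw [cm_image_image hD] at this
  exact this.symm

theorem P_card_symm (ht : t ≤ m * n) : (P m n (m * n - t)).card = (P m n t).card := by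
  apply le_antisymm
  · have h1 := cm_image_subset (m := m) (n := n) (t := m * n - t) (Nat.sub_le _ _)
      (D := P m n (m * n - t)) (Subset.refl _)
    rw [Nat.sub_sub_self ht] at h1
    have h2 := card_le_card h1
    rwa [cm_image_card (Subset.refl _)] at h2
  · have h1 := cm_image_subset ht (D := P m n t) (Subset.refl _)
    have h2 := card_le_card h1
    rwa [cm_image_card (Subset.refl _)] at h2

end Pool.Agent.Helper46.MR
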