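import Mathlib

set_option autoImplicit false

/-!
# MR-5 LW: the inequality of Loomis and Whitney

PROOF. By induction on `m`: split `D` into the slices `D_v = {y : y 0 = v}`,
`|D_v|^(m-1) ≤ |D_v| ∏_{i ≥ 1} |π_i D_v|` (induction, `m - 1` coordinates, and one more factor
`|D_v|`) with `|D_v| ≤ |π_0 D|`, i.e. `|D_v| ≤ |π_0 D|^{1/(m-1)} ∏_{i≥1} |π_i D_v|^{1/(m-1)}`, and
sum over `v` with the inequality of Hölder (`∑_v |π_i D_v| = |π_i D|` for `i ≥ 1`).
-/

namespace Pool.Agent.Helper46.MR

open Finset

namespace LWAux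

/-- the inequality of the arithmetic and the geometric mean, with integral powers -/
theorem amgm {m : ℕ} (hm : 0 < m) (x : Fin m → ℝ) (hx : ∀ i, 0 ≤ x i) :
    ∏ i, x i ≤ ((∑ i, x i) / m) ^ m := by
  have hm' : (0 : ℝ) < m := by exact_mod_cast hm
  have h := Real.geom_mean_le_arith_mean_weighted univ (fun _ => (1 : ℝ) / m) x
    (fun _ _ => by positivity) (by
      rw [sum_const, card_univ, Fintype.card_fin, nsmul_eq_mul]
      field_simp) (fun i _ => hx i)
  have h0 : (0 : ℝ) ≤ ∏ i, x i ^ ((1 : ℝ) / m) := prod_nonneg fun i _ => Real.rpow_nonneg (hx i) _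
  have h1 : (∏ i, x i ^ ((1 : ℝ) / m)) ^ m = ∏ i, x i := by
    rw [← prod_pow]
    refine prod_congr rfl fun i _ => ?_
    rw [← Real.rpow_natCast, ← Real.rpow_mul (hx i), one_div, inv_mul_cancel₀ hm'.ne',
      Real.rpow_one]
  have h2 : ∑ i, (1 : ℝ) / m * x i = (∑ i, x i) / m := by
    rw [← mul_sum]
    ring
  rw [← h1, ← h2]
  exact pow_le_pow_left₀ h0 h m

/-- the inequality of Hölder for products, with integral powers -/
theorem holder {m : ℕ} (hm : 0 < m) {V : Type*} (S : Finset V) (a : V → ℝ) (b : Fin m → V → ℝ)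
    (c : ℝ) (hc : 0 ≤ c) (ha : ∀ v ∈ S, 0 ≤ a v) (hb : ∀ i, ∀ v ∈ S, 0 ≤ b i v)
    (h : ∀ v ∈ S, a v ^ m ≤ c * ∏ i, b i v) :
    (∑ v ∈ S, a v) ^ m ≤ c * ∏ i, ∑ v ∈ S, b i v := by
  have hm' : (0 : ℝ) < m := by exact_mod_cast hm
  have hB : ∀ i, 0 ≤ ∑ v ∈ S, b i v := fun i => sum_nonneg (hb i)
  by_cases h0 : ∃ i, ∑ v ∈ S, b i v = 0
  · obtain ⟨i, hi⟩ := h0
    have h1 : ∀ v ∈ S, b i v = 0 := (sum_eq_zero_iff_of_nonneg (hb i)).1 hi
    have h2 : ∑ v ∈ S, a v = 0 := by
      refine sum_eq_zero fun v hv => ?_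
      have h3 := h v hv
      rw [prod_eq_zero (mem_univ i) (h1 v hv), mul_zero] at h3
      exact pow_eq_zero_iff hm.ne' |>.1 (le_antisymm h3 (pow_nonneg (ha v hv) m))
    rw [h2, zero_pow hm.ne']
    exact mul_nonneg hc (prod_nonneg fun i _ => hB i)
  · push Not at h0
    have hB' : ∀ i, 0 < ∑ v ∈ S, b i v := fun i => lt_of_le_of_ne (hB i) (h0 i).symm
    set B : Fin m → ℝ := fun i => ∑ v ∈ S, b i v with hBdef
    set P : ℝ := c * ∏ i, B i with hP
    have hP0 : 0 ≤ P := mul_nonneg hc (prod_nonneg fun i _ => hB i)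
    set G : ℝ := P ^ ((1 : ℝ) / m) with hG
    have hG0 : 0 ≤ G := Real.rpow_nonneg hP0 _
    have hGm : G ^ m = P := by
      rw [hG, ← Real.rpow_natCast, ← Real.rpow_mul hP0, one_div, inv_mul_cancel₀ hm'.ne',
        Real.rpow_one]
    have key : ∀ v ∈ S, a v ≤ G * ((∑ i, b i v / B i) / m) := by
      intro v hv
      have hx : ∀ i, 0 ≤ b i v / B i := fun i => div_nonneg (hb i v hv) (hB i)
      refine le_of_pow_le_pow_left₀ hm.ne'
        (mul_nonneg hG0 (div_nonneg (sum_nonneg fun i _ => hx i) hm'.le)) ?_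
      rw [mul_pow, hGm]
      have h1 := amgm hm (fun i => b i v / B i) hx
      refine le_trans (h v hv) (le_trans (le_of_eq ?_) (mul_le_mul_of_nonneg_left h1 hP0))
      have h2 : ∏ i, b i v / B i = (∏ i, b i v) / ∏ i, B i := prod_div_distrib _ _
      have h3 : (∏ i, B i) ≠ 0 := prod_ne_zero_iff.2 fun i _ => (hB' i).ne'
      rw [h2, hP]
      field_simp
    have hsum : ∑ v ∈ S, a v ≤ G := by
      refine le_trans (sum_le_sum key) (le_of_eq ?_)
      rw [← mul_sum, ← sum_div, sum_comm]
      have h1 : ∀ i ∈ (univ : Finset (Fin m)), ∑ v ∈ S, b i v / B i = 1 := by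
        intro i _
        rw [← sum_div]
        exact div_self (hB' i).ne'
      rw [sum_congr rfl h1, sum_const, card_univ, Fintype.card_fin, nsmul_eq_mul, mul_one,
        div_self hm'.ne', mul_one]
    calc (∑ v ∈ S, a v) ^ m ≤ G ^ m := pow_le_pow_left₀ (sum_nonneg ha) hsum m
      _ = P := hGm

/-- the slice `y 0 = v` -/
def slice {m : ℕ} (D : Finset (Fin (m + 1) → ℕ)) (v : ℕ) : Finset (Fin m → ℕ) :=
  (D.filter fun y => y 0 = v).image fun y => Fin.tail y

theorem ext_of_tail {m : ℕ} {y z : Fin (m + 1) → ℕ} (h0 : y 0 = z 0)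
    (ht : Fin.tail y = Fin.tail z) : y = z := by
  funext i
  refine Fin.cases h0 (fun j => ?_) i
  exact congrFun ht j

theorem card_slice {m : ℕ} (D : Finset (Fin (m + 1) → ℕ)) (v : ℕ) :
    (slice D v).card = (D.filter fun y => y 0 = v).card := by
  refine card_image_of_injOn ?_
  intro y hy z hz h
  have hy' := (mem_filter.1 (mem_coe.1 hy)).2
  have hz' := (mem_filter.1 (mem_coe.1 hz)).2
  exact ext_of_tail (hy'.trans hz'.symm) h

theorem card_eq_sum {m : ℕ} (D : Finset (Fin (m + 1) → ℕ)) (V : Finset ℕ)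
    (hV : ∀ y ∈ D, y 0 ∈ V) : D.card = ∑ v ∈ V, (D.filter fun y => y 0 = v).card :=
  card_eq_sum_card_fiberwise hV

theorem slice_le {m : ℕ} (D : Finset (Fin (m + 1) → ℕ)) (v : ℕ) :
    (slice D v).card ≤ (D.image fun y => Function.update y 0 0).card := by
  rw [card_slice]
  have h1 : ((D.filter fun y => y 0 = v).image fun y => Function.update y 0 0).card =
      (D.filter fun y => y 0 = v).card := by
    refine card_image_of_injOn ?_
    intro y hy z hz h
    have hy' := (mem_filter.1 (mem_coe.1 hy)).2
    have hz' := (mem_filter.1 (mem_coe.1 hz)).2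
    refine ext_of_tail (hy'.trans hz'.symm) ?_
    funext j
    have h2 := congrFun h j.succ
    simp only [Function.update_of_ne (Fin.succ_ne_zero j)] at h2
    exact h2
  rw [← h1]
  exact card_le_card (image_subset_image (filter_subset _ _))

theorem tail_update {m : ℕ} (y : Fin (m + 1) → ℕ) (i : Fin m) :
    Fin.tail (Function.update y i.succ 0) = Function.update (Fin.tail y) i 0 :=
  Fin.tail_update_succ y i 0

theorem slice_image {m : ℕ} (D : Finset (Fin (m + 1) → ℕ)) (v : ℕ) (i : Fin m) :
    ((slice D v).image fun y => Function.update y i 0).card ≤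
      ((D.image fun y => Function.update y i.succ 0).filter fun z => z 0 = v).card := by
  have h1 : (slice D v).image (fun y => Function.update y i 0) ⊆
      ((D.image fun y => Function.update y i.succ 0).filter fun z => z 0 = v).image
        fun z => Fin.tail z := by
    intro w hw
    obtain ⟨u, hu, rfl⟩ := mem_image.1 hw
    obtain ⟨y, hy, rfl⟩ := mem_image.1 hu
    obtain ⟨hyD, hyv⟩ := mem_filter.1 hy
    refine mem_image.2 ⟨Function.update y i.succ 0, mem_filter.2 ⟨mem_image_of_mem _ hyD, ?_⟩,
      tail_update y i⟩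
    rw [Function.update_of_ne (Fin.succ_ne_zero i).symm]
    exact hyv
  exact le_trans (card_le_card h1) card_image_le

end LWAux

open LWAux in
theorem loomis_whitney {m : ℕ} (D : Finset (Fin m → ℕ)) (hD : D.Nonempty) :
    D.card ^ (m - 1) ≤ ∏ i, (D.image fun y => Function.update y i 0).card := by
  induction m with
  | zero => simp
  | succ m ih =>
    rcases Nat.eq_zero_or_pos m with rfl | hm
    · simp only [Nat.zero_add, Nat.sub_self, pow_zero]
      exact Nat.one_le_iff_ne_zero.2 (prod_ne_zero_iff.2 fun i _ =>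
        (card_pos.2 (hD.image _)).ne')
    · rw [Nat.add_sub_cancel, Fin.prod_univ_succ]
      set V : Finset ℕ := D.image fun y => y 0 with hV
      have hVm : ∀ y ∈ D, y 0 ∈ V := fun y hy => mem_image_of_mem _ hy
      have key := holder hm V (fun v => ((slice D v).card : ℝ))
        (fun i v => (((slice D v).image fun y => Function.update y i 0).card : ℝ))
        ((D.image fun y => Function.update y 0 0).card : ℝ) (Nat.cast_nonneg _)
        (fun v _ => Nat.cast_nonneg _) (fun i v _ => Nat.cast_nonneg _) (by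
          intro v hv
          have hne : (slice D v).Nonempty := by
            obtain ⟨y, hy, rfl⟩ := mem_image.1 hv
            exact ⟨Fin.tail y, mem_image.2 ⟨y, mem_filter.2 ⟨hy, rfl⟩, rfl⟩⟩
          have h1 := ih (slice D v) hne
          have h2 := slice_le D v
          have h3 : (slice D v).card ^ m = (slice D v).card * (slice D v).card ^ (m - 1) := by
            rw [← pow_succ']
            congr 1
            omega
          have h4 : (slice D v).card ^ m ≤ (D.image fun y => Function.update y 0 0).card *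
              ∏ i, ((slice D v).image fun y => Function.update y i 0).card := by
            rw [h3]
            exact Nat.mul_le_mul h2 h1
          exact_mod_cast h4)
      have hsum : ∑ v ∈ V, ((slice D v).card : ℝ) = D.card := by
        rw [card_eq_sum D V hVm]
        push_cast
        exact sum_congr rfl fun v _ => by rw [card_slice]
      have hle : ∀ i : Fin m, ∑ v ∈ V,
          (((slice D v).image fun y => Function.update y i 0).card : ℝ) ≤
          ((D.image fun y => Function.update y i.succ 0).card : ℝ) := by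
        intro i
        rw [card_eq_sum (D.image fun y => Function.update y i.succ 0) V (by
          intro z hz
          obtain ⟨y, hy, rfl⟩ := mem_image.1 hz
          rw [Function.update_of_ne (Fin.succ_ne_zero i).symm]
          exact hVm y hy)]
        push_cast
        exact sum_le_sum fun v _ => by exact_mod_cast slice_image D v i
      rw [hsum] at key
      have h5 : (D.card : ℝ) ^ m ≤ ((D.image fun y => Function.update y 0 0).card : ℝ) *
          ∏ i : Fin m, ((D.image fun y => Function.update y i.succ 0).card : ℝ) :=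
        le_trans key (mul_le_mul_of_nonneg_left
          (prod_le_prod (fun i _ => sum_nonneg fun v _ => Nat.cast_nonneg _) fun i _ => hle i)
          (Nat.cast_nonneg _))
      exact_mod_cast h5

end Pool.Agent.Helper46.MR
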