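import Pool.Agent.Helper46.MR.Basic
import Pool.Agent.Helper46.MR.LW

set_option autoImplicit false

/-!
# MR-6 LemE: the deficiency and the isoperimetric inequality

`EE D = #{x ∈ lo D : x + e_0 ∉ D}` for `D ⊆ L(m+1, n)`, coordinates `y_0 ≤ y_1 ≤ ... ≤ y_m`.

`df_eq`: `y ↦ y - e_0` is an injection of `{y ∈ D : 0 < y_0}` into `lo D` (decreasing the smallest
coordinate keeps monotonicity), with image `{x ∈ lo D : x + e_0 ∈ D}`.

`lemE`. PROOF. Let `E = EE D`. For `1 ≤ i ≤ m` let `T_i y = y - e_i + e_0` (for `0 < y_i`).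
(a) For `1 ≤ i ≤ m` put `w_i = #{y ∈ D : y_i = y_{i-1}}`. If `y ∈ D` and `y_i > y_{i-1}` then
`x = y - e_i` is monotone, so `x ∈ lo D`; if moreover `T_i y = x + e_0 ∉ D` then `x` is counted by
`E`. So `#{y ∈ D : T_i y ∉ D} ≤ w_i + E` (count `y` with `y_i = 0` as `T_i y ∉ D`; these have
`y_{i-1} = y_i = 0`).
(b) `w_1 ≤ (m-1) E + 1`: let `y ∈ D` with `y_1 = y_0`, not constant; choose `i ≥ 2` with
`y_i > y_{i-1}`; `x = y - e_i ∈ lo D` has `x_1 = x_0` if `i > 2` and `i = 2` alike (only `x_i`
changes), so `x + e_0` is not monotone, not in `D`: `x` is counted by `E`; every `x` arises from at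
most `m - 1` pairs. At most one element of `D` is constant (the sum is `t`).
(c) `w_{i+1} ≤ w_i + E` for `1 ≤ i < m`: if `z ∈ D`, `z_{i+1} = z_i`, then `z + e_i - e_0` is not
monotone, hence not in `D`; so `w_{i+1} ≤ #{z ∈ D : z + e_i - e_0 ∉ D} = #{y ∈ D : T_i y ∉ D}`
(both are `|D| - #{y ∈ D : T_i y ∈ D}`) `≤ w_i + E`.
(d) So `w_i ≤ (m - 1 + i - 1) E + 1` and `#{y ∈ D : T_i y ∉ D} ≤ (2 m - 1) E + 1 ≤ (2 m + 3) (E + 1)`
for all `1 ≤ i ≤ m`. Drop the coordinate `y_0` (it is determined by the sum `t`): `D` becomes a set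
`D'` of functions on `Fin m`, `|D'| = |D|`. Every line `{y' : only y'_i varies}` which meets `D'`
contains an element of `D'` with `y'_i` minimal, and for it `T_i y ∉ D`. So
`|π_i D'| ≤ (2 m + 3) (E + 1)`, and Loomis-Whitney gives the claim (`D = ∅`, `m ≥ 2`: `0 ≤ ..`;
`m = 1`: the left side is `1` or `0 ^ 0 = 1`).
-/

namespace Pool.Agent.Helper46.MR

open Finset Pool.Agent.Helper30.SC

variable {m n t : ℕ}

namespace LemEAux

/-- the set counted by `EE` -/
noncomputable def ES {m : ℕ} (D : Finset (Fin (m + 1) → ℕ)) : Finset (Fin (m + 1) → ℕ) :=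
  (lo D).filter fun x => x + Pi.single 0 1 ∉ D

theorem card_ES {m : ℕ} (D : Finset (Fin (m + 1) → ℕ)) : (ES D).card = EE D := rfl

theorem mem_ES {m : ℕ} {D : Finset (Fin (m + 1) → ℕ)} {x : Fin (m + 1) → ℕ} :
    x ∈ ES D ↔ (Monotone x ∧ ∃ i, x + Pi.single i 1 ∈ D) ∧ x + Pi.single 0 1 ∉ D := by
  unfold ES
  rw [mem_filter, mem_lo]

theorem sub_add_single {m : ℕ} {y : Fin m → ℕ} {i : Fin m} (h : 0 < y i) :
    y - Pi.single i 1 + Pi.single i 1 = y := by
  funext j
  by_cases hj : j = i
  · subst hj; simp; omega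
  · simp [hj]

theorem sub_single_apply {m : ℕ} (y : Fin m → ℕ) (i j : Fin m) :
    (y - Pi.single i 1 : Fin m → ℕ) j = if j = i then y j - 1 else y j := by
  by_cases h : j = i
  · subst h; simp
  · simp [h]

/-- `y - e_{i+1}` is monotone if `y_{i+1} > y_i` -/
theorem mono_sub {m : ℕ} {y : Fin (m + 1) → ℕ} (hy : Monotone y) {i : Fin m}
    (h : y i.castSucc < y i.succ) : Monotone (y - Pi.single i.succ 1 : Fin (m + 1) → ℕ) := by
  intro j k hjk
  rw [sub_single_apply, sub_single_apply]
  have h1 := hy hjk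
  split_ifs with h2 h3 h3
  · omega
  · omega
  · subst h3
    have h4 : j ≤ i.castSucc := by
      rw [Fin.le_castSucc_iff]
      exact lt_of_le_of_ne hjk h2
    have h5 := hy h4
    omega
  · exact h1

/-- (a), first half: such `y - e_{i+1}` is in the lower shadow -/
theorem sub_mem_lo {m : ℕ} {D : Finset (Fin (m + 1) → ℕ)} (hD : ∀ y ∈ D, Monotone y)
    {y : Fin (m + 1) → ℕ} (hy : y ∈ D) {i : Fin m} (h : y i.castSucc < y i.succ) :
    Monotone (y - Pi.single i.succ 1 : Fin (m + 1) → ℕ) ∧
      ∃ j, (y - Pi.single i.succ 1 : Fin (m + 1) → ℕ) + Pi.single j 1 ∈ D := by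
  refine ⟨mono_sub (hD y hy) h, i.succ, ?_⟩
  rw [sub_add_single (by omega)]
  exact hy

/-- the `y ∈ D` with `T_i y ∉ D` -/
noncomputable def bad {m : ℕ} (D : Finset (Fin (m + 1) → ℕ)) (i : Fin m) :
    Finset (Fin (m + 1) → ℕ) :=
  D.filter fun y => ¬ (0 < y i.succ ∧ y - Pi.single i.succ 1 + Pi.single 0 1 ∈ D)

/-- the `y ∈ D` with `y_{i+1} = y_i` -/
def eqs {m : ℕ} (D : Finset (Fin (m + 1) → ℕ)) (i : Fin m) : Finset (Fin (m + 1) → ℕ) :=
  D.filter fun y => y i.succ = y i.castSucc

/-- (a) -/
theorem bad_le {m : ℕ} {D : Finset (Fin (m + 1) → ℕ)} (hD : ∀ y ∈ D, Monotone y) (i : Fin m) :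
    (bad D i).card ≤ (eqs D i).card + EE D := by
  classical
  have hsub : bad D i ⊆ eqs D i ∪ (ES D).image fun x => x + Pi.single i.succ 1 := by
    intro y hy
    unfold bad at hy
    rw [mem_filter] at hy
    obtain ⟨hyD, hb⟩ := hy
    rw [mem_union]
    have hm := hD y hyD (Fin.castSucc_le_succ i)
    rcases hm.lt_or_eq with h | h
    · right
      rw [mem_image]
      have h0 : 0 < y i.succ := by omega
      refine ⟨y - Pi.single i.succ 1, ?_, sub_add_single h0⟩
      rw [mem_ES]
      refine ⟨sub_mem_lo hD hyD h, fun h' => hb ⟨h0, h'⟩⟩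
    · left
      unfold eqs
      rw [mem_filter]
      exact ⟨hyD, h.symm⟩
  calc (bad D i).card ≤ _ := card_le_card hsub
    _ ≤ (eqs D i).card + ((ES D).image fun x => x + Pi.single i.succ 1).card := card_union_le _ _
    _ ≤ (eqs D i).card + EE D := by
        have := card_image_le (s := ES D) (f := fun x => x + Pi.single i.succ 1)
        rw [card_ES] at this
        omega

/-- (b) -/
theorem eqs_zero_le {m : ℕ} {D : Finset (Fin (m + 2) → ℕ)} (hD : ∀ y ∈ D, Monotone y)
    (ht : ∀ y ∈ D, ∑ i, y i = t) : (eqs D 0).card ≤ m * EE D + 1 := by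
  classical
  let cst : Finset (Fin (m + 2) → ℕ) := D.filter fun y => ∀ i, y i = y 0
  have hc : cst.card ≤ 1 := by
    rw [card_le_one]
    intro a ha b hb
    rw [mem_filter] at ha hb
    have h1 := ht a ha.1
    have h2 := ht b hb.1
    have h3 : ∑ i, a i = (m + 2) * a 0 := by
      rw [Finset.sum_congr rfl (fun i _ => ha.2 i)]; simp
    have h4 : ∑ i, b i = (m + 2) * b 0 := by
      rw [Finset.sum_congr rfl (fun i _ => hb.2 i)]; simp
    have h5 : a 0 = b 0 := by
      have : (m + 2) * a 0 = (m + 2) * b 0 := by omega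
      exact Nat.eq_of_mul_eq_mul_left (by omega) this
    funext i
    rw [ha.2 i, hb.2 i, h5]
  have hsub : eqs D 0 ⊆ cst ∪ (univ : Finset (Fin m)).biUnion
      fun i => (ES D).image fun x => x + Pi.single i.succ.succ 1 := by
    intro y hy
    unfold eqs at hy
    rw [mem_filter] at hy
    obtain ⟨hyD, he⟩ := hy
    rw [mem_union]
    by_cases hcst : ∀ i, y i = y 0
    · left
      rw [mem_filter]
      exact ⟨hyD, hcst⟩
    · right
      have hex : ∃ i : Fin m, y i.succ.castSucc < y i.succ.succ := by
        by_contra hno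
        push Not at hno
        apply hcst
        intro i
        have hall : ∀ i : Fin (m + 1), y i.succ = y i.castSucc := by
          intro i
          refine Fin.cases he (fun j => ?_) i
          have h1 := hno j
          have h2 := hD y hyD (Fin.castSucc_le_succ j.succ)
          omega
        refine Fin.induction rfl (fun j hj => ?_) i
        rw [hall j, hj]
      obtain ⟨i, hi⟩ := hex
      rw [mem_biUnion]
      refine ⟨i, mem_univ _, ?_⟩
      rw [mem_image]
      have h0 : 0 < y i.succ.succ := by omega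
      refine ⟨y - Pi.single i.succ.succ 1, ?_, sub_add_single h0⟩
      rw [mem_ES]
      refine ⟨sub_mem_lo hD hyD hi, fun h' => ?_⟩
      have h1 := hD _ h' (Fin.castSucc_le_succ (0 : Fin (m + 1)))
      have e1 : (Fin.castSucc (0 : Fin (m + 1))) = 0 := rfl
      have e2 : (Fin.succ (0 : Fin (m + 1))) ≠ i.succ.succ := by
        intro h
        exact absurd (Fin.succ_injective _ h) (Fin.succ_ne_zero i).symm
      have e3 : (0 : Fin (m + 2)) ≠ i.succ.succ := (Fin.succ_ne_zero _).symm
      rw [add_single_apply, add_single_apply, sub_single_apply, sub_single_apply, e1,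
        if_pos rfl, if_neg e3, if_neg (Fin.succ_ne_zero _), if_neg e2, he, e1] at h1
      omega
  calc (eqs D 0).card ≤ _ := card_le_card hsub
    _ ≤ cst.card + _ := card_union_le _ _
    _ ≤ cst.card + ∑ i : Fin m, ((ES D).image fun x => x + Pi.single i.succ.succ 1).card := by
        have := card_biUnion_le (s := (univ : Finset (Fin m)))
          (t := fun i => (ES D).image fun x => x + Pi.single i.succ.succ 1)
        omega
    _ ≤ 1 + ∑ i : Fin m, EE D := by
        have : ∑ i : Fin m, ((ES D).image fun x => x + Pi.single i.succ.succ 1).card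
            ≤ ∑ i : Fin m, EE D := by
          refine Finset.sum_le_sum fun i _ => ?_
          rw [← card_ES]
          exact card_image_le
        omega
    _ = m * EE D + 1 := by simp; ring

/-- (c) -/
theorem eqs_succ_le {m : ℕ} {D : Finset (Fin (m + 2) → ℕ)} (hD : ∀ y ∈ D, Monotone y)
    (i : Fin m) : (eqs D i.succ).card ≤ (bad D i.castSucc).card := by
  -- good elements on both sides
  let G : Finset (Fin (m + 2) → ℕ) := D.filter fun y =>
    (0 < y i.castSucc.succ ∧ y - Pi.single i.castSucc.succ 1 + Pi.single 0 1 ∈ D)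
  let G' : Finset (Fin (m + 2) → ℕ) := D.filter fun z =>
    (0 < z 0 ∧ z - Pi.single 0 1 + Pi.single i.castSucc.succ 1 ∈ D)
  have hGc : G.card = G'.card := by
    refine card_bij (fun y _ => y - Pi.single i.castSucc.succ 1 + Pi.single 0 1) ?_ ?_ ?_
    · intro y hy
      rw [mem_filter] at hy ⊢
      refine ⟨hy.2.2, ?_, ?_⟩
      · rw [add_single_apply, if_pos rfl]; omega
      · have : (y - Pi.single i.castSucc.succ 1 + Pi.single 0 1 - Pi.single 0 1
            + Pi.single i.castSucc.succ 1 : Fin (m + 2) → ℕ) = y := by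
          rw [add_tsub_cancel_right]
          exact sub_add_single hy.2.1
        rw [this]
        exact hy.1
    · intro a ha b hb hab
      rw [mem_filter] at ha hb
      have h1 := add_right_cancel hab
      have h2 := sub_add_single ha.2.1
      rw [← h2, h1, sub_add_single hb.2.1]
    · intro z hz
      rw [mem_filter] at hz
      refine ⟨z - Pi.single 0 1 + Pi.single i.castSucc.succ 1, ?_, ?_⟩
      · rw [mem_filter]
        refine ⟨hz.2.2, ?_, ?_⟩
        · rw [add_single_apply, if_pos rfl]; omega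
        · rw [add_tsub_cancel_right, sub_add_single hz.2.1]
          exact hz.1
      · rw [add_tsub_cancel_right, sub_add_single hz.2.1]
  have h1 : (bad D i.castSucc).card + G.card = D.card := by
    rw [← card_union_of_disjoint]
    · congr 1
      ext y
      unfold bad
      simp only [mem_union, mem_filter, G]
      tauto
    · rw [Finset.disjoint_left]
      intro y hy hy'
      unfold bad at hy
      rw [mem_filter] at hy hy'
      exact hy.2 hy'.2
  let B : Finset (Fin (m + 2) → ℕ) := D.filter fun z =>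
    ¬ (0 < z 0 ∧ z - Pi.single 0 1 + Pi.single i.castSucc.succ 1 ∈ D)
  have h2 : B.card + G'.card = D.card := by
    rw [← card_union_of_disjoint]
    · congr 1
      ext y
      simp only [mem_union, mem_filter, G', B]
      tauto
    · rw [Finset.disjoint_left]
      intro y hy hy'
      rw [mem_filter] at hy hy'
      exact hy.2 hy'.2
  have hsub : eqs D i.succ ⊆ B := by
    intro z hz
    unfold eqs at hz
    rw [mem_filter] at hz ⊢
    refine ⟨hz.1, ?_⟩
    rintro ⟨_, hz2⟩
    have h3 := hD _ hz2 (Fin.castSucc_le_succ i.succ)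
    have e0 : (i.succ : Fin (m + 1)).castSucc = i.castSucc.succ := rfl
    have e1 : (i.succ : Fin (m + 1)).succ ≠ i.castSucc.succ := by
      intro h
      have := Fin.succ_injective _ h
      exact absurd this (Fin.castSucc_lt_succ (i := i)).ne'
    rw [add_single_apply, add_single_apply, sub_single_apply, sub_single_apply, e0,
      if_pos rfl, if_neg e1, if_neg (Fin.succ_ne_zero _), if_neg (Fin.succ_ne_zero _)] at h3
    have h4 := hz.2
    rw [e0] at h4
    omega
  have h3 := card_le_card hsub
  omega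

/-- (d) -/
theorem bad_bound {m : ℕ} {D : Finset (Fin (m + 2) → ℕ)} (hD : ∀ y ∈ D, Monotone y)
    (ht : ∀ y ∈ D, ∑ i, y i = t) (i : Fin (m + 1)) :
    (eqs D i).card ≤ (m + i) * EE D + 1 := by
  refine Fin.induction ?_ (fun j hj => ?_) i
  · simpa using eqs_zero_le hD ht
  · have h1 := eqs_succ_le hD j
    have h2 := bad_le hD j.castSucc
    have h3 : ((j.succ : Fin (m + 1)) : ℕ) = (j.castSucc : Fin (m + 1)) + 1 := by simp
    rw [h3]
    calc _ ≤ (m + (j.castSucc : Fin (m + 1))) * EE D + 1 + EE D := by omega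
      _ = _ := by ring

/-- (e): the projections of the tails -/
theorem proj_le {m : ℕ} {D : Finset (Fin (m + 1) → ℕ)} (i : Fin m) :
    (((D.image fun y => Fin.tail y)).image fun y => Function.update y i 0).card
      ≤ (bad D i).card := by
  classical
  have hsub : ((D.image fun y => Fin.tail y)).image (fun y => Function.update y i 0) ⊆
      (bad D i).image fun y => Function.update (Fin.tail y) i 0 := by
    intro v hv
    simp only [mem_image, exists_exists_and_eq_and] at hv
    obtain ⟨y₀, hy₀, hv⟩ := hv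
    -- choose y with the smallest coordinate
    let S := D.filter fun y => Function.update (Fin.tail y) i 0 = v
    have hS : S.Nonempty := ⟨y₀, by rw [mem_filter]; exact ⟨hy₀, hv⟩⟩
    obtain ⟨y, hyS, hmin⟩ := S.exists_min_image (fun y => y i.succ) hS
    rw [mem_filter] at hyS
    rw [mem_image]
    refine ⟨y, ?_, hyS.2⟩
    unfold bad
    rw [mem_filter]
    refine ⟨hyS.1, ?_⟩
    rintro ⟨h0, h1⟩
    have h2 : (y - Pi.single i.succ 1 + Pi.single 0 1 : Fin (m + 1) → ℕ) ∈ S := by
      rw [mem_filter]
      refine ⟨h1, ?_⟩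
      rw [← hyS.2]
      funext j
      by_cases hj : j = i
      · subst hj; simp
      · rw [Function.update_of_ne hj, Function.update_of_ne hj]
        unfold Fin.tail
        rw [add_single_apply, sub_single_apply, if_neg (Fin.succ_ne_zero _), if_neg]
        intro h
        exact hj (Fin.succ_injective _ h)
    have h3 := hmin _ h2
    rw [add_single_apply, sub_single_apply, if_neg (Fin.succ_ne_zero _), if_pos rfl] at h3
    omega
  exact (card_le_card hsub).trans card_image_le

theorem card_tail {m : ℕ} {D : Finset (Fin (m + 1) → ℕ)} (ht : ∀ y ∈ D, ∑ i, y i = t) :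
    (D.image fun y => Fin.tail y).card = D.card := by
  refine card_image_of_injOn ?_
  intro a ha b hb hab
  simp only at hab
  have h1 := ht a ha
  have h2 := ht b hb
  rw [Fin.sum_univ_succ] at h1 h2
  have h3 : ∀ i : Fin m, a i.succ = b i.succ := fun i => congrFun hab i
  funext j
  refine Fin.cases ?_ (fun i => h3 i) j
  have : ∑ i : Fin m, a i.succ = ∑ i : Fin m, b i.succ := Finset.sum_congr rfl fun i _ => h3 i
  omega

end LemEAux

open LemEAux

theorem df_eq {D : Finset (Fin (m + 1) → ℕ)} (hD : ∀ y ∈ D, Monotone y) :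
    D.card + EE D = (lo D).card + (D.filter fun y => y 0 = 0).card := by
  classical
  have h1 := card_filter_add_card_filter_not (s := D) (fun y : Fin (m + 1) → ℕ => y 0 = 0)
  have h2 := card_filter_add_card_filter_not (s := lo D)
    (fun x : Fin (m + 1) → ℕ => x + Pi.single 0 1 ∈ D)
  have h3 : ((lo D).filter fun x => x + Pi.single 0 1 ∈ D).card
      = (D.filter fun y => ¬ y 0 = 0).card := by
    refine card_bij (fun x _ => x + Pi.single 0 1) ?_ ?_ ?_
    · intro x hx
      rw [mem_filter] at hx ⊢
      refine ⟨hx.2, ?_⟩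
      rw [add_single_apply, if_pos rfl]
      omega
    · intro a _ b _ hab
      exact add_right_cancel hab
    · intro y hy
      rw [mem_filter] at hy
      have h0 : 0 < y 0 := by omega
      refine ⟨y - Pi.single 0 1, ?_, sub_add_single h0⟩
      rw [mem_filter, mem_lo]
      have hm : Monotone (y - Pi.single 0 1 : Fin (m + 1) → ℕ) := by
        intro j k hjk
        rw [sub_single_apply, sub_single_apply]
        have h1 := hD y hy.1 hjk
        split_ifs with h2 h3 h3
        · omega
        · omega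
        · subst h3
          exact absurd (Fin.le_zero_iff.1 hjk) h2
        · exact h1
      refine ⟨⟨hm, 0, ?_⟩, ?_⟩ <;>
      · rw [sub_add_single h0]; exact hy.1
  have h4 : EE D = ((lo D).filter fun x => ¬ x + Pi.single 0 1 ∈ D).card := rfl
  omega

theorem lemE (hm : 1 ≤ m) {D : Finset (Fin (m + 1) → ℕ)} (hD : D ⊆ P (m + 1) n t) :
    D.card ^ (m - 1) ≤ ((2 * m + 3) * (EE D + 1)) ^ m := by
  classical
  obtain ⟨m, rfl⟩ : ∃ k, m = k + 1 := ⟨m - 1, by omega⟩
  have hmono : ∀ y ∈ D, Monotone y := fun y hy => P_mono (hD hy)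
  have ht : ∀ y ∈ D, ∑ i, y i = t := fun y hy => P_sum (hD hy)
  have hpos : 1 ≤ ((2 * (m + 1) + 3) * (EE D + 1)) ^ (m + 1) := Nat.one_le_pow _ _ (by positivity)
  rcases D.eq_empty_or_nonempty with he | hne
  · refine le_trans ?_ hpos
    have : D.card = 0 := by rw [he]; rfl
    rw [this]
    cases m <;> simp
  have hne' : (D.image fun y => Fin.tail y).Nonempty := hne.image _
  have h1 := loomis_whitney _ hne'
  rw [card_tail ht] at h1
  refine h1.trans ?_
  calc ∏ i, ((D.image fun y => Fin.tail y).image fun y => Function.update y i 0).card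
      ≤ ∏ _i : Fin (m + 1), ((2 * (m + 1) + 3) * (EE D + 1)) := by
        refine Finset.prod_le_prod' fun i _ => ?_
        refine (proj_le i).trans ?_
        have h2 := bad_le hmono i
        have h3 := bad_bound hmono ht i
        have h4 : (i : ℕ) ≤ m := Nat.lt_succ_iff.1 i.isLt
        have h5 : (m + (i : ℕ)) * EE D ≤ (m + m) * EE D := Nat.mul_le_mul_right _ (by omega)
        calc (bad D i).card ≤ (m + m) * EE D + 1 + EE D := by omega
          _ ≤ (2 * (m + 1) + 3) * (EE D + 1) := by nlinarith
    _ = _ := by simp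

end Pool.Agent.Helper46.MR
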