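import Mathlib

set_option autoImplicit false

/-!
# MR-9 Burn: Burnside's lemma for permutation invariant sets of sequences

PROOF. `∑_s #{x ∈ B : x ∘ s = x} = ∑_{x ∈ B} #{s : x ∘ s = x}`. With `σ = Tuple.sort x`,
`s ↦ σ⁻¹ s` is a bijection from the stabiliser of `x` to the set of `s` with `(x ∘ σ) ∘ s = x`, and
for each `s` the map `a ↦ a ∘ s` is a bijection from the monotone members `a` of `B` to the `x ∈ B`
with `(x ∘ sort x) ∘ s = x`.
-/

namespace Pool.Agent.Helper46.MR

open Finset

open Classical in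
theorem burnside {m : ℕ} (B : Finset (Fin m → ℕ))
    (hB : ∀ x ∈ B, ∀ s : Equiv.Perm (Fin m), x ∘ s ∈ B) :
    ∑ s : Equiv.Perm (Fin m), (B.filter fun x => x ∘ s = x).card =
      m.factorial * (B.filter fun x => Monotone x).card := by
  have key : ∀ s : Equiv.Perm (Fin m),
      (B.filter fun x => (x ∘ Tuple.sort x) ∘ s = x).card =
        (B.filter fun x => Monotone x).card := by
    intro s
    symm
    refine Finset.card_bij (fun a _ => a ∘ s) ?_ ?_ ?_
    · intro a ha
      rw [mem_filter] at ha ⊢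
      refine ⟨hB a ha.1 s, ?_⟩
      have h1 : Monotone (a ∘ (1 : Equiv.Perm (Fin m))) := ha.2
      have h2 : Monotone (a ∘ (s * Tuple.sort (a ∘ s) : Equiv.Perm (Fin m))) :=
        Tuple.monotone_sort (a ∘ s)
      have h3 : a ∘ (s * Tuple.sort (a ∘ s) : Equiv.Perm (Fin m)) =
        a ∘ (1 : Equiv.Perm (Fin m)) := Tuple.unique_monotone h2 h1
      have h4 : (a ∘ s) ∘ Tuple.sort (a ∘ s) = a := h3
      rw [h4]
    · intro a _ b _ hab
      have : (a ∘ s) ∘ s.symm = (b ∘ s) ∘ s.symm := by rw [hab]
      simpa [Function.comp_assoc] using this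
    · intro x hx
      rw [mem_filter] at hx
      exact ⟨x ∘ Tuple.sort x, mem_filter.2 ⟨hB x hx.1 _, Tuple.monotone_sort x⟩, hx.2⟩
  have hstab : ∀ x : Fin m → ℕ,
      (univ.filter fun s : Equiv.Perm (Fin m) => x ∘ s = x).card =
        (univ.filter fun s : Equiv.Perm (Fin m) => (x ∘ Tuple.sort x) ∘ s = x).card := by
    intro x
    refine Finset.card_bij (fun s _ => (Tuple.sort x)⁻¹ * s) ?_ ?_ ?_
    · intro s hs
      rw [mem_filter] at hs ⊢
      refine ⟨mem_univ _, ?_⟩
      have : (x ∘ Tuple.sort x) ∘ ((Tuple.sort x)⁻¹ * s : Equiv.Perm (Fin m)) = x ∘ s := by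
        funext i
        simp [Function.comp_apply]
      rw [this, hs.2]
    · intro a _ b _ hab
      exact mul_left_cancel hab
    · intro s hs
      rw [mem_filter] at hs
      exact ⟨Tuple.sort x * s, mem_filter.2 ⟨mem_univ _, hs.2⟩, by group⟩
  calc ∑ s : Equiv.Perm (Fin m), (B.filter fun x => x ∘ s = x).card
      = ∑ x ∈ B, (univ.filter fun s : Equiv.Perm (Fin m) => x ∘ s = x).card := by
        simp only [card_filter]
        exact Finset.sum_comm
    _ = ∑ x ∈ B, (univ.filter fun s : Equiv.Perm (Fin m) =>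
          (x ∘ Tuple.sort x) ∘ s = x).card := Finset.sum_congr rfl fun x _ => hstab x
    _ = ∑ s : Equiv.Perm (Fin m), (B.filter fun x => (x ∘ Tuple.sort x) ∘ s = x).card := by
        simp only [card_filter]
        exact Finset.sum_comm
    _ = ∑ _s : Equiv.Perm (Fin m), (B.filter fun x => Monotone x).card :=
        Finset.sum_congr rfl fun s _ => key s
    _ = m.factorial * (B.filter fun x => Monotone x).card := by
        rw [sum_const, card_univ, Fintype.card_perm, Fintype.card_fin, smul_eq_mul]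

end Pool.Agent.Helper46.MR
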