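import Pool.Agent.Helper46.MR.Sym
import Pool.Agent.Helper46.MR.Burn

set_option autoImplicit false

/-!
# MR-11 BurnIneq: deficiencies through the cube

PROOF. Let `B = sy n (k+1) D`, `B' = clo B = sy n k (lo D)`. By `burnside` and `sy_filter`:
`m! |D| = ∑_s |B^s|`, `m! |lo D| = ∑_s |B'^s|`, where `B^s = {x ∈ B : x ∘ s = x}`; `s = 1` gives
`|B| - |B'|`. CLAIM: `|B^s| - |B'^s| ≤ (n+1)^(m-3)` for every `s ≠ 1`.
(i) `s` has a fixed point `c`: `y ↦ y - e_c` maps `{y ∈ B^s : 0 < y_c}` injectively into `B'^s`. The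
rest `{y ∈ B^s : y_c = 0}`: choose `i` with `j = s i ≠ i` (`i, j, c` distinct); `y_i = y_j`, and `y`
is determined by its values outside `{i, j, c}` because `2 y_j = k + 1 - (the rest)`: at most
`(n+1)^(m-3)`.
(ii) `s` has no fixed point: choose `i`, `j = s i ≠ i`, `i' ∉ {i, j}` (`m ≥ 3`), `j' = s i' ≠ i'`;
`y_i = y_j`, `y_{i'} = y_{j'}`; the values outside `{i, i', j}` determine `y`: if `j' ∈ {i, j}` then
`3 y_j` is known, otherwise `y_{i'}` and then `2 y_j`. So `|B^s| ≤ (n+1)^(m-3)`.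
`burn_up` in the same way with `x ↦ x + e_c` on `{x : x_c < n}`, the rest has `x_c = n`.
`le_sy_card`: `m! |A| = ∑_s |B^s| ≤ |B| + ∑_{s ≠ 1} #{x ∈ Q m n k : x_i = x_{s i}}`,
each at most `(n+1)^(m-2)`. `sy_card_le`: `|B| ≤ ∑_s |B^s|`.
-/

namespace Pool.Agent.Helper46.MR

open Finset Pool.Agent.Helper30.SC

variable {m n k : ℕ}

namespace BurnIneqAux

/-- a family of sequences bounded by `n` and determined by the values outside `T` -/
theorem card_le_of_det (F : Finset (Fin m → ℕ)) (hF : ∀ y ∈ F, ∀ i, y i ≤ n)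
    (T : Finset (Fin m)) (hdet : ∀ y ∈ F, ∀ y' ∈ F, (∀ i, i ∉ T → y i = y' i) → y = y') :
    F.card ≤ (n + 1) ^ (m - T.card) := by
  classical
  have h1 : F.card ≤ (univ : Finset ({i : Fin m // i ∉ T} → Fin (n + 1))).card := by
    refine Finset.card_le_card_of_injOn
      (fun y (i : {i : Fin m // i ∉ T}) => (⟨min (y i.1) n, by omega⟩ : Fin (n + 1)))
      (fun _ _ => mem_univ _) ?_
    intro y hy y' hy' h
    refine hdet y hy y' hy' fun i hi => ?_
    have h2 := congrFun h ⟨i, hi⟩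
    have h3 : min (y i) n = min (y' i) n := by simpa using congrArg Fin.val h2
    have h4 := hF y hy i
    have h5 := hF y' hy' i
    omega
  refine h1.trans (le_of_eq ?_)
  rw [card_univ, Fintype.card_fun, Fintype.card_fin]
  congr 1
  rw [Fintype.card_subtype_compl]
  simp

theorem sumT {y y' : Fin m → ℕ} (T : Finset (Fin m)) (hs : ∑ i, y i = ∑ i, y' i)
    (h : ∀ i, i ∉ T → y i = y' i) : ∑ i ∈ T, y i = ∑ i ∈ T, y' i := by
  classical
  have h1 := Finset.sum_add_sum_compl T y
  have h2 := Finset.sum_add_sum_compl T y'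
  have h3 : ∑ i ∈ Tᶜ, y i = ∑ i ∈ Tᶜ, y' i :=
    Finset.sum_congr rfl fun i hi => h i (by simpa using hi)
  omega

/-- the points of `B` fixed by `s` -/
noncomputable def fx (s : Equiv.Perm (Fin m)) (B : Finset (Fin m → ℕ)) : Finset (Fin m → ℕ) :=
  open Classical in B.filter fun x => x ∘ s = x

theorem mem_fx {s : Equiv.Perm (Fin m)} {B : Finset (Fin m → ℕ)} {x : Fin m → ℕ} :
    x ∈ fx s B ↔ x ∈ B ∧ ∀ i, x (s i) = x i := by
  classical
  unfold fx
  rw [mem_filter]
  refine and_congr_right fun _ => ?_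
  constructor
  · intro h i
    exact congrFun h i
  · intro h
    funext i
    exact h i

theorem exists_move {s : Equiv.Perm (Fin m)} (hs : s ≠ 1) : ∃ i, s i ≠ i := by
  by_contra h
  push Not at h
  exact hs (Equiv.ext h)

/-- two equal coordinates -/
theorem card_fx_two {s : Equiv.Perm (Fin m)} (hs : s ≠ 1) {B : Finset (Fin m → ℕ)}
    (hB : B ⊆ Q m n k) : (fx s B).card ≤ (n + 1) ^ (m - 2) := by
  classical
  obtain ⟨i, hi⟩ := exists_move hs
  have hT : ({i, s i} : Finset (Fin m)).card = 2 := Finset.card_pair (Ne.symm hi)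
  have := card_le_of_det (n := n) (fx s B)
    (fun y hy => (mem_Q.1 (hB (mem_fx.1 hy).1)).1) {i, s i} ?_
  · rwa [hT] at this
  · intro y hy y' hy' h
    obtain ⟨hyB, hyf⟩ := mem_fx.1 hy
    obtain ⟨hyB', hyf'⟩ := mem_fx.1 hy'
    have h1 := (mem_Q.1 (hB hyB)).2
    have h2 := (mem_Q.1 (hB hyB')).2
    have h3 := sumT {i, s i} (h1.trans h2.symm) h
    rw [Finset.sum_pair (Ne.symm hi), Finset.sum_pair (Ne.symm hi)] at h3
    have h4 := hyf i
    have h5 := hyf' i
    funext a
    by_cases ha : a ∈ ({i, s i} : Finset (Fin m))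
    · rw [mem_insert, mem_singleton] at ha
      rcases ha with rfl | rfl <;> omega
    · exact h a ha

/-- two equal coordinates and a third one with a prescribed value -/
theorem card_fx_three {s : Equiv.Perm (Fin m)} (hs : s ≠ 1) {c : Fin m} (hc : s c = c) (v : ℕ)
    {B : Finset (Fin m → ℕ)} (hB : B ⊆ Q m n k) :
    ((fx s B).filter fun y => y c = v).card ≤ (n + 1) ^ (m - 3) := by
  classical
  obtain ⟨i, hi⟩ := exists_move hs
  have hic : i ≠ c := by
    rintro rfl
    exact hi hc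
  have hsc : s i ≠ c := by
    intro h
    exact hic (s.injective (h.trans hc.symm))
  have hT : ({i, s i, c} : Finset (Fin m)).card = 3 := Finset.card_eq_three.2
    ⟨i, s i, c, Ne.symm hi, hic, hsc, rfl⟩
  have := card_le_of_det (n := n) ((fx s B).filter fun y => y c = v)
    (fun y hy => (mem_Q.1 (hB (mem_fx.1 (mem_filter.1 hy).1).1)).1) {i, s i, c} ?_
  · rwa [hT] at this
  · intro y hy y' hy' h
    obtain ⟨hy1, hyc⟩ := mem_filter.1 hy
    obtain ⟨hy1', hyc'⟩ := mem_filter.1 hy'
    obtain ⟨hyB, hyf⟩ := mem_fx.1 hy1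
    obtain ⟨hyB', hyf'⟩ := mem_fx.1 hy1'
    have h1 := (mem_Q.1 (hB hyB)).2
    have h2 := (mem_Q.1 (hB hyB')).2
    have h3 := sumT {i, s i, c} (h1.trans h2.symm) h
    rw [Finset.sum_insert (by simp [hic, Ne.symm hi]), Finset.sum_pair hsc,
      Finset.sum_insert (by simp [hic, Ne.symm hi]), Finset.sum_pair hsc] at h3
    have h4 := hyf i
    have h5 := hyf' i
    funext a
    by_cases ha : a ∈ ({i, s i, c} : Finset (Fin m))
    · rw [mem_insert, mem_insert, mem_singleton] at ha
      rcases ha with rfl | rfl | rfl <;> omega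
    · exact h a ha

/-- no fixed coordinate -/
theorem card_fx_free (hm : 3 ≤ m) {s : Equiv.Perm (Fin m)} (hs : ∀ c, s c ≠ c)
    {B : Finset (Fin m → ℕ)} (hB : B ⊆ Q m n k) : (fx s B).card ≤ (n + 1) ^ (m - 3) := by
  classical
  have i : Fin m := ⟨0, by omega⟩
  have hi := hs i
  obtain ⟨b, hb⟩ : ∃ b : Fin m, b ∉ ({i, s i} : Finset (Fin m)) := by
    by_contra h
    push Not at h
    have h1 : (univ : Finset (Fin m)) ⊆ {i, s i} := fun b _ => h b
    have h2 := Finset.card_le_card h1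
    rw [card_univ, Fintype.card_fin, Finset.card_pair (Ne.symm hi)] at h2
    omega
  rw [mem_insert, mem_singleton, not_or] at hb
  obtain ⟨hbi, hbs⟩ := hb
  have hT : ({i, s i, b} : Finset (Fin m)).card = 3 := Finset.card_eq_three.2
    ⟨i, s i, b, Ne.symm hi, Ne.symm hbi, Ne.symm hbs, rfl⟩
  have := card_le_of_det (n := n) (fx s B)
    (fun y hy => (mem_Q.1 (hB (mem_fx.1 hy).1)).1) {i, s i, b} ?_
  · rwa [hT] at this
  · intro y hy y' hy' h
    obtain ⟨hyB, hyf⟩ := mem_fx.1 hy
    obtain ⟨hyB', hyf'⟩ := mem_fx.1 hy'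
    have h1 := (mem_Q.1 (hB hyB)).2
    have h2 := (mem_Q.1 (hB hyB')).2
    have h3 := sumT {i, s i, b} (h1.trans h2.symm) h
    rw [Finset.sum_insert (by simp [Ne.symm hbi, Ne.symm hi]), Finset.sum_pair (Ne.symm hbs),
      Finset.sum_insert (by simp [Ne.symm hbi, Ne.symm hi]), Finset.sum_pair (Ne.symm hbs)] at h3
    have h4 := hyf i
    have h5 := hyf' i
    have h6 := hyf b
    have h7 := hyf' b
    have h8 : y b = y' b ∨ (y b = y i ∧ y' b = y' i) := by
      by_cases hsb : s b ∈ ({i, s i, b} : Finset (Fin m))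
      · rw [mem_insert, mem_insert, mem_singleton] at hsb
        right
        rcases hsb with e | e | e
        · rw [e] at h6 h7
          exact ⟨h6.symm, h7.symm⟩
        · exact absurd (s.injective e) hbi
        · exact absurd e (hs b)
      · left
        rw [← h6, ← h7]
        exact h _ hsb
    funext a
    by_cases ha : a ∈ ({i, s i, b} : Finset (Fin m))
    · rw [mem_insert, mem_insert, mem_singleton] at ha
      rcases h8 with h8 | ⟨h8, h8'⟩ <;> rcases ha with rfl | rfl | rfl <;> omega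
    · exact h a ha

theorem fx_single {s : Equiv.Perm (Fin m)} {c : Fin m} (hc : s c = c) (i : Fin m) :
    (Pi.single c 1 : Fin m → ℕ) (s i) = (Pi.single c 1 : Fin m → ℕ) i := by
  by_cases h : i = c
  · subst h
    rw [hc]
  · have h' : s i ≠ c := fun e => h (s.injective (e.trans hc.symm))
    rw [Pi.single_eq_of_ne h, Pi.single_eq_of_ne h']

theorem fx_clo (hm : 3 ≤ m) {s : Equiv.Perm (Fin m)} (hs : s ≠ 1) {B : Finset (Fin m → ℕ)}
    (hB : B ⊆ Q m n k) : (fx s B).card ≤ (fx s (clo B)).card + (n + 1) ^ (m - 3) := by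
  classical
  by_cases hfree : ∀ c, s c ≠ c
  · exact (card_fx_free hm hfree hB).trans (Nat.le_add_left _ _)
  push Not at hfree
  obtain ⟨c, hc⟩ := hfree
  have h1 := card_fx_three (n := n) hs hc 0 hB
  have h2 : ((fx s B).filter fun y => ¬ y c = 0).card ≤ (fx s (clo B)).card := by
    refine Finset.card_le_card_of_injOn (fun y => y - Pi.single c 1) ?_ ?_
    · intro y hy
      obtain ⟨hy1, hyc⟩ := mem_filter.1 (mem_coe.1 hy)
      obtain ⟨hyB, hyf⟩ := mem_fx.1 hy1
      refine mem_coe.2 (mem_fx.2 ⟨mem_clo.2 ⟨c, ?_⟩, fun i => ?_⟩)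
      · have : (y - Pi.single c 1 + Pi.single c 1 : Fin m → ℕ) = y := by
          funext j
          by_cases h : j = c
          · subst h
            simp
            omega
          · simp [h]
        rw [this]
        exact hyB
      · show y (s i) - (Pi.single c 1 : Fin m → ℕ) (s i) = y i - (Pi.single c 1 : Fin m → ℕ) i
        rw [hyf i, fx_single hc]
    · intro y hy y' hy' h
      obtain ⟨_, hyc⟩ := mem_filter.1 (mem_coe.1 hy)
      obtain ⟨_, hyc'⟩ := mem_filter.1 (mem_coe.1 hy')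
      funext j
      have h3 : y j - (Pi.single c 1 : Fin m → ℕ) j = y' j - (Pi.single c 1 : Fin m → ℕ) j :=
        congrFun h j
      by_cases hj : j = c
      · subst hj
        rw [Pi.single_eq_same] at h3
        omega
      · rw [Pi.single_eq_of_ne hj] at h3
        omega
  have h3 := Finset.card_filter_add_card_filter_not (s := fx s B) (fun y => y c = 0)
  omega

theorem fx_cup (hm : 3 ≤ m) {s : Equiv.Perm (Fin m)} (hs : s ≠ 1) {B : Finset (Fin m → ℕ)}
    (hB : B ⊆ Q m n k) : (fx s B).card ≤ (fx s (cup n B)).card + (n + 1) ^ (m - 3) := by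
  classical
  by_cases hfree : ∀ c, s c ≠ c
  · exact (card_fx_free hm hfree hB).trans (Nat.le_add_left _ _)
  push Not at hfree
  obtain ⟨c, hc⟩ := hfree
  have h1 := card_fx_three (n := n) hs hc n hB
  have h2 : ((fx s B).filter fun y => ¬ y c = n).card ≤ (fx s (cup n B)).card := by
    refine Finset.card_le_card_of_injOn (fun y => y + Pi.single c 1) ?_ ?_
    · intro y hy
      obtain ⟨hy1, hyc⟩ := mem_filter.1 (mem_coe.1 hy)
      obtain ⟨hyB, hyf⟩ := mem_fx.1 hy1
      have h4 := (mem_Q.1 (hB hyB)).1 c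
      refine mem_coe.2 (mem_fx.2 ⟨mem_cup.2 ⟨y, hyB, c, by omega, rfl⟩, fun i => ?_⟩)
      show y (s i) + (Pi.single c 1 : Fin m → ℕ) (s i) = y i + (Pi.single c 1 : Fin m → ℕ) i
      rw [hyf i, fx_single hc]
    · intro y hy y' hy' h
      exact add_right_cancel h
  have h3 := Finset.card_filter_add_card_filter_not (s := fx s B) (fun y => y c = n)
  omega

theorem burn_fx {B : Finset (Fin m → ℕ)}
    (hB : ∀ x ∈ B, ∀ s : Equiv.Perm (Fin m), x ∘ s ∈ B) :
    ∑ s : Equiv.Perm (Fin m), (fx s B).card =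
      m.factorial * (open Classical in (B.filter fun x => Monotone x).card) := by
  classical
  exact burnside B hB

theorem fx_one (B : Finset (Fin m → ℕ)) : fx (1 : Equiv.Perm (Fin m)) B = B := by
  ext x
  rw [mem_fx]
  simp

theorem burn_sy {A : Finset (Fin m → ℕ)} (hA : A ⊆ P m n k) :
    ∑ s : Equiv.Perm (Fin m), (fx s (sy n k A)).card = m.factorial * A.card := by
  classical
  have h := burn_fx (B := sy n k A) (fun x hx s => sy_inv A hx s)
  rw [h]
  congr 2
  exact sy_filter hA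

/-- summation of the inequalities over the permutations -/
theorem sum_perm_le (f g : Equiv.Perm (Fin m) → ℕ) (c : ℕ)
    (h : ∀ s, s ≠ 1 → f s ≤ g s + c) :
    ∑ s, f s + g 1 ≤ ∑ s, g s + f 1 + m.factorial * c := by
  classical
  have h1 : ∑ s, f s = f 1 + ∑ s ∈ univ.erase (1 : Equiv.Perm (Fin m)), f s :=
    (Finset.add_sum_erase _ _ (mem_univ _)).symm
  have h2 : ∑ s, g s = g 1 + ∑ s ∈ univ.erase (1 : Equiv.Perm (Fin m)), g s :=
    (Finset.add_sum_erase _ _ (mem_univ _)).symm
  have h3 : ∑ s ∈ univ.erase (1 : Equiv.Perm (Fin m)), f s ≤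
      ∑ s ∈ univ.erase (1 : Equiv.Perm (Fin m)), (g s + c) :=
    Finset.sum_le_sum fun s hs => h s (Finset.ne_of_mem_erase hs)
  rw [Finset.sum_add_distrib, Finset.sum_const, smul_eq_mul] at h3
  have h4 : (univ.erase (1 : Equiv.Perm (Fin m))).card ≤ m.factorial := by
    refine (Finset.card_le_univ _).trans (le_of_eq ?_)
    rw [Fintype.card_perm, Fintype.card_fin]
  have h5 := Nat.mul_le_mul_right c h4
  omega

end BurnIneqAux

open BurnIneqAux

theorem burn_lo (hm : 3 ≤ m) {D : Finset (Fin m → ℕ)} (hD : D ⊆ P m n (k + 1)) :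
    (m.factorial : ℝ) * df D ≤
      ((sy n (k + 1) D).card : ℝ) - ((clo (sy n (k + 1) D)).card : ℝ) +
        (m.factorial : ℝ) * ((n : ℝ) + 1) ^ (m - 3) := by
  have h1 := burn_sy hD
  have h2 := burn_sy (lo_subset hD)
  rw [← clo_sy hD] at h2
  have h3 := sum_perm_le (fun s => (fx s (sy n (k + 1) D)).card)
    (fun s => (fx s (clo (sy n (k + 1) D))).card) ((n + 1) ^ (m - 3))
    (fun s hs => fx_clo hm hs (sy_subset D))
  simp only [fx_one] at h3
  rw [h1, h2] at h3
  have h4 : (m.factorial : ℝ) * D.card + (clo (sy n (k + 1) D)).card ≤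
      (m.factorial : ℝ) * (lo D).card + (sy n (k + 1) D).card +
        (m.factorial : ℝ) * ((n : ℝ) + 1) ^ (m - 3) := by
    exact_mod_cast h3
  unfold df
  linarith

theorem burn_up (hm : 3 ≤ m) {A : Finset (Fin m → ℕ)} (hA : A ⊆ P m n k) :
    ((cup n (sy n k A)).card : ℝ) - ((sy n k A).card : ℝ) -
        (m.factorial : ℝ) * ((n : ℝ) + 1) ^ (m - 3) ≤
      (m.factorial : ℝ) * (((up n A).card : ℝ) - (A.card : ℝ)) := by
  have h1 := burn_sy hA
  have h2 := burn_sy (up_subset hA)
  rw [← cup_sy hA] at h2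
  have h3 := sum_perm_le (fun s => (fx s (sy n k A)).card)
    (fun s => (fx s (cup n (sy n k A))).card) ((n + 1) ^ (m - 3))
    (fun s hs => fx_cup hm hs (sy_subset A))
  simp only [fx_one] at h3
  rw [h1, h2] at h3
  have h4 : (m.factorial : ℝ) * A.card + (cup n (sy n k A)).card ≤
      (m.factorial : ℝ) * (up n A).card + (sy n k A).card +
        (m.factorial : ℝ) * ((n : ℝ) + 1) ^ (m - 3) := by
    exact_mod_cast h3
  linarith

theorem sy_card_le {A : Finset (Fin m → ℕ)} (hA : A ⊆ P m n k) :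
    (sy n k A).card ≤ m.factorial * A.card := by
  rw [← burn_sy hA]
  have h := Finset.single_le_sum (f := fun s : Equiv.Perm (Fin m) => (fx s (sy n k A)).card)
    (fun _ _ => Nat.zero_le _) (mem_univ 1)
  simpa only [fx_one] using h

theorem le_sy_card (hm : 2 ≤ m) {A : Finset (Fin m → ℕ)} (hA : A ⊆ P m n k) :
    m.factorial * A.card ≤ (sy n k A).card + m.factorial * (n + 1) ^ (m - 2) := by
  have h1 := burn_sy hA
  have h3 := sum_perm_le (fun s => (fx s (sy n k A)).card) (fun _ => 0) ((n + 1) ^ (m - 2))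
    (fun s hs => by
      rw [Nat.zero_add]
      exact card_fx_two hs (sy_subset A))
  simp only [fx_one] at h3
  rw [h1, Finset.sum_const_zero] at h3
  omega

end Pool.Agent.Helper46.MR
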