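import Pool.Agent.Helper46.MR.BurnIneq
import Pool.Agent.Helper46.MR.Lym
import Pool.Agent.Helper46.MR.SgFacts

set_option autoImplicit false

/-!
# MR-20 Large: large sets (Burnside and the normalized matching property of the cube)

PROOF of `large_lo`. `B = sy n (k+1) D`. `burn_lo`: `m! df D ≤ |B| - |clo B| + m! (n+1)^(m-3)`.
`lym_lo`: `|clo B| ≥ |B| W k / W(k+1)`, so `|B| - |clo B| ≤ σ |B|`, `σ = sg m n (k+1)`.
If `σ ≥ 0` use `sy_card_le`: `σ |B| ≤ σ m! |D|`. If `σ < 0` use `le_sy_card`: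
`σ |B| ≤ σ m! |D| + |σ| m! (n+1)^(m-2)` and `|σ| ≤ C/n` (`sg_bound` with `η/2`; `k + 1 ≤ (m - η/2) n`
for `n ≥ n₀`). Divide by `m!`; `(n+1)^j ≤ 2^j n^j`.
`large_up`: the same with `burn_up`, `lym_up`: `|cup B| - |B| ≥ (q - 1) |B|`, `q = qq m n k ≥ 1`,
`q - 1 ≤ C/n`, `le_sy_card`. (`q - 1 = σ/(1-σ)`, or directly as in `sg_bound`.)
`ak_lo`: `large_up` for `A = P m n k`, `up_subset`.
-/

namespace Pool.Agent.Helper46.MR

open Finset Pool.Agent.Helper30.SC

namespace LargeAux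

theorem sy_subset {m n k : ℕ} (A : Finset (Fin m → ℕ)) : sy n k A ⊆ Q m n k := by
  classical
  unfold sy
  exact filter_subset _ _

theorem pow_succ_le {n j : ℕ} (hn : 1 ≤ n) : ((n : ℝ) + 1) ^ j ≤ 2 ^ j * (n : ℝ) ^ j := by
  rw [← mul_pow]
  have : (1 : ℝ) ≤ n := by exact_mod_cast hn
  exact pow_le_pow_left₀ (by linarith) (by linarith) j

/-- the error of the larger order -/
theorem pow_err {m n : ℕ} (hm : 3 ≤ m) (hn : 1 ≤ n) {x C : ℝ} (hx0 : 0 ≤ x)
    (hx : x ≤ C / n) :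
    x * ((n : ℝ) + 1) ^ (m - 2) ≤ C * 2 ^ (m - 2) * (n : ℝ) ^ (m - 3) := by
  have hn1 : (1 : ℝ) ≤ n := by exact_mod_cast hn
  have hn0 : (0 : ℝ) < n := by linarith
  have hC : 0 ≤ C := by
    have := hx0.trans hx
    by_contra hcon
    push Not at hcon
    have := div_neg_of_neg_of_pos hcon hn0
    linarith
  have h1 := pow_succ_le (n := n) (j := m - 2) hn
  have h2 : m - 2 = (m - 3) + 1 := by omega
  calc x * ((n : ℝ) + 1) ^ (m - 2) ≤ (C / n) * (2 ^ (m - 2) * (n : ℝ) ^ (m - 2)) :=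
        mul_le_mul hx h1 (by positivity) (by positivity)
    _ = C * 2 ^ (m - 2) * (n : ℝ) ^ (m - 3) := by
        rw [h2, pow_succ (n : ℝ)]
        field_simp

theorem pow_err' {m n : ℕ} (hm : 3 ≤ m) (hn : 1 ≤ n) :
    ((n : ℝ) + 1) ^ (m - 3) ≤ 2 ^ (m - 2) * (n : ℝ) ^ (m - 3) := by
  refine (pow_succ_le hn).trans ?_
  refine mul_le_mul_of_nonneg_right ?_ (by positivity)
  exact pow_le_pow_right₀ (by norm_num) (by omega)

end LargeAux

open LargeAux

theorem large_lo {m : ℕ} (hm : 3 ≤ m) (η : ℝ) (hη : 0 < η) :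
    ∃ (C : ℝ) (n₀ : ℕ), 0 ≤ C ∧ ∀ n k : ℕ, n₀ ≤ n → η * n ≤ k → (k : ℝ) ≤ (m - η) * n →
      ∀ D ⊆ P m n (k + 1), df D ≤ sg m n (k + 1) * D.card + C * (n : ℝ) ^ (m - 3) := by
  obtain ⟨C0, hC0, hsg⟩ := sg_bound (b := m) (by omega) (η / 2) (by positivity)
  obtain ⟨N, hN⟩ := exists_nat_ge (2 / η)
  refine ⟨2 ^ (m - 2) + C0 * 2 ^ (m - 2), max 1 N, by positivity, ?_⟩
  intro n k hn hk1 hk2 D hD
  have hn1 : 1 ≤ n := (le_max_left 1 N).trans hn
  have hnN : N ≤ n := (le_max_right 1 N).trans hn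
  have hn1' : (1 : ℝ) ≤ n := by exact_mod_cast hn1
  have hnN' : (N : ℝ) ≤ n := by exact_mod_cast hnN
  have hηn : 1 ≤ η / 2 * n := by
    have h : 2 / η ≤ n := hN.trans hnN'
    rw [div_le_iff₀ hη] at h
    nlinarith
  have habs : |sg m n (k + 1)| ≤ C0 / n := by
    refine hsg n (k + 1) hn1 ?_ ?_
    · push_cast
      nlinarith
    · push_cast
      nlinarith
  set B := sy n (k + 1) D with hB
  have hBQ : B ⊆ Q m n (k + 1) := sy_subset D
  have hburn := burn_lo hm hD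
  rw [← hB] at hburn
  have hlym := lym_lo hBQ
  -- the step in the cube
  have hcube : (B.card : ℝ) - ((clo B).card : ℝ) ≤ sg m n (k + 1) * B.card := by
    unfold sg
    rw [Nat.add_sub_cancel]
    by_cases hW : lev m n (k + 1) = 0
    · have hB0 : B.card = 0 := by
        have := card_le_card hBQ
        rw [card_Q, hW] at this
        omega
      rw [hB0]
      have : (0 : ℝ) ≤ ((clo B).card : ℝ) := Nat.cast_nonneg _
      simp
    · have hW' : (0 : ℝ) < (lev m n (k + 1) : ℝ) := by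
        exact_mod_cast Nat.pos_of_ne_zero hW
      have hl : (B.card : ℝ) * (lev m n k : ℝ) ≤ ((clo B).card : ℝ) * (lev m n (k + 1) : ℝ) := by
        exact_mod_cast hlym
      have h2 : (B.card : ℝ) * ((lev m n k : ℝ) / (lev m n (k + 1) : ℝ)) ≤ ((clo B).card : ℝ) := by
        rw [← mul_div_assoc, div_le_iff₀ hW']
        exact hl
      nlinarith
  have hfac : (0 : ℝ) < (m.factorial : ℝ) := by exact_mod_cast Nat.factorial_pos m
  have he1 := pow_err' hm hn1
  have hnp : (0 : ℝ) ≤ (n : ℝ) ^ (m - 3) := by positivity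
  have key : sg m n (k + 1) * B.card ≤
      (m.factorial : ℝ) * (sg m n (k + 1) * D.card + C0 * 2 ^ (m - 2) * (n : ℝ) ^ (m - 3)) := by
    by_cases hs : 0 ≤ sg m n (k + 1)
    · have h1 : (B.card : ℝ) ≤ (m.factorial : ℝ) * D.card := by exact_mod_cast sy_card_le hD
      have h2 := mul_le_mul_of_nonneg_left h1 hs
      have h3 : 0 ≤ (m.factorial : ℝ) * (C0 * 2 ^ (m - 2) * (n : ℝ) ^ (m - 3)) := by positivity
      nlinarith
    · push Not at hs
      have h1 : (m.factorial : ℝ) * D.card ≤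
          (B.card : ℝ) + (m.factorial : ℝ) * ((n : ℝ) + 1) ^ (m - 2) := by
        exact_mod_cast le_sy_card (by omega) hD
      have hpos : 0 ≤ -sg m n (k + 1) := by linarith
      have h2 := mul_le_mul_of_nonneg_left h1 hpos
      have h3 := pow_err (m := m) (n := n) hm hn1 hpos (by rw [← abs_of_neg hs]; exact habs)
      have h4 := mul_le_mul_of_nonneg_left h3 hfac.le
      nlinarith
  have hfin : (m.factorial : ℝ) * df D ≤ (m.factorial : ℝ) *
      (sg m n (k + 1) * D.card + (2 ^ (m - 2) + C0 * 2 ^ (m - 2)) * (n : ℝ) ^ (m - 3)) := by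
    have h5 := mul_le_mul_of_nonneg_left he1 hfac.le
    nlinarith
  exact le_of_mul_le_mul_left hfin hfac

theorem large_up {m : ℕ} (hm : 3 ≤ m) (η : ℝ) (hη : 0 < η) :
    ∃ (C : ℝ) (n₀ : ℕ), 0 ≤ C ∧ ∀ n k : ℕ, n₀ ≤ n → η * n ≤ k → 2 * k + 2 ≤ m * n →
      ∀ A ⊆ P m n k, (qq m n k - 1) * A.card - C * (n : ℝ) ^ (m - 3) ≤
        ((up n A).card : ℝ) - (A.card : ℝ) := by
  obtain ⟨C0, hC0, hsg⟩ := sg_bound (b := m) (by omega) (η / 2) (by positivity)
  obtain ⟨N, hN⟩ := exists_nat_ge (2 * C0)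
  refine ⟨2 ^ (m - 2) + (2 * C0) * 2 ^ (m - 2), max 1 N, by positivity, ?_⟩
  intro n k hn hk1 hk2 A hA
  have hn1 : 1 ≤ n := (le_max_left 1 N).trans hn
  have hnN : N ≤ n := (le_max_right 1 N).trans hn
  have hn1' : (1 : ℝ) ≤ n := by exact_mod_cast hn1
  have hn0 : (0 : ℝ) < n := by linarith
  have hnN' : (N : ℝ) ≤ n := by exact_mod_cast hnN
  have hk2' : 2 * (k : ℝ) + 2 ≤ m * n := by exact_mod_cast hk2
  have habs : |sg m n (k + 1)| ≤ C0 / n := by
    refine hsg n (k + 1) hn1 ?_ ?_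
    · push_cast
      nlinarith
    · push_cast
      nlinarith
  have hq1 : 1 ≤ qq m n k := by
    have := qq_ge (b := m) (n := n) (u := k) (r := 0) (by omega) hn1 (by omega)
    simpa using this
  have hWk : (0 : ℝ) < (lev m n k : ℝ) := by
    rcases Nat.eq_zero_or_pos (lev m n k) with h | h
    · exfalso
      unfold qq at hq1
      rw [h] at hq1
      norm_num at hq1
    · exact_mod_cast h
  have hWk1 : (0 : ℝ) < (lev m n (k + 1) : ℝ) := by
    rcases Nat.eq_zero_or_pos (lev m n (k + 1)) with h | h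
    · exfalso
      unfold qq at hq1
      rw [h] at hq1
      norm_num at hq1
    · exact_mod_cast h
  have hq2 : qq m n k - 1 ≤ (2 * C0) / n := by
    have h1 : 1 - 1 / qq m n k ≤ C0 / n := by
      have h2 := (abs_le.1 habs).2
      unfold sg at h2
      rw [Nat.add_sub_cancel] at h2
      unfold qq
      rw [one_div_div]
      exact h2
    have h3 : C0 / n ≤ 1 / 2 := by
      rw [div_le_iff₀ hn0]
      linarith
    have hq0 : 0 < qq m n k := by linarith
    have h4 : 1 / qq m n k * qq m n k = 1 := by field_simp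
    have h5 : qq m n k ≤ 2 := by
      have h6 : 1 / 2 ≤ 1 / qq m n k := by linarith
      nlinarith
    have h7 : qq m n k - 1 = qq m n k * (1 - 1 / qq m n k) := by
      rw [mul_sub, mul_one, mul_comm (qq m n k) (1 / qq m n k), h4]
    have h8 : 0 ≤ 1 - 1 / qq m n k := by
      have : 1 / qq m n k ≤ 1 := by
        rw [div_le_one hq0]
        exact hq1
      linarith
    calc qq m n k - 1 = qq m n k * (1 - 1 / qq m n k) := h7
      _ ≤ 2 * (C0 / n) := mul_le_mul h5 h1 h8 (by norm_num)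
      _ = (2 * C0) / n := by ring
  set B := sy n k A with hB
  have hBQ : B ⊆ Q m n k := sy_subset A
  have hburn := burn_up hm hA
  rw [← hB] at hburn
  have hlym := lym_up hBQ
  have hcube : (qq m n k - 1) * B.card ≤ ((cup n B).card : ℝ) - (B.card : ℝ) := by
    have hl : (B.card : ℝ) * (lev m n (k + 1) : ℝ) ≤ ((cup n B).card : ℝ) * (lev m n k : ℝ) := by
      exact_mod_cast hlym
    have h2 : (B.card : ℝ) * qq m n k ≤ ((cup n B).card : ℝ) := by
      unfold qq
      rw [← mul_div_assoc, div_le_iff₀ hWk]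
      exact hl
    nlinarith
  have hfac : (0 : ℝ) < (m.factorial : ℝ) := by exact_mod_cast Nat.factorial_pos m
  have he1 := pow_err' hm hn1
  have hpos : 0 ≤ qq m n k - 1 := by linarith
  have h1 : (m.factorial : ℝ) * A.card ≤
      (B.card : ℝ) + (m.factorial : ℝ) * ((n : ℝ) + 1) ^ (m - 2) := by
    exact_mod_cast le_sy_card (by omega) hA
  have h2 := mul_le_mul_of_nonneg_left h1 hpos
  have h3 := pow_err (m := m) (n := n) hm hn1 hpos hq2
  have h4 := mul_le_mul_of_nonneg_left h3 hfac.le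
  have h5 := mul_le_mul_of_nonneg_left he1 hfac.le
  have hfin : (m.factorial : ℝ) *
      ((qq m n k - 1) * A.card -
        (2 ^ (m - 2) + (2 * C0) * 2 ^ (m - 2)) * (n : ℝ) ^ (m - 3)) ≤
      (m.factorial : ℝ) * (((up n A).card : ℝ) - (A.card : ℝ)) := by
    nlinarith
  exact le_of_mul_le_mul_left hfin hfac

theorem ak_lo {m : ℕ} (hm : 3 ≤ m) (η : ℝ) (hη : 0 < η) :
    ∃ (C : ℝ) (n₀ : ℕ), 0 ≤ C ∧ ∀ n k : ℕ, n₀ ≤ n → η * n ≤ k → 2 * k + 2 ≤ m * n →
      (qq m n k - 1) * (P m n k).card - C * (n : ℝ) ^ (m - 3) ≤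
        ((P m n (k + 1)).card : ℝ) - ((P m n k).card : ℝ) := by
  obtain ⟨C, n₀, hC, h⟩ := large_up hm η hη
  refine ⟨C, n₀, hC, fun n k h1 h2 h3 => (h n k h1 h2 h3 (P m n k) subset_rfl).trans ?_⟩
  have : ((up n (P m n k)).card : ℝ) ≤ ((P m n (k + 1)).card : ℝ) := by
    exact_mod_cast card_le_card (up_subset subset_rfl)
  linarith

end Pool.Agent.Helper46.MR
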