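import Pool.Agent.Helper46.MR.SgFacts

set_option autoImplicit false

/-!
# MR-18 Cont: the rates are continuous on the scale `n`

`cont`. PROOF. Work with the level sizes `W^{b,n} t = lev b n t` extended by `0` to the integers
(`Lev.ext`). For `b ≥ 2`: `|W^{b,n} (t+1) - W^{b,n} t| ≤ (n+1)^(b-2)` (`ext_step`) and
`|W^{b,n} t - W^{b,n-j} t| ≤ b j (n+1)^(b-2)` (`ext_dil`, induction on `b`). With
`W^{b,n} t - W^{b,n} (t-1) = W^{b-1,n} t - W^{b-1,n} (t-1-n)`, `b - 1 ≥ 2`, the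
numerator of `sg b n t = (W t - W (t-1)) / W t` changes by at most `C ε' n^(b-2)`, the
numerator is at most `C n^(b-2)`, the denominator is `≥ c n^(b-1)` (`lev_bulk`; also for
`(n - j, t')` if `ε'` is small) and changes by `≤ C ε' n^(b-1)`.

`contTop`. PROOF. Let `s = b n - t`. With `η = min (1/4) (1/(2 C₁))`: if `s ≥ η n` use `cont`
(`C₁/(n-j) ≥ C₁/n`, so the second entry of the maximum on the left is at most the one
on the right). If `s < η n`: `sg b (n-j) (t-(b+1)j)` is `sg_top` for `n - j` and `s + j`, i.e.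
`-(b-1)/(s+j+1) ≤ -C₁/n` for small `ε'`, so the left side is `≤ -C₁/n`.
(`b (n-j) - (s+j) = t - (b+1) j`.)
-/

namespace Pool.Agent.Helper46.MR

open Finset Pool.Agent.Helper30.SC

namespace ContAux

theorem ext_nonneg (b n : ℕ) (k : ℤ) : 0 ≤ Lev.ext b n k := by
  unfold Lev.ext
  split_ifs
  · positivity
  · exact le_rfl

theorem ext_le (b n : ℕ) (k : ℤ) : Lev.ext (b + 1) n k ≤ ((n : ℤ) + 1) ^ b := by
  unfold Lev.ext
  split_ifs
  · have := lev_le (m := b + 1) (n := n) (by omega) k.toNat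
    rw [Nat.add_sub_cancel] at this
    exact_mod_cast this
  · positivity

/-- one step in the level -/
theorem ext_step (b n : ℕ) (k : ℤ) :
    |Lev.ext (b + 2) n (k + 1) - Lev.ext (b + 2) n k| ≤ ((n : ℤ) + 1) ^ b := by
  rw [Lev.ext_succ (b + 1), Lev.ext_succ (b + 1), Lev.W_succ]
  have h1 := ext_le b n (k + 1)
  have h2 := ext_le b n (k - n)
  have h3 := ext_nonneg (b + 1) n (k + 1)
  have h4 := ext_nonneg (b + 1) n (k - n)
  rw [abs_le]
  constructor <;> linarith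

theorem ext_lip (b n : ℕ) (k : ℤ) (r : ℕ) :
    |Lev.ext (b + 2) n (k + r) - Lev.ext (b + 2) n k| ≤ r * ((n : ℤ) + 1) ^ b := by
  induction r with
  | zero => simp
  | succ r ih =>
    have h := ext_step b n (k + r)
    have e : k + ((r + 1 : ℕ) : ℤ) = k + r + 1 := by push_cast; ring
    rw [e]
    have h2 : Lev.ext (b + 2) n (k + r + 1) - Lev.ext (b + 2) n k =
        (Lev.ext (b + 2) n (k + r + 1) - Lev.ext (b + 2) n (k + r)) +
        (Lev.ext (b + 2) n (k + r) - Lev.ext (b + 2) n k) := by ring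
    rw [h2]
    refine (abs_add_le _ _).trans ?_
    push_cast
    linarith

theorem ext_lip' (b n : ℕ) (k k' : ℤ) :
    |Lev.ext (b + 2) n k' - Lev.ext (b + 2) n k| ≤ |k' - k| * ((n : ℤ) + 1) ^ b := by
  rcases le_total k k' with h | h
  · obtain ⟨r, hr⟩ := Int.eq_ofNat_of_zero_le (sub_nonneg.2 h)
    have h1 := ext_lip b n k r
    have e : k + (r : ℤ) = k' := by linarith
    rw [e] at h1
    rw [hr]
    have : |(r : ℤ)| = r := abs_of_nonneg (by positivity)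
    rw [this]
    exact h1
  · obtain ⟨r, hr⟩ := Int.eq_ofNat_of_zero_le (sub_nonneg.2 h)
    have h1 := ext_lip b n k' r
    have e : k' + (r : ℤ) = k := by linarith
    rw [e] at h1
    rw [abs_sub_comm, abs_sub_comm k' k, hr]
    have : |(r : ℤ)| = r := abs_of_nonneg (by positivity)
    rw [this]
    exact h1

/-- longer windows -/
theorem W_dil (g : ℤ → ℤ) (M : ℤ) (hg0 : ∀ k, 0 ≤ g k) (hg : ∀ k, g k ≤ M) (n j : ℕ) (k : ℤ) :
    |Lev.W g (n + j) k - Lev.W g n k| ≤ j * M := by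
  induction j with
  | zero => simp
  | succ j ih =>
    have h1 : Lev.W g (n + (j + 1)) k = Lev.W g (n + j) k + g (k - ((n + j + 1 : ℕ) : ℤ)) := by
      unfold Lev.W
      rw [show n + (j + 1) + 1 = (n + j + 1) + 1 by ring, sum_range_succ]
    rw [h1]
    have h2 : Lev.W g (n + j) k + g (k - ((n + j + 1 : ℕ) : ℤ)) - Lev.W g n k =
        (Lev.W g (n + j) k - Lev.W g n k) + g (k - ((n + j + 1 : ℕ) : ℤ)) := by ring
    rw [h2]
    refine (abs_add_le _ _).trans ?_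
    have h3 : |g (k - ((n + j + 1 : ℕ) : ℤ))| ≤ M := by
      rw [abs_of_nonneg (hg0 _)]
      exact hg _
    push_cast at h3 ⊢
    linarith

theorem W_comm (g : ℤ → ℤ) (n m : ℕ) (k : ℤ) :
    Lev.W (Lev.W g n) m k = Lev.W (Lev.W g m) n k := by
  unfold Lev.W
  rw [sum_comm]
  refine sum_congr rfl fun s _ => sum_congr rfl fun t _ => ?_
  congr 1
  ring

theorem ext_zero (n n' : ℕ) : Lev.ext 0 n = Lev.ext 0 n' := by
  funext k
  unfold Lev.ext
  simp only [lev_zero]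

theorem ext_one_fun (n : ℕ) : Lev.ext 1 n = Lev.W (Lev.ext 0 0) n := by
  funext k
  rw [Lev.ext_succ 0 n k, ext_zero n 0]

theorem ext_two (n : ℕ) (k : ℤ) : Lev.ext 2 n k = Lev.W (Lev.W (Lev.ext 0 0) n) n k := by
  rw [Lev.ext_succ 1 n k, ext_one_fun]

/-- larger cubes -/
theorem ext_dil (b n j : ℕ) (k : ℤ) :
    |Lev.ext (b + 2) (n + j) k - Lev.ext (b + 2) n k| ≤
      ((b : ℤ) + 2) * j * ((n : ℤ) + j + 1) ^ b := by
  induction b generalizing k with
  | zero =>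
    rw [zero_add, ext_two, ext_two]
    have h1 : ∀ n : ℕ, ∀ k, 0 ≤ Lev.W (Lev.ext 0 0) n k := by
      intro n k
      rw [← ext_one_fun]
      exact ext_nonneg _ _ _
    have h2 : ∀ n : ℕ, ∀ k, Lev.W (Lev.ext 0 0) n k ≤ 1 := by
      intro n k
      rw [← ext_one_fun]
      have := ext_le 0 n k
      simpa using this
    have h3 := W_dil _ 1 (h1 (n + j)) (h2 (n + j)) n j k
    have h4 := W_dil _ 1 (h1 n) (h2 n) n j k
    rw [W_comm (Lev.ext 0 0) n (n + j)] at h4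
    have h5 : Lev.W (Lev.W (Lev.ext 0 0) (n + j)) (n + j) k -
        Lev.W (Lev.W (Lev.ext 0 0) n) n k =
        (Lev.W (Lev.W (Lev.ext 0 0) (n + j)) (n + j) k -
          Lev.W (Lev.W (Lev.ext 0 0) (n + j)) n k) +
        (Lev.W (Lev.W (Lev.ext 0 0) (n + j)) n k - Lev.W (Lev.W (Lev.ext 0 0) n) n k) := by ring
    rw [h5]
    refine (abs_add_le _ _).trans ?_
    push_cast
    rw [pow_zero]
    linarith
  | succ b ih =>
    rw [show b + 1 + 2 = (b + 2) + 1 by ring, Lev.ext_succ (b + 2), Lev.ext_succ (b + 2)]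
    have h1 := W_dil (Lev.ext (b + 2) (n + j)) (((n + j : ℕ) : ℤ) + 1 |> (· ^ (b + 1)))
      (fun k => ext_nonneg _ _ k) (fun k => ext_le (b + 1) (n + j) k) n j k
    have h2 : |Lev.W (Lev.ext (b + 2) (n + j)) n k - Lev.W (Lev.ext (b + 2) n) n k| ≤
        ((n : ℤ) + 1) * (((b : ℤ) + 2) * j * ((n : ℤ) + j + 1) ^ b) := by
      unfold Lev.W
      rw [← sum_sub_distrib]
      refine (abs_sum_le_sum_abs _ _).trans ?_
      refine (sum_le_sum fun (t : ℕ) _ => ih (k - (t : ℤ))).trans ?_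
      rw [sum_const, card_range, nsmul_eq_mul]
      push_cast
      exact le_rfl
    have h3 : Lev.W (Lev.ext (b + 2) (n + j)) (n + j) k - Lev.W (Lev.ext (b + 2) n) n k =
        (Lev.W (Lev.ext (b + 2) (n + j)) (n + j) k - Lev.W (Lev.ext (b + 2) (n + j)) n k) +
        (Lev.W (Lev.ext (b + 2) (n + j)) n k - Lev.W (Lev.ext (b + 2) n) n k) := by ring
    rw [h3]
    refine (abs_add_le _ _).trans ?_
    have h4 : ((n : ℤ) + 1) * (((b : ℤ) + 2) * j * ((n : ℤ) + j + 1) ^ b) ≤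
        ((n : ℤ) + j + 1) * (((b : ℤ) + 2) * j * ((n : ℤ) + j + 1) ^ b) := by
      refine mul_le_mul_of_nonneg_right (by linarith [Int.natCast_nonneg j]) (by positivity)
    push_cast at h1 ⊢
    have h5 : ((b : ℤ) + 1 + 2) * j * ((n : ℤ) + j + 1) ^ (b + 1) =
        j * ((n : ℤ) + j + 1) ^ (b + 1) +
        ((n : ℤ) + j + 1) * (((b : ℤ) + 2) * j * ((n : ℤ) + j + 1) ^ b) := by ring
    rw [h5]
    linarith

theorem ext_cont (b n j : ℕ) (k k' : ℤ) :
    |Lev.ext (b + 2) n k' - Lev.ext (b + 2) (n + j) k| ≤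
      (((b : ℤ) + 2) * j + |k' - k|) * ((n : ℤ) + j + 1) ^ b := by
  have h1 := ext_dil b n j k
  have h2 := ext_lip' b n k k'
  have h3 : Lev.ext (b + 2) n k' - Lev.ext (b + 2) (n + j) k =
      (Lev.ext (b + 2) n k' - Lev.ext (b + 2) n k) +
      -(Lev.ext (b + 2) (n + j) k - Lev.ext (b + 2) n k) := by ring
  rw [h3]
  refine (abs_add_le _ _).trans ?_
  rw [abs_neg]
  have h4 : |k' - k| * ((n : ℤ) + 1) ^ b ≤ |k' - k| * ((n : ℤ) + j + 1) ^ b := by
    refine mul_le_mul_of_nonneg_left ?_ (abs_nonneg _)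
    exact pow_le_pow_left₀ (by positivity) (by linarith [Int.natCast_nonneg j]) b
  linarith

theorem ext_contR (b n j : ℕ) (k k' : ℤ) :
    |(Lev.ext (b + 2) n k' : ℝ) - (Lev.ext (b + 2) (n + j) k : ℝ)| ≤
      (((b : ℝ) + 2) * j + |(k' : ℝ) - k|) * ((n : ℝ) + j + 1) ^ b := by
  have h := ext_cont b n j k k'
  have h2 : ((|Lev.ext (b + 2) n k' - Lev.ext (b + 2) (n + j) k| : ℤ) : ℝ) ≤
      (((((b : ℤ) + 2) * j + |k' - k|) * ((n : ℤ) + j + 1) ^ b : ℤ) : ℝ) := by exact_mod_cast h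
  push_cast at h2
  exact h2

/-- the rate as a quotient -/
theorem sg_eq {b n t : ℕ} (ht : 1 ≤ t) (hp : 0 < lev (b + 3) n t) :
    sg (b + 3) n t = ((Lev.ext (b + 2) n (t : ℤ) : ℝ) -
      (Lev.ext (b + 2) n ((t : ℤ) - 1 - n) : ℝ)) / (Lev.ext (b + 3) n (t : ℤ) : ℝ) := by
  have hp' : (0 : ℝ) < (lev (b + 3) n t : ℝ) := by exact_mod_cast hp
  have h1 := Lev.W_succ (Lev.ext (b + 2) n) n ((t : ℤ) - 1)
  rw [← Lev.ext_succ, ← Lev.ext_succ, sub_add_cancel] at h1
  have h2 : ((t : ℤ) - 1) = ((t - 1 : ℕ) : ℤ) := by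
    rw [Nat.cast_sub ht]
    simp
  have h3 : (Lev.ext (b + 2) n (t : ℤ) : ℝ) - (Lev.ext (b + 2) n ((t : ℤ) - 1 - n) : ℝ) =
      (lev (b + 3) n t : ℝ) - (lev (b + 3) n (t - 1) : ℝ) := by
    rw [show b + 2 + 1 = b + 3 by ring] at h1
    rw [Lev.ext_natCast] at h1
    have h4 : Lev.ext (b + 3) n ((t : ℤ) - 1) = (lev (b + 3) n (t - 1) : ℤ) := by
      rw [h2, Lev.ext_natCast]
    rw [h4] at h1
    have h5 : ((lev (b + 3) n t : ℤ) : ℝ) = (((lev (b + 3) n (t - 1) : ℤ) +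
      Lev.ext (b + 2) n (t : ℤ) - Lev.ext (b + 2) n ((t : ℤ) - 1 - n) : ℤ) : ℝ) := by
      exact_mod_cast h1
    push_cast at h5
    linarith
  rw [h3, Lev.ext_natCast]
  unfold sg
  push_cast
  rw [sub_div, div_self hp'.ne']

theorem quot_bound {N N' D D' x y K1 K2 K3 c₁ ε : ℝ} (hx : 0 < x) (hy : 0 < y) (hc : 0 < c₁)
    (hε : 0 ≤ ε) (hK2 : 0 ≤ K2) (hK3 : 0 ≤ K3) (hD : c₁ * (y * x) ≤ D) (hD' : c₁ * (y * x) ≤ D')
    (hN : |N' - N| ≤ K1 * ε * y) (hN2 : |N| ≤ K2 * y) (hDD : |D' - D| ≤ K3 * ε * (y * x)) :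
    |N' / D' - N / D| ≤ (K1 / c₁ + K2 * K3 / c₁ ^ 2) * ε / x := by
  have hyx : 0 < y * x := mul_pos hy hx
  have h0 : 0 < c₁ * (y * x) := mul_pos hc hyx
  have hDp : 0 < D := lt_of_lt_of_le h0 hD
  have hDp' : 0 < D' := lt_of_lt_of_le h0 hD'
  have e : N' / D' - N / D = (N' - N) / D' + -(N * (D' - D) / (D * D')) := by
    field_simp
    ring
  rw [e]
  refine (abs_add_le _ _).trans ?_
  rw [abs_neg, abs_div, abs_div, abs_mul, abs_of_pos hDp', abs_of_pos (mul_pos hDp hDp')]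
  have h1 : |N' - N| / D' ≤ K1 * ε * y / (c₁ * (y * x)) :=
    div_le_div₀ (le_trans (abs_nonneg _) hN) hN h0 hD'
  have h2 : |N| * |D' - D| / (D * D') ≤
      (K2 * y) * (K3 * ε * (y * x)) / ((c₁ * (y * x)) * (c₁ * (y * x))) := by
    refine div_le_div₀ (by positivity) ?_ (by positivity) ?_
    · exact mul_le_mul hN2 hDD (abs_nonneg _) (by positivity)
    · exact mul_le_mul hD hD' h0.le hDp.le
  have h3 : K1 * ε * y / (c₁ * (y * x)) = K1 / c₁ * ε / x := by
    field_simp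
  have h4 : (K2 * y) * (K3 * ε * (y * x)) / ((c₁ * (y * x)) * (c₁ * (y * x))) =
      K2 * K3 / c₁ ^ 2 * ε / x := by
    field_simp
  rw [h3] at h1
  rw [h4] at h2
  calc |N' - N| / D' + |N| * |D' - D| / (D * D')
      ≤ K1 / c₁ * ε / x + K2 * K3 / c₁ ^ 2 * ε / x := add_le_add h1 h2
    _ = (K1 / c₁ + K2 * K3 / c₁ ^ 2) * ε / x := by ring

end ContAux

open ContAux

theorem cont {b : ℕ} (hb : 3 ≤ b) (c δ : ℝ) (hc : 0 < c) (hδ : 0 < δ) :
    ∃ (ε' : ℝ) (n₀ : ℕ), 0 < ε' ∧ ∀ n j t t' : ℕ, n₀ ≤ n → (j : ℝ) ≤ ε' * n → c * n ≤ t →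
      (t : ℝ) ≤ (b - c) * n → |(t' : ℝ) - t| ≤ ε' * n →
        |sg b (n - j) t' - sg b n t| ≤ δ / n := by
  obtain ⟨b, rfl⟩ := Nat.exists_eq_add_of_le' hb
  obtain ⟨c₀, hc₀, hbulk⟩ := lev_bulk (b + 2) (c / 2) (by positivity)
  set c₁ : ℝ := c₀ / 2 ^ (b + 2) with hc₁
  have hc₁p : 0 < c₁ := by positivity
  set K1 : ℝ := (2 * b + 7) * 2 ^ b with hK1
  set K2 : ℝ := 2 ^ (b + 1) with hK2
  set K3 : ℝ := (b + 4) * 2 ^ (b + 1) with hK3
  set KK : ℝ := K1 / c₁ + K2 * K3 / c₁ ^ 2 with hKK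
  have hKKp : 0 < KK := by positivity
  refine ⟨min (1 / 2) (min (c / (2 * (b + 4))) (δ / KK)), 1, by positivity, ?_⟩
  intro n j t t' hn hj ht1 ht2 htt
  set ε : ℝ := min (1 / 2) (min (c / (2 * (b + 4))) (δ / KK)) with hεdef
  have hε0 : 0 < ε := by positivity
  have hε1 : ε ≤ 1 / 2 := min_le_left _ _
  have hε2 : ε ≤ c / (2 * (b + 4)) := (min_le_right _ _).trans (min_le_left _ _)
  have hε3 : ε ≤ δ / KK := (min_le_right _ _).trans (min_le_right _ _)
  have hnR : (1 : ℝ) ≤ n := by exact_mod_cast hn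
  have hn0 : (0 : ℝ) < n := by linarith
  have hjn : j ≤ n := by
    have : (j : ℝ) ≤ n := hj.trans (by nlinarith)
    exact_mod_cast this
  obtain ⟨n', rfl⟩ := Nat.exists_eq_add_of_le' hjn
  rw [Nat.add_sub_cancel]
  push_cast at hj ht1 ht2 htt hnR hn0 ⊢
  set x : ℝ := (n' : ℝ) + j with hx
  have hb0 : (0 : ℝ) ≤ b := Nat.cast_nonneg b
  have hj0 : (0 : ℝ) ≤ j := Nat.cast_nonneg j
  have hn'x : x / 2 ≤ (n' : ℝ) := by nlinarith
  have hn'1 : 1 ≤ n' := by
    have : (0 : ℝ) < n' := by linarith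
    exact_mod_cast this
  have hε4 : ε * (2 * (b + 4)) ≤ c := by
    rwa [le_div_iff₀ (by positivity)] at hε2
  have hε5 : ε * x * (2 * (b + 4)) ≤ c * x := by nlinarith
  obtain ⟨hta, htb⟩ := abs_le.1 htt
  -- the bulk
  have hcx : 0 < c * x := by positivity
  have hεx : 0 ≤ ε * x := by positivity
  have hbε : 0 ≤ ε * x * b := by positivity
  have ht'low : c / 2 * x ≤ t' := by nlinarith
  have htpos : 1 ≤ t := by
    have : (0 : ℝ) < t := by linarith
    exact_mod_cast this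
  have ht'pos : 1 ≤ t' := by
    have : (0 : ℝ) < t' := by linarith
    exact_mod_cast this
  have hB1 : c₀ * x ^ (b + 2) ≤ (lev (b + 3) (n' + j) t : ℝ) := by
    have h := hbulk (n' + j) t (by omega) (by push_cast; nlinarith) (by push_cast; nlinarith)
    push_cast at h
    exact h
  have hB2 : c₀ * (n' : ℝ) ^ (b + 2) ≤ (lev (b + 3) n' t' : ℝ) := by
    have hbx : (b : ℝ) * j ≤ b * (ε * x) := mul_le_mul_of_nonneg_left hj hb0
    refine hbulk n' t' hn'1 ?_ ?_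
    · have : (n' : ℝ) ≤ x := by linarith
      nlinarith
    · push_cast
      have h1 : (t' : ℝ) ≤ (b + 3 - c) * x + ε * x := by linarith
      have h2 : (b + 3 - c) * x + ε * x ≤ (b + 2 + 1 - c / 2) * (x - j) := by
        have h3 : c / 2 * j ≥ 0 := by positivity
        nlinarith
      have h3 : x - j = (n' : ℝ) := by rw [hx]; ring
      rw [h3] at h2
      linarith
  have hB2' : c₁ * x ^ (b + 2) ≤ (lev (b + 3) n' t' : ℝ) := by
    refine le_trans ?_ hB2
    have h1 : (x / 2) ^ (b + 2) ≤ (n' : ℝ) ^ (b + 2) := pow_le_pow_left₀ (by positivity) hn'x _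
    have h2 : c₁ * x ^ (b + 2) = c₀ * (x / 2) ^ (b + 2) := by
      rw [hc₁, div_pow]
      ring
    rw [h2]
    exact mul_le_mul_of_nonneg_left h1 hc₀.le
  have hB1' : c₁ * x ^ (b + 2) ≤ (lev (b + 3) (n' + j) t : ℝ) := by
    refine le_trans ?_ hB1
    refine mul_le_mul_of_nonneg_right ?_ (by positivity)
    rw [hc₁]
    exact div_le_self hc₀.le (one_le_pow₀ (by norm_num))
  have hp1 : 0 < lev (b + 3) (n' + j) t := by
    have : (0 : ℝ) < (lev (b + 3) (n' + j) t : ℝ) := lt_of_lt_of_le (by positivity) hB1'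
    exact_mod_cast this
  have hp2 : 0 < lev (b + 3) n' t' := by
    have : (0 : ℝ) < (lev (b + 3) n' t' : ℝ) := lt_of_lt_of_le (by positivity) hB2'
    exact_mod_cast this
  rw [sg_eq ht'pos hp2, sg_eq htpos hp1]
  have hx1 : x + 1 ≤ 2 * x := by linarith
  have hpw : (x + 1) ^ b ≤ 2 ^ b * x ^ b := by
    rw [← mul_pow]
    exact pow_le_pow_left₀ (by positivity) hx1 b
  have hpw1 : (x + 1) ^ (b + 1) ≤ 2 ^ (b + 1) * x ^ (b + 1) := by
    rw [← mul_pow]
    exact pow_le_pow_left₀ (by positivity) hx1 (b + 1)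
  have hfin := quot_bound (N := (Lev.ext (b + 2) (n' + j) (t : ℤ) : ℝ) -
      (Lev.ext (b + 2) (n' + j) ((t : ℤ) - 1 - ((n' + j : ℕ) : ℤ)) : ℝ))
    (N' := (Lev.ext (b + 2) n' (t' : ℤ) : ℝ) - (Lev.ext (b + 2) n' ((t' : ℤ) - 1 - n') : ℝ))
    (D := (Lev.ext (b + 3) (n' + j) (t : ℤ) : ℝ)) (D' := (Lev.ext (b + 3) n' (t' : ℤ) : ℝ))
    (x := x) (y := x ^ (b + 1)) (K1 := K1) (K2 := K2) (K3 := K3) (c₁ := c₁) (ε := ε)
    hn0 (by positivity) hc₁p hε0.le (by positivity) (by positivity) ?_ ?_ ?_ ?_ ?_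
  · refine hfin.trans ?_
    rw [← hKK]
    refine div_le_div_of_nonneg_right ?_ hn0.le
    rw [le_div_iff₀ hKKp] at hε3
    linarith
  · rw [← pow_succ, Lev.ext_natCast]
    push_cast
    exact hB1'
  · rw [← pow_succ, Lev.ext_natCast]
    push_cast
    exact hB2'
  · -- numerators
    have h1 := ext_contR b n' j (t : ℤ) (t' : ℤ)
    have h2 := ext_contR b n' j ((t : ℤ) - 1 - ((n' + j : ℕ) : ℤ)) ((t' : ℤ) - 1 - n')
    push_cast at h1 h2
    have e2 : (t' : ℝ) - 1 - n' - ((t : ℝ) - 1 - (n' + j)) = (t' - t) + j := by ring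
    rw [e2] at h2
    rw [← hx] at h1 h2
    have h3 : |(t' : ℝ) - t + j| ≤ ε * x + ε * x := by
      refine (abs_add_le _ _).trans ?_
      rw [abs_of_nonneg hj0]
      exact add_le_add htt hj
    have h4 : ((b : ℝ) + 2) * j ≤ (b + 2) * (ε * x) :=
      mul_le_mul_of_nonneg_left hj (by positivity)
    have h5 : (((b : ℝ) + 2) * j + |(t' : ℝ) - t|) * (x + 1) ^ b ≤
        ((b + 3) * (ε * x)) * (2 ^ b * x ^ b) := by
      refine mul_le_mul ?_ hpw (by positivity) (by positivity)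
      linarith
    have h6 : (((b : ℝ) + 2) * j + |(t' : ℝ) - t + j|) * (x + 1) ^ b ≤
        ((b + 4) * (ε * x)) * (2 ^ b * x ^ b) := by
      refine mul_le_mul ?_ hpw (by positivity) (by positivity)
      linarith
    have h7 : (Lev.ext (b + 2) n' (t' : ℤ) : ℝ) - (Lev.ext (b + 2) n' ((t' : ℤ) - 1 - n') : ℝ) -
        ((Lev.ext (b + 2) (n' + j) (t : ℤ) : ℝ) -
          (Lev.ext (b + 2) (n' + j) ((t : ℤ) - 1 - ((n' + j : ℕ) : ℤ)) : ℝ)) =
        ((Lev.ext (b + 2) n' (t' : ℤ) : ℝ) - (Lev.ext (b + 2) (n' + j) (t : ℤ) : ℝ)) +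
        -((Lev.ext (b + 2) n' ((t' : ℤ) - 1 - n') : ℝ) -
          (Lev.ext (b + 2) (n' + j) ((t : ℤ) - 1 - ((n' + j : ℕ) : ℤ)) : ℝ)) := by ring
    rw [h7]
    refine (abs_add_le _ _).trans ?_
    rw [abs_neg]
    push_cast
    refine (add_le_add (h1.trans h5) (h2.trans h6)).trans (le_of_eq ?_)
    rw [hK1]
    ring
  · -- size of the numerator
    have h1 : (Lev.ext (b + 2) (n' + j) (t : ℤ) : ℝ) ≤ (x + 1) ^ (b + 1) := by
      have := ext_le (b + 1) (n' + j) (t : ℤ)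
      have h : ((Lev.ext (b + 1 + 1) (n' + j) (t : ℤ) : ℤ) : ℝ) ≤
        (((((n' + j : ℕ) : ℤ) + 1) ^ (b + 1) : ℤ) : ℝ) := by exact_mod_cast this
      push_cast at h
      exact h
    have h2 : (Lev.ext (b + 2) (n' + j) ((t : ℤ) - 1 - ((n' + j : ℕ) : ℤ)) : ℝ) ≤
        (x + 1) ^ (b + 1) := by
      have := ext_le (b + 1) (n' + j) ((t : ℤ) - 1 - ((n' + j : ℕ) : ℤ))
      have h : ((Lev.ext (b + 1 + 1) (n' + j) ((t : ℤ) - 1 - ((n' + j : ℕ) : ℤ)) : ℤ) : ℝ) ≤
        (((((n' + j : ℕ) : ℤ) + 1) ^ (b + 1) : ℤ) : ℝ) := by exact_mod_cast this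
      push_cast at h ⊢
      exact h
    have h3 : (0 : ℝ) ≤ (Lev.ext (b + 2) (n' + j) (t : ℤ) : ℝ) := by
      exact_mod_cast ext_nonneg (b + 2) (n' + j) (t : ℤ)
    have h4 : (0 : ℝ) ≤
        (Lev.ext (b + 2) (n' + j) ((t : ℤ) - 1 - ((n' + j : ℕ) : ℤ)) : ℝ) := by
      exact_mod_cast ext_nonneg (b + 2) (n' + j) ((t : ℤ) - 1 - ((n' + j : ℕ) : ℤ))
    rw [hK2, abs_le]
    constructor <;> linarith
  · -- denominators
    have h1 := ext_contR (b + 1) n' j (t : ℤ) (t' : ℤ)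
    push_cast at h1
    rw [← hx] at h1
    have h4 : ((b : ℝ) + 1 + 2) * j ≤ (b + 3) * (ε * x) := by
      have := mul_le_mul_of_nonneg_left hj (by positivity : (0 : ℝ) ≤ (b : ℝ) + 3)
      linarith
    have h5 : (((b : ℝ) + 1 + 2) * j + |(t' : ℝ) - t|) * (x + 1) ^ (b + 1) ≤
        ((b + 4) * (ε * x)) * (2 ^ (b + 1) * x ^ (b + 1)) := by
      refine mul_le_mul ?_ hpw1 (by positivity) (by positivity)
      linarith
    refine (h1.trans h5).trans (le_of_eq ?_)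
    rw [hK3]
    ring

theorem contTop {b : ℕ} (hb : 3 ≤ b) (C₁ δ : ℝ) (hC₁ : 0 < C₁) (hδ : 0 < δ) :
    ∃ (ε' : ℝ) (n₀ : ℕ), 0 < ε' ∧ ∀ n j t : ℕ, n₀ ≤ n → (j : ℝ) ≤ ε' * n → 2 * n ≤ t →
      t ≤ b * n →
        max (sg b (n - j) (t - (b + 1) * j)) (-C₁ / ((n - j : ℕ) : ℝ)) ≤
          max (sg b n t) (-C₁ / n) + δ / n := by
  set η : ℝ := min (1 / 4) (1 / (2 * C₁)) with hη
  have hηp : 0 < η := by positivity
  have hη1 : η ≤ 1 / 4 := min_le_left _ _
  have hη2 : η ≤ 1 / (2 * C₁) := min_le_right _ _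
  obtain ⟨ε₁, n₁, hε₁, hcont⟩ := cont hb η δ hηp hδ
  have hb1 : (0 : ℝ) < (b : ℝ) + 1 := by positivity
  refine ⟨min (min ε₁ 1 / (b + 1)) (min (1 / 8) (1 / (2 * C₁))), max n₁ (max 8 ⌈2 * C₁⌉₊),
    by positivity, ?_⟩
  intro n j t hn hj ht1 ht2
  set ε : ℝ := min (min ε₁ 1 / (b + 1)) (min (1 / 8) (1 / (2 * C₁))) with hε
  have hεp : 0 < ε := by positivity
  have hεa' : ε ≤ min ε₁ 1 / (b + 1) := min_le_left _ _
  have hεa : ε ≤ ε₁ / (b + 1) :=
    hεa'.trans (div_le_div_of_nonneg_right (min_le_left _ _) hb1.le)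
  have hεd : ε ≤ 1 / (b + 1) :=
    hεa'.trans (div_le_div_of_nonneg_right (min_le_right _ _) hb1.le)
  have hεb : ε ≤ 1 / 8 := (min_le_right _ _).trans (min_le_left _ _)
  have hεc : ε ≤ 1 / (2 * C₁) := (min_le_right _ _).trans (min_le_right _ _)
  have hn1 : n₁ ≤ n := (le_max_left _ _).trans hn
  have hn8 : 8 ≤ n := ((le_max_left _ _).trans (le_max_right _ _)).trans hn
  have hnC : 2 * C₁ ≤ n := by
    have h1 : ⌈2 * C₁⌉₊ ≤ n := ((le_max_right _ _).trans (le_max_right _ _)).trans hn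
    exact (Nat.le_ceil _).trans (by exact_mod_cast h1)
  have hn8R : (8 : ℝ) ≤ n := by exact_mod_cast hn8
  have hn0 : (0 : ℝ) < n := by linarith
  have hj8 : (j : ℝ) ≤ n / 8 := hj.trans (by nlinarith)
  have hj8' : 8 * j ≤ n := by
    have : ((8 * j : ℕ) : ℝ) ≤ n := by push_cast; linarith
    exact_mod_cast this
  have hjn : j < n := by omega
  have hnj0 : (0 : ℝ) < ((n - j : ℕ) : ℝ) := by
    have : 0 < n - j := by omega
    exact_mod_cast this
  have hnjle : ((n - j : ℕ) : ℝ) ≤ n := by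
    have : n - j ≤ n := Nat.sub_le _ _
    exact_mod_cast this
  have hδn : 0 ≤ δ / n := by positivity
  have hsec : -C₁ / ((n - j : ℕ) : ℝ) ≤ -C₁ / n := by
    rw [neg_div, neg_div, neg_le_neg_iff]
    exact div_le_div_of_nonneg_left hC₁.le hnj0 hnjle
  have hjb : (b + 1) * j ≤ t := by
    rw [le_div_iff₀ hb1] at hεd
    have h1 : ((b : ℝ) + 1) * j ≤ n := by
      calc ((b : ℝ) + 1) * j ≤ (b + 1) * (ε * n) := mul_le_mul_of_nonneg_left hj hb1.le
        _ = (ε * (b + 1)) * n := by ring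
        _ ≤ 1 * n := mul_le_mul_of_nonneg_right hεd hn0.le
        _ = n := one_mul _
    have h2 : (b + 1) * j ≤ n := by exact_mod_cast h1
    omega
  refine max_le ?_ ?_
  · rcases le_or_gt (t : ℝ) ((b - η) * n) with hcase | hcase
    · have h1 := hcont n j t (t - (b + 1) * j) hn1 ?_ ?_ hcase ?_
      · have h2 := (abs_le.1 h1).2
        have h3 : sg b n t ≤ max (sg b n t) (-C₁ / n) := le_max_left _ _
        linarith
      · refine hj.trans (mul_le_mul_of_nonneg_right ?_ hn0.le)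
        refine hεa.trans (div_le_self hε₁.le ?_)
        have : (0 : ℝ) ≤ b := Nat.cast_nonneg b
        linarith
      · have : ((2 * n : ℕ) : ℝ) ≤ t := by exact_mod_cast ht1
        push_cast at this
        nlinarith
      · rw [Nat.cast_sub hjb]
        push_cast
        have e : (t : ℝ) - ((b : ℝ) + 1) * j - t = -(((b : ℝ) + 1) * j) := by ring
        rw [e, abs_neg, abs_of_nonneg (by positivity)]
        rw [le_div_iff₀ hb1] at hεa
        calc ((b : ℝ) + 1) * j ≤ (b + 1) * (ε * n) := mul_le_mul_of_nonneg_left hj hb1.le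
          _ = (ε * (b + 1)) * n := by ring
          _ ≤ ε₁ * n := mul_le_mul_of_nonneg_right hεa hn0.le
    · obtain ⟨s, hs⟩ := Nat.exists_eq_add_of_le ht2
      have hsR : (s : ℝ) < η * n := by
        have h1 : ((b * n : ℕ) : ℝ) = ((t + s : ℕ) : ℝ) := by exact_mod_cast hs
        push_cast at h1
        nlinarith
      have hs4 : (s : ℝ) < n / 4 := lt_of_lt_of_le hsR (by nlinarith)
      have hs4' : 4 * s < n := by
        have : ((4 * s : ℕ) : ℝ) < n := by push_cast; linarith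
        exact_mod_cast this
      have hidx : t - (b + 1) * j = b * (n - j) - (s + j) := by
        have h1 : b * (n - j) = b * n - b * j := Nat.mul_sub b n j
        have h2 : (b + 1) * j = b * j + j := by ring
        have h3 : b * j ≤ b * n := Nat.mul_le_mul_left b hjn.le
        omega
      have htop := sg_top (b := b) (n := n - j) (s := s + j) (by omega) (by omega)
      rw [hidx, htop]
      have hgoal : -(((b : ℝ) - 1) / (((s + j : ℕ) : ℝ) + 1)) ≤ -C₁ / n := by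
        rw [neg_div, neg_le_neg_iff]
        have hpos : (0 : ℝ) < ((s + j : ℕ) : ℝ) + 1 := by positivity
        rw [div_le_div_iff₀ hn0 hpos]
        have hb3 : (3 : ℝ) ≤ b := by exact_mod_cast hb
        have h1 : C₁ * (s : ℝ) ≤ n / 2 := by
          have h2 : C₁ * (s : ℝ) ≤ C₁ * (η * n) := mul_le_mul_of_nonneg_left hsR.le hC₁.le
          have h3 : C₁ * (η * n) ≤ C₁ * (1 / (2 * C₁) * n) := by
            refine mul_le_mul_of_nonneg_left ?_ hC₁.le
            exact mul_le_mul_of_nonneg_right hη2 hn0.le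
          have h4 : C₁ * (1 / (2 * C₁) * n) = n / 2 := by field_simp
          linarith
        have h2 : C₁ * (j : ℝ) ≤ n / 2 := by
          have h2 : C₁ * (j : ℝ) ≤ C₁ * (ε * n) := mul_le_mul_of_nonneg_left hj hC₁.le
          have h3 : C₁ * (ε * n) ≤ C₁ * (1 / (2 * C₁) * n) := by
            refine mul_le_mul_of_nonneg_left ?_ hC₁.le
            exact mul_le_mul_of_nonneg_right hεc hn0.le
          have h4 : C₁ * (1 / (2 * C₁) * n) = n / 2 := by field_simp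
          linarith
        push_cast
        nlinarith
      have h5 : -C₁ / (n : ℝ) ≤ max (sg b n t) (-C₁ / n) := le_max_right _ _
      linarith
  · have h5 : -C₁ / (n : ℝ) ≤ max (sg b n t) (-C₁ / n) := le_max_right _ _
    linarith

end Pool.Agent.Helper46.MR
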