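import Pool.Agent.Helper30.SC.Nmp

set_option autoImplicit false

/-!
# Project MR (MP_b31059): definitions

Middle ranks of `L(m,n)`: for every `m` all ranks but boundedly many have an exact partition into
symmetric chains, for all `n`.

`L(m,n)` is the set of nondecreasing `a : Fin m → ℕ` with `a i ≤ n`; in the note (team note 2244)
the coordinates are written in the order `x_1 ≥ ... ≥ x_m`, so `x_m = a 0`.
-/

namespace Pool.Agent.Helper46.MR

open Finset Pool.Agent.Helper30.SC

/-- level `k` of the cube `{0,...,n}^m` (so `(Q m n k).card = lev m n k`) -/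
def Q (m n k : ℕ) : Finset (Fin m → ℕ) := (Qset m n).filter fun a => rkF a = k

/-- level `k` of `L(m,n)` -/
noncomputable def P (m n k : ℕ) : Finset (Fin m → ℕ) :=
  open Classical in (Q m n k).filter fun a => Monotone a

/-- the lower covers of `y` in the cube -/
def lower {m : ℕ} (y : Fin m → ℕ) : Finset (Fin m → ℕ) :=
  (univ.filter fun i => 0 < y i).image fun i => y - Pi.single i 1

/-- lower shadow in the cube -/
def clo {m : ℕ} (D : Finset (Fin m → ℕ)) : Finset (Fin m → ℕ) := D.biUnion lower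

/-- lower shadow in `L(m,n)` -/
noncomputable def lo {m : ℕ} (D : Finset (Fin m → ℕ)) : Finset (Fin m → ℕ) :=
  open Classical in (clo D).filter fun x => Monotone x

/-- the upper covers of `x` in the cube `{0,...,n}^m` -/
def upper {m : ℕ} (n : ℕ) (x : Fin m → ℕ) : Finset (Fin m → ℕ) :=
  (univ.filter fun i => x i < n).image fun i => x + Pi.single i 1

/-- upper shadow in the cube -/
def cup {m : ℕ} (n : ℕ) (A : Finset (Fin m → ℕ)) : Finset (Fin m → ℕ) := A.biUnion (upper n)

/-- upper shadow in `L(m,n)` -/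
noncomputable def up {m : ℕ} (n : ℕ) (A : Finset (Fin m → ℕ)) : Finset (Fin m → ℕ) :=
  open Classical in (cup n A).filter fun x => Monotone x

/-- deficiency of a set `D` of one level: `|D| - |lower shadow of D|` -/
noncomputable def df {m : ℕ} (D : Finset (Fin m → ℕ)) : ℝ := (D.card : ℝ) - ((lo D).card : ℝ)

/-- The condition (K) under which symmetric chains of the ranks `k+1, ..., mn-k-1` (with arbitrary
linking) extend to the ranks `k, ..., mn-k`. -/
def K (m n k : ℕ) : Prop :=
  ∀ D ⊆ P m n (k + 1), ∀ D' ⊆ P m n (k + 1), (lo D).card + (lo D').card < (P m n k).card →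
    D.card + D'.card + (P m n k).card ≤ (P m n (k + 1)).card + (lo D).card + (lo D').card

/-- `1 - W_{t-1} / W_t` for the level sizes `W` of the cube -/
noncomputable def sg (m n t : ℕ) : ℝ := 1 - (lev m n (t - 1) : ℝ) / (lev m n t : ℝ)

/-- (H_m): the levels `c n ≤ t ≤ m n / 2`. -/
def Hst (m : ℕ) : Prop :=
  ∀ c δ : ℝ, 0 < c → 0 < δ → ∃ (M : ℝ) (n₀ : ℕ), 0 ≤ M ∧
    ∀ n t : ℕ, n₀ ≤ n → c * n ≤ t → 2 * t ≤ m * n → ∀ D ⊆ P m n t,
      df D ≤ (sg m n t + δ / n) * D.card + M / n

/-- (L_m): the levels `(2 + c) n ≤ t ≤ m n`. -/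
def Lst (m : ℕ) : Prop :=
  ∀ c C₁ δ : ℝ, 0 < c → 0 < C₁ → 0 < δ → ∃ (M : ℝ) (n₀ : ℕ), 0 ≤ M ∧
    ∀ n t : ℕ, n₀ ≤ n → (2 + c) * n ≤ t → t ≤ m * n → ∀ D ⊆ P m n t,
      df D ≤ (max (sg m n t) (-C₁ / n) + δ / n) * D.card + M / n

/-- the fibre `y_0 = 0`, as a subset of `L(m,n)` -/
def fib {m : ℕ} (D : Finset (Fin (m + 1) → ℕ)) : Finset (Fin m → ℕ) :=
  (D.filter fun y => y 0 = 0).image fun y => Fin.tail y

/-- the part `y_0 ≥ 1`, shifted down by `(1,...,1)` into `L(m+1,n-1)` -/
def shf {m : ℕ} (D : Finset (Fin (m + 1) → ℕ)) : Finset (Fin (m + 1) → ℕ) :=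
  (D.filter fun y => 0 < y 0).image fun y i => y i - 1

/-- `E(D)`: the elements `x` of the lower shadow with `x + e_0` not in `D` -/
noncomputable def EE {m : ℕ} (D : Finset (Fin (m + 1) → ℕ)) : ℕ :=
  ((lo D).filter fun x => x + Pi.single 0 1 ∉ D).card

/-- the symmetrised set in the cube: all permutations of elements of `A` -/
noncomputable def sy {m : ℕ} (n k : ℕ) (A : Finset (Fin m → ℕ)) : Finset (Fin m → ℕ) :=
  open Classical in (Q m n k).filter fun x => ∃ s : Equiv.Perm (Fin m), x ∘ s ∈ A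

/-- complement: the antiautomorphism of `L(m,n)` -/
def cm {m : ℕ} (n : ℕ) (a : Fin m → ℕ) : Fin m → ℕ := fun i => n - a i.rev

end Pool.Agent.Helper46.MR
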