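import Pool.Agent.Helper46.MR.Basic

set_option autoImplicit false

/-!
# MR-7 Fibre: splitting off the fibre `y_0 = 0`

`fib D` = tails of the `y ∈ D` with `y 0 = 0`, `shf D` = `y - (1,...,1)` for the `y ∈ D` with
`0 < y 0`.

PROOF of `lo_split`: the elements `x ∈ lo D` with `x 0 = 0` contain `Fin.cons 0 x'` for
`x' ∈ lo (fib D)`, the elements `x ∈ lo D` with `0 < x 0` contain `x'' + (1,...,1)` for
`x'' ∈ lo (shf D)`.
-/

namespace Pool.Agent.Helper46.MR

open Finset Pool.Agent.Helper30.SC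

variable {m n t : ℕ}

namespace FibreAux

theorem mem_fib {D : Finset (Fin (m + 1) → ℕ)} {x : Fin m → ℕ} :
    x ∈ fib D ↔ ∃ y ∈ D, y 0 = 0 ∧ Fin.tail y = x := by
  unfold fib
  simp only [mem_image, mem_filter]
  constructor
  · rintro ⟨y, ⟨h1, h2⟩, h3⟩
    exact ⟨y, h1, h2, h3⟩
  · rintro ⟨y, h1, h2, h3⟩
    exact ⟨y, ⟨h1, h2⟩, h3⟩

theorem mem_shf {D : Finset (Fin (m + 1) → ℕ)} {x : Fin (m + 1) → ℕ} :
    x ∈ shf D ↔ ∃ y ∈ D, 0 < y 0 ∧ (fun i => y i - 1) = x := by
  unfold shf
  simp only [mem_image, mem_filter]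
  constructor
  · rintro ⟨y, ⟨h1, h2⟩, h3⟩
    exact ⟨y, h1, h2, h3⟩
  · rintro ⟨y, h1, h2, h3⟩
    exact ⟨y, ⟨h1, h2⟩, h3⟩

theorem pos_all {D : Finset (Fin (m + 1) → ℕ)} (hD : D ⊆ P (m + 1) n t) {y : Fin (m + 1) → ℕ}
    (hy : y ∈ D) (h0 : 0 < y 0) (i : Fin (m + 1)) : 0 < y i :=
  lt_of_lt_of_le h0 (P_mono (hD hy) (Fin.zero_le i))

theorem eq_of_tail {y z : Fin (m + 1) → ℕ} (h0 : y 0 = z 0) (h : Fin.tail y = Fin.tail z) :
    y = z := by
  funext i
  refine Fin.cases h0 (fun j => ?_) i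
  exact congrFun h j

end FibreAux

open FibreAux

theorem fib_subset {D : Finset (Fin (m + 1) → ℕ)} (hD : D ⊆ P (m + 1) n t) :
    fib D ⊆ P m n t := by
  intro x hx
  obtain ⟨y, hy, h0, rfl⟩ := mem_fib.1 hx
  obtain ⟨h1, h2, h3⟩ := mem_P.1 (hD hy)
  refine mem_P.2 ⟨fun i j hij => h1 (Fin.succ_le_succ_iff.2 hij), fun i => h2 i.succ, ?_⟩
  rw [Fin.sum_univ_succ, h0, Nat.zero_add] at h3
  exact h3

theorem shf_subset {D : Finset (Fin (m + 1) → ℕ)} (hD : D ⊆ P (m + 1) n t) :
    shf D ⊆ P (m + 1) (n - 1) (t - (m + 1)) := by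
  intro x hx
  obtain ⟨y, hy, h0, rfl⟩ := mem_shf.1 hx
  obtain ⟨h1, h2, h3⟩ := mem_P.1 (hD hy)
  refine mem_P.2 ⟨fun i j hij => Nat.sub_le_sub_right (h1 hij) 1,
    fun i => Nat.sub_le_sub_right (h2 i) 1, ?_⟩
  have h4 : ∑ i, (y i - 1) + ∑ _i : Fin (m + 1), 1 = ∑ i, y i := by
    rw [← Finset.sum_add_distrib]
    exact Finset.sum_congr rfl fun i _ => Nat.sub_add_cancel (pos_all hD hy h0 i)
  rw [h3, Finset.sum_const, Finset.card_univ, Fintype.card_fin, smul_eq_mul, mul_one] at h4
  show ∑ i, (y i - 1) = t - (m + 1)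
  omega

theorem card_fib (D : Finset (Fin (m + 1) → ℕ)) :
    (fib D).card = (D.filter fun y => y 0 = 0).card := by
  unfold fib
  refine Finset.card_image_of_injOn ?_
  intro y hy z hz h
  have hy' := (Finset.mem_filter.1 (Finset.mem_coe.1 hy)).2
  have hz' := (Finset.mem_filter.1 (Finset.mem_coe.1 hz)).2
  exact eq_of_tail (hy'.trans hz'.symm) h

theorem card_split {D : Finset (Fin (m + 1) → ℕ)} (hD : D ⊆ P (m + 1) n t) :
    (fib D).card + (shf D).card = D.card := by
  have h1 : (shf D).card = (D.filter fun y => 0 < y 0).card := by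
    unfold shf
    refine Finset.card_image_of_injOn ?_
    intro y hy z hz h
    have hy' := Finset.mem_filter.1 (Finset.mem_coe.1 hy)
    have hz' := Finset.mem_filter.1 (Finset.mem_coe.1 hz)
    funext i
    have h2 : y i - 1 = z i - 1 := congrFun h i
    have h3 := pos_all hD hy'.1 hy'.2 i
    have h4 := pos_all hD hz'.1 hz'.2 i
    omega
  rw [h1, card_fib]
  have h2 := Finset.card_filter_add_card_filter_not (s := D) (fun y => y 0 = 0)
  have h3 : (D.filter fun y => 0 < y 0) = D.filter fun y => ¬ y 0 = 0 :=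
    Finset.filter_congr fun y _ => Nat.pos_iff_ne_zero
  rw [h3]
  exact h2

theorem lo_split {D : Finset (Fin (m + 1) → ℕ)} (hD : D ⊆ P (m + 1) n t) :
    (lo (fib D)).card + (lo (shf D)).card ≤ (lo D).card := by
  have h1 : (lo (fib D)).card ≤ ((lo D).filter fun x => x 0 = 0).card := by
    refine Finset.card_le_card_of_injOn (fun x => (Fin.cons 0 x : Fin (m + 1) → ℕ)) ?_ ?_
    · intro x hx
      obtain ⟨hm, i, hi⟩ := mem_lo.1 hx
      obtain ⟨y, hy, h0, hyx⟩ := mem_fib.1 hi
      refine Finset.mem_coe.2 (Finset.mem_filter.2 ⟨mem_lo.2 ⟨?_, i.succ, ?_⟩, rfl⟩)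
      · intro a b hab
        refine Fin.cases (fun _ => Nat.zero_le _) (fun a' => ?_) a hab
        intro hab'
        revert hab'
        refine Fin.cases (fun h => ?_) (fun b' h => ?_) b
        · exact absurd h (by simp)
        · exact hm (Fin.succ_le_succ_iff.1 h)
      · have : (Fin.cons 0 x + Pi.single i.succ 1 : Fin (m + 1) → ℕ) = y := by
          refine eq_of_tail ?_ ?_
          · rw [h0, add_single_apply, if_neg (Fin.succ_ne_zero i).symm]
            rfl
          · rw [hyx]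
            funext j
            show (Fin.cons 0 x + Pi.single i.succ 1 : Fin (m + 1) → ℕ) j.succ = _
            rw [add_single_apply, add_single_apply]
            by_cases hji : j = i
            · subst hji; simp
            · rw [if_neg hji, if_neg (fun h => hji (Fin.succ_injective _ h)), Fin.cons_succ]
        rw [this]
        exact hy
    · intro x _ z _ h
      funext i
      have := congrFun h i.succ
      simpa using this
  have h2 : (lo (shf D)).card ≤ ((lo D).filter fun x => ¬ x 0 = 0).card := by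
    refine Finset.card_le_card_of_injOn (fun x i => x i + 1) ?_ ?_
    · intro x hx
      obtain ⟨hm, i, hi⟩ := mem_lo.1 hx
      obtain ⟨y, hy, h0, hyx⟩ := mem_shf.1 hi
      refine Finset.mem_coe.2 (Finset.mem_filter.2 ⟨mem_lo.2 ⟨?_, i, ?_⟩, Nat.succ_ne_zero _⟩)
      · intro a b hab
        exact Nat.succ_le_succ (hm hab)
      · have : ((fun j => x j + 1) + Pi.single i 1 : Fin (m + 1) → ℕ) = y := by
          funext j
          have h3 : y j - 1 = (x + Pi.single i 1 : Fin (m + 1) → ℕ) j := congrFun hyx j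
          have h4 := pos_all hD hy h0 j
          rw [add_single_apply] at h3 ⊢
          split_ifs at h3 ⊢ <;> omega
        rw [this]
        exact hy
    · intro x _ z _ h
      funext i
      have : x i + 1 = z i + 1 := congrFun h i
      omega
  have h3 := Finset.card_filter_add_card_filter_not (s := lo D) (fun x => x 0 = 0)
  omega

theorem df_split {D : Finset (Fin (m + 1) → ℕ)} (hD : D ⊆ P (m + 1) n t) :
    df D ≤ df (fib D) + df (shf D) := by
  have h1 := card_split hD
  have h2 := lo_split hD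
  unfold df
  have h3 : ((fib D).card : ℝ) + ((shf D).card : ℝ) = (D.card : ℝ) := by exact_mod_cast h1
  have h4 : ((lo (fib D)).card : ℝ) + ((lo (shf D)).card : ℝ) ≤ ((lo D).card : ℝ) := by
    exact_mod_cast h2
  linarith

theorem fib_empty {D : Finset (Fin (m + 1) → ℕ)} (hD : D ⊆ P (m + 1) n t) (ht : m * n < t) :
    fib D = ∅ := by
  refine Finset.eq_empty_of_forall_notMem fun x hx => ?_
  obtain ⟨_, h2, h3⟩ := mem_P.1 (fib_subset hD hx)
  have h4 : ∑ i, x i ≤ ∑ _i : Fin m, n := Finset.sum_le_sum fun i _ => h2 i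
  rw [Finset.sum_const, Finset.card_univ, Fintype.card_fin, smul_eq_mul, h3] at h4
  omega

end Pool.Agent.Helper46.MR
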