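import Pool.Agent.Helper46.MR.KMain
import Pool.Agent.Helper46.MR.Chains

set_option autoImplicit false

namespace Pool.Agent.Helper46.MR

theorem final : ∀ m : ℕ, 4 ≤ m → ∃ k₀ : ℕ, ∀ n : ℕ,
    ∃ S : Set (Set (Fin m → ℕ)),
      (∀ C ∈ S,
        C ⊆ {a : Fin m → ℕ | Monotone a ∧ ∀ i, a i ≤ n} ∧
        IsChain (· ≤ ·) C ∧
        Set.InjOn (fun a : Fin m → ℕ => ∑ i, a i) C ∧
        ∃ i j : ℕ, i ≤ j ∧ (fun a : Fin m → ℕ => ∑ i, a i) '' C = Set.Icc i j ∧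
          (i + j = m * n ∨ (i ≤ k₀ ∧ m * n ≤ j + k₀))) ∧
      ∀ a : Fin m → ℕ, Monotone a → (∀ i, a i ≤ n) →
        ∃! C : Set (Fin m → ℕ), C ∈ S ∧ a ∈ C := by
  intro m hm
  obtain ⟨k₀, hk⟩ := kmain hm
  exact ⟨k₀, fun n => chains m n k₀ (fun k h1 h2 => hk n k h1 h2)⟩

end Pool.Agent.Helper46.MR
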