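import Pool.Agent.Helper46.MR.Slope
import Pool.Agent.Helper46.MR.Bulk

set_option autoImplicit false

/-!
# MR-14 Flux: the normalized flow between two levels of the cube is positive in the bulk

`NmpBeta m n k i` (the coordinate `i` is raised) and `NmpAlpha m n k i` (the rest is raised) are
defined in `Pool.Agent.Helper30.SC.Nmp`, for the level `k` of `{0..n}^(m+1)`; `W' z = lev m n z`
(`0` for negative `z`, see `NmpaR`), `W k = lev (m+1) n k`, `q = W (k+1) / W k`.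

PROOF. (A) `NmpBeta`: as in `NmpBeta_nonneg`, with `W k = ∑_{l ≤ n} W' (k-l)`,
`NmpBeta · W k · W (k+1) = ∑_{j ≤ i < l ≤ n} (W'(k-j) W'(k+1-l) - W'(k+1-j) W'(k-l))`, all terms
`≥ 0` (`Nmp_cross`). For `m ≥ 2` and `j ∈ [i - η n, i - η n/2]`, `l ∈ [i+1, i + η n]` the numbers
`k - j`, `k - l` are in `[η n, (m - η) n]`, and the term is
`W'(k-j) W'(k-l) (q'(k-l) - q'(k-j)) ≥ (c n^(m-1))^2 · (l - j) · 2/(m n (n+1))`
with `q' z = W'(z+1)/W' z`: `slope` for `b = m` summed from `k-l` to `k-j`, and `lev_bulk` for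
`m - 1`. There are `≥ c n^2` such pairs, `l - j ≥ η n/2`, and `W k, W(k+1) ≤ (n+1)^m` (`lev_le`).
So `NmpBeta ≥ c/n`. For `m = 1`: `W' z = 1` for `0 ≤ z ≤ n`; for `k < n`:
`NmpBeta = (i+1)/((k+1)(k+2))`; for `k ≥ n`, `w = 2n-k`: `NmpBeta = (n-i)/(w(w+1))`
(`i ≥ k - n`); both are `≥ c/n` here (`i ≥ η n`, `n - i ≥ η n`).
(B) `NmpAlpha = (1/q) (Π · W'(k+1)/W k + (1-Π) · W'(k-n)/W k)` where
`Π = (∑_{i ≤ j ≤ n} W'(k-j))/W k`, `W'(k-n) = 0` for `k < n`. (From
`W (k+1) = W k + W'(k+1) - W'(k-n)` and `Nmp_sum_shift`.) Both `Π` and `1 - Π` are `≥ c` (the values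
`j ∈ [i, i + η n]`, `j ∈ [i - η n, i)` give `≥ c n · n^(m-1)` elements), `q ≤ C` in the bulk,
and one of `W'(k+1)`, `W'(k-n)` is `≥ c n^(m-1)`: `k + 1` or `k - n` is in the bulk of
`{0..n}^m`, because `3 η n ≤ k ≤ (m + 1 - 3 η) n` (for `m = 1`: `W'(k+1) = 1` if `k + 1 ≤ n`,
`W'(k-n) = 1` if `n ≤ k`).
-/

namespace Pool.Agent.Helper46.MR

open Finset Pool.Agent.Helper30.SC

namespace FluxAux

theorem beta_mul (m n k i : ℕ) (hi : i ≤ n) (h0 : 0 < lev (m + 1) n k)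
    (h1 : 0 < lev (m + 1) n (k + 1)) :
    NmpBeta m n k i * ((lev (m + 1) n k : ℝ) * (lev (m + 1) n (k + 1) : ℝ)) =
      ∑ j ∈ range (i + 1), ∑ l ∈ Ico (i + 1) (n + 1),
        (NmpaR m n k j * NmpaR m n (k + 1) l - NmpaR m n (k + 1) j * NmpaR m n k l) := by
  have hA0 : (0 : ℝ) < (lev (m + 1) n k : ℝ) := by exact_mod_cast h0
  have hA1 : (0 : ℝ) < (lev (m + 1) n (k + 1) : ℝ) := by exact_mod_cast h1
  have e0 : NmpBeta m n k i * ((lev (m + 1) n k : ℝ) * (lev (m + 1) n (k + 1) : ℝ)) =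
      (∑ j ∈ range (i + 1), NmpaR m n k j) * (lev (m + 1) n (k + 1) : ℝ)
        - (∑ j ∈ range (i + 1), NmpaR m n (k + 1) j) * (lev (m + 1) n k : ℝ) := by
    unfold NmpBeta
    field_simp
  have hsplit : ∀ f : ℕ → ℝ, ∑ k ∈ range (n + 1), f k
      = ∑ k ∈ range (i + 1), f k + ∑ k ∈ Ico (i + 1) (n + 1), f k := fun f =>
    (Finset.sum_range_add_sum_Ico f (by omega)).symm
  rw [e0, Nmp_lev_succ, Nmp_lev_succ, hsplit (NmpaR m n k), hsplit (NmpaR m n (k + 1))]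
  simp only [Finset.sum_sub_distrib]
  rw [← Finset.sum_mul_sum, ← Finset.sum_mul_sum]
  ring

theorem alpha_mul (m n k i : ℕ) (hi : i ≤ n) (h0 : 0 < lev (m + 1) n k)
    (h1 : 0 < lev (m + 1) n (k + 1)) :
    NmpAlpha m n k i * ((lev (m + 1) n k : ℝ) * (lev (m + 1) n (k + 1) : ℝ)) =
      NmpaR m n (k + 1) 0 * (∑ j ∈ Ico i (n + 1), NmpaR m n k j)
        + NmpaR m n k n * ∑ j ∈ range i, NmpaR m n k j := by
  have hA0 : (0 : ℝ) < (lev (m + 1) n k : ℝ) := by exact_mod_cast h0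
  have hA1 : (0 : ℝ) < (lev (m + 1) n (k + 1) : ℝ) := by exact_mod_cast h1
  have e : NmpAlpha m n k i
      = (∑ j ∈ range (i + 1), NmpaR m n (k + 1) j) / (lev (m + 1) n (k + 1) : ℝ)
        - (∑ j ∈ range i, NmpaR m n k j) / (lev (m + 1) n k : ℝ) := by
    unfold NmpAlpha NmpBeta
    rw [Finset.sum_range_succ (n := i) (f := NmpaR m n k)]
    ring
  have e0 : NmpAlpha m n k i * ((lev (m + 1) n k : ℝ) * (lev (m + 1) n (k + 1) : ℝ)) =
      (∑ j ∈ range (i + 1), NmpaR m n (k + 1) j) * (lev (m + 1) n k : ℝ)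
        - (∑ j ∈ range i, NmpaR m n k j) * (lev (m + 1) n (k + 1) : ℝ) := by
    rw [e]
    field_simp
  have hA1e := Nmp_lev_succ m n (k + 1)
  rw [Nmp_sum_shift] at hA1e
  have hA0e := Nmp_lev_succ m n k
  have hA0f := hA0e
  rw [Finset.sum_range_succ] at hA0e
  rw [← Finset.sum_range_add_sum_Ico (NmpaR m n k) (show i ≤ n + 1 by omega)] at hA0f
  rw [e0, Nmp_sum_shift, hA1e]
  have e2 : ∑ j ∈ Ico i (n + 1), NmpaR m n k j
      = (lev (m + 1) n k : ℝ) - ∑ j ∈ range i, NmpaR m n k j := by linarith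
  have e3 : ∑ j ∈ range n, NmpaR m n k j = (lev (m + 1) n k : ℝ) - NmpaR m n k n := by linarith
  rw [e2, e3]
  ring

theorem finish (p n k : ℕ) (hn : 1 ≤ n) {c N : ℝ} (hN : 0 ≤ N)
    (h : c * (n : ℝ) ^ (2 * p + 1) ≤
      N * ((lev (p + 1 + 1) n k : ℝ) * (lev (p + 1 + 1) n (k + 1) : ℝ))) :
    c / 4 ^ (p + 1) / n ≤ N := by
  have hn' : (1 : ℝ) ≤ (n : ℝ) := by exact_mod_cast hn
  have hn0 : (0 : ℝ) < (n : ℝ) := by linarith
  have hW : ∀ r : ℕ, (lev (p + 1 + 1) n r : ℝ) ≤ (2 * (n : ℝ)) ^ (p + 1) := by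
    intro r
    have h1 : lev (p + 1 + 1) n r ≤ (n + 1) ^ (p + 1) := by
      have := lev_le (m := p + 1 + 1) (n := n) (by omega) r
      simpa using this
    have h2 : (lev (p + 1 + 1) n r : ℝ) ≤ ((n : ℝ) + 1) ^ (p + 1) := by exact_mod_cast h1
    refine h2.trans ?_
    exact pow_le_pow_left₀ (by positivity) (by linarith) _
  have h3 : (lev (p + 1 + 1) n k : ℝ) * (lev (p + 1 + 1) n (k + 1) : ℝ)
      ≤ (2 * (n : ℝ)) ^ (p + 1) * (2 * (n : ℝ)) ^ (p + 1) :=
    mul_le_mul (hW _) (hW _) (by positivity) (by positivity)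
  have h4 := h.trans (mul_le_mul_of_nonneg_left h3 hN)
  have e1 : (2 * (n : ℝ)) ^ (p + 1) * (2 * (n : ℝ)) ^ (p + 1)
      = 4 ^ (p + 1) * ((n : ℝ) ^ (2 * p + 1) * n) := by
    rw [← mul_pow]
    have : 2 * (n : ℝ) * (2 * n) = 4 * (n ^ 2) := by ring
    rw [this, mul_pow, ← pow_mul, ← pow_succ]
    congr 2
  rw [e1] at h4
  rw [div_le_iff₀ hn0, div_le_iff₀ (by positivity)]
  have hp : (0 : ℝ) < (n : ℝ) ^ (2 * p + 1) := by positivity
  have h5 : c * (n : ℝ) ^ (2 * p + 1) ≤ (N * n * 4 ^ (p + 1)) * (n : ℝ) ^ (2 * p + 1) := by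
    calc c * (n : ℝ) ^ (2 * p + 1) ≤ N * (4 ^ (p + 1) * ((n : ℝ) ^ (2 * p + 1) * n)) := h4
      _ = _ := by ring
  exact le_of_mul_le_mul_right h5 hp

theorem slope_sum {b n y : ℕ} (hb : 2 ≤ b) (hn : 1 ≤ n) :
    ∀ d : ℕ, y + d + 1 ≤ b * n →
      (d : ℝ) * ((2 : ℝ) / (b * (n * (n + 1)))) ≤
        (lev b n (y + 1) : ℝ) / (lev b n y : ℝ) -
          (lev b n (y + d + 1) : ℝ) / (lev b n (y + d) : ℝ) := by
  intro d
  induction d with
  | zero => intro _; simp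
  | succ d ih =>
    intro h
    have h1 := ih (by omega)
    have h2 := slope (b := b) (n := n) (u := y + d) hb hn (by omega)
    have e : y + (d + 1) = y + d + 1 := by ring
    rw [e]
    push_cast
    have e2 : y + d + 2 = y + d + 1 + 1 := by ring
    rw [e2] at h2
    linarith

theorem cross_lower {b n y z : ℕ} (hb : 2 ≤ b) (hn : 1 ≤ n) (hyz : y ≤ z) (hz : z + 1 ≤ b * n) :
    (lev b n z : ℝ) * (lev b n y : ℝ) * (((z : ℝ) - y) * ((2 : ℝ) / (b * (n * (n + 1)))))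
      ≤ (lev b n z : ℝ) * (lev b n (y + 1) : ℝ) - (lev b n (z + 1) : ℝ) * (lev b n y : ℝ) := by
  obtain ⟨d, rfl⟩ := Nat.exists_eq_add_of_le hyz
  have h := slope_sum (b := b) (n := n) (y := y) hb hn d hz
  have hy : (0 : ℝ) < (lev b n y : ℝ) := by
    exact_mod_cast lev_pos (m := b) (n := n) (r := y) (by omega)
  have hzp : (0 : ℝ) < (lev b n (y + d) : ℝ) := by
    exact_mod_cast lev_pos (m := b) (n := n) (r := y + d) (by omega)
  have e1 : ((y + d : ℕ) : ℝ) - y = d := by push_cast; ring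
  rw [e1]
  have h2 := mul_le_mul_of_nonneg_left h (mul_pos hzp hy).le
  refine h2.trans (le_of_eq ?_)
  field_simp

/-- The window inequality: `NmpaR` is large for `j` near `i`. -/
theorem window {p : ℕ} {η θ c : ℝ} (hη : 0 < η) (hθη : θ ≤ η)
    (hb : ∀ n k : ℕ, 1 ≤ n → θ * n ≤ k → (k : ℝ) ≤ ((p : ℝ) + 1 - θ) * n →
      c * (n : ℝ) ^ p ≤ (lev (p + 1) n k : ℝ))
    {n k i s j : ℕ} (hn : 1 ≤ n) (hs : (s : ℝ) ≤ η * n / 2)
    (h1 : 2 * η * n ≤ (k : ℝ) - i) (h2 : (k : ℝ) - i ≤ (((p + 1 : ℕ) : ℝ) - 2 * η) * n)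
    (hj1 : i ≤ j + 2 * s) (hj2 : j ≤ i + s) :
    j ≤ k ∧ c * (n : ℝ) ^ p ≤ (lev (p + 1) n (k - j) : ℝ) ∧
      ((k - j : ℕ) : ℝ) ≤ ((p : ℝ) + 1 - η) * n := by
  have hn' : (0 : ℝ) < (n : ℝ) := by exact_mod_cast hn
  have hηn : 0 < η * n := mul_pos hη hn'
  have hθn : θ * n ≤ η * n := mul_le_mul_of_nonneg_right hθη hn'.le
  have a1 : (i : ℝ) ≤ j + 2 * s := by exact_mod_cast hj1
  have a2 : (j : ℝ) ≤ i + s := by exact_mod_cast hj2
  have hjk : (j : ℝ) ≤ k := by nlinarith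
  have hjk' : j ≤ k := by exact_mod_cast hjk
  have e : ((k - j : ℕ) : ℝ) = (k : ℝ) - j := by
    rw [Nat.cast_sub hjk']
  push_cast at h2
  have b2 : ((k - j : ℕ) : ℝ) ≤ ((p : ℝ) + 1 - η) * n := by
    rw [e]; nlinarith
  refine ⟨hjk', hb n (k - j) hn ?_ ?_, b2⟩
  · rw [e]; nlinarith
  · refine b2.trans ?_
    nlinarith

theorem lev_one {n r : ℕ} (h : r ≤ n) : (lev 1 n r : ℝ) = 1 := by
  have h1 := lev_le (m := 1) (n := n) le_rfl r
  have h2 := lev_pos (m := 1) (n := n) (r := r) (by omega)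
  have h3 : lev 1 n r = 1 := by
    simp only [Nat.sub_self, pow_zero] at h1
    omega
  rw [h3]
  norm_num

theorem lev_one_zero {n r : ℕ} (h : n < r) : (lev 1 n r : ℝ) = 0 := by
  have h1 := lev_eq_zero (m := 1) (n := n) (r := r) (by omega)
  rw [h1]
  norm_num

/-- the case `m = 1` of the sum for `NmpBeta` -/
theorem beta_one {n k i : ℕ} (hik : i ≤ k) (hin : i ≤ n) (hki : k ≤ i + n) {t : ℝ}
    (ht : t ≤ i) (ht' : t ≤ (n : ℝ) - i) :
    t ≤ ∑ j ∈ range (i + 1), ∑ l ∈ Ico (i + 1) (n + 1),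
        (NmpaR 1 n k j * NmpaR 1 n (k + 1) l - NmpaR 1 n (k + 1) j * NmpaR 1 n k l) := by
  have hT0 : ∀ j ∈ range (i + 1), ∀ l ∈ Ico (i + 1) (n + 1),
      0 ≤ NmpaR 1 n k j * NmpaR 1 n (k + 1) l - NmpaR 1 n (k + 1) j * NmpaR 1 n k l := by
    intro j hj l hl
    have := Finset.mem_range.mp hj
    have := Finset.mem_Ico.mp hl
    exact sub_nonneg.mpr (Nmp_cross 1 n k (by omega))
  rcases Nat.lt_or_ge k n with hk | hk
  · have h1 : ∀ j ∈ range (i + 1), (1 : ℝ) ≤ ∑ l ∈ Ico (i + 1) (n + 1),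
        (NmpaR 1 n k j * NmpaR 1 n (k + 1) l - NmpaR 1 n (k + 1) j * NmpaR 1 n k l) := by
      intro j hj
      have hj' := Finset.mem_range.mp hj
      refine le_trans ?_ (Finset.single_le_sum (hT0 j hj)
        (Finset.mem_Ico.mpr ⟨by omega, by omega⟩ : k + 1 ∈ Ico (i + 1) (n + 1)))
      have e1 : NmpaR 1 n k j = 1 := by
        unfold NmpaR
        rw [if_pos (by omega)]
        exact lev_one (by omega)
      have e2 : NmpaR 1 n (k + 1) (k + 1) = 1 := by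
        unfold NmpaR
        rw [if_pos (by omega)]
        exact lev_one (by omega)
      have e3 : NmpaR 1 n k (k + 1) = 0 := by
        unfold NmpaR
        rw [if_neg (by omega)]
      rw [e1, e2, e3]
      norm_num
    have h2 := Finset.card_nsmul_le_sum (range (i + 1)) _ (1 : ℝ) h1
    rw [Finset.card_range, nsmul_eq_mul] at h2
    refine le_trans ?_ h2
    push_cast
    linarith
  · have hj0 : k - n ∈ range (i + 1) := Finset.mem_range.mpr (by omega)
    refine le_trans ?_ (Finset.single_le_sum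
      (f := fun j => ∑ l ∈ Ico (i + 1) (n + 1),
        (NmpaR 1 n k j * NmpaR 1 n (k + 1) l - NmpaR 1 n (k + 1) j * NmpaR 1 n k l))
      (fun j hj => Finset.sum_nonneg (hT0 j hj)) hj0)
    have h1 : ∀ l ∈ Ico (i + 1) (n + 1), (1 : ℝ) ≤
        NmpaR 1 n k (k - n) * NmpaR 1 n (k + 1) l - NmpaR 1 n (k + 1) (k - n) * NmpaR 1 n k l := by
      intro l hl
      have hl' := Finset.mem_Ico.mp hl
      have e1 : NmpaR 1 n k (k - n) = 1 := by
        unfold NmpaR
        rw [if_pos (by omega)]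
        exact lev_one (by omega)
      have e2 : NmpaR 1 n (k + 1) l = 1 := by
        unfold NmpaR
        rw [if_pos (by omega)]
        exact lev_one (by omega)
      have e3 : NmpaR 1 n (k + 1) (k - n) = 0 := by
        unfold NmpaR
        rw [if_pos (by omega)]
        exact lev_one_zero (by omega)
      rw [e1, e2, e3]
      norm_num
    have h2 := Finset.card_nsmul_le_sum (Ico (i + 1) (n + 1)) _ (1 : ℝ) h1
    rw [Nat.card_Ico, nsmul_eq_mul, mul_one] at h2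
    refine le_trans ?_ h2
    have e : n + 1 - (i + 1) = n - i := by omega
    rw [e, Nat.cast_sub hin]
    exact ht'

/-- the case `m ≥ 2` of the sum for `NmpBeta` -/
theorem beta_many {p : ℕ} (hp : 1 ≤ p) {η θ c : ℝ} (hη : 0 < η) (hθη : θ ≤ η) (hc : 0 < c)
    (hb : ∀ n k : ℕ, 1 ≤ n → θ * n ≤ k → (k : ℝ) ≤ ((p : ℝ) + 1 - θ) * n →
      c * (n : ℝ) ^ p ≤ (lev (p + 1) n k : ℝ))
    {n k i s : ℕ} (hn : 1 ≤ n) (hηn : 4 ≤ η * n) (hs : (s : ℝ) ≤ η * n / 2)
    (hs' : η * n / 4 ≤ s) (hsi : 2 * s ≤ i) (hsn : i + s ≤ n)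
    (h1 : 2 * η * n ≤ (k : ℝ) - i) (h2 : (k : ℝ) - i ≤ (((p + 1 : ℕ) : ℝ) - 2 * η) * n) :
    c ^ 2 * (η / 4) ^ 3 / (p + 1) * (n : ℝ) ^ (2 * p + 1) ≤
      ∑ j ∈ range (i + 1), ∑ l ∈ Ico (i + 1) (n + 1),
        (NmpaR (p + 1) n k j * NmpaR (p + 1) n (k + 1) l
          - NmpaR (p + 1) n (k + 1) j * NmpaR (p + 1) n k l) := by
  have hn' : (1 : ℝ) ≤ (n : ℝ) := by exact_mod_cast hn
  have hn0 : (0 : ℝ) < (n : ℝ) := by linarith
  have hs0 : (0 : ℝ) ≤ (s : ℝ) := by positivity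
  have hT0 : ∀ j ∈ range (i + 1), ∀ l ∈ Ico (i + 1) (n + 1),
      0 ≤ NmpaR (p + 1) n k j * NmpaR (p + 1) n (k + 1) l
        - NmpaR (p + 1) n (k + 1) j * NmpaR (p + 1) n k l := by
    intro j hj l hl
    have := Finset.mem_range.mp hj
    have := Finset.mem_Ico.mp hl
    exact sub_nonneg.mpr (Nmp_cross (p + 1) n k (by omega))
  set τ : ℝ := (c * (n : ℝ) ^ p) * (c * (n : ℝ) ^ p) *
    ((s : ℝ) * ((2 : ℝ) / (((p + 1 : ℕ) : ℝ) * (n * (n + 1))))) with hτ
  have hτ0 : 0 ≤ τ := by positivity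
  have hterm : ∀ j ∈ Icc (i - 2 * s) (i - s), ∀ l ∈ Icc (i + 1) (i + s),
      τ ≤ NmpaR (p + 1) n k j * NmpaR (p + 1) n (k + 1) l
        - NmpaR (p + 1) n (k + 1) j * NmpaR (p + 1) n k l := by
    intro j hj l hl
    obtain ⟨j1, j2⟩ := Finset.mem_Icc.mp hj
    obtain ⟨l1, l2⟩ := Finset.mem_Icc.mp hl
    obtain ⟨hjk, hj3, hj4⟩ := window hη hθη hb hn hs h1 h2 (j := j) (by omega) (by omega)
    obtain ⟨hlk, hl3, hl4⟩ := window hη hθη hb hn hs h1 h2 (j := l) (by omega) (by omega)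
    have hz : k - j + 1 ≤ (p + 1) * n := by
      have : ((k - j + 1 : ℕ) : ℝ) ≤ (((p + 1) * n : ℕ) : ℝ) := by
        push_cast
        push_cast at hj4
        nlinarith
      exact_mod_cast this
    have hcr := cross_lower (b := p + 1) (n := n) (y := k - l) (z := k - j) (by omega) hn
      (by omega) hz
    have e1 : NmpaR (p + 1) n k j = (lev (p + 1) n (k - j) : ℝ) := by
      unfold NmpaR
      rw [if_pos hjk]
    have e2 : NmpaR (p + 1) n k l = (lev (p + 1) n (k - l) : ℝ) := by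
      unfold NmpaR
      rw [if_pos hlk]
    have e3 : NmpaR (p + 1) n (k + 1) j = (lev (p + 1) n (k - j + 1) : ℝ) := by
      unfold NmpaR
      rw [if_pos (by omega)]
      congr 2
      omega
    have e4 : NmpaR (p + 1) n (k + 1) l = (lev (p + 1) n (k - l + 1) : ℝ) := by
      unfold NmpaR
      rw [if_pos (by omega)]
      congr 2
      omega
    rw [e1, e2, e3, e4]
    refine le_trans ?_ hcr
    have hd : (s : ℝ) ≤ ((k - j : ℕ) : ℝ) - ((k - l : ℕ) : ℝ) := by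
      rw [Nat.cast_sub hjk, Nat.cast_sub hlk]
      have a1 : j + s ≤ i := by omega
      have a1' : (j : ℝ) + s ≤ i := by exact_mod_cast a1
      have a2' : (i : ℝ) + 1 ≤ l := by exact_mod_cast l1
      linarith
    have hq : (0 : ℝ) ≤ (2 : ℝ) / (((p + 1 : ℕ) : ℝ) * (n * (n + 1))) := by positivity
    rw [hτ]
    refine mul_le_mul ?_ ?_ ?_ ?_
    · exact mul_le_mul hj3 hl3 (by positivity) (by positivity)
    · exact mul_le_mul_of_nonneg_right hd hq
    · exact mul_nonneg hs0 hq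
    · positivity
  have hinner : ∀ j ∈ Icc (i - 2 * s) (i - s), (s : ℝ) * τ ≤ ∑ l ∈ Ico (i + 1) (n + 1),
      (NmpaR (p + 1) n k j * NmpaR (p + 1) n (k + 1) l
        - NmpaR (p + 1) n (k + 1) j * NmpaR (p + 1) n k l) := by
    intro j hj
    obtain ⟨j1, j2⟩ := Finset.mem_Icc.mp hj
    have h3 := Finset.card_nsmul_le_sum (Icc (i + 1) (i + s)) _ τ (hterm j hj)
    rw [Nat.card_Icc, nsmul_eq_mul] at h3
    have e : i + s + 1 - (i + 1) = s := by omega
    rw [e] at h3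
    refine h3.trans ?_
    refine Finset.sum_le_sum_of_subset_of_nonneg ?_ ?_
    · intro l hl
      obtain ⟨l1, l2⟩ := Finset.mem_Icc.mp hl
      exact Finset.mem_Ico.mpr ⟨l1, by omega⟩
    · intro l hl _
      exact hT0 j (Finset.mem_range.mpr (by omega)) l hl
  have h3 := Finset.card_nsmul_le_sum (Icc (i - 2 * s) (i - s)) _ ((s : ℝ) * τ) hinner
  rw [Nat.card_Icc, nsmul_eq_mul] at h3
  have e : i - s + 1 - (i - 2 * s) = s + 1 := by omega
  rw [e] at h3
  have h4 : ∑ j ∈ Icc (i - 2 * s) (i - s), ∑ l ∈ Ico (i + 1) (n + 1),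
        (NmpaR (p + 1) n k j * NmpaR (p + 1) n (k + 1) l
          - NmpaR (p + 1) n (k + 1) j * NmpaR (p + 1) n k l) ≤
      ∑ j ∈ range (i + 1), ∑ l ∈ Ico (i + 1) (n + 1),
        (NmpaR (p + 1) n k j * NmpaR (p + 1) n (k + 1) l
          - NmpaR (p + 1) n (k + 1) j * NmpaR (p + 1) n k l) := by
    refine Finset.sum_le_sum_of_subset_of_nonneg ?_ ?_
    · intro j hj
      obtain ⟨j1, j2⟩ := Finset.mem_Icc.mp hj
      exact Finset.mem_range.mpr (by omega)
    · intro j hj _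
      exact Finset.sum_nonneg (hT0 j hj)
  refine le_trans ?_ (h3.trans h4)
  -- the arithmetic
  have hss : (η * n / 4) ^ 3 ≤ (s : ℝ) ^ 3 := pow_le_pow_left₀ (by positivity) hs' 3
  have hfrac : (1 : ℝ) / ((p + 1) * (n * n)) ≤ (2 : ℝ) / (((p + 1 : ℕ) : ℝ) * (n * (n + 1))) := by
    push_cast
    rw [div_le_div_iff₀ (by positivity) (by positivity)]
    have hp0 : (0 : ℝ) ≤ (p : ℝ) + 1 := by positivity
    nlinarith [mul_nonneg hp0 (mul_nonneg hn0.le (sub_nonneg.mpr hn'))]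
  calc c ^ 2 * (η / 4) ^ 3 / (p + 1) * (n : ℝ) ^ (2 * p + 1)
      = (η * n / 4) ^ 3 * ((c * (n : ℝ) ^ p) * (c * (n : ℝ) ^ p) * (1 / ((p + 1) * (n * n)))) := by
        have e5 : (n : ℝ) ^ (2 * p + 1) = (n : ℝ) ^ p * (n : ℝ) ^ p * n := by
          rw [pow_succ, two_mul, pow_add]
        rw [e5]
        field_simp
    _ ≤ (s : ℝ) ^ 3 * ((c * (n : ℝ) ^ p) * (c * (n : ℝ) ^ p) *
          ((2 : ℝ) / (((p + 1 : ℕ) : ℝ) * (n * (n + 1))))) := by
        refine mul_le_mul hss ?_ (by positivity) (by positivity)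
        exact mul_le_mul_of_nonneg_left hfrac (by positivity)
    _ = (s : ℝ) * ((s : ℝ) * τ) := by rw [hτ]; ring
    _ ≤ ((s + 1 : ℕ) : ℝ) * ((s : ℝ) * τ) := by
        refine mul_le_mul_of_nonneg_right ?_ (by positivity)
        push_cast
        linarith

/-- the product for `NmpAlpha` -/
theorem alpha_many {p : ℕ} {η θ c c₂ : ℝ} (hη : 0 < η) (hθη : θ ≤ η) (hc : 0 < c) (_hc₂ : 0 < c₂)
    (hb : ∀ n k : ℕ, 1 ≤ n → θ * n ≤ k → (k : ℝ) ≤ ((p : ℝ) + 1 - θ) * n →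
      c * (n : ℝ) ^ p ≤ (lev (p + 1) n k : ℝ))
    {n k i s : ℕ} (hn : 1 ≤ n) (hs : (s : ℝ) ≤ η * n / 2)
    (hs' : η * n / 4 ≤ s) (hsi : 2 * s ≤ i) (hsn : i + s ≤ n)
    (h1 : 2 * η * n ≤ (k : ℝ) - i) (h2 : (k : ℝ) - i ≤ (((p + 1 : ℕ) : ℝ) - 2 * η) * n)
    (huv : c₂ * (n : ℝ) ^ p ≤ NmpaR (p + 1) n (k + 1) 0 ∨
      c₂ * (n : ℝ) ^ p ≤ NmpaR (p + 1) n k n) :
    c₂ * c * (η / 4) * (n : ℝ) ^ (2 * p + 1) ≤
      NmpaR (p + 1) n (k + 1) 0 * (∑ j ∈ Ico i (n + 1), NmpaR (p + 1) n k j)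
        + NmpaR (p + 1) n k n * ∑ j ∈ range i, NmpaR (p + 1) n k j := by
  have hn' : (1 : ℝ) ≤ (n : ℝ) := by exact_mod_cast hn
  have hn0 : (0 : ℝ) < (n : ℝ) := by linarith
  have hw : ∀ j, i ≤ j + 2 * s → j ≤ i + s → c * (n : ℝ) ^ p ≤ NmpaR (p + 1) n k j := by
    intro j h3 h4
    obtain ⟨hjk, hj3, _⟩ := window hη hθη hb hn hs h1 h2 (j := j) h3 h4
    unfold NmpaR
    rw [if_pos hjk]
    exact hj3
  have hx : c * (η / 4) * (n : ℝ) ^ (p + 1) ≤ ∑ j ∈ range i, NmpaR (p + 1) n k j := by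
    have h3 := Finset.card_nsmul_le_sum (Ico (i - s) i) (fun j => NmpaR (p + 1) n k j)
      (c * (n : ℝ) ^ p) (fun j hj => by
        obtain ⟨j1, j2⟩ := Finset.mem_Ico.mp hj
        exact hw j (by omega) (by omega))
    rw [Nat.card_Ico, nsmul_eq_mul] at h3
    have e : i - (i - s) = s := by omega
    rw [e] at h3
    have h4 : ∑ j ∈ Ico (i - s) i, NmpaR (p + 1) n k j ≤ ∑ j ∈ range i, NmpaR (p + 1) n k j := by
      refine Finset.sum_le_sum_of_subset_of_nonneg ?_ fun j _ _ => NmpaR_nonneg _ _ _ _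
      intro j hj
      obtain ⟨j1, j2⟩ := Finset.mem_Ico.mp hj
      exact Finset.mem_range.mpr j2
    refine le_trans ?_ (h3.trans h4)
    calc c * (η / 4) * (n : ℝ) ^ (p + 1) = (η * n / 4) * (c * (n : ℝ) ^ p) := by
          rw [pow_succ]; ring
      _ ≤ (s : ℝ) * (c * (n : ℝ) ^ p) := mul_le_mul_of_nonneg_right hs' (by positivity)
  have hy : c * (η / 4) * (n : ℝ) ^ (p + 1) ≤ ∑ j ∈ Ico i (n + 1), NmpaR (p + 1) n k j := by
    have h3 := Finset.card_nsmul_le_sum (Ico i (i + s)) (fun j => NmpaR (p + 1) n k j)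
      (c * (n : ℝ) ^ p) (fun j hj => by
        obtain ⟨j1, j2⟩ := Finset.mem_Ico.mp hj
        exact hw j (by omega) (by omega))
    rw [Nat.card_Ico, nsmul_eq_mul] at h3
    have e : i + s - i = s := by omega
    rw [e] at h3
    have h4 : ∑ j ∈ Ico i (i + s), NmpaR (p + 1) n k j
        ≤ ∑ j ∈ Ico i (n + 1), NmpaR (p + 1) n k j := by
      refine Finset.sum_le_sum_of_subset_of_nonneg ?_ fun j _ _ => NmpaR_nonneg _ _ _ _
      intro j hj
      obtain ⟨j1, j2⟩ := Finset.mem_Ico.mp hj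
      exact Finset.mem_Ico.mpr ⟨j1, by omega⟩
    refine le_trans ?_ (h3.trans h4)
    calc c * (η / 4) * (n : ℝ) ^ (p + 1) = (η * n / 4) * (c * (n : ℝ) ^ p) := by
          rw [pow_succ]; ring
      _ ≤ (s : ℝ) * (c * (n : ℝ) ^ p) := mul_le_mul_of_nonneg_right hs' (by positivity)
  have hu := NmpaR_nonneg (p + 1) n (k + 1) 0
  have hv := NmpaR_nonneg (p + 1) n k n
  have hx0 : 0 ≤ c * (η / 4) * (n : ℝ) ^ (p + 1) := by positivity
  have e6 : c₂ * c * (η / 4) * (n : ℝ) ^ (2 * p + 1)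
      = (c₂ * (n : ℝ) ^ p) * (c * (η / 4) * (n : ℝ) ^ (p + 1)) := by
    have : 2 * p + 1 = p + (p + 1) := by ring
    rw [this, pow_add]
    ring
  rw [e6]
  rcases huv with h | h
  · have h5 := mul_le_mul h hy hx0 hu
    have h6 := mul_nonneg hv (hx0.trans hx)
    linarith
  · have h5 := mul_le_mul h hx hx0 hv
    have h6 := mul_nonneg hu (hx0.trans hy)
    linarith

end FluxAux

open FluxAux

theorem flux {m : ℕ} (hm : 1 ≤ m) (η : ℝ) (hη : 0 < η) :
    ∃ (c : ℝ) (n₀ : ℕ), 0 < c ∧ ∀ n k i : ℕ, n₀ ≤ n → i ≤ k → η * n ≤ i →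
      (i : ℝ) ≤ (1 - η) * n → 2 * η * n ≤ (k : ℝ) - i → (k : ℝ) - i ≤ (m - 2 * η) * n →
      c / n ≤ NmpBeta m n k i ∧ c / n ≤ NmpAlpha m n k i := by
  obtain ⟨p, rfl⟩ : ∃ p, m = p + 1 := ⟨m - 1, by omega⟩
  set θ : ℝ := min η (1 / 4) with hθ
  have hθ0 : 0 < θ := lt_min hη (by norm_num)
  have hθη : θ ≤ η := min_le_left _ _
  have hθ4 : θ ≤ 1 / 4 := min_le_right _ _
  obtain ⟨c, hc, hb⟩ := lev_bulk p θ hθ0
  set c₂ : ℝ := min c 1 with hc₂
  have hc₂0 : 0 < c₂ := lt_min hc one_pos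
  set cβ : ℝ := min η (c ^ 2 * (η / 4) ^ 3 / (p + 1)) with hcβ
  have hcβ0 : 0 < cβ := lt_min hη (by positivity)
  have hcα0 : 0 < c₂ * c * (η / 4) := by positivity
  refine ⟨min (cβ / 4 ^ (p + 1)) (c₂ * c * (η / 4) / 4 ^ (p + 1)), ⌈4 / η⌉₊ + 4,
    lt_min (by positivity) (by positivity), ?_⟩
  intro n k i hn hik hi1 hi2 h1 h2
  have hn4 : 4 ≤ n := by omega
  have hn1 : 1 ≤ n := by omega
  have hn' : (4 : ℝ) ≤ (n : ℝ) := by exact_mod_cast hn4
  have hn0 : (0 : ℝ) < (n : ℝ) := by linarith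
  have hηn : 4 ≤ η * n := by
    have h3 : (4 : ℝ) / η ≤ n := by
      refine (Nat.le_ceil _).trans ?_
      have : ⌈4 / η⌉₊ ≤ n := by omega
      exact_mod_cast this
    rw [div_le_iff₀ hη] at h3
    linarith
  set s : ℕ := ⌊η * n / 2⌋₊ with hsdef
  have hs : (s : ℝ) ≤ η * n / 2 := Nat.floor_le (by positivity)
  have hs' : η * n / 4 ≤ s := by
    have := Nat.lt_floor_add_one (η * n / 2)
    rw [← hsdef] at this
    linarith
  have hsi : 2 * s ≤ i := by
    have : ((2 * s : ℕ) : ℝ) ≤ i := by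
      push_cast
      linarith
    exact_mod_cast this
  have hsn : i + s ≤ n := by
    have : ((i + s : ℕ) : ℝ) ≤ n := by
      push_cast
      linarith
    exact_mod_cast this
  have hin : i ≤ n := by omega
  have h2' : (k : ℝ) - i ≤ ((p : ℝ) + 1 - 2 * η) * n := by
    push_cast at h2
    exact h2
  have hk1 : k + 1 ≤ (p + 1 + 1) * n := by
    have : ((k + 1 : ℕ) : ℝ) ≤ (((p + 1 + 1) * n : ℕ) : ℝ) := by
      push_cast
      nlinarith
    exact_mod_cast this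
  have h0W : 0 < lev (p + 1 + 1) n k := lev_pos (by omega)
  have h1W : 0 < lev (p + 1 + 1) n (k + 1) := lev_pos hk1
  have hWW : (0 : ℝ) < (lev (p + 1 + 1) n k : ℝ) * (lev (p + 1 + 1) n (k + 1) : ℝ) := by
    positivity
  constructor
  · have hS : cβ * (n : ℝ) ^ (2 * p + 1) ≤ NmpBeta (p + 1) n k i *
        ((lev (p + 1 + 1) n k : ℝ) * (lev (p + 1 + 1) n (k + 1) : ℝ)) := by
      rw [beta_mul (p + 1) n k i hin h0W h1W]
      rcases Nat.eq_zero_or_pos p with rfl | hp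
      · have hki : k ≤ i + n := by
          have : (k : ℝ) ≤ ((i + n : ℕ) : ℝ) := by
            push_cast
            push_cast at h2'
            nlinarith
          exact_mod_cast this
        refine beta_one hik hin hki ?_ ?_
        · refine le_trans ?_ hi1
          simp only [Nat.mul_zero, Nat.zero_add, pow_one]
          exact mul_le_mul_of_nonneg_right (min_le_left _ _) hn0.le
        · have h3 : cβ * (n : ℝ) ^ (2 * 0 + 1) ≤ η * n := by
            simp only [Nat.mul_zero, Nat.zero_add, pow_one]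
            exact mul_le_mul_of_nonneg_right (min_le_left _ _) hn0.le
          linarith
      · refine le_trans ?_ (beta_many hp hη hθη hc hb hn1 hηn hs hs' hsi hsn h1 h2)
        exact mul_le_mul_of_nonneg_right (min_le_right _ _) (by positivity)
    refine le_trans ?_ (finish p n k hn1 (NmpBeta_nonneg (p + 1) n k i hin h0W h1W) hS)
    exact div_le_div_of_nonneg_right (min_le_left _ _) hn0.le
  · have huv : c₂ * (n : ℝ) ^ p ≤ NmpaR (p + 1) n (k + 1) 0 ∨
        c₂ * (n : ℝ) ^ p ≤ NmpaR (p + 1) n k n := by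
      have hkr1 : η * n ≤ k := by linarith [mul_pos hη hn0]
      rcases Nat.eq_zero_or_pos p with rfl | hp
      · rcases Nat.lt_or_ge k n with hk | hk
        · left
          have e : NmpaR (0 + 1) n (k + 1) 0 = 1 := by
            unfold NmpaR
            rw [if_pos (by omega)]
            exact lev_one (by omega)
          rw [e, pow_zero, mul_one]
          exact min_le_right _ _
        · right
          have hki : k ≤ i + n := by
            have : (k : ℝ) ≤ ((i + n : ℕ) : ℝ) := by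
              push_cast
              push_cast at h2'
              nlinarith
            exact_mod_cast this
          have e : NmpaR (0 + 1) n k n = 1 := by
            unfold NmpaR
            rw [if_pos hk]
            exact lev_one (by omega)
          rw [e, pow_zero, mul_one]
          exact min_le_right _ _
      · have hp1 : (1 : ℝ) ≤ (p : ℝ) := by exact_mod_cast hp
        have hcn : c₂ * (n : ℝ) ^ p ≤ c * (n : ℝ) ^ p :=
          mul_le_mul_of_nonneg_right (min_le_left _ _) (by positivity)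
        have hθn : θ * n ≤ η * n := mul_le_mul_of_nonneg_right hθη hn0.le
        have hθn4 : θ * n ≤ 1 / 4 * n := mul_le_mul_of_nonneg_right hθ4 hn0.le
        rcases le_or_gt ((k : ℝ) + 1) (((p : ℝ) + 1 - θ) * n) with hk | hk
        · left
          refine hcn.trans ?_
          unfold NmpaR
          rw [if_pos (Nat.zero_le _), Nat.sub_zero]
          refine hb n (k + 1) hn1 ?_ ?_
          · push_cast
            linarith
          · push_cast
            exact hk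
        · right
          refine hcn.trans ?_
          have hpn : (n : ℝ) ≤ p * n := by nlinarith
          have hnk : n ≤ k := by
            have : (n : ℝ) ≤ (k : ℝ) := by nlinarith
            exact_mod_cast this
          unfold NmpaR
          rw [if_pos hnk]
          refine hb n (k - n) hn1 ?_ ?_
          · rw [Nat.cast_sub hnk]
            nlinarith
          · rw [Nat.cast_sub hnk]
            nlinarith
    have hS : c₂ * c * (η / 4) * (n : ℝ) ^ (2 * p + 1) ≤ NmpAlpha (p + 1) n k i *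
        ((lev (p + 1 + 1) n k : ℝ) * (lev (p + 1 + 1) n (k + 1) : ℝ)) := by
      rw [alpha_mul (p + 1) n k i hin h0W h1W]
      exact alpha_many hη hθη hc hc₂0 hb hn1 hs hs' hsi hsn h1 h2 huv
    refine le_trans ?_ (finish p n k hn1 (NmpAlpha_nonneg (p + 1) n k i hin h0W h1W) hS)
    exact div_le_div_of_nonneg_right (min_le_right _ _) hn0.le

end Pool.Agent.Helper46.MR
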