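import Pool.Agent.Helper46.MR.Basic

set_option autoImplicit false

/-!
# MR-3 Griggs: the step of Griggs by Hall's theorem

PROOF. Write `A_k = P m n k`, `B = P m n (k+1)`. Bipartite graph: left side `A_k ⊔ B` (copy), right
side `B ⊔ A_k` (copy). `x ∈ A_k` (left) is joined to `y ∈ B` (right) if `x ∈ lower y`; `y ∈ B` (left)
is joined to `y ∈ B` (right) and to all `x' ∈ A_k` (right) with `x' ∈ lower (π y)`. A matching which
saturates the left side is perfect (both sides have `|A_k| + |B|` elements). It gives `f x ∈ B`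
for `x ∈ A_k` (injective). The left `y ∈ f '' A_k` cannot use the right `y`, so these `|A_k|` many
`y` are matched with all of `A_k` (right): `g x' := π y`, injective, and
`π '' (f '' A_k) = g '' A_k`.
HALL CONDITION for `A ⊆ A_k`, `Y ⊆ B`: the neighbourhood has
`|up n A ∪ Y| + |lo (π Y)|` elements. Let `D₀ = B \ (up n A ∪ Y)`; `A ∩ lo D₀ = ∅`, so
`|A| ≤ |A_k| - |lo D₀|`. If `|lo D₀| + |lo (π Y)| < |A_k|` then (K) for `D₀` and `π Y` gives
`|up n A ∪ Y| + |lo (π Y)| = |B| - |D₀| + |lo (π Y)| ≥ |Y| + |A_k| - |lo D₀| ≥ |Y| + |A|`.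
Otherwise `|lo (π Y)| ≥ |A_k| - |lo D₀| ≥ |A|`, and `|up n A ∪ Y| ≥ |Y|`.
Hall: `Finset.all_card_le_biUnion_card_iff_exists_injective` (or `Fintype` version on subtypes,
index type `{x // x ∈ A_k} ⊕ {y // y ∈ B}`).
-/

namespace Pool.Agent.Helper46.MR

open Finset Pool.Agent.Helper30.SC

variable {m n k : ℕ}

namespace GriggsAux

theorem count (hK : K m n k) (π : (Fin m → ℕ) → (Fin m → ℕ))
    (hπ : Set.BijOn π (P m n (k + 1) : Set (Fin m → ℕ)) (P m n (k + 1) : Set (Fin m → ℕ)))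
    {A Y : Finset (Fin m → ℕ)} (hA : A ⊆ P m n k) (hY : Y ⊆ P m n (k + 1)) :
    A.card + Y.card ≤ (up n A ∪ Y).card + (lo (Y.image π)).card := by
  classical
  have hU : up n A ∪ Y ⊆ P m n (k + 1) := union_subset (up_subset hA) hY
  have hD0 : P m n (k + 1) \ (up n A ∪ Y) ⊆ P m n (k + 1) := sdiff_subset
  have hdisj : Disjoint A (lo (P m n (k + 1) \ (up n A ∪ Y))) := by
    rw [Finset.disjoint_left]
    intro x hx hx'
    obtain ⟨_, i, hi⟩ := mem_lo.1 hx'
    rw [mem_sdiff, mem_union, not_or] at hi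
    obtain ⟨hB, hn, _⟩ := hi
    apply hn
    have h1 := P_le hB i
    rw [add_single_apply, if_pos rfl] at h1
    exact mem_up.2 ⟨P_mono hB, x, hx, i, by omega, rfl⟩
  have h1 : A.card + (lo (P m n (k + 1) \ (up n A ∪ Y))).card ≤ (P m n k).card := by
    rw [← card_union_of_disjoint hdisj]
    exact card_le_card (union_subset hA (lo_subset hD0))
  have h2 : (P m n (k + 1) \ (up n A ∪ Y)).card + (up n A ∪ Y).card = (P m n (k + 1)).card :=
    card_sdiff_add_card_eq_card hU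
  have hYi : Y.image π ⊆ P m n (k + 1) := by
    intro z hz
    obtain ⟨y, hy, rfl⟩ := mem_image.1 hz
    exact mem_coe.1 (hπ.mapsTo (mem_coe.2 (hY hy)))
  have h3 : (Y.image π).card = Y.card := by
    apply card_image_of_injOn
    exact hπ.injOn.mono (by exact_mod_cast hY)
  have h4 : Y.card ≤ (up n A ∪ Y).card := card_le_card subset_union_right
  by_cases hc : (lo (P m n (k + 1) \ (up n A ∪ Y))).card + (lo (Y.image π)).card < (P m n k).card
  · have h5 := hK _ hD0 _ hYi hc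
    omega
  · omega

/-- the neighbourhoods -/
noncomputable def nb (n k : ℕ) {m : ℕ} (π : (Fin m → ℕ) → (Fin m → ℕ)) :
    ({x // x ∈ P m n k} ⊕ {y // y ∈ P m n (k + 1)}) → Finset ((Fin m → ℕ) ⊕ (Fin m → ℕ)) :=
  fun i => match i with
  | Sum.inl x => (up n {x.1}).map Function.Embedding.inl
  | Sum.inr y => insert (Sum.inl y.1) ((lo {π y.1}).map Function.Embedding.inr)

theorem hall (hK : K m n k) (π : (Fin m → ℕ) → (Fin m → ℕ))
    (hπ : Set.BijOn π (P m n (k + 1) : Set (Fin m → ℕ)) (P m n (k + 1) : Set (Fin m → ℕ)))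
    (s : Finset ({x // x ∈ P m n k} ⊕ {y // y ∈ P m n (k + 1)})) :
    s.card ≤ (s.biUnion (nb n k π)).card := by
  classical
  set A : Finset (Fin m → ℕ) := s.toLeft.map (Function.Embedding.subtype _) with hAdef
  set Y : Finset (Fin m → ℕ) := s.toRight.map (Function.Embedding.subtype _) with hYdef
  have hA : A ⊆ P m n k := by
    intro x hx
    obtain ⟨z, _, rfl⟩ := mem_map.1 hx
    exact z.2
  have hY : Y ⊆ P m n (k + 1) := by
    intro x hx
    obtain ⟨z, _, rfl⟩ := mem_map.1 hx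
    exact z.2
  have hcard : s.card = A.card + Y.card := by
    rw [hAdef, hYdef, card_map, card_map, card_toLeft_add_card_toRight]
  have hsub : (up n A ∪ Y).disjSum (lo (Y.image π)) ⊆ s.biUnion (nb n k π) := by
    intro z hz
    rw [mem_biUnion]
    rcases z with z | z
    · rw [inl_mem_disjSum, mem_union] at hz
      rcases hz with hz | hz
      · obtain ⟨hm, x, hx, i, hi, rfl⟩ := mem_up.1 hz
        obtain ⟨w, hw, rfl⟩ := mem_map.1 hx
        refine ⟨Sum.inl w, mem_toLeft.1 hw, ?_⟩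
        simp only [nb]
        exact mem_map_of_mem _ (mem_up.2 ⟨hm, _, mem_singleton_self _, i, hi, rfl⟩)
      · obtain ⟨w, hw, rfl⟩ := mem_map.1 hz
        refine ⟨Sum.inr w, mem_toRight.1 hw, ?_⟩
        simp only [nb]
        exact mem_insert_self _ _
    · rw [inr_mem_disjSum] at hz
      obtain ⟨hm, i, hi⟩ := mem_lo.1 hz
      obtain ⟨y, hy, hyi⟩ := mem_image.1 hi
      obtain ⟨w, hw, rfl⟩ := mem_map.1 hy
      refine ⟨Sum.inr w, mem_toRight.1 hw, ?_⟩
      simp only [nb]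
      refine mem_insert_of_mem (mem_map_of_mem _ (mem_lo.2 ⟨hm, i, ?_⟩))
      rw [mem_singleton, ← hyi]
      rfl
  calc s.card = A.card + Y.card := hcard
    _ ≤ (up n A ∪ Y).card + (lo (Y.image π)).card := count hK π hπ hA hY
    _ = ((up n A ∪ Y).disjSum (lo (Y.image π))).card := (card_disjSum _ _).symm
    _ ≤ _ := card_le_card hsub

end GriggsAux

open GriggsAux in
theorem griggs (hK : K m n k) (π : (Fin m → ℕ) → (Fin m → ℕ))
    (hπ : Set.BijOn π (P m n (k + 1) : Set (Fin m → ℕ)) (P m n (k + 1) : Set (Fin m → ℕ))) :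
    ∃ f g : (Fin m → ℕ) → (Fin m → ℕ),
      (∀ x ∈ P m n k, f x ∈ P m n (k + 1) ∧ x ∈ lower (f x) ∧
        g x ∈ P m n (k + 1) ∧ x ∈ lower (g x)) ∧
      Set.InjOn f (P m n k : Set (Fin m → ℕ)) ∧ Set.InjOn g (P m n k : Set (Fin m → ℕ)) ∧
      π '' (f '' (P m n k : Set (Fin m → ℕ))) = g '' (P m n k : Set (Fin m → ℕ)) := by
  classical
  obtain ⟨F, hFi, hF⟩ := (Finset.all_card_le_biUnion_card_iff_exists_injective (nb n k π)).1
    (hall hK π hπ)
  have hf : ∀ x : Fin m → ℕ, x ∈ P m n k → ∃ y : Fin m → ℕ, y ∈ P m n (k + 1) ∧ x ∈ lower y ∧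
      ∀ hx : x ∈ P m n k, F (Sum.inl ⟨x, hx⟩) = Sum.inl y := by
    intro x hx
    have h := hF (Sum.inl ⟨x, hx⟩)
    simp only [nb] at h
    obtain ⟨y, hy, hyF⟩ := mem_map.1 h
    have hy' := up_subset (singleton_subset_iff.2 hx) hy
    obtain ⟨_, x', hx', i, _, rfl⟩ := mem_up.1 hy
    rw [mem_singleton] at hx'
    subst hx'
    exact ⟨_, hy', mem_lower.2 ⟨i, rfl⟩, fun _ => hyF.symm⟩
  choose! f hfB hfl hfF using hf
  have hfinj : Set.InjOn f (P m n k : Set (Fin m → ℕ)) := by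
    intro x hx x' hx' h
    have h1 := hfF x hx hx
    have h2 := hfF x' hx' hx'
    rw [h, ← h2] at h1
    have h3 := hFi h1
    simpa using h3
  have hs : ∀ x : Fin m → ℕ, x ∈ P m n k → ∃ x' : Fin m → ℕ, x' ∈ P m n k ∧
      x' ∈ lower (π (f x)) ∧ ∀ hy : f x ∈ P m n (k + 1), F (Sum.inr ⟨f x, hy⟩) = Sum.inr x' := by
    intro x hx
    have hy := hfB x hx
    have h := hF (Sum.inr ⟨f x, hy⟩)
    simp only [nb] at h
    rcases mem_insert.1 h with h | h
    · exfalso
      have h1 := hfF x hx hx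
      rw [← h] at h1
      have h3 := hFi h1
      simp at h3
    · obtain ⟨x', hx', hxF⟩ := mem_map.1 h
      have hπy : π (f x) ∈ P m n (k + 1) := mem_coe.1 (hπ.mapsTo (mem_coe.2 hy))
      have hx'' := lo_subset (singleton_subset_iff.2 hπy) hx'
      obtain ⟨_, i, hi⟩ := mem_lo.1 hx'
      rw [mem_singleton] at hi
      exact ⟨x', hx'', mem_lower.2 ⟨i, hi.symm⟩, fun _ => hxF.symm⟩
  choose! σ hσA hσl hσF using hs
  have hσinj : Set.InjOn σ (P m n k : Set (Fin m → ℕ)) := by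
    intro x hx x' hx' h
    have h1 := hσF x hx (hfB x hx)
    have h2 := hσF x' hx' (hfB x' hx')
    rw [h, ← h2] at h1
    have h3 := hFi h1
    have h4 : f x = f x' := by simpa using h3
    exact hfinj hx hx' h4
  have hσsurj : Set.SurjOn σ (P m n k : Set (Fin m → ℕ)) (P m n k : Set (Fin m → ℕ)) :=
    Finset.surjOn_of_injOn_of_card_le σ (fun x hx => hσA x hx) hσinj le_rfl
  have ht : ∀ x' : Fin m → ℕ, x' ∈ P m n k → ∃ x : Fin m → ℕ, x ∈ P m n k ∧ σ x = x' :=
    fun x' hx' => hσsurj hx'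
  choose! τ hτA hτσ using ht
  refine ⟨f, fun x => π (f (τ x)), ?_, hfinj, ?_, ?_⟩
  · intro x hx
    refine ⟨hfB x hx, hfl x hx, mem_coe.1 (hπ.mapsTo (mem_coe.2 (hfB _ (hτA x hx)))), ?_⟩
    have h := hσl (τ x) (hτA x hx)
    rwa [hτσ x hx] at h
  · intro x hx x' hx' h
    have h1 : f (τ x) = f (τ x') := hπ.injOn (mem_coe.2 (hfB _ (hτA x hx)))
      (mem_coe.2 (hfB _ (hτA x' hx'))) h
    have h2 : τ x = τ x' := hfinj (hτA x hx) (hτA x' hx') h1
    rw [← hτσ x hx, h2, hτσ x' hx']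
  · ext z
    constructor
    · rintro ⟨y, ⟨x, hx, rfl⟩, rfl⟩
      refine ⟨σ x, hσA x hx, ?_⟩
      have h : τ (σ x) = x := hσinj (hτA _ (hσA x hx)) hx (hτσ _ (hσA x hx))
      simp only [h]
    · rintro ⟨x, hx, rfl⟩
      exact ⟨f (τ x), ⟨τ x, hτA x hx, rfl⟩, rfl⟩

end Pool.Agent.Helper46.MR
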