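import Pool.Agent.Helper46.MR.Basic

set_option autoImplicit false

/-!
# MR-19 H2: the case `m = 2`

PROOF. `D ⊆ P 2 n t`, `1 ≤ t ≤ n`, corresponds to the set `I` of the values `i = y 0`,
`I ⊆ [0, t/2]`; `lo D` corresponds to `{i ∈ I : 2 i < t} ∪ {i - 1 : i ∈ I, 1 ≤ i}`. If `t` is odd
the first set is `I`. If `0 ∉ I` the second has `|I|` elements. If `t/2 ∉ I` the first is `I`. If
`t` is even, `0, t/2 ∈ I` and `I` is not `[0, t/2]`, then there is `i ∈ I`, `1 ≤ i`, `i - 1 ∉ I`,
so `|lo D| ≥ |I| - 1 + 1`. If `I = [0, t/2]` then `df D = 1 ≤ (2/t) (t/2 + 1)`.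
So `df D ≤ 0` or `df D = 1` and `|D| = t/2 + 1`.
-/

namespace Pool.Agent.Helper46.MR

open Finset Pool.Agent.Helper30.SC

namespace H2Aux

theorem mem_D {n t : ℕ} {D : Finset (Fin 2 → ℕ)} (hD : D ⊆ P 2 n t) {y : Fin 2 → ℕ}
    (hy : y ∈ D) : y 0 ≤ y 1 ∧ y 0 + y 1 = t := by
  have h := mem_P.1 (hD hy)
  refine ⟨h.1 (by decide), ?_⟩
  have h2 := h.2.2
  rw [Fin.sum_univ_two] at h2
  exact h2

theorem card_I {n t : ℕ} {D : Finset (Fin 2 → ℕ)} (hD : D ⊆ P 2 n t) :
    (D.image fun y => y 0).card = D.card := by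
  apply card_image_of_injOn
  intro y hy z hz h
  have h1 := (mem_D hD hy).2
  have h2 := (mem_D hD hz).2
  have h3 : y 0 = z 0 := h
  funext j
  fin_cases j
  · exact h3
  · show y 1 = z 1
    omega

theorem mono_two {x : Fin 2 → ℕ} (h : x 0 ≤ x 1) : Monotone x := by
  intro a b hab
  fin_cases a <;> fin_cases b
  · exact le_refl _
  · exact h
  · exact absurd hab (by decide)
  · exact le_refl _

theorem low1 {n t : ℕ} {D : Finset (Fin 2 → ℕ)} (hD : D ⊆ P 2 n t) {i : ℕ}
    (hi : i ∈ D.image fun y => y 0) (h2 : 2 * i < t) : i ∈ (lo D).image fun x => x 0 := by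
  obtain ⟨y, hy, rfl⟩ := mem_image.1 hi
  obtain ⟨h3, h4⟩ := mem_D hD hy
  have h2' : 2 * y 0 < t := h2
  refine mem_image.2 ⟨![y 0, y 1 - 1], mem_lo.2 ⟨mono_two ?_, 1, ?_⟩, rfl⟩
  · show y 0 ≤ y 1 - 1
    omega
  · have : (![y 0, y 1 - 1] + Pi.single 1 1 : Fin 2 → ℕ) = y := by
      funext j
      fin_cases j
      · simp
      · show (![y 0, y 1 - 1] 1 : ℕ) + (Pi.single 1 1 : Fin 2 → ℕ) 1 = y 1
        simp
        omega
    rw [this]
    exact hy

theorem low0 {n t : ℕ} {D : Finset (Fin 2 → ℕ)} (hD : D ⊆ P 2 n t) {i : ℕ}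
    (hi : i + 1 ∈ D.image fun y => y 0) : i ∈ (lo D).image fun x => x 0 := by
  obtain ⟨y, hy, h0⟩ := mem_image.1 hi
  obtain ⟨h3, h4⟩ := mem_D hD hy
  have h0' : y 0 = i + 1 := h0
  refine mem_image.2 ⟨![i, y 1], mem_lo.2 ⟨mono_two ?_, 0, ?_⟩, rfl⟩
  · show i ≤ y 1
    omega
  · have : (![i, y 1] + Pi.single 0 1 : Fin 2 → ℕ) = y := by
      funext j
      fin_cases j
      · show (![i, y 1] 0 : ℕ) + (Pi.single 0 1 : Fin 2 → ℕ) 0 = y 0
        simp
        omega
      · simp
    rw [this]
    exact hy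

end H2Aux

theorem h2 {n t : ℕ} (ht1 : 1 ≤ t) (ht : t ≤ n) {D : Finset (Fin 2 → ℕ)} (hD : D ⊆ P 2 n t) :
    df D ≤ 2 / t * D.card := by
  classical
  have htR : (0 : ℝ) < t := by exact_mod_cast ht1
  set I := D.image fun y => y 0 with hI
  set J := (lo D).image fun x => x 0 with hJ
  have hIc : I.card = D.card := H2Aux.card_I hD
  have hJc : J.card ≤ (lo D).card := card_image_le
  have hIle : ∀ i ∈ I, 2 * i ≤ t := by
    intro i hi
    obtain ⟨y, hy, rfl⟩ := mem_image.1 hi
    obtain ⟨h3, h4⟩ := H2Aux.mem_D hD hy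
    show 2 * y 0 ≤ t
    omega
  have hnn : (0 : ℝ) ≤ 2 / t * D.card := by positivity
  have hdone : D.card ≤ (lo D).card → df D ≤ 2 / t * D.card := by
    intro h
    have h' : (D.card : ℝ) ≤ (lo D).card := by exact_mod_cast h
    unfold df
    linarith
  by_cases hA : ∀ i ∈ I, 2 * i < t
  · apply hdone
    rw [← hIc]
    exact (card_le_card fun i hi => H2Aux.low1 hD hi (hA i hi)).trans hJc
  · push Not at hA
    obtain ⟨M, hM, hM2⟩ := hA
    have hMt : 2 * M = t := le_antisymm (hIle M hM) hM2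
    have herase : ∀ i ∈ I.erase M, i ∈ J := by
      intro i hi
      obtain ⟨h1, h2⟩ := mem_erase.1 hi
      refine H2Aux.low1 hD h2 ?_
      have := hIle i h2
      omega
    by_cases hB : ∃ i, i + 1 ∈ I ∧ i ∉ I
    · obtain ⟨i, hi1, hi2⟩ := hB
      apply hdone
      have hsub : insert i (I.erase M) ⊆ J := by
        intro j hj
        rcases mem_insert.1 hj with rfl | hj
        · exact H2Aux.low0 hD hi1
        · exact herase j hj
      have hc := card_le_card hsub
      have hni : i ∉ I.erase M := fun h => hi2 (mem_of_mem_erase h)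
      rw [card_insert_of_notMem hni, card_erase_of_mem hM] at hc
      have hpos : 0 < I.card := card_pos.2 ⟨M, hM⟩
      omega
    · push Not at hB
      have hdown : ∀ d, d ≤ M → M - d ∈ I := by
        intro d
        induction d with
        | zero => intro _; simpa using hM
        | succ d ih =>
          intro hd
          apply hB
          have : M - (d + 1) + 1 = M - d := by omega
          rw [this]
          exact ih (by omega)
      have hsub : range (M + 1) ⊆ I := by
        intro i hi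
        have hi' := mem_range.1 hi
        have := hdown (M - i) (by omega)
        rwa [show M - (M - i) = i by omega] at this
      have hc := card_le_card hsub
      rw [card_range] at hc
      have hc2 := card_le_card (show I.erase M ⊆ J from herase)
      rw [card_erase_of_mem hM] at hc2
      have h1 : D.card ≤ (lo D).card + 1 := by omega
      have h1' : (D.card : ℝ) ≤ (lo D).card + 1 := by exact_mod_cast h1
      have h2 : t ≤ 2 * D.card := by omega
      have h2' : (t : ℝ) ≤ 2 * D.card := by exact_mod_cast h2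
      have h3 : (1 : ℝ) ≤ 2 / t * D.card := by
        rw [div_mul_eq_mul_div, le_div_iff₀ htR]
        linarith
      unfold df
      linarith

end Pool.Agent.Helper46.MR
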