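import Pool.Agent.Helper46.MR.SSH
import Pool.Agent.Helper46.MR.Large

set_option autoImplicit false

/-!
# MR-23 HInd: the statement (H_m) for all `m ≥ 3`

PROOF. `hst_of_small`: if small sets of `L(m,n)` satisfy the bound of (H_m) then all sets do: for
`|D| > ε₁ n^(m-1)` use `large_lo` at `k = t - 1` (`(c/2) n ≤ k`, `k ≤ (m - 1/2) n`):
`df D ≤ sg m n t |D| + C n^(m-3) ≤ (sg m n t + δ/n)|D|` as soon as
`C n^(m-3) ≤ (δ/n) ε₁ n^(m-1)`. `hst3` from `ssh3`. `hst_succ`: from `ssh` and `sg_le_succ`,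
`sg_nonneg`: `max 0 (sg b n t + δ'/n) + δ'/n ≤ sg (b+1) n t + 2 δ'/n` for `2 t ≤ (b+1) n`,
`t ≤ b n`.
-/

namespace Pool.Agent.Helper46.MR

open Finset Pool.Agent.Helper30.SC

private theorem hst_of_small {m : ℕ} (hm : 3 ≤ m)
    (h : ∀ c δ : ℝ, 0 < c → 0 < δ → ∃ (ε₁ M : ℝ) (n₀ : ℕ), 0 < ε₁ ∧ 0 ≤ M ∧
      ∀ n t : ℕ, n₀ ≤ n → c * n ≤ t → 2 * t ≤ m * n → ∀ D ⊆ P m n t,
        (D.card : ℝ) ≤ ε₁ * (n : ℝ) ^ (m - 1) →
          df D ≤ (sg m n t + δ / n) * D.card + M / n) : Hst m := by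
  intro c δ hc hδ
  obtain ⟨ε₁, M, n₀, hε₁, hM, hsmall⟩ := h c δ hc hδ
  have hη : 0 < min (c / 2) (1 / 2 : ℝ) := lt_min (by linarith) (by norm_num)
  obtain ⟨C, n₁, hC, hlarge⟩ := large_lo hm (min (c / 2) (1 / 2)) hη
  refine ⟨M, n₀ + n₁ + ⌈2 / c⌉₊ + ⌈C / (δ * ε₁)⌉₊ + 1, hM, ?_⟩
  intro n t hn hct ht D hD
  have hn1 : (1 : ℝ) ≤ n := by
    have : 1 ≤ n := by omega
    exact_mod_cast this
  have hnpos : (0 : ℝ) < n := by linarith
  by_cases hcard : (D.card : ℝ) ≤ ε₁ * (n : ℝ) ^ (m - 1)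
  · exact hsmall n t (by omega) hct ht D hD hcard
  · rw [not_le] at hcard
    have h2c : 2 / c ≤ n := by
      refine le_trans (Nat.le_ceil _) ?_
      have : ⌈2 / c⌉₊ ≤ n := by omega
      exact_mod_cast this
    have hcn : 2 ≤ c * n := by
      rw [div_le_iff₀ hc] at h2c
      linarith
    have hCn : C ≤ δ * ε₁ * n := by
      have h1 : C / (δ * ε₁) ≤ n := by
        refine le_trans (Nat.le_ceil _) ?_
        have : ⌈C / (δ * ε₁)⌉₊ ≤ n := by omega
        exact_mod_cast this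
      rw [div_le_iff₀ (by positivity)] at h1
      linarith
    have ht2 : (2 : ℝ) ≤ t := by linarith
    have ht2' : 2 ≤ t := by exact_mod_cast ht2
    obtain ⟨k, rfl⟩ : ∃ k, t = k + 1 := ⟨t - 1, by omega⟩
    have hk1 : min (c / 2) (1 / 2 : ℝ) * n ≤ k := by
      have h1 : min (c / 2) (1 / 2 : ℝ) * n ≤ c / 2 * n :=
        mul_le_mul_of_nonneg_right (min_le_left _ _) hnpos.le
      push_cast at hct
      linarith
    have hk2 : (k : ℝ) ≤ (m - min (c / 2) (1 / 2 : ℝ)) * n := by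
      have h1 : min (c / 2) (1 / 2 : ℝ) * n ≤ 1 / 2 * n :=
        mul_le_mul_of_nonneg_right (min_le_right _ _) hnpos.le
      have h2 : (2 : ℝ) * (k + 1) ≤ m * n := by exact_mod_cast ht
      have h3 : (3 : ℝ) ≤ m := by exact_mod_cast hm
      have h4 : 3 * (n : ℝ) ≤ m * n := mul_le_mul_of_nonneg_right h3 hnpos.le
      rw [sub_mul]
      linarith
    have hL := hlarge n k (by omega) hk1 hk2 D hD
    have hp1 : (n : ℝ) ^ (m - 1) = n * (n * (n : ℝ) ^ (m - 3)) := by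
      have : m - 1 = (m - 3) + 1 + 1 := by omega
      rw [this, pow_succ, pow_succ]
      ring
    have hp : (0 : ℝ) < (n : ℝ) ^ (m - 3) := by positivity
    have hD1 : C * (n : ℝ) ^ (m - 3) ≤ δ / n * D.card := by
      calc C * (n : ℝ) ^ (m - 3) ≤ (δ * ε₁ * n) * (n : ℝ) ^ (m - 3) :=
            mul_le_mul_of_nonneg_right hCn hp.le
        _ = δ / n * (ε₁ * (n : ℝ) ^ (m - 1)) := by
            rw [hp1]
            field_simp
        _ ≤ δ / n * D.card := mul_le_mul_of_nonneg_left hcard.le (by positivity)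
    have hM' : 0 ≤ M / n := by positivity
    rw [add_mul]
    linarith

theorem hst3 : Hst 3 := by
  refine hst_of_small le_rfl fun c δ hc hδ => ?_
  obtain ⟨ε₁, M, n₀, h1, h2, h3⟩ := ssh3 c δ hc hδ
  exact ⟨ε₁, M, n₀, h1, h2, fun n t hn hct ht D hD hcard => h3 n t hn hct ht D hD hcard⟩

theorem hst_succ {b : ℕ} (hb : 3 ≤ b) (h : Hst b) : Hst (b + 1) := by
  refine hst_of_small (by omega) fun c δ hc hδ => ?_
  obtain ⟨ε₁, M, n₀, h1, h2, h3⟩ := ssh hb h c (δ / 2) hc (by linarith)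
  refine ⟨ε₁, M, n₀ + 1, h1, h2, fun n t hn hct ht D hD hcard => ?_⟩
  have hn1 : (1 : ℝ) ≤ n := by
    have : 1 ≤ n := by omega
    exact_mod_cast this
  have hnpos : (0 : ℝ) < n := by linarith
  have htpos : (0 : ℝ) < t := lt_of_lt_of_le (by positivity) hct
  have ht1 : 1 ≤ t := by exact_mod_cast htpos
  have htb : t ≤ b * n := by nlinarith
  have hs := h3 n t (by omega) hct ht D hD hcard
  have hle : sg b n t ≤ sg (b + 1) n t := sg_le_succ ht1 htb
  have hnn : 0 ≤ sg (b + 1) n t := sg_nonneg ht1 (by omega)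
  have hmax : max 0 (sg b n t + δ / 2 / n) + δ / 2 / n ≤ sg (b + 1) n t + δ / n := by
    have h4 : δ / 2 / n + δ / 2 / n = δ / n := by
      rw [← add_div]
      ring
    have h5 : 0 ≤ δ / 2 / n := by positivity
    have h6 : max 0 (sg b n t + δ / 2 / n) ≤ sg (b + 1) n t + δ / 2 / n :=
      max_le (by linarith) (by linarith)
    linarith
  refine hs.trans ?_
  have := mul_le_mul_of_nonneg_right hmax (Nat.cast_nonneg (α := ℝ) D.card)
  linarith

theorem hst {b : ℕ} (hb : 3 ≤ b) : Hst b := by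
  induction b, hb using Nat.le_induction with
  | base => exact hst3
  | succ b hb ih => exact hst_succ hb ih

end Pool.Agent.Helper46.MR
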