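import Pool.Agent.Helper46.MR.Step
import Pool.Agent.Helper46.MR.Cont
import Pool.Agent.Helper46.MR.Large

set_option autoImplicit false

/-!
# MR-24 LInd: the statement (L_m) for all `m ≥ 3`

`ssl`. PROOF. `step` for `m = b`. Given `c, C₁, δ`: `Lst b` with `c/2`, `C₁`, `δ/4`: `M, n₀`;
`contTop` with `C₁`, `δ/4`: `ε'` (also `ε' ≤ c/(4 (b+1))`). For `j < ε' n`, `t' = t - (b+1) j`:
`(2 + c/2)(n-j) ≤ t' ≤ b (n-j)`, so `Lst b` gives
`df ≤ (max (sg b (n-j) t') (-C₁/(n-j)) + (δ/4)/(n-j)) |.| + M/(n-j)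
≤ (max (sg b n t) (-C₁/n) + δ/n)|.| + 2 M/n`. `τ = max (sg b n t) (-C₁/n) + δ/n`,
`|τ| ≤ C₀/n` (`sg b n t ≤ 0 + C/n` by `sg_bound` or `sg ≤` its value in the bulk, `≥ -C₁/n`).

`lst3`. `t ≥ (2 + c) n`: small `D` (`≤ ε₁ n^2`): `stepTop` for `m = 2` (`2 n < t`):
`df D ≤ -(C₁/n)|D| + M'/n`. Large `D`: `|D| ≤ |P 3 n t| ≤ (3n - t + 1)^2` (`P_card_symm` or directly
`lev`), so `t ≤ (3 - η) n` with `η` depending on `ε₁`, and `large_lo` as in MR-23.
`lst_succ`. `t ≤ b n`: `ssl` and `sg_le_succ`; `t > b n`: `stepTop` for `m = b`; large `D`: as for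
`lst3` (`|P (b+1) n t| ≤ lev (b+1) n t ≤ ((b+1) n - t + 1)^b`, `lev_symm`).
-/

namespace Pool.Agent.Helper46.MR

open Finset Pool.Agent.Helper30.SC

/-- small sets of `L(b+1, n)` at the levels `(2+c) n ≤ t ≤ b n` -/
def SSL (b : ℕ) : Prop :=
  ∀ c C₁ δ : ℝ, 0 < c → 0 < C₁ → 0 < δ → ∃ (ε₁ M : ℝ) (n₀ : ℕ), 0 < ε₁ ∧ 0 ≤ M ∧
    ∀ n t : ℕ, n₀ ≤ n → (2 + c) * n ≤ t → t ≤ b * n → ∀ D ⊆ P (b + 1) n t,
      (D.card : ℝ) ≤ ε₁ * (n : ℝ) ^ b →
        df D ≤ (max (sg b n t) (-C₁ / n) + δ / n) * D.card + M / n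

namespace LIndAux

theorem lev_small {m : ℕ} (hm : 1 ≤ m) (n s : ℕ) : lev m n s ≤ (s + 1) ^ (m - 1) := by
  refine le_trans ?_ (lev_le hm s : lev m s s ≤ (s + 1) ^ (m - 1))
  rw [← card_Q, ← card_Q]
  refine card_le_card fun a ha => ?_
  obtain ⟨-, h2⟩ := mem_Q.1 ha
  refine mem_Q.2 ⟨fun i => ?_, h2⟩
  rw [← h2]
  exact Finset.single_le_sum (f := a) (fun _ _ => Nat.zero_le _) (mem_univ i)

theorem card_le_top {m n t : ℕ} (hm : 1 ≤ m) (ht : t ≤ m * n) {D : Finset (Fin m → ℕ)}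
    (hD : D ⊆ P m n t) : D.card ≤ (m * n - t + 1) ^ (m - 1) := by
  calc D.card ≤ (Q m n t).card := card_le_card (hD.trans P_subset_Q)
    _ = lev m n t := card_Q
    _ = lev m n (m * n - t) := (lev_symm ht).symm
    _ ≤ _ := lev_small hm _ _

/-- large sets at the levels `2 n ≤ t ≤ m n` -/
theorem large {m : ℕ} (hm : 3 ≤ m) (ε₁ δ : ℝ) (hε : 0 < ε₁) (hδ : 0 < δ) :
    ∃ n₀ : ℕ, ∀ n t : ℕ, n₀ ≤ n → 2 * n ≤ t → t ≤ m * n → ∀ D ⊆ P m n t,
      ε₁ * (n : ℝ) ^ (m - 1) < D.card → df D ≤ (sg m n t + δ / n) * D.card := by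
  obtain ⟨η, hη0, hη1, hη⟩ : ∃ η : ℝ, 0 < η ∧ 2 * η ≤ 1 ∧ 2 * η ≤ ε₁ := by
    refine ⟨min (1 / 2) (ε₁ / 2), lt_min (by norm_num) (by linarith), ?_, ?_⟩
    · have := min_le_left (1 / 2 : ℝ) (ε₁ / 2)
      linarith
    · have := min_le_right (1 / 2 : ℝ) (ε₁ / 2)
      linarith
  obtain ⟨C, n₁, hC, hL⟩ := large_lo hm η hη0
  obtain ⟨n₂, hn₂⟩ := exists_nat_gt (1 / η)
  obtain ⟨n₃, hn₃⟩ := exists_nat_gt (C / (δ * ε₁))
  refine ⟨max n₁ (max n₂ (max n₃ 1)), fun n t hn h2 h3 D hD hcard => ?_⟩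
  have hna : n₁ ≤ n := le_trans (le_max_left _ _) hn
  have hn' : max n₂ (max n₃ 1) ≤ n := le_trans (le_max_right _ _) hn
  have hnb : n₂ ≤ n := le_trans (le_max_left _ _) hn'
  have hn'' : max n₃ 1 ≤ n := le_trans (le_max_right _ _) hn'
  have hnc : n₃ ≤ n := le_trans (le_max_left _ _) hn''
  have hn1 : 1 ≤ n := le_trans (le_max_right _ _) hn''
  have hnR : (1 : ℝ) ≤ n := by exact_mod_cast hn1
  have hn0 : (0 : ℝ) < n := by linarith
  have hbR : (n₂ : ℝ) ≤ n := by exact_mod_cast hnb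
  have hcR : (n₃ : ℝ) ≤ n := by exact_mod_cast hnc
  have hηn : 1 ≤ η * n := by
    have h : 1 / η < n := lt_of_lt_of_le hn₂ hbR
    rw [div_lt_iff₀ hη0] at h
    linarith
  have hCn : C ≤ δ * ε₁ * n := by
    have h : C / (δ * ε₁) < n := lt_of_lt_of_le hn₃ hcR
    rw [div_lt_iff₀ (by positivity)] at h
    linarith
  have h3R : (t : ℝ) ≤ m * n := by exact_mod_cast h3
  have h2R : (2 : ℝ) * n ≤ t := by exact_mod_cast h2
  have ht : (t : ℝ) ≤ (m - η) * n := by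
    by_contra hcon
    push Not at hcon
    have h4 : ((m * n - t : ℕ) : ℝ) < η * n := by
      rw [Nat.cast_sub h3]
      push_cast
      linarith
    have h5 := card_le_top (by omega) h3 hD
    have h6 : (D.card : ℝ) ≤ (((m * n - t : ℕ) : ℝ) + 1) ^ (m - 1) := by exact_mod_cast h5
    have h7 : ((m * n - t : ℕ) : ℝ) + 1 ≤ 2 * η * n := by linarith
    have h8 : (D.card : ℝ) ≤ (2 * η * n) ^ (m - 1) :=
      h6.trans (pow_le_pow_left₀ (by positivity) h7 _)
    rw [mul_pow] at h8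
    have h9 : (2 * η) ^ (m - 1) ≤ ε₁ :=
      (pow_le_of_le_one (by positivity) hη1 (by omega)).trans hη
    have h10 := mul_le_mul_of_nonneg_right h9 (pow_nonneg hn0.le (m - 1))
    linarith
  obtain ⟨k, rfl⟩ : ∃ k, t = k + 1 := ⟨t - 1, by omega⟩
  push_cast at ht h2R
  have h5 := hL n k hna (by nlinarith) (by linarith) D hD
  have h6 : C * (n : ℝ) ^ (m - 3) ≤ δ / n * D.card := by
    have e : (n : ℝ) ^ (m - 1) = (n : ℝ) ^ (m - 3) * n * n := by
      rw [← pow_succ, ← pow_succ]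
      congr 1
      omega
    calc C * (n : ℝ) ^ (m - 3) ≤ (δ * ε₁ * n) * (n : ℝ) ^ (m - 3) :=
          mul_le_mul_of_nonneg_right hCn (by positivity)
      _ = δ / n * (ε₁ * (n : ℝ) ^ (m - 1)) := by
          rw [e]
          field_simp
      _ ≤ δ / n * D.card := mul_le_mul_of_nonneg_left hcard.le (by positivity)
  have h7 : (sg m n (k + 1) + δ / n) * (D.card : ℝ) =
      sg m n (k + 1) * D.card + δ / n * D.card := by ring
  rw [h7]
  linarith

theorem sg_up {b : ℕ} (hb : 3 ≤ b) : ∃ C : ℝ, 0 < C ∧ ∀ n t : ℕ, 1 ≤ n → 2 * n ≤ t →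
    t ≤ b * n → sg b n t ≤ C / n := by
  obtain ⟨C, hC, h⟩ := sg_bound (b := b) (by omega) 1 one_pos
  refine ⟨C, hC, fun n t hn h2 h3 => ?_⟩
  have hn0 : (1 : ℝ) ≤ n := by exact_mod_cast hn
  rcases le_or_gt (2 * t) (b * n) with h4 | h4
  · refine (le_abs_self _).trans (h n t hn ?_ ?_)
    · have : (2 : ℝ) * n ≤ t := by exact_mod_cast h2
      linarith
    · have h5 : (2 : ℝ) * t ≤ b * n := by exact_mod_cast h4
      have h6 : (3 : ℝ) ≤ b := by exact_mod_cast hb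
      nlinarith
  · have h5 : t = b * n - (b * n - t) := by omega
    have h6 : b * n - t + 1 ≤ b * n := by omega
    rw [h5, sg_refl h6]
    have h7 := qq_ge (b := b) (n := n) (u := b * n - t) (r := 0) (by omega) hn (by omega)
    rw [Nat.cast_zero, zero_mul, add_zero] at h7
    have h8 : 0 ≤ C / n := by positivity
    linarith

end LIndAux

theorem ssl {b : ℕ} (hb : 3 ≤ b) (hL : Lst b) : SSL b := by
  intro c C₁ δ hc hC₁ hδ
  obtain ⟨M, n₀, hM, hLb⟩ := hL (c / 2) C₁ (δ / 4) (by positivity) hC₁ (by positivity)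
  obtain ⟨ε₀, n₁, hε₀, hcont⟩ := contTop hb C₁ (δ / 4) hC₁ (by positivity)
  obtain ⟨C, hC, hsg⟩ := LIndAux.sg_up hb
  obtain ⟨ε', hε'0, hε'1, hε'2, hε'3⟩ : ∃ ε' : ℝ, 0 < ε' ∧ ε' ≤ ε₀ ∧
      ε' * (4 * (b + 1)) ≤ c ∧ 2 * ε' ≤ 1 := by
    refine ⟨min ε₀ (min (c / (4 * (b + 1))) (1 / 2)),
      lt_min hε₀ (lt_min (by positivity) (by norm_num)), min_le_left _ _, ?_, ?_⟩
    · have h := (min_le_right ε₀ (min (c / (4 * ((b : ℝ) + 1))) (1 / 2))).trans (min_le_left _ _)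
      rwa [le_div_iff₀ (by positivity)] at h
    · have h := (min_le_right ε₀ (min (c / (4 * ((b : ℝ) + 1))) (1 / 2))).trans (min_le_right _ _)
      linarith
  obtain ⟨ε₁, M', hε₁, hM', hstep⟩ := step (m := b) (by omega) (C + C₁ + δ) (2 * M) (δ / 4) ε'
    (by positivity) (by positivity) (by positivity) hε'0
  refine ⟨ε₁, M', max (2 * n₀) (max n₁ 1), hε₁, hM', fun n t hn h2 h3 D hD hcard => ?_⟩
  have hna : 2 * n₀ ≤ n := le_trans (le_max_left _ _) hn
  have hn' : max n₁ 1 ≤ n := le_trans (le_max_right _ _) hn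
  have hnb : n₁ ≤ n := le_trans (le_max_left _ _) hn'
  have hn1 : 1 ≤ n := le_trans (le_max_right _ _) hn'
  have hnR : (1 : ℝ) ≤ n := by exact_mod_cast hn1
  have hn0 : (0 : ℝ) < n := by linarith
  have hcn : 0 < c * n := by positivity
  have h2n : 2 * n ≤ t := by
    have : (2 : ℝ) * n ≤ t := by linarith
    exact_mod_cast this
  have hCn : 0 < C / n := by positivity
  have hC₁n : 0 < C₁ / n := by positivity
  have hδn : 0 < δ / n := by positivity
  have hμ1 : max (sg b n t) (-C₁ / n) ≤ C / n := by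
    refine max_le (hsg n t hn1 h2n h3) ?_
    rw [neg_div]
    linarith
  have hμ2 : -(C₁ / n) ≤ max (sg b n t) (-C₁ / n) := by
    rw [← neg_div]
    exact le_max_right _ _
  have key := hstep n t (max (sg b n t) (-C₁ / n) + 3 / 4 * (δ / n)) hn1 ?_ ?_ D hD hcard
  · refine key.trans (le_of_eq ?_)
    ring
  · have e : (C + C₁ + δ) / n = C / n + C₁ / n + δ / n := by ring
    rw [e, abs_le]
    constructor <;> linarith
  · intro j hj D' hD'
    have hj1 : (j : ℝ) ≤ ε₀ * n := hj.le.trans (mul_le_mul_of_nonneg_right hε'1 hn0.le)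
    have hj2 : (j : ℝ) * (4 * (b + 1)) ≤ c * n := by
      have h := mul_le_mul_of_nonneg_right hj.le (by positivity : (0 : ℝ) ≤ 4 * (b + 1))
      have h' := mul_le_mul_of_nonneg_right hε'2 hn0.le
      nlinarith
    have hj3 : (2 : ℝ) * j ≤ n := by
      have h' := mul_le_mul_of_nonneg_right hε'3 hn0.le
      linarith
    have hj4 : 2 * j ≤ n := by exact_mod_cast hj3
    have hjn : j ≤ n := by omega
    have hjt : (b + 1) * j ≤ t := by
      have : ((b : ℝ) + 1) * j ≤ t := by nlinarith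
      exact_mod_cast this
    have c1 : ((n - j : ℕ) : ℝ) = n - j := Nat.cast_sub hjn
    have c2 : ((t - (b + 1) * j : ℕ) : ℝ) = t - ((b : ℝ) + 1) * j := by
      rw [Nat.cast_sub hjt]
      push_cast
      ring
    have a1 : n₀ ≤ n - j := by omega
    have a2 : (2 + c / 2) * ((n - j : ℕ) : ℝ) ≤ ((t - (b + 1) * j : ℕ) : ℝ) := by
      rw [c1, c2]
      have : 0 ≤ (j : ℝ) := by positivity
      nlinarith [mul_nonneg hc.le this]
    have a3 : t - (b + 1) * j ≤ b * (n - j) := by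
      rw [Nat.mul_sub, add_mul, one_mul]
      omega
    have h1 := hLb (n - j) (t - (b + 1) * j) a1 a2 a3 D' hD'
    have h4 := hcont n j t hnb hj1 h2n h3
    have hnj : (0 : ℝ) < ((n - j : ℕ) : ℝ) := by
      rw [c1]
      linarith
    have h5 : 1 / ((n - j : ℕ) : ℝ) ≤ 2 * (1 / n) := by
      rw [mul_one_div, div_le_div_iff₀ hnj hn0, c1]
      linarith
    have h6 : δ / 4 / ((n - j : ℕ) : ℝ) ≤ 2 / 4 * (δ / n) := by
      have h := mul_le_mul_of_nonneg_left h5 (by positivity : 0 ≤ δ / 4)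
      calc δ / 4 / ((n - j : ℕ) : ℝ) = δ / 4 * (1 / ((n - j : ℕ) : ℝ)) := by ring
        _ ≤ δ / 4 * (2 * (1 / n)) := h
        _ = 2 / 4 * (δ / n) := by ring
    have h7 : M / ((n - j : ℕ) : ℝ) ≤ 2 * M / n := by
      have h := mul_le_mul_of_nonneg_left h5 hM
      calc M / ((n - j : ℕ) : ℝ) = M * (1 / ((n - j : ℕ) : ℝ)) := by ring
        _ ≤ M * (2 * (1 / n)) := h
        _ = 2 * M / n := by ring
    have h8 : max (sg b (n - j) (t - (b + 1) * j)) (-C₁ / ((n - j : ℕ) : ℝ)) +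
        δ / 4 / ((n - j : ℕ) : ℝ) ≤ max (sg b n t) (-C₁ / n) + 3 / 4 * (δ / n) := by
      have e : δ / 4 / n = 1 / 4 * (δ / n) := by ring
      rw [e] at h4
      linarith
    have h9 := mul_le_mul_of_nonneg_right h8 (Nat.cast_nonneg D'.card : (0 : ℝ) ≤ D'.card)
    linarith

theorem lst3 : Lst 3 := by
  intro c C₁ δ hc hC₁ hδ
  obtain ⟨ε₁, M', hε₁, hM', hst⟩ := stepTop (m := 2) le_rfl C₁ hC₁
  obtain ⟨n₀, hlg⟩ := LIndAux.large (m := 3) le_rfl ε₁ δ hε₁ hδ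
  refine ⟨M', max n₀ 1, hM', fun n t hn h2 h3 D hD => ?_⟩
  have hna : n₀ ≤ n := le_trans (le_max_left _ _) hn
  have hn1 : 1 ≤ n := le_trans (le_max_right _ _) hn
  have hnR : (1 : ℝ) ≤ n := by exact_mod_cast hn1
  have hn0 : (0 : ℝ) < n := by linarith
  have hcn : 0 < c * n := by positivity
  have h2n : 2 * n < t := by
    have : (2 : ℝ) * n < t := by linarith
    exact_mod_cast this
  have hδn : 0 < δ / n := by positivity
  have hM'n : 0 ≤ M' / n := by positivity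
  rcases le_or_gt (D.card : ℝ) (ε₁ * (n : ℝ) ^ 2) with h4 | h4
  · refine (hst n t hn1 h2n D hD h4).trans ?_
    have h5 : -(C₁ / n) ≤ max (sg 3 n t) (-C₁ / n) + δ / n := by
      have := le_max_right (sg 3 n t) (-C₁ / n)
      rw [neg_div] at this
      rw [neg_div]
      linarith
    have h6 := mul_le_mul_of_nonneg_right h5 (Nat.cast_nonneg D.card : (0 : ℝ) ≤ D.card)
    linarith
  · refine (hlg n t hna h2n.le h3 D hD h4).trans ?_
    have h5 : sg 3 n t + δ / n ≤ max (sg 3 n t) (-C₁ / n) + δ / n := by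
      have := le_max_left (sg 3 n t) (-C₁ / n)
      linarith
    have h6 := mul_le_mul_of_nonneg_right h5 (Nat.cast_nonneg D.card : (0 : ℝ) ≤ D.card)
    linarith

theorem lst_succ {b : ℕ} (hb : 3 ≤ b) (h : Lst b) : Lst (b + 1) := by
  intro c C₁ δ hc hC₁ hδ
  obtain ⟨ε₁, M', hε₁, hM', hst⟩ := stepTop (m := b) (by omega) C₁ hC₁
  obtain ⟨ε₂, M, n₁, hε₂, hM, hsl⟩ := ssl hb h c C₁ δ hc hC₁ hδ
  obtain ⟨n₀, hlg⟩ := LIndAux.large (m := b + 1) (by omega) (min ε₁ ε₂) δ (lt_min hε₁ hε₂) hδ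
  refine ⟨max M' M, max n₀ (max n₁ 1), le_max_of_le_left hM', fun n t hn h2 h3 D hD => ?_⟩
  have hna : n₀ ≤ n := le_trans (le_max_left _ _) hn
  have hn' : max n₁ 1 ≤ n := le_trans (le_max_right _ _) hn
  have hnb : n₁ ≤ n := le_trans (le_max_left _ _) hn'
  have hn1 : 1 ≤ n := le_trans (le_max_right _ _) hn'
  have hnR : (1 : ℝ) ≤ n := by exact_mod_cast hn1
  have hn0 : (0 : ℝ) < n := by linarith
  have hcn : 0 < c * n := by positivity
  have h2n : 2 * n < t := by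
    have : (2 : ℝ) * n < t := by linarith
    exact_mod_cast this
  have hδn : 0 < δ / n := by positivity
  have hMa : M' / n ≤ max M' M / n := div_le_div_of_nonneg_right (le_max_left _ _) hn0.le
  have hMb : M / n ≤ max M' M / n := div_le_div_of_nonneg_right (le_max_right _ _) hn0.le
  have hMc : 0 ≤ M' / n := by positivity
  rcases le_or_gt (D.card : ℝ) (min ε₁ ε₂ * (n : ℝ) ^ b) with h4 | h4
  · have hpn : 0 ≤ (n : ℝ) ^ b := by positivity
    have h4a : (D.card : ℝ) ≤ ε₁ * (n : ℝ) ^ b :=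
      h4.trans (mul_le_mul_of_nonneg_right (min_le_left _ _) hpn)
    have h4b : (D.card : ℝ) ≤ ε₂ * (n : ℝ) ^ b :=
      h4.trans (mul_le_mul_of_nonneg_right (min_le_right _ _) hpn)
    rcases le_or_gt t (b * n) with ht | ht
    · refine (hsl n t hnb h2 ht D hD h4b).trans ?_
      have h5 : max (sg b n t) (-C₁ / n) + δ / n ≤ max (sg (b + 1) n t) (-C₁ / n) + δ / n := by
        have := max_le_max_right (-C₁ / n) (sg_le_succ (b := b) (n := n) (by omega) ht)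
        linarith
      have h6 := mul_le_mul_of_nonneg_right h5 (Nat.cast_nonneg D.card : (0 : ℝ) ≤ D.card)
      linarith
    · refine (hst n t hn1 ht D hD h4a).trans ?_
      have h5 : -(C₁ / n) ≤ max (sg (b + 1) n t) (-C₁ / n) + δ / n := by
        have := le_max_right (sg (b + 1) n t) (-C₁ / n)
        rw [neg_div] at this
        rw [neg_div]
        linarith
      have h6 := mul_le_mul_of_nonneg_right h5 (Nat.cast_nonneg D.card : (0 : ℝ) ≤ D.card)
      linarith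
  · refine (hlg n t hna h2n.le h3 D hD h4).trans ?_
    have h5 : sg (b + 1) n t + δ / n ≤ max (sg (b + 1) n t) (-C₁ / n) + δ / n := by
      have := le_max_left (sg (b + 1) n t) (-C₁ / n)
      linarith
    have h6 := mul_le_mul_of_nonneg_right h5 (Nat.cast_nonneg D.card : (0 : ℝ) ≤ D.card)
    linarith

theorem lst {b : ℕ} (hb : 3 ≤ b) : Lst b := by
  induction b, hb using Nat.le_induction with
  | base => exact lst3
  | succ b hb ih => exact lst_succ hb ih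

end Pool.Agent.Helper46.MR
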