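import Pool.Agent.Helper46.MR.HInd
import Pool.Agent.Helper46.MR.LInd

set_option autoImplicit false

/-!
# MR-25 KOne: condition (K) when one of the sets is small

SETTING `m = b + 1 ≥ 4`, `N = (b+1) n`, `2 k + 2 ≤ N`, `n ≤ k + 1`. Always `|up n A| ≥ |A|` (`peck`).
Fix `ε' = 1/(16 (b+2))`, `δ = 1/(16 b)`, `C₁ = b + 1`.

PROOF. (0) If `2 (k+1) > b n + (b+2) ε' n`: `ss0` gives `df D ≤ 0` for `|D| ≤ ε₁ n^b`; done by `peck`.
So let `2 (k+1) ≤ b n + n/16`.
(1) `|A| ≤ ε₁ n^b` (and `|D| ≤ ε₀ n^b`, `ε₀ ≤ ε₁`). UPPER BOUND for `df D`: `SSH b`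
(`c = 1/2`, `t = k+1`): `df D ≤ λ |D| + M/n`, `λ = max 0 (sg b n (k+1) + δ/n) + δ/n ≤
max 0 (qq b n k - 1) + 2 δ/n` (`sg_le_qq`). LOWER BOUND for `|up n A| - |A|`:
`A' = A.image (cm n) ⊆ P (b+1) n t'`, `t' = N - k`, `|lo A'| = |up n A|` (MR-1), so
`|up n A| - |A| = - df A'`. If `n ≤ k` then `t' ≤ b n` and `t' ≥ (2 + 1/4) n`; `SSL b` (`c = 1/4`)
and `sg b n (b n - (k-n)) = 1 - qq b n (k-n)` (`sg_refl`) give
`|up n A| - |A| ≥ μ |A| - M/n` with `μ = min (qq b n (k-n) - 1) (C₁/n) - δ/n`. If `k = n - 1` then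
`t' = b n + 1` and `stepTop` gives it with `μ = C₁/n`.
GAP: `μ ≥ λ + (1/(2b))/n` for large `n`: `qq b n (k-n) - qq b n k ≥ 2/(b (n+1))` (`qq_gap`),
`qq b n (k-n) - 1 ≥ (n - n/8) · 2/(b n (n+1))` (`qq_ge` with `r ≈ n - n/8`:
`2 (k - n + r) + 1 ≤ b n`), `qq b n k ≤ qq b n (n-1) = 1 + (b-1)/n` (`qq_anti`, `qq_low`), so
`λ ≤ (b-1)/n + 2δ/n` and `C₁/n` is large enough.
`|A| ≥ |lo D| + 1`, `|lo D| = |D| - df D ≥ |D| (1 - (b+1)/n) - M/n`. Therefore
`(|up n A| - |A|) - df D ≥ μ |lo D| - λ |D| - 2 M/n ≥ ((1/(2b))/n) |D| - C/n^2 |D| - C'/n ≥ 0`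
if `|D| ≥ C''` and `n` is large. If `|D| < C''`: `df D ≤ (b+1) C''/n + M/n < 1`, so `df D ≤ 0`
(integer), done by `peck`.
(2) `|A| > ε₁ n^b`, `|D| ≤ ε₀ n^b`: `large_up` and `qq (b+1) n k - 1 ≥ c/n` (`qq_ge` for `b+1`:
`2 k + 2 ≤ b n + n/16`, so `r ≈ (n - n/16)/2 - 2`): `|up n A| - |A| ≥ (c/2) ε₁ n^(b-1)`; and
`df D ≤ ((b+1)/n) ε₀ n^b + M/n` is smaller if `ε₀` is small compared with `ε₁` and `n` is large.
-/

namespace Pool.Agent.Helper46.MR

open Finset Pool.Agent.Helper30.SC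

namespace KOneAux

/-- the rate of `df D` is at most `b / n` -/
theorem lam_le {b n k : ℕ} (hb : 3 ≤ b) (hn : 1 ≤ n) (hnk : n ≤ k + 1) (hk : k + 1 ≤ b * n) :
    max 0 (qq b n k - 1) + 2 * (1 / (16 * (b : ℝ)) / n) ≤ b / n := by
  have hbR : (3 : ℝ) ≤ b := by exact_mod_cast hb
  have hnR : (1 : ℝ) ≤ n := by exact_mod_cast hn
  have hn0 : (0 : ℝ) < n := by linarith
  have h1 : qq b n k ≤ 1 + ((b : ℝ) - 1) / n := by
    rw [← qq_low (b := b) (n := n) (by omega) hn]
    exact qq_anti (by omega) hn (by omega) hk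
  have h0 : (0 : ℝ) ≤ ((b : ℝ) - 1) / n := div_nonneg (by linarith) hn0.le
  have h2 : max 0 (qq b n k - 1) ≤ ((b : ℝ) - 1) / n := max_le h0 (by linarith)
  have h3 : 2 * (1 / (16 * (b : ℝ)) / n) ≤ 1 / n := by
    have h4 : 2 * (1 / (16 * (b : ℝ))) ≤ 1 := by
      rw [mul_one_div, div_le_one (by positivity)]
      linarith
    calc 2 * (1 / (16 * (b : ℝ)) / n) = (2 * (1 / (16 * (b : ℝ)))) / n := by ring
      _ ≤ 1 / n := div_le_div_of_nonneg_right h4 hn0.le
  calc max 0 (qq b n k - 1) + 2 * (1 / (16 * (b : ℝ)) / n) ≤ ((b : ℝ) - 1) / n + 1 / n := by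
        linarith
    _ = b / n := by ring

/-- the elementary estimate `2/(b (n+1)) ≥ (15/8)/(b n)` in the form used -/
theorem base {b n : ℕ} (hb : 3 ≤ b) (hn : 16 ≤ n) :
    1 / (2 * (b : ℝ)) / n + 3 * (1 / (16 * (b : ℝ)) / n) ≤
      (15 / 16 * (n : ℝ)) * (2 / (b * (n * (n + 1)))) := by
  have hbR : (3 : ℝ) ≤ b := by exact_mod_cast hb
  have hnR : (16 : ℝ) ≤ n := by exact_mod_cast hn
  have hb0 : (0 : ℝ) < b := by linarith
  have hn0 : (0 : ℝ) < n := by linarith
  have e1 : 1 / (2 * (b : ℝ)) / n + 3 * (1 / (16 * (b : ℝ)) / n) = 11 / (16 * b * n) := by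
    field_simp
    ring
  have e2 : (15 / 16 * (n : ℝ)) * (2 / (b * (n * (n + 1)))) = 30 / (16 * b * (n + 1)) := by
    field_simp
    ring
  rw [e1, e2, div_le_div_iff₀ (by positivity) (by positivity)]
  nlinarith [mul_pos hb0 hn0]

/-- the gap in the case `n ≤ k` -/
theorem gap {b n k : ℕ} (hb : 3 ≤ b) (hn : 16 ≤ n) (hnk : n ≤ k)
    (hk2 : 32 * (k + 1) ≤ 16 * (b * n) + n) :
    max 0 (qq b n k - 1) + 2 * (1 / (16 * (b : ℝ)) / n) + 1 / (2 * (b : ℝ)) / n ≤
      min (qq b n (k - n) - 1) (((b : ℝ) + 1) / n) - 1 / (16 * (b : ℝ)) / n := by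
  have hbR : (3 : ℝ) ≤ b := by exact_mod_cast hb
  have hnR : (16 : ℝ) ≤ n := by exact_mod_cast hn
  have hb0 : (0 : ℝ) < b := by linarith
  have hn0 : (0 : ℝ) < n := by linarith
  have hbn : 3 * n ≤ b * n := Nat.mul_le_mul_right n hb
  have hkb : k + 1 ≤ b * n := by omega
  have hbase := base hb hn
  have hpos : (0 : ℝ) ≤ 2 / (b * (n * (n + 1))) := by positivity
  -- the first case: `q_s - 1`
  have hr : (15 / 16 * (n : ℝ)) ≤ ((n - n / 16 : ℕ) : ℝ) := by
    have h1 : 15 * n ≤ 16 * (n - n / 16) := by omega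
    have h2 : (15 : ℝ) * n ≤ 16 * ((n - n / 16 : ℕ) : ℝ) := by exact_mod_cast h1
    linarith
  have hs1 : 1 + (15 / 16 * (n : ℝ)) * (2 / (b * (n * (n + 1)))) ≤ qq b n (k - n) := by
    have h1 := qq_ge (b := b) (n := n) (u := k - n) (r := n - n / 16) (by omega) (by omega)
      (by omega)
    have h2 := mul_le_mul_of_nonneg_right hr hpos
    linarith
  -- the second case: `q_s - q_k`
  have hs2 : qq b n k + (15 / 16 * (n : ℝ)) * (2 / (b * (n * (n + 1)))) ≤ qq b n (k - n) := by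
    have h1 := qq_gap (b := b) (n := n) (u := k - n) (r := n) (by omega) (by omega)
      (by omega)
    have e : k - n + n = k := by omega
    rw [e] at h1
    have h2 : (15 / 16 * (n : ℝ)) * (2 / (b * (n * (n + 1)))) ≤
        (n : ℝ) * (2 / (b * (n * (n + 1)))) :=
      mul_le_mul_of_nonneg_right (by linarith) hpos
    linarith
  have hsum : 1 / (2 * (b : ℝ)) / n + 3 * (1 / (16 * (b : ℝ)) / n) ≤ 1 / n := by
    have e1 : 1 / (2 * (b : ℝ)) / n + 3 * (1 / (16 * (b : ℝ)) / n) = 11 / (16 * b) / n := by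
      field_simp
      ring
    rw [e1]
    refine div_le_div_of_nonneg_right ?_ hn0.le
    rw [div_le_one (by positivity)]
    linarith
  have h3 : qq b n k ≤ 1 + ((b : ℝ) - 1) / n := by
    rw [← qq_low (b := b) (n := n) (by omega) (by omega)]
    exact qq_anti (by omega) (by omega) (by omega) hkb
  have e3 : ((b : ℝ) + 1) / n = ((b : ℝ) - 1) / n + 2 / n := by ring
  have e4 : (2 : ℝ) / n = 1 / n + 1 / n := by ring
  have h5 : (0 : ℝ) ≤ 1 / n := by positivity
  have h6 : (0 : ℝ) ≤ ((b : ℝ) - 1) / n := div_nonneg (by linarith) hn0.le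
  rcases le_total (qq b n k - 1) 0 with h | h
  · rw [max_eq_left h]
    have : 0 + 2 * (1 / (16 * (b : ℝ)) / n) + 1 / (2 * (b : ℝ)) / n + 1 / (16 * (b : ℝ)) / n ≤
        min (qq b n (k - n) - 1) (((b : ℝ) + 1) / n) := by
      refine le_min ?_ ?_
      · linarith
      · rw [e3, e4]
        linarith
    linarith
  · rw [max_eq_right h]
    have : (qq b n k - 1) + 2 * (1 / (16 * (b : ℝ)) / n) + 1 / (2 * (b : ℝ)) / n +
        1 / (16 * (b : ℝ)) / n ≤ min (qq b n (k - n) - 1) (((b : ℝ) + 1) / n) := by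
      refine le_min ?_ ?_
      · linarith
      · rw [e3, e4]
        linarith
    linarith

/-- the gap in the case `k = n - 1` -/
theorem gap_low {b n k : ℕ} (hb : 3 ≤ b) (hn : 1 ≤ n) (hnk : n ≤ k + 1) (hkb : k + 1 ≤ b * n) :
    max 0 (qq b n k - 1) + 2 * (1 / (16 * (b : ℝ)) / n) + 1 / (2 * (b : ℝ)) / n ≤
      ((b : ℝ) + 1) / n := by
  have hbR : (3 : ℝ) ≤ b := by exact_mod_cast hb
  have hnR : (1 : ℝ) ≤ n := by exact_mod_cast hn
  have hb0 : (0 : ℝ) < b := by linarith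
  have hn0 : (0 : ℝ) < n := by linarith
  have h1 := lam_le hb hn hnk hkb
  have h2 : 1 / (2 * (b : ℝ)) / n ≤ 1 / n := by
    refine div_le_div_of_nonneg_right ?_ hn0.le
    rw [div_le_one (by positivity)]
    linarith
  have e : ((b : ℝ) + 1) / n = b / n + 1 / n := by ring
  rw [e]
  linarith

/-- the final numerical step: a set `D` with at least `X₀` elements -/
theorem final_big {x y l u lam mu g b n M₂ M' : ℝ} (hn0 : 0 < n) (hx : 0 ≤ x)
    (hy : 0 ≤ y) (hly : l ≤ y) (hlam0 : 0 ≤ lam) (hg : 0 < g) (hb : 0 ≤ b) (hg1 : g ≤ 1)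
    (hlam : lam ≤ b / n) (hmu : lam + g / n ≤ mu) (hM₂ : 0 ≤ M₂) (_hM' : 0 ≤ M')
    (hdf : x - l ≤ lam * x + M₂ / n) (hup : mu * y - M' / n ≤ u - y)
    (hn1 : b + 1 ≤ n) (hn2 : 2 * (b * (b + 1)) ≤ g * n)
    (hX : 2 * (2 * M₂ + M') ≤ g * x) : x - l ≤ u - y := by
  have hgn : 0 < g / n := by positivity
  have hc : 0 ≤ lam + g / n := by linarith
  have hT : x - lam * x - M₂ / n ≤ y := by linarith
  have h1 : (lam + g / n) * (x - lam * x - M₂ / n) ≤ mu * y :=
    (mul_le_mul_of_nonneg_left hT hc).trans (mul_le_mul_of_nonneg_right hmu hy)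
  have hc1 : lam + g / n ≤ (b + 1) / n := by
    have : g / n ≤ 1 / n := div_le_div_of_nonneg_right hg1 hn0.le
    calc lam + g / n ≤ b / n + 1 / n := by linarith
      _ = (b + 1) / n := by ring
  have hc2 : lam + g / n ≤ 1 := hc1.trans ((div_le_one hn0).2 hn1)
  have hll : lam * (lam + g / n) ≤ g / 2 / n := by
    have h2 : lam * (lam + g / n) ≤ b / n * ((b + 1) / n) :=
      mul_le_mul hlam hc1 hc (div_nonneg hb hn0.le)
    have h3 : b / n * ((b + 1) / n) ≤ g / 2 / n := by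
      rw [div_mul_div_comm, div_le_div_iff₀ (by positivity) hn0]
      have h4 : b * (b + 1) * n ≤ g / 2 * n * n :=
        mul_le_mul_of_nonneg_right (by linarith) hn0.le
      linarith
    exact h2.trans h3
  have h5 : lam * (lam + g / n) * x ≤ g / 2 / n * x := mul_le_mul_of_nonneg_right hll hx
  have h6 : (lam + g / n) * (M₂ / n) ≤ M₂ / n := by
    have : 0 ≤ M₂ / n := by positivity
    calc (lam + g / n) * (M₂ / n) ≤ 1 * (M₂ / n) := mul_le_mul_of_nonneg_right hc2 this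
      _ = M₂ / n := one_mul _
  have h7 : (2 * M₂ + M') / n ≤ g / 2 / n * x := by
    have : (2 * M₂ + M') / n ≤ (g / 2 * x) / n := div_le_div_of_nonneg_right (by linarith) hn0.le
    calc (2 * M₂ + M') / n ≤ (g / 2 * x) / n := this
      _ = g / 2 / n * x := by ring
  have e1 : (lam + g / n) * (x - lam * x - M₂ / n) =
      lam * x + g / n * x - lam * (lam + g / n) * x - (lam + g / n) * (M₂ / n) := by ring
  have e2 : (2 * M₂ + M') / n = M₂ / n + M₂ / n + M' / n := by ring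
  have e3 : g / n * x = g / 2 / n * x + g / 2 / n * x := by ring
  rw [e1] at h1
  rw [e2] at h7
  linarith

end KOneAux

theorem kone {b : ℕ} (hb : 3 ≤ b) :
    ∃ (ε₀ : ℝ) (n₀ : ℕ), 0 < ε₀ ∧ ∀ n k : ℕ, n₀ ≤ n → n ≤ k + 1 → 2 * k + 2 ≤ (b + 1) * n →
      ∀ D ⊆ P (b + 1) n (k + 1), (D.card : ℝ) ≤ ε₀ * (n : ℝ) ^ b →
        ∀ A ⊆ P (b + 1) n k, (lo D).card < A.card →
          A.card + D.card ≤ (up n A).card + (lo D).card := by
  have hbR : (3 : ℝ) ≤ b := by exact_mod_cast hb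
  have hb0 : (0 : ℝ) < b := by linarith
  obtain ⟨ea, hea, hss0⟩ := ss0 (b := b) (by omega) (1 / (16 * ((b : ℝ) + 2))) (by positivity)
  obtain ⟨e2, M₂, n₂, he2, hM₂, hssh⟩ := ssh hb (hst hb) (1 / 2) (1 / (16 * (b : ℝ)))
    (by norm_num) (by positivity)
  obtain ⟨e3, M₃, n₃, he3, hM₃, hssl⟩ := ssl hb (lst hb) (1 / 4) ((b : ℝ) + 1)
    (1 / (16 * (b : ℝ))) (by norm_num) (by positivity) (by positivity)
  obtain ⟨e4, M₄, he4, hM₄, htop⟩ := stepTop (m := b) (by omega) ((b : ℝ) + 1) (by positivity)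
  obtain ⟨C, n₅, hC, hlu⟩ := large_up (m := b + 1) (by omega) (1 / 2) (by norm_num)
  have he1 : 0 < min e3 e4 := lt_min he3 he4
  obtain ⟨g, hg⟩ : ∃ g : ℝ, g = 1 / (2 * (b : ℝ)) := ⟨_, rfl⟩
  have hg0 : 0 < g := by rw [hg]; positivity
  have hg1 : g ≤ 1 := by
    rw [hg, div_le_one (by positivity)]
    linarith
  obtain ⟨X₀, hX₀⟩ : ∃ X₀ : ℝ, X₀ = 2 * (2 * M₂ + (M₃ + M₄)) / g := ⟨_, rfl⟩
  have hX₀0 : 0 ≤ X₀ := by rw [hX₀]; positivity
  refine ⟨min (min ea e2) (min e3 e4 / (16 * b * (b + 1))),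
    n₂ + n₃ + n₅ + 16 + b + ⌈2 * ((b : ℝ) * (b + 1)) / g⌉₊ + ⌈(b : ℝ) * X₀ + M₂⌉₊ +
      ⌈(C + M₂) * (16 * ((b : ℝ) + 1)) / min e3 e4⌉₊ + 1, ?_, ?_⟩
  · exact lt_min (lt_min hea he2) (by positivity)
  intro n k hn hnk hk D hD hDc A hA hlt
  have hn16 : 16 ≤ n := by omega
  have hnR : (16 : ℝ) ≤ n := by exact_mod_cast hn16
  have hn0 : (0 : ℝ) < n := by linarith
  have hnb : (b : ℝ) + 1 ≤ n := by
    have : b + 1 ≤ n := by omega
    exact_mod_cast this
  have hpn : (0 : ℝ) ≤ (n : ℝ) ^ b := by positivity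
  have hDa : (D.card : ℝ) ≤ ea * (n : ℝ) ^ b := hDc.trans
    (mul_le_mul_of_nonneg_right ((min_le_left _ _).trans (min_le_left _ _)) hpn)
  have hD2 : (D.card : ℝ) ≤ e2 * (n : ℝ) ^ b := hDc.trans
    (mul_le_mul_of_nonneg_right ((min_le_left _ _).trans (min_le_right _ _)) hpn)
  have hD1 : (D.card : ℝ) ≤ min e3 e4 / (16 * b * (b + 1)) * (n : ℝ) ^ b := hDc.trans
    (mul_le_mul_of_nonneg_right (min_le_right _ _) hpn)
  have hpk : A.card ≤ (up n A).card := peck (by omega) hA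
  -- a set `D` of nonpositive deficiency is harmless
  have hdone : df D ≤ 0 → A.card + D.card ≤ (up n A).card + (lo D).card := by
    intro h
    unfold df at h
    have : (D.card : ℝ) ≤ ((lo D).card : ℝ) := by linarith
    have : D.card ≤ (lo D).card := by exact_mod_cast this
    omega
  -- it is enough to have the real inequality
  have hreal : (D.card : ℝ) - ((lo D).card : ℝ) ≤ ((up n A).card : ℝ) - (A.card : ℝ) →
      A.card + D.card ≤ (up n A).card + (lo D).card := by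
    intro h
    have : ((A.card + D.card : ℕ) : ℝ) ≤ (((up n A).card + (lo D).card : ℕ) : ℝ) := by
      push_cast
      linarith
    exact_mod_cast this
  -- (0)
  by_cases h0 : (b : ℝ) * n + (b + 2) * (1 / (16 * ((b : ℝ) + 2))) * n < 2 * ((k + 1 : ℕ) : ℝ)
  · exact hdone (hss0 n (k + 1) (by omega) h0 D hD hDa)
  have hk2 : 32 * (k + 1) ≤ 16 * (b * n) + n := by
    rw [not_lt] at h0
    have e : ((b : ℝ) + 2) * (1 / (16 * ((b : ℝ) + 2))) * n = n / 16 := by
      field_simp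
    rw [e] at h0
    have : (32 : ℝ) * ((k + 1 : ℕ) : ℝ) ≤ 16 * (b * n) + n := by linarith
    exact_mod_cast this
  have hbn : 3 * n ≤ b * n := Nat.mul_le_mul_right n hb
  have hkb : k + 1 ≤ b * n := by omega
  -- upper bound for `df D`
  obtain ⟨lam, hlam⟩ : ∃ lam : ℝ, lam = max 0 (qq b n k - 1) + 2 * (1 / (16 * (b : ℝ)) / n) :=
    ⟨_, rfl⟩
  have hδn : (0 : ℝ) ≤ 1 / (16 * (b : ℝ)) / n := by positivity
  have hlam0 : 0 ≤ lam := by
    rw [hlam]
    have := le_max_left 0 (qq b n k - 1)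
    linarith
  have hlamb : lam ≤ b / n := by
    rw [hlam]
    exact KOneAux.lam_le hb (by omega) hnk hkb
  have hdf : (D.card : ℝ) - ((lo D).card : ℝ) ≤ lam * D.card + M₂ / n := by
    have h1 := hssh n (k + 1) (by omega)
      (by
        have : (n : ℝ) ≤ ((k + 1 : ℕ) : ℝ) := by exact_mod_cast hnk
        linarith) (by omega) D hD hD2
    have h2 := sg_le_qq (b := b) (n := n) (k := k) hkb
    have h3 : max 0 (sg b n (k + 1) + 1 / (16 * (b : ℝ)) / n) ≤
        max 0 (qq b n k - 1) + 1 / (16 * (b : ℝ)) / n := by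
      refine max_le ?_ ?_
      · have := le_max_left 0 (qq b n k - 1)
        linarith
      · have := le_max_right 0 (qq b n k - 1)
        linarith
    have h4 : max 0 (sg b n (k + 1) + 1 / (16 * (b : ℝ)) / n) + 1 / (16 * (b : ℝ)) / n ≤ lam := by
      rw [hlam]
      linarith
    have h5 := mul_le_mul_of_nonneg_right h4 (Nat.cast_nonneg D.card : (0 : ℝ) ≤ D.card)
    unfold df at h1
    linarith
  by_cases hAc : (A.card : ℝ) ≤ min e3 e4 * (n : ℝ) ^ b
  · -- (1)
    have hA3 : (A.card : ℝ) ≤ e3 * (n : ℝ) ^ b := hAc.trans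
      (mul_le_mul_of_nonneg_right (min_le_left _ _) hpn)
    have hA4 : (A.card : ℝ) ≤ e4 * (n : ℝ) ^ b := hAc.trans
      (mul_le_mul_of_nonneg_right (min_le_right _ _) hpn)
    have hkN : k ≤ (b + 1) * n := by omega
    have hA' := cm_image_subset hkN hA
    have hA'c := cm_image_card hA
    have hA'l := lo_cm_card hA
    have hbn1 : (b + 1) * n = b * n + n := by ring
    -- a lower bound for the growth of `A`
    obtain ⟨mu, hmu, hup⟩ : ∃ mu : ℝ, lam + g / n ≤ mu ∧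
        mu * A.card - (M₃ + M₄) / n ≤ ((up n A).card : ℝ) - (A.card : ℝ) := by
      have hM3n : 0 ≤ M₃ / n := by positivity
      have hM4n : 0 ≤ M₄ / n := by positivity
      have eM : (M₃ + M₄) / n = M₃ / n + M₄ / n := by ring
      rcases Nat.lt_or_ge k n with hkn | hkn
      · refine ⟨((b : ℝ) + 1) / n, ?_, ?_⟩
        · rw [hlam, hg]
          exact KOneAux.gap_low hb (by omega) hnk hkb
        · have h1 := htop n ((b + 1) * n - k) (by omega) (by omega) _ hA'
            (by rw [hA'c]; exact hA4)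
          unfold df at h1
          rw [hA'c, hA'l] at h1
          rw [eM]
          linarith
      · refine ⟨min (qq b n (k - n) - 1) (((b : ℝ) + 1) / n) - 1 / (16 * (b : ℝ)) / n, ?_, ?_⟩
        · rw [hlam, hg]
          exact KOneAux.gap hb hn16 hkn hk2
        · have et : (b + 1) * n - k = b * n - (k - n) := by omega
          have h1 := hssl n ((b + 1) * n - k) (by omega)
            (by
              have h2 : 9 * n ≤ 4 * ((b + 1) * n - k) := by omega
              have h3 : (9 : ℝ) * n ≤ 4 * (((b + 1) * n - k : ℕ) : ℝ) := by exact_mod_cast h2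
              linarith) (by omega) _ hA' (by rw [hA'c]; exact hA3)
          unfold df at h1
          rw [hA'c, hA'l, et, sg_refl (b := b) (n := n) (s := k - n) (by omega)] at h1
          have h4 : max (1 - qq b n (k - n)) (-((b : ℝ) + 1) / n) =
              -min (qq b n (k - n) - 1) (((b : ℝ) + 1) / n) := by
            rw [← max_neg_neg, neg_sub, neg_div]
          rw [h4] at h1
          rw [eM]
          linarith
    by_cases hx : X₀ ≤ (D.card : ℝ)
    · refine hreal (KOneAux.final_big hn0 (Nat.cast_nonneg _) (Nat.cast_nonneg _)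
        (by exact_mod_cast hlt.le) hlam0 hg0 hb0.le hg1 hlamb hmu hM₂ (by positivity) hdf hup
        hnb ?_ ?_)
      · have h1 : 2 * ((b : ℝ) * (b + 1)) / g ≤ n := by
          refine (Nat.le_ceil _).trans ?_
          have : ⌈2 * ((b : ℝ) * (b + 1)) / g⌉₊ ≤ n := by omega
          exact_mod_cast this
        rw [div_le_iff₀ hg0] at h1
        linarith
      · rw [hX₀, div_le_iff₀ hg0] at hx
        linarith
    · rw [not_le] at hx
      refine hdone ?_
      have h1 : (b : ℝ) * X₀ + M₂ < n := by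
        refine (Nat.le_ceil _).trans_lt ?_
        have : ⌈(b : ℝ) * X₀ + M₂⌉₊ < n := by omega
        exact_mod_cast this
      have h2 : lam * (D.card : ℝ) ≤ b / n * X₀ :=
        mul_le_mul hlamb hx.le (Nat.cast_nonneg _) (by positivity)
      have h3 : b / n * X₀ + M₂ / n < 1 := by
        have : b / n * X₀ + M₂ / n = (b * X₀ + M₂) / n := by ring
        rw [this, div_lt_one hn0]
        exact h1
      have h4 : (D.card : ℝ) - ((lo D).card : ℝ) < 1 := by linarith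
      have h5 : (D.card : ℝ) < ((lo D).card : ℝ) + 1 := by linarith
      have h6 : D.card < (lo D).card + 1 := by exact_mod_cast h5
      have h7 : (D.card : ℝ) ≤ ((lo D).card : ℝ) := by
        have : D.card ≤ (lo D).card := by omega
        exact_mod_cast this
      unfold df
      linarith
  · -- (2)
    rw [not_le] at hAc
    refine hreal ?_
    have h1 := hlu n k (by omega)
      (by
        have h2 : n ≤ 2 * k := by omega
        have h3 : (n : ℝ) ≤ 2 * k := by exact_mod_cast h2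
        linarith) hk A hA
    have hq := qq_ge (b := b + 1) (n := n) (u := k) (r := n / 4) (by omega) (by omega)
      (by
        have : (b + 1) * n = b * n + n := by ring
        omega)
    have hr : (n : ℝ) / 8 ≤ ((n / 4 : ℕ) : ℝ) := by
      have h2 : n ≤ 8 * (n / 4) := by omega
      have h3 : (n : ℝ) ≤ 8 * ((n / 4 : ℕ) : ℝ) := by exact_mod_cast h2
      linarith
    have hq2 : 1 / (8 * ((b : ℝ) + 1) * n) ≤ qq (b + 1) n k - 1 := by
      push_cast at hq
      have h2 : (n : ℝ) / 8 * (2 / (((b : ℝ) + 1) * (n * (n + 1)))) ≤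
          ((n / 4 : ℕ) : ℝ) * (2 / (((b : ℝ) + 1) * (n * (n + 1)))) :=
        mul_le_mul_of_nonneg_right hr (by positivity)
      have h3 : 1 / (8 * ((b : ℝ) + 1) * n) ≤
          (n : ℝ) / 8 * (2 / (((b : ℝ) + 1) * (n * (n + 1)))) := by
        have e : (n : ℝ) / 8 * (2 / (((b : ℝ) + 1) * (n * (n + 1)))) =
            1 / (4 * ((b : ℝ) + 1) * (n + 1)) := by
          field_simp
          ring
        rw [e]
        refine one_div_le_one_div_of_le (by positivity) ?_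
        nlinarith
      linarith
    have hp : (n : ℝ) ^ b = n * (n : ℝ) ^ (b - 1) := by
      have e : b = b - 1 + 1 := by omega
      conv_lhs => rw [e]
      rw [pow_succ]
      ring
    have hp2 : (n : ℝ) ^ (b - 1) = n * (n : ℝ) ^ (b + 1 - 3) := by
      have e : b - 1 = b + 1 - 3 + 1 := by omega
      conv_lhs => rw [e]
      rw [pow_succ]
      ring
    have hpp : (1 : ℝ) ≤ (n : ℝ) ^ (b + 1 - 3) := one_le_pow₀ (by linarith)
    have h4 : min e3 e4 / (8 * (b + 1)) * (n : ℝ) ^ (b - 1) ≤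
        (qq (b + 1) n k - 1) * A.card := by
      calc min e3 e4 / (8 * (b + 1)) * (n : ℝ) ^ (b - 1)
          = 1 / (8 * ((b : ℝ) + 1) * n) * (min e3 e4 * (n : ℝ) ^ b) := by
            rw [hp]
            field_simp
        _ ≤ (qq (b + 1) n k - 1) * A.card :=
            mul_le_mul hq2 hAc.le (by positivity) (le_trans (by positivity) hq2)
    have h5 : lam * (D.card : ℝ) ≤ min e3 e4 / (16 * (b + 1)) * (n : ℝ) ^ (b - 1) := by
      calc lam * (D.card : ℝ) ≤ b / n * (min e3 e4 / (16 * b * (b + 1)) * (n : ℝ) ^ b) :=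
            mul_le_mul hlamb hD1 (Nat.cast_nonneg _) (by positivity)
        _ = min e3 e4 / (16 * (b + 1)) * (n : ℝ) ^ (b - 1) := by
            rw [hp]
            field_simp
    have h6 : C * (n : ℝ) ^ (b + 1 - 3) + M₂ / n ≤
        min e3 e4 / (16 * (b + 1)) * (n : ℝ) ^ (b - 1) := by
      have h7 : (C + M₂) * (16 * ((b : ℝ) + 1)) / min e3 e4 ≤ n := by
        refine (Nat.le_ceil _).trans ?_
        have : ⌈(C + M₂) * (16 * ((b : ℝ) + 1)) / min e3 e4⌉₊ ≤ n := by omega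
        exact_mod_cast this
      rw [div_le_iff₀ he1] at h7
      have h8 : C + M₂ ≤ min e3 e4 / (16 * (b + 1)) * n := by
        rw [div_mul_eq_mul_div, le_div_iff₀ (by positivity)]
        linarith
      have h9 : M₂ / n ≤ M₂ * (n : ℝ) ^ (b + 1 - 3) := by
        have h10 : M₂ / n ≤ M₂ := div_le_self hM₂ (by linarith)
        have h11 : M₂ * 1 ≤ M₂ * (n : ℝ) ^ (b + 1 - 3) := mul_le_mul_of_nonneg_left hpp hM₂
        linarith
      have h12 := mul_le_mul_of_nonneg_right h8 (by positivity : (0 : ℝ) ≤ (n : ℝ) ^ (b + 1 - 3))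
      rw [hp2]
      calc C * (n : ℝ) ^ (b + 1 - 3) + M₂ / n ≤ (C + M₂) * (n : ℝ) ^ (b + 1 - 3) := by
            rw [add_mul]
            linarith
        _ ≤ min e3 e4 / (16 * (b + 1)) * n * (n : ℝ) ^ (b + 1 - 3) := h12
        _ = _ := by ring
    have e8 : min e3 e4 / (8 * ((b : ℝ) + 1)) * (n : ℝ) ^ (b - 1) =
        min e3 e4 / (16 * (b + 1)) * (n : ℝ) ^ (b - 1) +
          min e3 e4 / (16 * (b + 1)) * (n : ℝ) ^ (b - 1) := by
      field_simp
      ring
    rw [e8] at h4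
    linarith

end Pool.Agent.Helper46.MR
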