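import Pool.Agent.Helper46.MR.Step
import Pool.Agent.Helper46.MR.Cont
import Pool.Agent.Helper46.MR.Peck
import Pool.Agent.Helper46.MR.H2

set_option autoImplicit false

/-!
# MR-22 SSH: small sets below the middle

`ssh`. PROOF. `step` for `m = b`. Given `c, δ` take `Hst b` with `c/2`, `δ/4`: constants `M, n₀`;
`cont` (`hb`) with `c' = min(c/2, ...)`, `δ/4`: `ε'`. For `j < ε' n` and `t - (b+1) j =: t'`:
if `2 t' > b (n-j)` then `df ≤ 0` (`peck_df`); else `Hst b` gives
`df ≤ (sg b (n-j) t' + (δ/4)/(n-j)) |.| + M/(n-j) ≤ (sg b n t + δ/n) |.| + 2 M/n` by `cont`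
(`t ≤ (b+1) n/2 ≤ (b - c') n`). So the hypothesis of `step` holds with
`τ = max 0 (sg b n t + δ/n)` and `2 M`; `|τ| ≤ C₀/n` by `sg_bound`.

`ssh3`. PROOF. `step` for `m = 2`. Fibres `P 2 (n-j) (t-3j)`: if `t - 3 j ≤ n - j` then `h2`:
`df ≤ 2/(t-3j) |.|`, else `peck_df`. Let `ε'` be small. If `t > (1 + 2 ε') n` the second case
always holds: `τ = 0 ≤ sg 3 n t` (`sg_nonneg`). If `t ≤ (1 + 2 ε') n`: `τ = 2/(t - 3 ε' n)`, and
`sg 3 n t ≥ 2/t - (δ/2)/n`: for `t ≤ n` it is `2/(t+2)` (`sg_low`), for `n < t ≤ (1+2ε') n` use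
`cont` (`b = 3`) to compare with `sg 3 n n`.

`ss0`. PROOF. `step0` for `m = b` with `min ε' (1/2)`, and `peck_df` for the fibres:
`2 (t - (b+1) j) > b (n - j)` for `j < ε' n`, `j ≤ n`.
-/

namespace Pool.Agent.Helper46.MR

open Finset Pool.Agent.Helper30.SC

/-- small sets of `L(b+1, n)` at the levels `c n ≤ t ≤ (b+1) n / 2` -/
def SSH (b : ℕ) : Prop :=
  ∀ c δ : ℝ, 0 < c → 0 < δ → ∃ (ε₁ M : ℝ) (n₀ : ℕ), 0 < ε₁ ∧ 0 ≤ M ∧
    ∀ n t : ℕ, n₀ ≤ n → c * n ≤ t → 2 * t ≤ (b + 1) * n → ∀ D ⊆ P (b + 1) n t,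
      (D.card : ℝ) ≤ ε₁ * (n : ℝ) ^ b →
        df D ≤ (max 0 (sg b n t + δ / n) + δ / n) * D.card + M / n

theorem ss0 {b : ℕ} (hb : 2 ≤ b) (ε' : ℝ) (hε' : 0 < ε') :
    ∃ ε₁ : ℝ, 0 < ε₁ ∧ ∀ n t : ℕ, 1 ≤ n → (b : ℝ) * n + (b + 2) * ε' * n < 2 * t →
      ∀ D ⊆ P (b + 1) n t, (D.card : ℝ) ≤ ε₁ * (n : ℝ) ^ b → df D ≤ 0 := by
  obtain ⟨ε₁, h₁, h⟩ := step0 hb (min ε' (1 / 2)) (lt_min hε' (by norm_num))
  refine ⟨ε₁, h₁, fun n t hn ht D hD hc => h n t hn ?_ D hD hc⟩
  intro j hj D' hD'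
  have hn' : (1 : ℝ) ≤ n := by exact_mod_cast hn
  have h1 : (j : ℝ) < ε' * n :=
    lt_of_lt_of_le hj (mul_le_mul_of_nonneg_right (min_le_left _ _) (by linarith))
  have h2 : (j : ℝ) < 1 / 2 * n :=
    lt_of_lt_of_le hj (mul_le_mul_of_nonneg_right (min_le_right _ _) (by linarith))
  have h3 : j ≤ n := by
    have : (j : ℝ) ≤ n := by linarith
    exact_mod_cast this
  have h4 : b * n + (b + 2) * j < 2 * t := by
    have hb0 : (0 : ℝ) ≤ (b : ℝ) + 2 := by positivity
    have : (b : ℝ) * n + (b + 2) * j < 2 * t := by nlinarith [mul_le_mul_of_nonneg_left h1.le hb0]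
    exact_mod_cast this
  refine peck_df (m := b) (n := n - j) (t := t - (b + 1) * j) ?_ hD'
  obtain ⟨r, rfl⟩ : ∃ r, n = j + r := ⟨n - j, by omega⟩
  have h5 : (b + 1) * j ≤ t := by nlinarith
  obtain ⟨s, rfl⟩ : ∃ s, t = (b + 1) * j + s := ⟨t - (b + 1) * j, by omega⟩
  rw [Nat.add_sub_cancel_left, Nat.add_sub_cancel_left]
  nlinarith

theorem ssh {b : ℕ} (hb : 3 ≤ b) (hH : Hst b) : SSH b := by
  intro c δ hc hδ
  obtain ⟨M, n₀, hM, hH⟩ := hH (c / 2) (δ / 4) (by positivity) (by positivity)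
  obtain ⟨e, n₁, he, hcont⟩ := cont hb (min c 1) (δ / 4) (lt_min hc one_pos) (by positivity)
  obtain ⟨C, hC, hsg⟩ := sg_bound (b := b) (by omega) (min c 1) (lt_min hc one_pos)
  have hb1 : (0 : ℝ) < (b : ℝ) + 1 := by positivity
  have he2 : 0 < min (min e (c / 2)) (1 / 2) / ((b : ℝ) + 1) := by
    refine div_pos (lt_min (lt_min he (by positivity)) (by norm_num)) hb1
  obtain ⟨ε₁, M', hε₁, hM', hstep⟩ := step (m := b) (by omega) (C + δ) (2 * M) δ
    (min (min e (c / 2)) (1 / 2) / ((b : ℝ) + 1)) (by positivity) (by positivity) hδ he2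
  refine ⟨ε₁, M', 2 * n₀ + n₁ + 1, hε₁, hM', ?_⟩
  intro n t hn hct ht D hD hDc
  have hn1 : 1 ≤ n := by omega
  have hn1' : (1 : ℝ) ≤ n := by exact_mod_cast hn1
  have hnp : (0 : ℝ) < n := by linarith
  have hb3 : (3 : ℝ) ≤ b := by exact_mod_cast hb
  have ht' : (2 : ℝ) * t ≤ (b + 1) * n := by exact_mod_cast ht
  have hlow : min c 1 * n ≤ (t : ℝ) :=
    le_trans (mul_le_mul_of_nonneg_right (min_le_left _ _) hnp.le) hct
  have hup : (t : ℝ) ≤ (b - min c 1) * n := by
    have h1 : min c 1 * (n : ℝ) ≤ 1 * n := mul_le_mul_of_nonneg_right (min_le_right _ _) hnp.le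
    have h2 : (3 : ℝ) * n ≤ b * n := mul_le_mul_of_nonneg_right hb3 hnp.le
    rw [sub_mul]
    linarith
  have hsgb : |sg b n t| ≤ C / n := hsg n t hn1 hlow hup
  have hτ0 : 0 ≤ max 0 (sg b n t + δ / n) := le_max_left _ _
  refine hstep n t (max 0 (sg b n t + δ / n)) hn1 ?_ ?_ D hD hDc
  · rw [abs_of_nonneg hτ0]
    refine max_le (by positivity) ?_
    have := (abs_le.1 hsgb).2
    rw [add_div]
    linarith
  · intro j hj D' hD'
    have hj0 : ((b : ℝ) + 1) * j < min (min e (c / 2)) (1 / 2) * n := by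
      have := mul_lt_mul_of_pos_left hj hb1
      have h2 : ((b : ℝ) + 1) * (min (min e (c / 2)) (1 / 2) / ((b : ℝ) + 1) * n) =
          min (min e (c / 2)) (1 / 2) * n := by field_simp
      linarith
    have hje : ((b : ℝ) + 1) * j < e * n := lt_of_lt_of_le hj0
      (mul_le_mul_of_nonneg_right ((min_le_left _ _).trans (min_le_left _ _)) hnp.le)
    have hjc : ((b : ℝ) + 1) * j < c / 2 * n := lt_of_lt_of_le hj0
      (mul_le_mul_of_nonneg_right ((min_le_left _ _).trans (min_le_right _ _)) hnp.le)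
    have hjh : ((b : ℝ) + 1) * j < 1 / 2 * n := lt_of_lt_of_le hj0
      (mul_le_mul_of_nonneg_right (min_le_right _ _) hnp.le)
    have hj1 : (j : ℝ) ≤ ((b : ℝ) + 1) * j := by
      have : (0 : ℝ) ≤ b * j := by positivity
      linarith
    have hjn : 2 * j ≤ n := by
      have : (2 : ℝ) * j ≤ n := by linarith
      exact_mod_cast this
    have hjt : (b + 1) * j ≤ t := by
      have : ((b : ℝ) + 1) * j ≤ t := by nlinarith
      exact_mod_cast this
    have hDn : (0 : ℝ) ≤ (D'.card : ℝ) := by positivity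
    by_cases h2 : b * (n - j) < 2 * (t - (b + 1) * j)
    · have h3 := peck_df (m := b) h2 hD'
      have h4 : 0 ≤ max 0 (sg b n t + δ / n) * (D'.card : ℝ) := mul_nonneg hτ0 hDn
      have h5 : 0 ≤ 2 * M / n := by positivity
      linarith
    · rw [not_lt] at h2
      have hcn : ((n - j : ℕ) : ℝ) = n - j := by
        rw [Nat.cast_sub (by omega)]
      have hct2 : ((t - (b + 1) * j : ℕ) : ℝ) = t - (b + 1) * j := by
        rw [Nat.cast_sub hjt]
        push_cast
        ring
      have hnj : (n : ℝ) / 2 ≤ ((n - j : ℕ) : ℝ) := by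
        rw [hcn]
        have : (2 : ℝ) * j ≤ n := by exact_mod_cast hjn
        linarith
      have h3 := hH (n - j) (t - (b + 1) * j) (by omega) (by
        rw [hct2, hcn]
        have : (0 : ℝ) ≤ c / 2 * j := by positivity
        linarith) h2 D' hD'
      have h4 := hcont n j t (t - (b + 1) * j) (by omega) (by linarith) hlow hup (by
        rw [hct2, abs_le]
        constructor <;> nlinarith)
      have h5 := (abs_le.1 h4).2
      have h6 : δ / 4 / ((n - j : ℕ) : ℝ) ≤ δ / 2 / n := by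
        rw [div_le_div_iff₀ (by linarith) hnp]
        nlinarith
      have h7 : M / ((n - j : ℕ) : ℝ) ≤ 2 * M / n := by
        rw [div_le_div_iff₀ (by linarith) hnp]
        nlinarith
      have h8 : sg b (n - j) (t - (b + 1) * j) + δ / 4 / ((n - j : ℕ) : ℝ) ≤
          max 0 (sg b n t + δ / n) := by
        refine le_trans ?_ (le_max_right _ _)
        have : δ / n = δ / 4 / n + δ / 2 / n + δ / 4 / n := by ring
        have h9 : 0 ≤ δ / 4 / n := by positivity
        linarith
      have h10 := mul_le_mul_of_nonneg_right h8 hDn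
      linarith

theorem ssh3 (c δ : ℝ) (hc : 0 < c) (hδ : 0 < δ) :
    ∃ (ε₁ M : ℝ) (n₀ : ℕ), 0 < ε₁ ∧ 0 ≤ M ∧
      ∀ n t : ℕ, n₀ ≤ n → c * n ≤ t → 2 * t ≤ 3 * n → ∀ D ⊆ P 3 n t,
        (D.card : ℝ) ≤ ε₁ * (n : ℝ) ^ 2 → df D ≤ (sg 3 n t + δ / n) * D.card + M / n := by
  obtain ⟨e₂, n₁, he₂, hcont⟩ := cont (b := 3) le_rfl 1 (δ / 4) one_pos (by positivity)
  -- the small parameter
  obtain ⟨e, he, hee, hec, hed⟩ : ∃ e : ℝ, 0 < e ∧ 2 * e ≤ e₂ ∧ 6 * e ≤ c ∧ 48 * e ≤ c ^ 2 * δ := by
    refine ⟨min (e₂ / 2) (min (c / 6) (c ^ 2 * δ / 48)), by positivity, ?_, ?_, ?_⟩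
    · have := min_le_left (e₂ / 2) (min (c / 6) (c ^ 2 * δ / 48))
      linarith
    · have := (min_le_right (e₂ / 2) (min (c / 6) (c ^ 2 * δ / 48))).trans (min_le_left _ _)
      linarith
    · have := (min_le_right (e₂ / 2) (min (c / 6) (c ^ 2 * δ / 48))).trans (min_le_right _ _)
      linarith
  obtain ⟨ε₁, M', hε₁, hM', hstep⟩ := step (m := 2) le_rfl (4 / c) 0 (δ / 4) e
    (by positivity) le_rfl (by positivity) he
  refine ⟨ε₁, M', n₁ + ⌈16 / (c ^ 2 * δ)⌉₊ + ⌈16 / δ⌉₊ + ⌈2 / c⌉₊ + 1, hε₁, hM', ?_⟩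
  intro n t hn hct ht D hD hDc
  have hn1 : 1 ≤ n := by omega
  have hn1' : (1 : ℝ) ≤ n := by exact_mod_cast hn1
  have hnp : (0 : ℝ) < n := by linarith
  have hb1 : 16 / (c ^ 2 * δ) ≤ n := by
    refine (Nat.le_ceil _).trans ?_
    have : ⌈16 / (c ^ 2 * δ)⌉₊ ≤ n := by omega
    exact_mod_cast this
  have hb2 : 16 / δ ≤ n := by
    refine (Nat.le_ceil _).trans ?_
    have : ⌈16 / δ⌉₊ ≤ n := by omega
    exact_mod_cast this
  have hb3 : 2 / c ≤ n := by
    refine (Nat.le_ceil _).trans ?_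
    have : ⌈2 / c⌉₊ ≤ n := by omega
    exact_mod_cast this
  rw [div_le_iff₀ (by positivity)] at hb1 hb2 hb3
  have htp : (0 : ℝ) < t := lt_of_lt_of_le (by positivity) hct
  have ht1 : 1 ≤ t := by
    have : 0 < t := by exact_mod_cast htp
    omega
  have htR : (2 : ℝ) * t ≤ 3 * n := by exact_mod_cast ht
  have hDn : (0 : ℝ) ≤ (D.card : ℝ) := by positivity
  have hsg0 : 0 ≤ sg 3 n t := sg_nonneg ht1 (by omega)
  by_cases hcase : (1 + 2 * e) * n < t
  · have h1 := hstep n t 0 hn1 (by rw [abs_zero]; positivity) (by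
      intro j hj D' hD'
      have hjn : n - j < t - 3 * j := by
        have h2 : (n : ℝ) + 2 * j < t := by nlinarith
        have h3 : n + 2 * j < t := by exact_mod_cast h2
        omega
      have := peck_df (m := 2) (n := n - j) (t := t - (2 + 1) * j) (by omega) hD'
      simpa using this) D hD hDc
    have h2 : (0 + δ / 4 / n) * (D.card : ℝ) ≤ (sg 3 n t + δ / n) * D.card := by
      refine mul_le_mul_of_nonneg_right ?_ hDn
      have : δ / 4 / n ≤ δ / n := by
        rw [div_le_div_iff_of_pos_right hnp]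
        linarith
      linarith
    linarith
  · rw [not_lt] at hcase
    have hden : c / 2 * n ≤ t - 3 * e * n := by nlinarith
    have hdenp : (0 : ℝ) < t - 3 * e * n := lt_of_lt_of_le (by positivity) hden
    have hτp : 0 < 2 / ((t : ℝ) - 3 * e * n) := by positivity
    -- τ against 2 / t
    have hτt : 2 / ((t : ℝ) - 3 * e * n) ≤ 2 / t + δ / 4 / n := by
      have h1 : 2 / ((t : ℝ) - 3 * e * n) - 2 / t = 6 * e * n / (t * (t - 3 * e * n)) := by
        field_simp
        ring
      have h2 : 6 * e * n / (t * (t - 3 * e * n)) ≤ 6 * e * n / (c * n * (c / 2 * n)) := by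
        refine div_le_div_of_nonneg_left (by positivity) (by positivity) ?_
        exact mul_le_mul hct hden (by positivity) htp.le
      have h3 : 6 * e * n / (c * n * (c / 2 * n)) ≤ δ / 4 / n := by
        rw [div_div, div_le_div_iff₀ (by positivity) (by positivity)]
        nlinarith [mul_le_mul_of_nonneg_right hed (show (0 : ℝ) ≤ n * n by positivity)]
      linarith
    -- 2 / t against sg
    have hn4 : 4 / ((n : ℝ) * n) ≤ δ / 4 / n := by
      rw [div_div, div_le_div_iff₀ (by positivity) (by positivity)]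
      nlinarith
    have hsgt : 2 / (t : ℝ) ≤ sg 3 n t + δ / 2 / n := by
      by_cases htn : t ≤ n
      · have h1 := sg_low (b := 3) (by norm_num) ht1 htn
        have h2 : sg 3 n t = 2 / ((t : ℝ) + 2) := by
          rw [h1]
          norm_num
          ring
        have h3 : 2 / (t : ℝ) - 2 / ((t : ℝ) + 2) = 4 / (t * (t + 2)) := by
          field_simp
          ring
        have h4 : 4 / ((t : ℝ) * (t + 2)) ≤ 4 / (c * n * (c * n)) := by
          refine div_le_div_of_nonneg_left (by norm_num) (by positivity) ?_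
          exact mul_le_mul hct (by linarith) (by positivity) htp.le
        have h5 : 4 / (c * n * (c * n)) ≤ δ / 4 / n := by
          rw [div_div, div_le_div_iff₀ (by positivity) (by positivity)]
          nlinarith
        have h6 : δ / 4 / n ≤ δ / 2 / n := by
          rw [div_le_div_iff_of_pos_right hnp]
          linarith
        rw [h2]
        linarith
      · rw [not_le] at htn
        have htn' : (n : ℝ) < t := by exact_mod_cast htn
        have h1 := hcont n 0 n t (by omega) (by simp; positivity) (by linarith)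
          (by push_cast; linarith) (by
            rw [abs_of_pos (by linarith)]
            nlinarith)
        rw [Nat.sub_zero] at h1
        have h2 := (abs_le.1 h1).1
        have h3 := sg_low (b := 3) (n := n) (t := n) (by norm_num) hn1 le_rfl
        have h4 : sg 3 n n = 2 / ((n : ℝ) + 2) := by
          rw [h3]
          norm_num
          ring
        have h5 : 2 / (n : ℝ) - 2 / ((n : ℝ) + 2) = 4 / (n * (n + 2)) := by
          field_simp
          ring
        have h6 : 4 / ((n : ℝ) * (n + 2)) ≤ 4 / (n * n) := by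
          refine div_le_div_of_nonneg_left (by norm_num) (by positivity) ?_
          nlinarith
        have h7 : 2 / (t : ℝ) ≤ 2 / n := by
          refine div_le_div_of_nonneg_left (by norm_num) hnp htn'.le
        have h8 : δ / 2 / n = δ / 4 / n + δ / 4 / n := by ring
        rw [h4] at h2
        linarith
    have h1 := hstep n t (2 / ((t : ℝ) - 3 * e * n)) hn1 (by
      rw [abs_of_pos hτp]
      have : 4 / c / n = 2 / (c / 2 * n) := by
        field_simp
        norm_num
      rw [this]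
      exact div_le_div_of_nonneg_left (by norm_num) (by positivity) hden) (by
      intro j hj D' hD'
      have hD'n : (0 : ℝ) ≤ (D'.card : ℝ) := by positivity
      have hj3 : ((t - (2 + 1) * j : ℕ) : ℝ) = t - 3 * j := by
        have : (2 + 1) * j ≤ t := by
          have : (3 : ℝ) * j ≤ t := by nlinarith
          have : 3 * j ≤ t := by exact_mod_cast this
          omega
        rw [Nat.cast_sub this]
        push_cast
        ring
      by_cases h2 : t - (2 + 1) * j ≤ n - j
      · have h3 : (t : ℝ) - 3 * e * n ≤ ((t - (2 + 1) * j : ℕ) : ℝ) := by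
          rw [hj3]
          nlinarith
        have h4 : 1 ≤ t - (2 + 1) * j := by
          have : (0 : ℝ) < ((t - (2 + 1) * j : ℕ) : ℝ) := lt_of_lt_of_le hdenp h3
          have : 0 < t - (2 + 1) * j := by exact_mod_cast this
          omega
        have h5 := Pool.Agent.Helper46.MR.h2 h4 h2 hD'
        have h6 : 2 / ((t - (2 + 1) * j : ℕ) : ℝ) ≤ 2 / ((t : ℝ) - 3 * e * n) :=
          div_le_div_of_nonneg_left (by norm_num) hdenp h3
        have h7 := mul_le_mul_of_nonneg_right h6 hD'n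
        rw [zero_div, add_zero]
        linarith
      · have h5 := peck_df (m := 2) (n := n - j) (t := t - (2 + 1) * j) (by omega) hD'
        have h6 : 0 ≤ 2 / ((t : ℝ) - 3 * e * n) * (D'.card : ℝ) := mul_nonneg hτp.le hD'n
        rw [zero_div, add_zero]
        linarith) D hD hDc
    have h2 : (2 / ((t : ℝ) - 3 * e * n) + δ / 4 / n) * (D.card : ℝ) ≤
        (sg 3 n t + δ / n) * D.card := by
      refine mul_le_mul_of_nonneg_right ?_ hDn
      have : δ / n = δ / 4 / n + δ / 2 / n + δ / 4 / n := by ring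
      linarith
    linarith

end Pool.Agent.Helper46.MR
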