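import Pool.Agent.Helper46.MR.Basic

set_option autoImplicit false

/-!
# MR-13 Slope: quantitative log-concavity of the level sizes of the cube

Write `W b u = lev b n u`, `q b u = W b (u+1) / W b u`.

PROOF. `b = 2`: `W 2 u = u + 1` for `u ≤ n` and `2 n + 1 - u` for `n ≤ u ≤ 2 n + 1`. So
`q 2 u = (u+2)/(u+1)` for `u < n`, `(2n-u)/(2n+1-u)` for `n ≤ u ≤ 2 n`, and
`q 2 s - q 2 (s+1) ≥ 1/(n(n+1))` for all `0 ≤ s`, `s + 1 ≤ 2 n`: for `s ≤ n - 2` it is
`1/((s+1)(s+2))`, for `s = n - 1` it is `(2n+1)/(n(n+1))`, for `s ≥ n` it is `1/(w(w-1))` with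
`w = 2n+1-s ∈ [2, n+1]`. So `h s = q 2 s + s/(n(n+1))` is antitone on `[0, 2n]`.
`b ≥ 3`: `W b u = ∑_{s ≤ min(u, 2n)} W 2 s · W (b-2) (u-s)` (sum over the value `s` of the first two
coordinates). Hence
`W b (u+1) = W (b-2) (u+1) + ∑_{s ≤ min(u,2n)} W 2 (s+1) W (b-2) (u-s)` and
`q b u = W (b-2) (u+1) / W b u + E_u[q 2 (S)]`, where `S` has the weights
`ω_u s = W 2 s · W (b-2) (u-s) / W b u`. Both terms:
(i) `W (b-2) (u+1) / W b u` is antitone in `u`: `W b u / W (b-2) (u+1)` is the sum of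
`W 2 s · W (b-2) (u-s) / W (b-2) (u+1)`, each term is monotone in `u` by `lev_pf2` (treat the range
`W (b-2) (u+1) = 0` separately: the quotient is then `0`).
(ii) for an antitone `h` on `[0,2n]`: `E_{u+1}[h(S)] ≤ E_u[h(S)]`, since
`ω_{u+1} s ω_u s' ≤ ω_u s ω_{u+1} s'` for `s ≤ s'` (`lev_pf2` for `b-2`; Chebyshev's sum argument:
`∑_{s,s'} (h s - h s') (ω_{u+1} s ω_u s' - ω_u s ω_{u+1} s') ≤ 0`).
(iii) `E_u[S] = 2 u / b` by symmetry of the coordinates (`∑_{x ∈ Q b n u} x_i` does not depend on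
`i`; the sum over `i` is `u W b u`).
Apply (ii) to `h s = q 2 s + s/(n(n+1))`:
`E_{u+1}[q 2 S] - E_u[q 2 S] ≤ - (2/b)/(n(n+1))`.
(For `b = 2` the claim is the case above, `2/(b n (n+1)) = 1/(n(n+1))`.)
-/

namespace Pool.Agent.Helper46.MR

open Finset Pool.Agent.Helper30.SC

namespace SlopeAux

open Polynomial

/-- the rank generating polynomial of the chain `{0,...,n}` -/
noncomputable def G (n : ℕ) : ℝ[X] := ∑ i ∈ range (n + 1), X ^ i

theorem coeff_G_pow (n : ℕ) : ∀ m r : ℕ, (G n ^ m).coeff r = (lev m n r : ℝ) := by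
  intro m
  induction m with
  | zero =>
    intro r
    rw [pow_zero, coeff_one, lev_zero]
    split_ifs <;> simp
  | succ m ih =>
    intro r
    rw [pow_succ, Nmp_lev_succ]
    unfold G at ih ⊢
    rw [mul_sum, finsetSum_coeff]
    refine sum_congr rfl fun i _ => ?_
    rw [coeff_mul_X_pow', ih]
    unfold NmpaR
    rfl

/-- the convolution formula -/
theorem conv (m n u N : ℕ) (hN : u < N) :
    (lev (m + 2) n u : ℝ) = ∑ s ∈ range N, (lev 2 n s : ℝ) * NmpaR m n u s := by
  rw [← coeff_G_pow, show m + 2 = 2 + m by omega, pow_add, coeff_mul,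
    Finset.Nat.sum_antidiagonal_eq_sum_range_succ
      (fun a b => (G n ^ 2).coeff a * (G n ^ m).coeff b)]
  have h : range (u + 1) ⊆ range N := by
    intro x hx
    rw [mem_range] at hx ⊢
    omega
  rw [← sum_subset h]
  · refine sum_congr rfl fun s hs => ?_
    rw [mem_range] at hs
    rw [coeff_G_pow, coeff_G_pow]
    unfold NmpaR
    rw [if_pos (by omega)]
  · intro s _ hs
    rw [mem_range] at hs
    unfold NmpaR
    rw [if_neg (by omega), mul_zero]

/-- the first moment -/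
theorem moment (m n u N : ℕ) (hN : u < N) :
    ((m : ℝ) + 2) * ∑ s ∈ range N, (s : ℝ) * ((lev 2 n s : ℝ) * NmpaR m n u s) =
      2 * u * (lev (m + 2) n u : ℝ) := by
  have key : ((m : ℝ[X]) + 2) * ((X * derivative (G n ^ 2)) * G n ^ m) =
      2 * (X * derivative (G n ^ (m + 2))) := by
    rw [derivative_pow, derivative_pow]
    have : G n ^ (m + 2 - 1) = G n * G n ^ m := by
      rw [show m + 2 - 1 = 1 + m by omega, pow_add, pow_one]
    rw [this]
    simp only [map_natCast, Nat.cast_add, Nat.cast_ofNat, map_add, map_ofNat]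
    norm_num
    ring
  have hX : ∀ (p : ℝ[X]) (s : ℕ), (X * derivative p).coeff s = s * p.coeff s := by
    intro p s
    cases s with
    | zero => simp
    | succ s =>
      rw [coeff_X_mul, coeff_derivative]
      push_cast
      ring
  have h1 : (((m : ℝ[X]) + 2) * ((X * derivative (G n ^ 2)) * G n ^ m)).coeff u =
      (2 * (X * derivative (G n ^ (m + 2)))).coeff u := by rw [key]
  have hc : ∀ (c : ℝ) (p : ℝ[X]), (C c * p).coeff u = c * p.coeff u := fun c p => coeff_C_mul p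
  have e2 : (2 : ℝ[X]) = C (2 : ℝ) := (map_ofNat C 2).symm
  have e1 : ((m : ℝ[X]) + 2) = C ((m : ℝ) + 2) := by rw [map_add, map_natCast, map_ofNat]
  have e3 := Finset.Nat.sum_antidiagonal_eq_sum_range_succ
      (fun a b => (X * derivative (G n ^ 2)).coeff a * (G n ^ m).coeff b) u
  rw [e1, hc, e2, hc, hX, coeff_G_pow, coeff_mul] at h1
  rw [e3] at h1
  rw [mul_assoc, ← h1]
  congr 1
  have h : range (u + 1) ⊆ range N := by
    intro x hx
    rw [mem_range] at hx ⊢
    omega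
  rw [← sum_subset h]
  · refine sum_congr rfl fun s hs => ?_
    rw [mem_range] at hs
    rw [hX, coeff_G_pow, coeff_G_pow]
    unfold NmpaR
    rw [if_pos (by omega)]
    ring
  · intro s _ hs
    rw [mem_range] at hs
    unfold NmpaR
    rw [if_neg (by omega), mul_zero, mul_zero]

theorem lev_one (n r : ℕ) : lev 1 n r = if r ≤ n then 1 else 0 := by
  rw [show (1 : ℕ) = 0 + 1 from rfl, lev_succ]
  simp only [lev_zero]
  have : ∀ i ∈ range (n + 1), (if i ≤ r then (if r - i = 0 then 1 else 0) else 0) =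
      if i = r then 1 else 0 := by
    intro i _
    split_ifs <;> first | rfl | omega
  rw [sum_congr rfl this, sum_ite_eq']
  simp only [mem_range, Nat.lt_succ_iff]

theorem lev_two (n s : ℕ) : lev 2 n s = ((range (n + 1)).filter fun i => i ≤ s ∧ s ≤ n + i).card := by
  rw [show (2 : ℕ) = 1 + 1 from rfl, lev_succ, card_filter]
  refine sum_congr rfl fun i _ => ?_
  rw [lev_one]
  split_ifs <;> first | rfl | omega

theorem lev_two_low {n s : ℕ} (h : s ≤ n) : lev 2 n s = s + 1 := by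
  rw [lev_two]
  have : ((range (n + 1)).filter fun i => i ≤ s ∧ s ≤ n + i) = range (s + 1) := by
    ext i
    simp only [mem_filter, mem_range]
    omega
  rw [this, card_range]

theorem lev_two_high {n s : ℕ} (h : n ≤ s) : lev 2 n s = 2 * n + 1 - s := by
  rw [lev_two]
  have : ((range (n + 1)).filter fun i => i ≤ s ∧ s ≤ n + i) = Icc (s - n) n := by
    ext i
    simp only [mem_filter, mem_range, mem_Icc]
    by_cases hs : i ≤ s <;> omega
  rw [this, Nat.card_Icc]
  omega

/-- `h s = w (s+1) / w s + s / (n (n+1))` with `w = lev 2 n` -/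
noncomputable def hh (n s : ℕ) : ℝ :=
  (lev 2 n (s + 1) : ℝ) / (lev 2 n s : ℝ) + (s : ℝ) / (n * (n + 1))

theorem hh_succ_le {n s : ℕ} (hn : 1 ≤ n) (hs : s + 1 ≤ 2 * n) : hh n (s + 1) ≤ hh n s := by
  have hn' : (1 : ℝ) ≤ n := by exact_mod_cast hn
  have hq : (1 : ℝ) / (n * (n + 1)) ≤
      (lev 2 n (s + 1) : ℝ) / (lev 2 n s : ℝ) - (lev 2 n (s + 1 + 1) : ℝ) / (lev 2 n (s + 1) : ℝ) := by
    rcases lt_trichotomy (s + 1) n with h | h | h
    · rw [lev_two_low (by omega : s ≤ n), lev_two_low (by omega : s + 1 ≤ n),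
        lev_two_low (by omega : s + 1 + 1 ≤ n)]
      have hs' : (s : ℝ) + 2 ≤ n := by exact_mod_cast h
      have hs0 : (0 : ℝ) ≤ s := Nat.cast_nonneg s
      push_cast
      have : ((s : ℝ) + 1 + 1) / (s + 1) - (s + 1 + 1 + 1) / (s + 1 + 1) =
          1 / ((s + 1) * (s + 2)) := by
        field_simp
        ring
      rw [this]
      apply one_div_le_one_div_of_le (by positivity)
      nlinarith
    · subst h
      rw [lev_two_low (by omega : s ≤ s + 1), lev_two_low (le_refl (s + 1)),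
        lev_two_high (by omega : s + 1 ≤ s + 1 + 1)]
      have e : 2 * (s + 1) + 1 - (s + 1 + 1) = s + 1 := by omega
      rw [e]
      have hs0 : (0 : ℝ) ≤ s := Nat.cast_nonneg s
      push_cast
      have : ((s : ℝ) + 1 + 1) / (s + 1) - (s + 1) / (s + 1 + 1) =
          (2 * s + 3) / ((s + 1) * (s + 1 + 1)) := by
        field_simp
        ring
      rw [this]
      apply div_le_div_of_nonneg_right _ (by positivity)
      linarith
    · obtain ⟨v, hv⟩ : ∃ v, 2 * n + 1 - s = v + 2 := ⟨2 * n - 1 - s, by omega⟩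
      rw [lev_two_high (by omega : n ≤ s), lev_two_high (by omega : n ≤ s + 1),
        lev_two_high (by omega : n ≤ s + 1 + 1)]
      have e1 : 2 * n + 1 - (s + 1) = v + 1 := by omega
      have e2 : 2 * n + 1 - (s + 1 + 1) = v := by omega
      rw [hv, e1, e2]
      have hv' : (v : ℝ) + 1 ≤ n := by
        have : v + 1 ≤ n := by omega
        exact_mod_cast this
      have hv0 : (0 : ℝ) ≤ v := Nat.cast_nonneg v
      push_cast
      have : ((v : ℝ) + 1) / (v + 2) - v / (v + 1) = 1 / ((v + 1) * (v + 2)) := by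
        field_simp
        ring
      rw [this]
      apply one_div_le_one_div_of_le (by positivity)
      nlinarith
  unfold hh
  have e : ((s + 1 : ℕ) : ℝ) / (n * (n + 1)) = (s : ℝ) / (n * (n + 1)) + 1 / (n * (n + 1)) := by
    push_cast
    ring
  rw [e]
  linarith

theorem hh_anti {n s t : ℕ} (hn : 1 ≤ n) (hst : s ≤ t) (ht : t ≤ 2 * n) : hh n t ≤ hh n s := by
  induction t, hst using Nat.le_induction with
  | base => exact le_rfl
  | succ t hst ih => exact (hh_succ_le hn ht).trans (ih (by omega))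

/-- Chebyshev's sum inequality for the weights of the convolution -/
theorem cheb {m n u N : ℕ} (hn : 1 ≤ n) :
    (∑ s ∈ range N, hh n s * ((lev 2 n s : ℝ) * NmpaR m n (u + 1) s)) *
        ∑ t ∈ range N, (lev 2 n t : ℝ) * NmpaR m n u t ≤
      (∑ s ∈ range N, hh n s * ((lev 2 n s : ℝ) * NmpaR m n u s)) *
        ∑ t ∈ range N, (lev 2 n t : ℝ) * NmpaR m n (u + 1) t := by
  rw [← sub_nonneg, sum_mul_sum, sum_mul_sum, ← sum_sub_distrib]
  simp only [← sum_sub_distrib]
  set c : ℕ → ℕ → ℝ := fun s t => (lev 2 n s : ℝ) * (lev 2 n t : ℝ) *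
    (NmpaR m n u s * NmpaR m n (u + 1) t - NmpaR m n (u + 1) s * NmpaR m n u t) with hc
  have h1 : ∀ s t : ℕ, hh n s * ((lev 2 n s : ℝ) * NmpaR m n u s) *
        ((lev 2 n t : ℝ) * NmpaR m n (u + 1) t) -
      hh n s * ((lev 2 n s : ℝ) * NmpaR m n (u + 1) s) * ((lev 2 n t : ℝ) * NmpaR m n u t) =
      hh n s * c s t := by
    intro s t
    rw [hc]
    ring
  simp only [h1]
  have h2 : ∑ s ∈ range N, ∑ t ∈ range N, hh n s * c s t =
      ∑ s ∈ range N, ∑ t ∈ range N, - (hh n t * c s t) := by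
    rw [sum_comm]
    refine sum_congr rfl fun s _ => sum_congr rfl fun t _ => ?_
    rw [hc]
    ring
  have h3 : ∀ s t : ℕ, s ≤ t → 0 ≤ (hh n s - hh n t) * c s t := by
    intro s t hst
    by_cases ht : t ≤ 2 * n
    · refine mul_nonneg (sub_nonneg.2 (hh_anti hn hst ht)) ?_
      rw [hc]
      refine mul_nonneg (by positivity) (sub_nonneg.2 ?_)
      exact Nmp_cross m n u hst
    · have : lev 2 n t = 0 := lev_eq_zero (by omega)
      rw [hc]
      simp only [this]
      simp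
  have h4 : ∀ s t : ℕ, 0 ≤ (hh n s - hh n t) * c s t := by
    intro s t
    rcases le_total s t with h | h
    · exact h3 s t h
    · have := h3 t s h
      have e : (hh n s - hh n t) * c s t = (hh n t - hh n s) * c t s := by
        rw [hc]
        ring
      rw [e]
      exact this
  have h5 : 0 ≤ ∑ s ∈ range N, ∑ t ∈ range N, (hh n s - hh n t) * c s t :=
    sum_nonneg fun s _ => sum_nonneg fun t _ => h4 s t
  have h6 : ∑ s ∈ range N, ∑ t ∈ range N, (hh n s - hh n t) * c s t =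
      ∑ s ∈ range N, ∑ t ∈ range N, hh n s * c s t +
        ∑ s ∈ range N, ∑ t ∈ range N, - (hh n t * c s t) := by
    rw [← sum_add_distrib]
    refine sum_congr rfl fun s _ => ?_
    rw [← sum_add_distrib]
    refine sum_congr rfl fun t _ => ?_
    ring
  rw [h6, ← h2] at h5
  linarith

/-- the shifted convolution -/
theorem conv_succ (m n u N : ℕ) (hN : u < N) :
    (lev (m + 2) n (u + 1) : ℝ) = (lev m n (u + 1) : ℝ) +
      ∑ s ∈ range N, (lev 2 n (s + 1) : ℝ) * NmpaR m n u s := by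
  rw [conv m n (u + 1) (N + 1) (by omega), sum_range_succ', add_comm]
  congr 1
  · rw [lev_two_low (Nat.zero_le n)]
    unfold NmpaR
    simp
  · refine sum_congr rfl fun s _ => ?_
    rw [NmpaR_shift]

theorem hh_sum (m n u N : ℕ) (hN : u < N) :
    ∑ s ∈ range N, hh n s * ((lev 2 n s : ℝ) * NmpaR m n u s) =
      (lev (m + 2) n (u + 1) : ℝ) - (lev m n (u + 1) : ℝ) +
        2 * u * (lev (m + 2) n u : ℝ) / ((m + 2) * (n * (n + 1))) := by
  have h1 := conv_succ m n u N hN
  have h2 := moment m n u N hN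
  have h3 : ∑ s ∈ range N, hh n s * ((lev 2 n s : ℝ) * NmpaR m n u s) =
      ∑ s ∈ range N, (lev 2 n (s + 1) : ℝ) * NmpaR m n u s +
        (∑ s ∈ range N, (s : ℝ) * ((lev 2 n s : ℝ) * NmpaR m n u s)) / (n * (n + 1)) := by
    rw [sum_div, ← sum_add_distrib]
    refine sum_congr rfl fun s _ => ?_
    unfold hh
    by_cases hs : s ≤ 2 * n
    · have : (0 : ℝ) < lev 2 n s := by exact_mod_cast lev_pos hs
      field_simp
    · have h4 : lev 2 n s = 0 := lev_eq_zero (by omega)
      have h5 : lev 2 n (s + 1) = 0 := lev_eq_zero (by omega)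
      simp [h4, h5]
  have h4 : ∑ s ∈ range N, (s : ℝ) * ((lev 2 n s : ℝ) * NmpaR m n u s) =
      2 * u * (lev (m + 2) n u : ℝ) / (m + 2) := by
    rw [eq_div_iff (by positivity)]
    linarith
  rw [h3, h4, div_div]
  linarith

theorem lev_ratio (m n u : ℕ) :
    (lev m n (u + 2) : ℝ) * (lev (m + 2) n u : ℝ) ≤
      (lev m n (u + 1) : ℝ) * (lev (m + 2) n (u + 1) : ℝ) := by
  rw [conv m n u (u + 1) (by omega), conv m n (u + 1) (u + 2) (by omega), mul_sum, mul_sum,
    sum_range_succ _ (u + 1)]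
  have h0 : (0 : ℝ) ≤ (lev m n (u + 1) : ℝ) * ((lev 2 n (u + 1) : ℝ) * NmpaR m n (u + 1) (u + 1)) :=
    mul_nonneg (Nat.cast_nonneg _) (mul_nonneg (Nat.cast_nonneg _) (NmpaR_nonneg _ _ _ _))
  refine le_trans (sum_le_sum fun s hs => ?_) (le_add_of_nonneg_right h0)
  rw [mem_range] at hs
  unfold NmpaR
  rw [if_pos (by omega), if_pos (by omega)]
  have h := lev_pf2 m n (i := u - s) (j := u + 1) (by omega)
  have h2 : (lev m n (u - s) : ℝ) * lev m n (u + 1 + 1) ≤
      (lev m n (u - s + 1) : ℝ) * lev m n (u + 1) := by exact_mod_cast h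
  have e : u - s + 1 = u + 1 - s := by omega
  rw [e] at h2
  have h3 : (0 : ℝ) ≤ lev 2 n s := Nat.cast_nonneg _
  nlinarith

end SlopeAux

theorem slope {b n u : ℕ} (hb : 2 ≤ b) (hn : 1 ≤ n) (hu : u + 2 ≤ b * n) :
    (2 : ℝ) / (b * (n * (n + 1))) ≤
      (lev b n (u + 1) : ℝ) / (lev b n u : ℝ) -
        (lev b n (u + 2) : ℝ) / (lev b n (u + 1) : ℝ) := by
  obtain ⟨m, rfl⟩ : ∃ m, b = m + 2 := ⟨b - 2, by omega⟩
  have h1 := SlopeAux.cheb (m := m) (u := u) (N := u + 2) hn
  rw [SlopeAux.hh_sum m n (u + 1) (u + 2) (by omega), SlopeAux.hh_sum m n u (u + 2) (by omega),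
    ← SlopeAux.conv m n u (u + 2) (by omega), ← SlopeAux.conv m n (u + 1) (u + 2) (by omega)] at h1
  have h2 := SlopeAux.lev_ratio m n u
  have p0 : (0 : ℝ) < lev (m + 2) n u := by exact_mod_cast lev_pos (by omega)
  have p1 : (0 : ℝ) < lev (m + 2) n (u + 1) := by exact_mod_cast lev_pos (by omega)
  have hn' : (0 : ℝ) < n := by exact_mod_cast hn
  have hm : (0 : ℝ) ≤ m := Nat.cast_nonneg m
  rw [div_sub_div _ _ p0.ne' p1.ne', div_le_div_iff₀ (by push_cast; positivity) (by positivity)]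
  push_cast at h1 ⊢
  have hD : (0 : ℝ) < ((m : ℝ) + 2) * (n * (n + 1)) := by positivity
  set D : ℝ := ((m : ℝ) + 2) * (n * (n + 1)) with hDdef
  set W0 : ℝ := (lev (m + 2) n u : ℝ)
  set W1 : ℝ := (lev (m + 2) n (u + 1) : ℝ)
  set W2 : ℝ := (lev (m + 2) n (u + 2) : ℝ)
  have e1 : 2 * ((u : ℝ) + 1) * W1 / D = 2 * u * W1 / D + 2 * W1 / D := by ring
  rw [e1] at h1
  have h3 : 2 * W1 / D * W0 ≤ W1 * W1 - W0 * W2 := by
    have e2 : 2 * (u : ℝ) * W1 / D * W0 = 2 * u * W0 / D * W1 := by ring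
    nlinarith
  have h4 : 2 * W1 / D * W0 = 2 * (W0 * W1) / D := by ring
  rw [h4, div_le_iff₀ hD] at h3
  exact h3

end Pool.Agent.Helper46.MR
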