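import Pool.Agent.Helper46.MR.LemE
import Pool.Agent.Helper46.MR.Fibre

set_option autoImplicit false

/-!
# MR-8 Step: small sets of `L(m+1,n)` from sets of the fibres `L(m,n-j)`

SETTING. `c = 1/(2m+3)`, `θ = (m-1)/m ≥ 1/2`; by `lemE`: `c |D|^θ ≤ EE D + 1` (real powers).
`df D = |fib D| - EE D` (`df_eq`, `card_fib`), `df D ≤ df (fib D) + df (shf D)` (`df_split`).
If `D ⊆ P (m+1) (n-j) (t-(m+1)j)` then `fib D ⊆ P m (n-j) (t-(m+1)j)` and
`shf D ⊆ P (m+1) (n-(j+1)) (t-(m+1)(j+1))`.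

TERMINAL CASE `2 |fib D| ≤ EE D + 1`: `df D = |fib D| - EE D ≤ 1/2 - EE D / 2 = 1 - (EE D + 1)/2 ≤
1 - (c/2) |D|^θ`; also `df D ≤ 0` (if `EE D = 0` then `|fib D| = 0`).
OTHERWISE `|fib D| ≥ 1` and `|fib D| > (EE D + 1)/2 ≥ (c/2)|D|^θ`, hence by concavity of `s ↦ s^(1/m)`
`|shf D|^(1/m) ≤ (|D| - (c/2)|D|^θ)^(1/m) ≤ |D|^(1/m) - c/(2m)`.
So with `Cd = 2 m / c`: `Cd |shf D|^(1/m) + 1 ≤ Cd |D|^(1/m)`.

`step`. Choose `S₁` with `(c/4) S₁^θ ≥ 1`, `S₂` with `(c/2) S₂^θ ≥ M/δ`, and `ε₁` with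
`Cd ε₁^(1/m) < ε'` and `ε₁^(1/m) ≤ c/(4 C₀)`. CLAIM, by strong induction on `|D|`: for
`D ⊆ P (m+1) (n-j) (t-(m+1)j)` with `j + Cd |D|^(1/m) < ε' n` and `|D| ≤ ε₁ n^m`:
`df D ≤ (τ + δ/n) |D| + (M/n) min(|D|, S₂) + C₀ S₁ / n`.
Terminal case: `df D ≤ min(0, 1 - (c/2)|D|^θ) ≤ τ |D| + C₀ S₁/n`: if `|D| ≤ S₁` use `0` and
`-τ|D| ≤ C₀ S₁/n`; if `|D| > S₁` then `1 - (c/2)|D|^θ ≤ -(c/4)|D|^θ ≤ -(C₀/n)|D|` because
`|D|^(1/m) ≤ ε₁^(1/m) n ≤ c n/(4 C₀)`.
Otherwise: `df (fib D) ≤ τ |fib D| + M/n` (hypothesis for `j < ε' n`), `df (shf D) ≤` (induction).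
If `|D| ≥ S₂`: `M/n ≤ (δ/n)|fib D|`. If `|D| < S₂`: `min(|shf D|,S₂) + 1 ≤ min(|D|, S₂)`
(as `|fib D| ≥ 1`) absorbs `M/n`.
For `j = 0`: `M' = M S₂ + C₀ S₁`.

`step0`: the same with `τ = 0`, only `df D ≤ 0` in the terminal case; `ε₁` with `Cd ε₁^(1/m) < ε'`.

`stepTop`: `fib D = ∅` (`fib_empty`), so `df D = - EE D ≤ min(0, 1 - c |D|^θ)`; conclude as in the
terminal case.
-/

namespace Pool.Agent.Helper46.MR

open Finset Pool.Agent.Helper30.SC

namespace StepAux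

/-- the real `m`-th root -/
noncomputable def rt (m : ℕ) (x : ℝ) : ℝ := x ^ ((m : ℝ)⁻¹)

theorem rt_nonneg (m : ℕ) {x : ℝ} (hx : 0 ≤ x) : 0 ≤ rt m x := Real.rpow_nonneg hx _

theorem rt_pow {m : ℕ} (hm : m ≠ 0) {x : ℝ} (hx : 0 ≤ x) : rt m x ^ m = x :=
  Real.rpow_inv_natCast_pow hx hm

theorem rt_le {m : ℕ} (hm : m ≠ 0) {x y : ℝ} (hx : 0 ≤ x) (hy : 0 ≤ y) (h : x ≤ y ^ m) :
    rt m x ≤ y := by
  rw [← pow_le_pow_iff_left₀ (rt_nonneg m hx) hy hm, rt_pow hm hx]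
  exact h

theorem le_rt {m : ℕ} (hm : m ≠ 0) {x y : ℝ} (hx : 0 ≤ x) (hy : 0 ≤ y) (h : y ^ m ≤ x) :
    y ≤ rt m x := by
  rw [← pow_le_pow_iff_left₀ hy (rt_nonneg m hx) hm, rt_pow hm hx]
  exact h

theorem le_rt_pow {m : ℕ} (hm : 2 ≤ m) {x y : ℝ} (hx : 0 ≤ x) (hy : 1 ≤ y) (h : y ^ m ≤ x) :
    y ≤ rt m x ^ (m - 1) := by
  have h1 : y ≤ rt m x := le_rt (by omega) hx (by linarith) h
  have h2 : 1 ≤ rt m x := hy.trans h1
  calc y ≤ rt m x := h1
    _ = rt m x ^ 1 := (pow_one _).symm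
    _ ≤ rt m x ^ (m - 1) := pow_le_pow_right₀ h2 (by omega)

theorem lemE_real {m n t : ℕ} (hm : 2 ≤ m) {D : Finset (Fin (m + 1) → ℕ)}
    (hD : D ⊆ P (m + 1) n t) :
    rt m (D.card : ℝ) ^ (m - 1) ≤ (2 * (m : ℝ) + 3) * ((EE D : ℝ) + 1) := by
  have h := lemE (by omega : 1 ≤ m) hD
  have h1 : ((D.card : ℝ)) ^ (m - 1) ≤ ((2 * (m : ℝ) + 3) * ((EE D : ℝ) + 1)) ^ m := by
    exact_mod_cast h
  have h0 : (0 : ℝ) ≤ (D.card : ℝ) := Nat.cast_nonneg _
  have h2 : 0 ≤ (2 * (m : ℝ) + 3) * ((EE D : ℝ) + 1) := by positivity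
  rw [← pow_le_pow_iff_left₀ (pow_nonneg (rt_nonneg m h0) _) h2 (by omega : m ≠ 0), ← pow_mul,
    mul_comm (m - 1) m, pow_mul, rt_pow (by omega) h0]
  exact h1

theorem df_formula {m n t : ℕ} {D : Finset (Fin (m + 1) → ℕ)} (hD : D ⊆ P (m + 1) n t) :
    df D = ((fib D).card : ℝ) - (EE D : ℝ) := by
  have h := df_eq (D := D) fun y hy => P_mono (hD hy)
  rw [← card_fib] at h
  have h1 : (D.card : ℝ) + (EE D : ℝ) = ((lo D).card : ℝ) + ((fib D).card : ℝ) := by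
    exact_mod_cast h
  unfold df
  linarith

theorem terminal {m n t : ℕ} (hm : 2 ≤ m) {D : Finset (Fin (m + 1) → ℕ)}
    (hD : D ⊆ P (m + 1) n t) (h : 2 * (fib D).card ≤ EE D + 1) :
    df D ≤ 0 ∧ df D ≤ 1 - rt m (D.card : ℝ) ^ (m - 1) / (2 * (2 * (m : ℝ) + 3)) := by
  have h1 := df_formula hD
  have h2 := lemE_real hm hD
  have h3 : (2 : ℝ) * ((fib D).card : ℝ) ≤ (EE D : ℝ) + 1 := by exact_mod_cast h
  constructor
  · rw [h1]
    rcases Nat.eq_zero_or_pos (EE D) with h4 | h4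
    · have h5 : (fib D).card = 0 := by omega
      rw [h5, h4]
      simp
    · have h5 : (1 : ℝ) ≤ (EE D : ℝ) := by exact_mod_cast h4
      linarith
  · rw [h1]
    have hb : (0 : ℝ) < 2 * (m : ℝ) + 3 := by positivity
    have h4 : rt m (D.card : ℝ) ^ (m - 1) / (2 * (2 * (m : ℝ) + 3)) ≤ ((EE D : ℝ) + 1) / 2 := by
      rw [div_le_div_iff₀ (by positivity) (by norm_num)]
      nlinarith
    linarith

theorem peel {m n t : ℕ} (hm : 2 ≤ m) {D : Finset (Fin (m + 1) → ℕ)}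
    (hD : D ⊆ P (m + 1) n t) (h : EE D + 1 < 2 * (fib D).card) :
    2 * m * (2 * (m : ℝ) + 3) * rt m ((shf D).card : ℝ) + 1 ≤
        2 * m * (2 * (m : ℝ) + 3) * rt m (D.card : ℝ) ∧
      rt m (D.card : ℝ) ^ (m - 1) / (2 * (2 * (m : ℝ) + 3)) ≤ ((fib D).card : ℝ) ∧
      1 ≤ (fib D).card ∧ (shf D).card < D.card := by
  have h2 := lemE_real hm hD
  have h3 : (EE D : ℝ) + 1 < 2 * ((fib D).card : ℝ) := by exact_mod_cast h
  have h4 := card_split hD
  have hf : 1 ≤ (fib D).card := by omega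
  have hb : (0 : ℝ) < 2 * (m : ℝ) + 3 := by positivity
  have hmR : (2 : ℝ) ≤ (m : ℝ) := by exact_mod_cast hm
  have h5 : rt m (D.card : ℝ) ^ (m - 1) / (2 * (2 * (m : ℝ) + 3)) ≤ ((fib D).card : ℝ) := by
    rw [div_le_iff₀ (by positivity)]
    nlinarith
  refine ⟨?_, h5, hf, by omega⟩
  have hD0 : (0 : ℝ) ≤ (D.card : ℝ) := Nat.cast_nonneg _
  have hS0 : (0 : ℝ) ≤ ((shf D).card : ℝ) := Nat.cast_nonneg _
  have hD1 : (1 : ℝ) ≤ (D.card : ℝ) := by
    have : 1 ≤ D.card := by omega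
    exact_mod_cast this
  set r := rt m (D.card : ℝ) with hr
  have hr0 : 0 ≤ r := rt_nonneg m hD0
  have hrm : r ^ m = (D.card : ℝ) := rt_pow (by omega) hD0
  have hr1 : 1 ≤ r := le_rt (by omega) hD0 (by norm_num) (by rw [one_pow]; exact hD1)
  set w : ℝ := 1 / (2 * m * (2 * (m : ℝ) + 3)) with hw
  have hw0 : 0 < w := by positivity
  have hw1 : w ≤ 1 := by
    rw [hw, div_le_one (by positivity)]
    nlinarith
  have hkey : rt m ((shf D).card : ℝ) ≤ r - w := by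
    apply rt_le (by omega) hS0 (by linarith)
    have h6 : ((shf D).card : ℝ) = r ^ m - ((fib D).card : ℝ) := by
      rw [hrm]
      have : ((fib D).card : ℝ) + ((shf D).card : ℝ) = (D.card : ℝ) := by exact_mod_cast h4
      linarith
    have hrpos : 0 < r := by linarith
    have hB : 1 + (m : ℝ) * (-(w / r)) ≤ (1 + (-(w / r))) ^ m := by
      apply one_add_mul_le_pow
      have : w / r ≤ 1 := by
        rw [div_le_one hrpos]
        linarith
      linarith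
    have h7 : (r - w) ^ m = r ^ m * (1 + (-(w / r))) ^ m := by
      rw [← mul_pow]
      congr 1
      field_simp
      ring
    have h8 : r ^ m = r ^ (m - 1) * r := by
      rw [← pow_succ]
      congr 1
      omega
    have h9 : r ^ m * (1 + (m : ℝ) * (-(w / r))) = r ^ m - r ^ (m - 1) * (m * w) := by
      have : r ^ m * (w / r) = r ^ (m - 1) * w := by
        rw [h8]
        field_simp
      linear_combination (-(m : ℝ)) * this
    have h10 : r ^ (m - 1) * (m * w) = r ^ (m - 1) / (2 * (2 * (m : ℝ) + 3)) := by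
      rw [hw]
      have : (m : ℝ) ≠ 0 := by positivity
      field_simp
    have h11 : r ^ m * (1 + (m : ℝ) * (-(w / r))) ≤ (r - w) ^ m := by
      rw [h7]
      exact mul_le_mul_of_nonneg_left hB (pow_nonneg hr0 _)
    rw [h6]
    rw [h9, h10] at h11
    linarith
  have h12 : 2 * m * (2 * (m : ℝ) + 3) * w = 1 := by
    rw [hw]
    have : 2 * (m : ℝ) * (2 * (m : ℝ) + 3) ≠ 0 := by positivity
    field_simp
  have h13 : 0 ≤ 2 * (m : ℝ) * (2 * (m : ℝ) + 3) := by positivity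
  nlinarith [mul_le_mul_of_nonneg_left hkey h13]

theorem shf_sub {m n t j : ℕ} {D : Finset (Fin (m + 1) → ℕ)}
    (hD : D ⊆ P (m + 1) (n - j) (t - (m + 1) * j)) :
    shf D ⊆ P (m + 1) (n - (j + 1)) (t - (m + 1) * (j + 1)) := by
  have h := shf_subset hD
  have h1 : n - j - 1 = n - (j + 1) := by omega
  have h2 : t - (m + 1) * j - (m + 1) = t - (m + 1) * (j + 1) := by
    rw [Nat.mul_succ]
    omega
  rwa [h1, h2] at h

theorem claim {m : ℕ} (hm : 2 ≤ m) {C₀ M δ ε' ρ s₁ s₂ : ℝ} (hC₀ : 0 < C₀) (hM : 0 ≤ M)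
    (hδ : 0 < δ) (hs₁ : 1 ≤ s₁) (hs₁' : 4 * (2 * (m : ℝ) + 3) ≤ s₁) (hs₂ : 1 ≤ s₂)
    (hs₂' : 2 * (2 * (m : ℝ) + 3) * M ≤ δ * s₂)
    (hρ : 4 * (2 * (m : ℝ) + 3) * C₀ * ρ ≤ 1)
    {n t : ℕ} {τ : ℝ} (hn : 1 ≤ n) (hτ : |τ| ≤ C₀ / n)
    (hfib : ∀ j : ℕ, (j : ℝ) < ε' * n → ∀ D ⊆ P m (n - j) (t - (m + 1) * j),
        df D ≤ τ * D.card + M / n) :
    ∀ (N : ℕ) (j : ℕ) (D : Finset (Fin (m + 1) → ℕ)), D.card ≤ N →
      D ⊆ P (m + 1) (n - j) (t - (m + 1) * j) →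
      (j : ℝ) + 2 * m * (2 * (m : ℝ) + 3) * rt m (D.card : ℝ) < ε' * n →
      rt m (D.card : ℝ) ≤ ρ * n →
      df D ≤ (τ + δ / n) * D.card + M / n * min (D.card : ℝ) (s₂ ^ m) + C₀ * s₁ ^ m / n := by
  have hnR : (0 : ℝ) < n := by exact_mod_cast hn
  have hb : (0 : ℝ) < 2 * (m : ℝ) + 3 := by positivity
  obtain ⟨hτ1, _⟩ := abs_le.1 hτ
  intro N
  induction N with
  | zero =>
    intro j D hN _ _ _
    have hD : D = ∅ := by
      rw [← Finset.card_eq_zero]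
      omega
    subst hD
    have h1 : df (∅ : Finset (Fin (m + 1) → ℕ)) = 0 := by
      unfold df
      rw [lo_empty]
      simp
    rw [h1, Finset.card_empty, Nat.cast_zero, mul_zero, min_eq_left (by positivity), mul_zero]
    positivity
  | succ N ih =>
    intro j D hN hD hj hρn
    have hD0 : (0 : ℝ) ≤ (D.card : ℝ) := Nat.cast_nonneg _
    have hr0 : 0 ≤ rt m (D.card : ℝ) := rt_nonneg m hD0
    have hrm : rt m (D.card : ℝ) ^ m = (D.card : ℝ) := rt_pow (by omega) hD0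
    by_cases hter : 2 * (fib D).card ≤ EE D + 1
    · obtain ⟨h1, h2⟩ := terminal hm hD hter
      have h3 : 0 ≤ M / n * min (D.card : ℝ) (s₂ ^ m) := by positivity
      have h4 : 0 ≤ δ / n * (D.card : ℝ) := by positivity
      have h5 : -(C₀ / n) * (D.card : ℝ) ≤ τ * D.card := by
        apply mul_le_mul_of_nonneg_right _ hD0
        linarith
      by_cases hS : (D.card : ℝ) ≤ s₁ ^ m
      · have h6 : C₀ / n * (D.card : ℝ) ≤ C₀ * s₁ ^ m / n := by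
          rw [div_mul_eq_mul_div]
          gcongr
        nlinarith
      · push Not at hS
        have h6 : s₁ ≤ rt m (D.card : ℝ) ^ (m - 1) := le_rt_pow hm hD0 hs₁ hS.le
        set R := rt m (D.card : ℝ) ^ (m - 1) with hR
        have h7 : (D.card : ℝ) = R * rt m (D.card : ℝ) := by
          rw [hR, ← pow_succ, ← hrm]
          congr 1
          · rw [hrm]
          · omega
        have hR0 : 0 ≤ R := pow_nonneg hr0 _
        have h8 : 1 - R / (2 * (2 * (m : ℝ) + 3)) ≤ -(R / (4 * (2 * (m : ℝ) + 3))) := by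
          have h9 : 1 ≤ R / (4 * (2 * (m : ℝ) + 3)) := by
            rw [le_div_iff₀ (by positivity)]
            linarith
          have h10 : R / (2 * (2 * (m : ℝ) + 3)) = 2 * (R / (4 * (2 * (m : ℝ) + 3))) := by
            field_simp
            ring
          rw [h10]
          linarith
        have h11 : C₀ / n * (D.card : ℝ) ≤ R / (4 * (2 * (m : ℝ) + 3)) := by
          rw [h7, div_mul_eq_mul_div, div_le_div_iff₀ hnR (by positivity)]
          have h12 : 4 * (2 * (m : ℝ) + 3) * C₀ * rt m (D.card : ℝ) ≤ n := by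
            have h13 : 4 * (2 * (m : ℝ) + 3) * C₀ * rt m (D.card : ℝ) ≤
                4 * (2 * (m : ℝ) + 3) * C₀ * (ρ * n) :=
              mul_le_mul_of_nonneg_left hρn (by positivity)
            nlinarith
          nlinarith
        have h14 : 0 ≤ C₀ * s₁ ^ m / n := by positivity
        nlinarith
    · push Not at hter
      obtain ⟨h1, h2, h3, h4⟩ := peel hm hD hter
      have hsub := shf_sub hD
      have hS0 : (0 : ℝ) ≤ ((shf D).card : ℝ) := Nat.cast_nonneg _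
      have hrS0 : 0 ≤ rt m ((shf D).card : ℝ) := rt_nonneg m hS0
      have hmR : (2 : ℝ) ≤ (m : ℝ) := by exact_mod_cast hm
      have hk : 0 < 2 * (m : ℝ) * (2 * (m : ℝ) + 3) := by positivity
      have hle : rt m ((shf D).card : ℝ) ≤ rt m (D.card : ℝ) := by
        by_contra hcon
        push Not at hcon
        nlinarith
      have hj1 : (j : ℝ) < ε' * n := by nlinarith
      have hi := ih (j + 1) (shf D) (by omega) hsub (by push_cast; linarith) (hle.trans hρn)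
      have hf := hfib j hj1 (fib D) (fib_subset hD)
      have hs := df_split hD
      have hc : ((fib D).card : ℝ) + ((shf D).card : ℝ) = (D.card : ℝ) := by
        exact_mod_cast card_split hD
      have hmain : M / n + M / n * min ((shf D).card : ℝ) (s₂ ^ m) ≤
          δ / n * ((fib D).card : ℝ) + M / n * min (D.card : ℝ) (s₂ ^ m) := by
        by_cases hS : s₂ ^ m ≤ (D.card : ℝ)
        · have h6 : s₂ ≤ rt m (D.card : ℝ) ^ (m - 1) := le_rt_pow hm hD0 hs₂ hS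
          have h7 : M ≤ δ * ((fib D).card : ℝ) := by
            have h8 : s₂ ≤ 2 * (2 * (m : ℝ) + 3) * ((fib D).card : ℝ) := by
              rw [div_le_iff₀ (by positivity)] at h2
              nlinarith
            have h9 : 2 * (2 * (m : ℝ) + 3) * M ≤
                2 * (2 * (m : ℝ) + 3) * (δ * ((fib D).card : ℝ)) := by
              calc 2 * (2 * (m : ℝ) + 3) * M ≤ δ * s₂ := hs₂'
                _ ≤ δ * (2 * (2 * (m : ℝ) + 3) * ((fib D).card : ℝ)) :=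
                    mul_le_mul_of_nonneg_left h8 hδ.le
                _ = 2 * (2 * (m : ℝ) + 3) * (δ * ((fib D).card : ℝ)) := by ring
            exact le_of_mul_le_mul_left h9 (by positivity)
          have h10 : M / n ≤ δ / n * ((fib D).card : ℝ) := by
            rw [div_mul_eq_mul_div]
            gcongr
          have h11 : min ((shf D).card : ℝ) (s₂ ^ m) ≤ min (D.card : ℝ) (s₂ ^ m) := by
            apply min_le_min_right
            exact_mod_cast h4.le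
          have h12 : M / n * min ((shf D).card : ℝ) (s₂ ^ m) ≤
              M / n * min (D.card : ℝ) (s₂ ^ m) :=
            mul_le_mul_of_nonneg_left h11 (by positivity)
          linarith
        · push Not at hS
          have h6 : min ((shf D).card : ℝ) (s₂ ^ m) ≤ (D.card : ℝ) - 1 := by
            refine (min_le_left _ _).trans ?_
            have : ((shf D).card : ℝ) + 1 ≤ (D.card : ℝ) := by exact_mod_cast h4
            linarith
          have h7 : min (D.card : ℝ) (s₂ ^ m) = (D.card : ℝ) := min_eq_left hS.le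
          have h8 : M / n * min ((shf D).card : ℝ) (s₂ ^ m) ≤ M / n * ((D.card : ℝ) - 1) :=
            mul_le_mul_of_nonneg_left h6 (by positivity)
          have h9 : 0 ≤ δ / n * ((fib D).card : ℝ) := by positivity
          rw [h7]
          nlinarith
      rw [← hc]
      rw [← hc] at hmain
      nlinarith

theorem claim0 {m : ℕ} (hm : 2 ≤ m) {ε' : ℝ} {n t : ℕ}
    (hfib : ∀ j : ℕ, (j : ℝ) < ε' * n → ∀ D ⊆ P m (n - j) (t - (m + 1) * j), df D ≤ 0) :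
    ∀ (N : ℕ) (j : ℕ) (D : Finset (Fin (m + 1) → ℕ)), D.card ≤ N →
      D ⊆ P (m + 1) (n - j) (t - (m + 1) * j) →
      (j : ℝ) + 2 * m * (2 * (m : ℝ) + 3) * rt m (D.card : ℝ) < ε' * n → df D ≤ 0 := by
  have hb : (0 : ℝ) < 2 * (m : ℝ) + 3 := by positivity
  intro N
  induction N with
  | zero =>
    intro j D hN _ _
    have hD : D = ∅ := by
      rw [← Finset.card_eq_zero]
      omega
    subst hD
    unfold df
    rw [lo_empty]
    simp
  | succ N ih =>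
    intro j D hN hD hj
    have hD0 : (0 : ℝ) ≤ (D.card : ℝ) := Nat.cast_nonneg _
    have hr0 : 0 ≤ rt m (D.card : ℝ) := rt_nonneg m hD0
    by_cases hter : 2 * (fib D).card ≤ EE D + 1
    · exact (terminal hm hD hter).1
    · push Not at hter
      obtain ⟨h1, _, h3, h4⟩ := peel hm hD hter
      have hmR : (2 : ℝ) ≤ (m : ℝ) := by exact_mod_cast hm
      have hk : 0 < 2 * (m : ℝ) * (2 * (m : ℝ) + 3) := by positivity
      have hj1 : (j : ℝ) < ε' * n := by nlinarith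
      have hi := ih (j + 1) (shf D) (by omega) (shf_sub hD) (by push_cast; linarith)
      have hf := hfib j hj1 (fib D) (fib_subset hD)
      have hs := df_split hD
      linarith

end StepAux

open StepAux

theorem step {m : ℕ} (hm : 2 ≤ m) (C₀ M δ ε' : ℝ) (hC₀ : 0 < C₀) (hM : 0 ≤ M) (hδ : 0 < δ)
    (hε' : 0 < ε') :
    ∃ ε₁ M' : ℝ, 0 < ε₁ ∧ 0 ≤ M' ∧ ∀ (n t : ℕ) (τ : ℝ), 1 ≤ n → |τ| ≤ C₀ / n →
      (∀ j : ℕ, (j : ℝ) < ε' * n → ∀ D ⊆ P m (n - j) (t - (m + 1) * j),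
        df D ≤ τ * D.card + M / n) →
      ∀ D ⊆ P (m + 1) n t, (D.card : ℝ) ≤ ε₁ * (n : ℝ) ^ m →
        df D ≤ (τ + δ / n) * D.card + M' / n := by
  have hb : (0 : ℝ) < 2 * (m : ℝ) + 3 := by positivity
  have hmR : (2 : ℝ) ≤ (m : ℝ) := by exact_mod_cast hm
  have hk : 0 < 2 * (m : ℝ) * (2 * (m : ℝ) + 3) := by positivity
  obtain ⟨ρ, hρ0, hρ1, hρ2⟩ : ∃ ρ : ℝ, 0 < ρ ∧ 4 * (2 * (m : ℝ) + 3) * C₀ * ρ ≤ 1 ∧
      2 * (m : ℝ) * (2 * (m : ℝ) + 3) * ρ ≤ ε' / 2 := by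
    refine ⟨min (1 / (4 * (2 * (m : ℝ) + 3) * C₀)) (ε' / 2 / (2 * (m : ℝ) * (2 * (m : ℝ) + 3))),
      by positivity, ?_, ?_⟩
    · calc 4 * (2 * (m : ℝ) + 3) * C₀ *
            min (1 / (4 * (2 * (m : ℝ) + 3) * C₀)) (ε' / 2 / (2 * (m : ℝ) * (2 * (m : ℝ) + 3)))
          ≤ 4 * (2 * (m : ℝ) + 3) * C₀ * (1 / (4 * (2 * (m : ℝ) + 3) * C₀)) :=
            mul_le_mul_of_nonneg_left (min_le_left _ _) (by positivity)
        _ = 1 := by
            have : 4 * (2 * (m : ℝ) + 3) * C₀ ≠ 0 := by positivity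
            field_simp
    · calc 2 * (m : ℝ) * (2 * (m : ℝ) + 3) *
            min (1 / (4 * (2 * (m : ℝ) + 3) * C₀)) (ε' / 2 / (2 * (m : ℝ) * (2 * (m : ℝ) + 3)))
          ≤ 2 * (m : ℝ) * (2 * (m : ℝ) + 3) * (ε' / 2 / (2 * (m : ℝ) * (2 * (m : ℝ) + 3))) :=
            mul_le_mul_of_nonneg_left (min_le_right _ _) (by positivity)
        _ = ε' / 2 := by
            have : 2 * (m : ℝ) * (2 * (m : ℝ) + 3) ≠ 0 := by positivity
            field_simp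
  obtain ⟨s₂, hs₂, hs₂'⟩ : ∃ s₂ : ℝ, 1 ≤ s₂ ∧ 2 * (2 * (m : ℝ) + 3) * M ≤ δ * s₂ := by
    refine ⟨1 + 2 * (2 * (m : ℝ) + 3) * M / δ, ?_, ?_⟩
    · have : 0 ≤ 2 * (2 * (m : ℝ) + 3) * M / δ := by positivity
      linarith
    · have h : δ * (1 + 2 * (2 * (m : ℝ) + 3) * M / δ) = δ + 2 * (2 * (m : ℝ) + 3) * M := by
        field_simp
      rw [h]
      linarith
  obtain ⟨s₁, hs₁, hs₁'⟩ : ∃ s₁ : ℝ, 1 ≤ s₁ ∧ 4 * (2 * (m : ℝ) + 3) ≤ s₁ :=
    ⟨4 * (2 * (m : ℝ) + 3), by linarith, le_rfl⟩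
  refine ⟨ρ ^ m, M * s₂ ^ m + C₀ * s₁ ^ m, by positivity, by positivity, ?_⟩
  intro n t τ hn hτ hfib D hD hcard
  have hnR : (0 : ℝ) < n := by exact_mod_cast hn
  have hD0 : (0 : ℝ) ≤ (D.card : ℝ) := Nat.cast_nonneg _
  have hr : rt m (D.card : ℝ) ≤ ρ * n := by
    apply rt_le (by omega) hD0 (by positivity)
    rw [mul_pow]
    exact hcard
  have h := claim hm hC₀ hM hδ hs₁ hs₁' hs₂ hs₂' hρ1 hn hτ hfib D.card 0 D le_rfl
    (by simpa using hD) (by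
      have h1 : 2 * (m : ℝ) * (2 * (m : ℝ) + 3) * rt m (D.card : ℝ) ≤
          2 * (m : ℝ) * (2 * (m : ℝ) + 3) * (ρ * n) := mul_le_mul_of_nonneg_left hr hk.le
      have h2 : 2 * (m : ℝ) * (2 * (m : ℝ) + 3) * (ρ * n) ≤ ε' / 2 * n := by nlinarith
      push_cast
      nlinarith) hr
  have h3 : M / n * min (D.card : ℝ) (s₂ ^ m) ≤ M * s₂ ^ m / n := by
    rw [div_mul_eq_mul_div]
    gcongr
    exact min_le_right _ _
  rw [add_div]
  linarith

theorem step0 {m : ℕ} (hm : 2 ≤ m) (ε' : ℝ) (hε' : 0 < ε') :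
    ∃ ε₁ : ℝ, 0 < ε₁ ∧ ∀ n t : ℕ, 1 ≤ n →
      (∀ j : ℕ, (j : ℝ) < ε' * n → ∀ D ⊆ P m (n - j) (t - (m + 1) * j), df D ≤ 0) →
      ∀ D ⊆ P (m + 1) n t, (D.card : ℝ) ≤ ε₁ * (n : ℝ) ^ m → df D ≤ 0 := by
  have hmR : (2 : ℝ) ≤ (m : ℝ) := by exact_mod_cast hm
  have hk : 0 < 2 * (m : ℝ) * (2 * (m : ℝ) + 3) := by positivity
  set ρ : ℝ := ε' / 2 / (2 * (m : ℝ) * (2 * (m : ℝ) + 3)) with hρ
  have hρ0 : 0 < ρ := by positivity
  have hρ2 : 2 * (m : ℝ) * (2 * (m : ℝ) + 3) * ρ = ε' / 2 := by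
    rw [hρ]
    have : 2 * (m : ℝ) * (2 * (m : ℝ) + 3) ≠ 0 := by positivity
    field_simp
  refine ⟨ρ ^ m, by positivity, ?_⟩
  intro n t hn hfib D hD hcard
  have hnR : (0 : ℝ) < n := by exact_mod_cast hn
  have hD0 : (0 : ℝ) ≤ (D.card : ℝ) := Nat.cast_nonneg _
  have hr : rt m (D.card : ℝ) ≤ ρ * n := by
    apply rt_le (by omega) hD0 (by positivity)
    rw [mul_pow]
    exact hcard
  refine claim0 hm hfib D.card 0 D le_rfl (by simpa using hD) ?_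
  have h1 : 2 * (m : ℝ) * (2 * (m : ℝ) + 3) * rt m (D.card : ℝ) ≤
      2 * (m : ℝ) * (2 * (m : ℝ) + 3) * (ρ * n) := mul_le_mul_of_nonneg_left hr hk.le
  have h2 : 2 * (m : ℝ) * (2 * (m : ℝ) + 3) * (ρ * n) = ε' / 2 * n := by
    rw [← mul_assoc, hρ2]
  push_cast
  nlinarith

theorem stepTop {m : ℕ} (hm : 2 ≤ m) (C₁ : ℝ) (hC₁ : 0 < C₁) :
    ∃ ε₁ M' : ℝ, 0 < ε₁ ∧ 0 ≤ M' ∧ ∀ n t : ℕ, 1 ≤ n → m * n < t →
      ∀ D ⊆ P (m + 1) n t, (D.card : ℝ) ≤ ε₁ * (n : ℝ) ^ m →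
        df D ≤ -(C₁ / n) * D.card + M' / n := by
  have hb : (0 : ℝ) < 2 * (m : ℝ) + 3 := by positivity
  have hmR : (2 : ℝ) ≤ (m : ℝ) := by exact_mod_cast hm
  set ρ : ℝ := 1 / (2 * (2 * (m : ℝ) + 3) * C₁) with hρ
  have hρ0 : 0 < ρ := by positivity
  have hρ1 : 2 * (2 * (m : ℝ) + 3) * C₁ * ρ = 1 := by
    rw [hρ]
    have : 2 * (2 * (m : ℝ) + 3) * C₁ ≠ 0 := by positivity
    field_simp
  set s : ℝ := 2 * (2 * (m : ℝ) + 3) with hs
  have hs1 : 1 ≤ s := by linarith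
  refine ⟨ρ ^ m, C₁ * s ^ m, by positivity, by positivity, ?_⟩
  intro n t hn ht D hD hcard
  have hnR : (0 : ℝ) < n := by exact_mod_cast hn
  have hD0 : (0 : ℝ) ≤ (D.card : ℝ) := Nat.cast_nonneg _
  have hr0 : 0 ≤ rt m (D.card : ℝ) := rt_nonneg m hD0
  have hrm : rt m (D.card : ℝ) ^ m = (D.card : ℝ) := rt_pow (by omega) hD0
  have hr : rt m (D.card : ℝ) ≤ ρ * n := by
    apply rt_le (by omega) hD0 (by positivity)
    rw [mul_pow]
    exact hcard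
  have hfe : fib D = ∅ := fib_empty hD ht
  have hdf : df D = -(EE D : ℝ) := by
    rw [df_formula hD, hfe, Finset.card_empty]
    simp
  have hE := lemE_real hm hD
  have hE0 : (0 : ℝ) ≤ (EE D : ℝ) := Nat.cast_nonneg _
  by_cases hS : (D.card : ℝ) ≤ s ^ m
  · have h6 : C₁ / n * (D.card : ℝ) ≤ C₁ * s ^ m / n := by
      rw [div_mul_eq_mul_div]
      gcongr
    rw [hdf]
    nlinarith
  · push Not at hS
    have h6 : s ≤ rt m (D.card : ℝ) ^ (m - 1) := le_rt_pow hm hD0 hs1 hS.le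
    set R := rt m (D.card : ℝ) ^ (m - 1) with hR
    have h7 : (D.card : ℝ) = R * rt m (D.card : ℝ) := by
      rw [hR, ← pow_succ, ← hrm]
      congr 1
      · rw [hrm]
      · omega
    have hR0 : 0 ≤ R := pow_nonneg hr0 _
    have h8 : R / s ≤ (EE D : ℝ) := by
      rw [div_le_iff₀ (by positivity)]
      rw [hs] at h6 ⊢
      nlinarith
    have h11 : C₁ / n * (D.card : ℝ) ≤ R / s := by
      rw [h7, div_mul_eq_mul_div, div_le_div_iff₀ hnR (by positivity)]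
      have h12 : s * C₁ * rt m (D.card : ℝ) ≤ n := by
        have h13 : s * C₁ * rt m (D.card : ℝ) ≤ s * C₁ * (ρ * n) :=
          mul_le_mul_of_nonneg_left hr (by positivity)
        have h14 : s * C₁ * (ρ * n) = n := by
          rw [← mul_assoc, hs, hρ1, one_mul]
        linarith
      nlinarith
    have h14 : 0 ≤ C₁ * s ^ m / n := by positivity
    rw [hdf]
    nlinarith

end Pool.Agent.Helper46.MR
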