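import Pool.Agent.Helper46.MR.Basic

set_option autoImplicit false

/-!
# MR-10 Sym: symmetrised sets and shadows

`sy n k A = {x ∈ Q m n k : some rearrangement of x is in A}`.

PROOF. Two monotone rearrangements of each other are equal. For `clo_sy`: if
`x + e_i = y`, `y ∘ s = d ∈ D` (monotone) then `x ∘ s = d - e_j` (`j = s⁻¹ i`, `0 < d_j`); let `j'` be
the smallest index with `d_{j'} = d_j`; `d - e_{j'}` is monotone, a rearrangement of `d - e_j`, and
is in `lo D`. Conversely if `x ∘ s = x' ∈ lo D`, `x' + e_j ∈ D`, then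
`x + e_{s j}` is a rearrangement of `x' + e_j`. For `cup_sy` use the largest index `j'` with
`a_{j'} = a_j` (and `a_j < n`).
`sy_compl`: every `x ∈ Q m n k` has exactly one monotone rearrangement, it is in `P m n k`.
-/

namespace Pool.Agent.Helper46.MR

open Finset Pool.Agent.Helper30.SC

variable {m n k : ℕ}

namespace SymAux

theorem mem_sy {A : Finset (Fin m → ℕ)} {x : Fin m → ℕ} :
    x ∈ sy n k A ↔ x ∈ Q m n k ∧ ∃ s : Equiv.Perm (Fin m), x ∘ s ∈ A := by
  classical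
  unfold sy
  rw [mem_filter]

theorem comp_mem_Q {x : Fin m → ℕ} (h : x ∈ Q m n k) (s : Equiv.Perm (Fin m)) :
    x ∘ s ∈ Q m n k := by
  obtain ⟨h1, h2⟩ := mem_Q.1 h
  refine mem_Q.2 ⟨fun i => h1 (s i), ?_⟩
  rw [← h2]
  exact Equiv.sum_comp s x

theorem comp_inv (x : Fin m → ℕ) (s : Equiv.Perm (Fin m)) :
    (x ∘ s) ∘ (s⁻¹ : Equiv.Perm (Fin m)) = x := by
  funext i
  simp

theorem comp_inv' (x : Fin m → ℕ) (s : Equiv.Perm (Fin m)) :
    (x ∘ (s⁻¹ : Equiv.Perm (Fin m))) ∘ s = x := by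
  funext i
  simp

theorem mem_Q_of_comp {x : Fin m → ℕ} (s : Equiv.Perm (Fin m)) (h : x ∘ s ∈ Q m n k) :
    x ∈ Q m n k := by
  have := comp_mem_Q h s⁻¹
  rwa [comp_inv] at this

theorem add_single_comp (x : Fin m → ℕ) (i : Fin m) (s : Equiv.Perm (Fin m)) :
    (x + Pi.single i 1 : Fin m → ℕ) ∘ s = x ∘ s + Pi.single (s⁻¹ i) 1 := by
  funext j
  simp only [Function.comp_apply, Pi.add_apply, Pi.single_apply]
  have : (s j = i) ↔ (j = s⁻¹ i) := by
    constructor
    · intro h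
      rw [← h]
      simp
    · intro h
      rw [h]
      simp
  simp only [this]

theorem mono_eq {x : Fin m → ℕ} {s t : Equiv.Perm (Fin m)} (hs : Monotone (x ∘ s))
    (ht : Monotone (x ∘ t)) : x ∘ s = x ∘ t := by
  rw [Tuple.comp_sort_eq_comp_iff_monotone.2 hs, Tuple.comp_sort_eq_comp_iff_monotone.2 ht]

theorem mono_eq_self {x : Fin m → ℕ} {s : Equiv.Perm (Fin m)} (hs : Monotone (x ∘ s))
    (hx : Monotone x) : x ∘ s = x := by
  have : Monotone (x ∘ (1 : Equiv.Perm (Fin m))) := by simpa using hx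
  have h := mono_eq hs this
  simpa using h

theorem comp_swap {a : Fin m → ℕ} {j j' : Fin m} (h : a j = a j') :
    a ∘ (Equiv.swap j j' : Equiv.Perm (Fin m)) = a := by
  funext i
  simp only [Function.comp_apply]
  by_cases h1 : i = j
  · subst h1
    rw [Equiv.swap_apply_left, h]
  · by_cases h2 : i = j'
    · subst h2
      rw [Equiv.swap_apply_right, h]
    · rw [Equiv.swap_apply_of_ne_of_ne h1 h2]

theorem exists_first (d : Fin m → ℕ) (j : Fin m) :
    ∃ j', d j' = d j ∧ ∀ a, a < j' → d a ≠ d j := by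
  classical
  obtain ⟨j', hj', hmin⟩ := exists_min_image (univ.filter fun a => d a = d j) (fun a => a)
    ⟨j, by simp⟩
  rw [mem_filter] at hj'
  refine ⟨j', hj'.2, fun a ha hd => ?_⟩
  have := hmin a (by rw [mem_filter]; exact ⟨mem_univ _, hd⟩)
  exact absurd ha (not_lt.2 this)

theorem exists_last (d : Fin m → ℕ) (j : Fin m) :
    ∃ j', d j' = d j ∧ ∀ a, j' < a → d a ≠ d j := by
  classical
  obtain ⟨j', hj', hmax⟩ := exists_max_image (univ.filter fun a => d a = d j) (fun a => a)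
    ⟨j, by simp⟩
  rw [mem_filter] at hj'
  refine ⟨j', hj'.2, fun a ha hd => ?_⟩
  have := hmax a (by rw [mem_filter]; exact ⟨mem_univ _, hd⟩)
  exact absurd ha (not_lt.2 this)

end SymAux

open SymAux

theorem sy_subset (A : Finset (Fin m → ℕ)) : sy n k A ⊆ Q m n k := by
  intro x hx
  exact (mem_sy.1 hx).1

theorem sy_inv (A : Finset (Fin m → ℕ)) {x : Fin m → ℕ} (hx : x ∈ sy n k A)
    (s : Equiv.Perm (Fin m)) : x ∘ s ∈ sy n k A := by
  obtain ⟨h1, t, ht⟩ := mem_sy.1 hx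
  refine mem_sy.2 ⟨comp_mem_Q h1 s, s⁻¹ * t, ?_⟩
  have : (x ∘ s) ∘ ((s⁻¹ * t : Equiv.Perm (Fin m)) : Fin m → Fin m) = x ∘ t := by
    funext i
    simp
  rw [this]
  exact ht

theorem sy_mono {A A' : Finset (Fin m → ℕ)} (h : A ⊆ A') : sy n k A ⊆ sy n k A' := by
  intro x hx
  obtain ⟨h1, t, ht⟩ := mem_sy.1 hx
  exact mem_sy.2 ⟨h1, t, h ht⟩

open Classical in
theorem sy_filter {A : Finset (Fin m → ℕ)} (hA : A ⊆ P m n k) :
    (sy n k A).filter (fun x => Monotone x) = A := by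
  ext x
  rw [mem_filter, mem_sy]
  constructor
  · rintro ⟨⟨_, s, hs⟩, hm⟩
    have := mono_eq_self (P_mono (hA hs)) hm
    rwa [this] at hs
  · intro hx
    refine ⟨⟨P_subset_Q (hA hx), 1, ?_⟩, P_mono (hA hx)⟩
    simpa using hx

theorem subset_sy {A : Finset (Fin m → ℕ)} (hA : A ⊆ P m n k) : A ⊆ sy n k A := by
  intro x hx
  refine mem_sy.2 ⟨P_subset_Q (hA hx), 1, ?_⟩
  simpa using hx

theorem clo_sy {D : Finset (Fin m → ℕ)} (hD : D ⊆ P m n (k + 1)) :
    clo (sy n (k + 1) D) = sy n k (lo D) := by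
  ext x
  constructor
  · intro hx
    have hxQ : x ∈ Q m n k := clo_subset (sy_subset D) hx
    obtain ⟨i, hi⟩ := mem_clo.1 hx
    obtain ⟨_, s, hs⟩ := mem_sy.1 hi
    rw [add_single_comp] at hs
    have hmono := P_mono (hD hs)
    obtain ⟨j', hj', hfirst⟩ := exists_first (x ∘ s + Pi.single (s⁻¹ i) 1) (s⁻¹ i)
    have hsw := comp_swap hj'.symm
    rw [add_single_comp] at hsw
    have hinv : (Equiv.swap (s⁻¹ i) j')⁻¹ (s⁻¹ i) = j' := by
      rw [Equiv.swap_inv, Equiv.swap_apply_left]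
    rw [hinv] at hsw
    refine mem_sy.2 ⟨hxQ, s * Equiv.swap (s⁻¹ i) j', mem_lo.2 ⟨?_, j', ?_⟩⟩
    · have hx' : x ∘ ((s * Equiv.swap (s⁻¹ i) j' : Equiv.Perm (Fin m)) : Fin m → Fin m) =
          (x ∘ s) ∘ (Equiv.swap (s⁻¹ i) j' : Equiv.Perm (Fin m)) := by
        funext a
        simp
      rw [hx']
      generalize (x ∘ s) ∘ (Equiv.swap (s⁻¹ i) j' : Equiv.Perm (Fin m)) = x' at hsw ⊢
      generalize x ∘ s + Pi.single (s⁻¹ i) 1 = d at hsw hmono hj' hfirst ⊢
      subst hsw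
      intro a b hab
      have h1 := hmono hab
      rw [add_single_apply, add_single_apply] at h1
      by_cases hb : b = j'
      · by_cases ha : a = j'
        · rw [ha, hb]
        · have h2 := hfirst a (lt_of_le_of_ne (hb ▸ hab) ha)
          rw [← hj', add_single_apply, add_single_apply] at h2
          rw [if_neg ha, if_pos hb] at h1
          rw [if_neg ha, if_pos rfl] at h2
          rw [hb] at h1 ⊢
          omega
      · rw [if_neg hb] at h1
        split_ifs at h1 <;> omega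
    · have hx' : x ∘ ((s * Equiv.swap (s⁻¹ i) j' : Equiv.Perm (Fin m)) : Fin m → Fin m) =
          (x ∘ s) ∘ (Equiv.swap (s⁻¹ i) j' : Equiv.Perm (Fin m)) := by
        funext a
        simp
      rw [hx', hsw]
      exact hs
  · intro hx
    obtain ⟨hxQ, s, hs⟩ := mem_sy.1 hx
    obtain ⟨_, j, hj⟩ := mem_lo.1 hs
    have hy : (x + Pi.single (s j) 1 : Fin m → ℕ) ∘ s = x ∘ s + Pi.single j 1 := by
      rw [add_single_comp]
      simp
    refine mem_clo.2 ⟨s j, mem_sy.2 ⟨?_, s, by rw [hy]; exact hj⟩⟩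
    apply mem_Q_of_comp s
    rw [hy]
    exact P_subset_Q (hD hj)

theorem cup_sy {A : Finset (Fin m → ℕ)} (hA : A ⊆ P m n k) :
    cup n (sy n k A) = sy n (k + 1) (up n A) := by
  ext y
  constructor
  · intro hy
    have hyQ : y ∈ Q m n (k + 1) := cup_subset (sy_subset A) hy
    obtain ⟨x, hx, i, hi, rfl⟩ := mem_cup.1 hy
    obtain ⟨_, s, hs⟩ := mem_sy.1 hx
    have hmono := P_mono (hA hs)
    obtain ⟨j', hj', hlast⟩ := exists_last (x ∘ s) (s⁻¹ i)
    have hsw := comp_swap hj'.symm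
    have hinv : (Equiv.swap (s⁻¹ i) j')⁻¹ (s⁻¹ i) = j' := by
      rw [Equiv.swap_inv, Equiv.swap_apply_left]
    have hmain : (x + Pi.single i 1 : Fin m → ℕ) ∘
        ((s * Equiv.swap (s⁻¹ i) j' : Equiv.Perm (Fin m)) : Fin m → Fin m) =
        x ∘ s + Pi.single j' 1 := by
      have h1 : (x + Pi.single i 1 : Fin m → ℕ) ∘
          ((s * Equiv.swap (s⁻¹ i) j' : Equiv.Perm (Fin m)) : Fin m → Fin m) =
          ((x + Pi.single i 1 : Fin m → ℕ) ∘ s) ∘
            (Equiv.swap (s⁻¹ i) j' : Equiv.Perm (Fin m)) := by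
        funext a
        simp
      rw [h1, add_single_comp, add_single_comp, hinv, hsw]
    have hlt : (x ∘ s) j' < n := by
      rw [hj']
      simpa using hi
    refine mem_sy.2 ⟨hyQ, s * Equiv.swap (s⁻¹ i) j', ?_⟩
    rw [hmain]
    refine mem_up.2 ⟨?_, x ∘ s, hs, j', hlt, rfl⟩
    intro a b hab
    have h1 := hmono hab
    rw [add_single_apply, add_single_apply]
    by_cases ha : a = j'
    · by_cases hb : b = j'
      · rw [ha, hb]
      · have h2 := hlast b (lt_of_le_of_ne (ha ▸ hab) (Ne.symm hb))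
        rw [← hj'] at h2
        rw [if_pos ha, if_neg hb]
        rw [ha] at h1 ⊢
        omega
    · rw [if_neg ha]
      split_ifs <;> omega
  · intro hy
    obtain ⟨hyQ, s, hs⟩ := mem_sy.1 hy
    obtain ⟨_, x', hx', i, hi, he⟩ := mem_up.1 hs
    have hcs : (x' ∘ (s⁻¹ : Equiv.Perm (Fin m))) ∘ s = x' := comp_inv' x' s
    refine mem_cup.2 ⟨x' ∘ (s⁻¹ : Equiv.Perm (Fin m)), mem_sy.2 ⟨?_, s, ?_⟩, s i, ?_, ?_⟩
    · exact comp_mem_Q (P_subset_Q (hA hx')) _
    · rw [hcs]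
      exact hx'
    · simpa using hi
    · have h2 : (x' ∘ (s⁻¹ : Equiv.Perm (Fin m)) + Pi.single (s i) 1 : Fin m → ℕ) ∘ s =
          y ∘ s := by
        rw [add_single_comp, hcs, he]
        simp
      have h3 := congrArg (fun z : Fin m → ℕ => z ∘ (s⁻¹ : Equiv.Perm (Fin m))) h2
      simp only [comp_inv] at h3
      exact h3.symm

theorem sy_P : sy n k (P m n k) = Q m n k := by
  ext x
  constructor
  · intro hx
    exact sy_subset _ hx
  · intro hx
    refine mem_sy.2 ⟨hx, Tuple.sort x, ?_⟩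
    obtain ⟨h1, h2⟩ := mem_Q.1 (comp_mem_Q hx (Tuple.sort x))
    exact mem_P.2 ⟨Tuple.monotone_sort x, h1, h2⟩

theorem sy_compl {A : Finset (Fin m → ℕ)} (hA : A ⊆ P m n k) :
    sy n k (P m n k \ A) = Q m n k \ sy n k A := by
  ext x
  rw [mem_sdiff, mem_sy]
  constructor
  · rintro ⟨hxQ, s, hs⟩
    rw [mem_sdiff] at hs
    refine ⟨hxQ, fun hx => ?_⟩
    obtain ⟨_, t, ht⟩ := mem_sy.1 hx
    rw [mono_eq (P_mono (hA ht)) (P_mono hs.1)] at ht
    exact hs.2 ht
  · rintro ⟨hxQ, hx⟩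
    refine ⟨hxQ, Tuple.sort x, ?_⟩
    rw [mem_sdiff]
    obtain ⟨h1, h2⟩ := mem_Q.1 (comp_mem_Q hxQ (Tuple.sort x))
    exact ⟨mem_P.2 ⟨Tuple.monotone_sort x, h1, h2⟩, fun h => hx (mem_sy.2 ⟨hxQ, _, h⟩)⟩

end Pool.Agent.Helper46.MR
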